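import Pool.Agent.MP_8a92de_lc.Mg.H86_Ramsey

/-! A polynomial map of bounded degree over the field with two elements that restricts to the
identity on some subcube of every large subcube. -/

namespace Pool.Agent.MP_8a92de_lc.H86

open Finset Function

variable {ι ν μ : Type}

theorem tf_decide (a : ZMod 2) : tf (ZMod 2) (decide (a = 1)) = a := by
  revert a
  decide

/-- The block cube spanned by the vectors `v j`. -/
def blk (v : ν → μ → Bool) (x : ν → Bool) (q : ν × μ) : Bool := x q.1 && v q.1 q.2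

theorem isProj_blk (v : ν → μ → Bool) : IsProj (blk v) := by
  intro q
  cases e : v q.1 q.2
  · exact Or.inl ⟨false, fun y => by simp [blk, e]⟩
  · exact Or.inr ⟨q.1, false, fun y => by simp [blk, e]⟩

variable [DecidableEq ν]

theorem isProj_update (j : ν) (b : Bool) : IsProj fun x : ν → Bool => update x j b := by
  intro i
  by_cases h : i = j
  · exact Or.inl ⟨b, fun y => by simp [h]⟩
  · exact Or.inr ⟨i, false, fun y => by simp [h]⟩

theorem isProj_blk_update (v : ν → μ → Bool) (j : ν) (x : ν → Bool) :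
    IsProj fun u : μ → Bool => blk (update v j u) x := by
  intro q
  cases e : x q.1
  · exact Or.inl ⟨false, fun y => by simp [blk, e]⟩
  · by_cases h : q.1 = j
    · exact Or.inr ⟨q.2, false, fun y => by simp [blk, h ▸ e, h]⟩
    · exact Or.inl ⟨v q.1 q.2, fun y => by simp [blk, e, h]⟩

/-- The difference of `Q` in direction `u` placed in block `j`. -/
def dif (Q : ν → (ν × μ → Bool) → ZMod 2) (v : ν → μ → Bool) (j : ν) (u : μ → Bool)
    (x : ν → Bool) (o : ν) : ZMod 2 :=
  Q o (blk (update v j u) (update x j true)) - Q o (blk v (update x j false))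

variable [Fintype ν]

/-- Directions along which only output `j` changes, by a constant. -/
def Zs (e : ℕ) (Q : ν → (ν × μ → Bool) → ZMod 2) (v : ν → μ → Bool) (j : ν) : Set (μ → Bool) :=
  {u | ∀ x ∈ ball ν e, ∀ o, dif Q v j u x o = if o = j then dif Q v j u (fun _ => false) j else 0}

/-- No such direction changes output `j`. -/
def Bad (e : ℕ) (Q : ν → (ν × μ → Bool) → ZMod 2) (v : ν → μ → Bool) (j : ν) : Prop :=
  ∀ u ∈ Zs e Q v j, dif Q v j u (fun _ => false) j = 0

theorem of_not_bad {e : ℕ} {Q : ν → (ν × μ → Bool) → ZMod 2} (hQ : ∀ o, Q o ∈ Deg (ZMod 2) _ e)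
    (h : ∀ v j, ¬Bad e Q v j) :
    ∃ η : (ν → Bool) → ν × μ → Bool, IsProj η ∧ ∀ x o, Q o (η x) = tf (ZMod 2) (x o) := by
  have key : ∀ I : Finset ν, ∃ v : ν → μ → Bool, ∀ x : ν → Bool, (∀ i ∉ I, x i = false) →
      ∀ o, Q o (blk v x) = Q o (fun _ => false) + tf (ZMod 2) (x o) := by
    intro I
    induction I using Finset.induction_on with
    | empty =>
      refine ⟨fun _ _ => false, fun x hx o => ?_⟩
      rw [hx o (by simp), tf_false, add_zero]
      congr 1
      ext q
      simp [blk]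
    | insert j I hj ih =>
      obtain ⟨v, hv⟩ := ih
      have h1 := h v j
      unfold Bad at h1
      push Not at h1
      obtain ⟨u, hu, h1⟩ := h1
      have h2 : dif Q v j u (fun _ => false) j = 1 := by
        generalize dif Q v j u (fun _ => false) j = a at h1
        revert a
        decide
      refine ⟨update v j u, fun x hx o => ?_⟩
      have h3 := hv (update x j false) (fun i hi => by
        by_cases e : i = j
        · rw [e, update_self]
        · rw [update_of_ne e, hx i (by simp [e, hi])]) o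
      cases e : x j
      · rw [update_eq_self_iff.2 e.symm] at h3
        rw [← h3]
        congr 1
        ext q
        by_cases e2 : q.1 = j
        · simp [blk, e2, e]
        · simp [blk, e2]
      · have h4 := Deg.eq_zero (f := fun x => dif Q v j u x o - if o = j then 1 else 0)
          (Deg.sub' (Deg.sub' (Deg.proj ((isProj_blk _).comp (isProj_update j true)) (hQ o))
            (Deg.proj ((isProj_blk _).comp (isProj_update j false)) (hQ o))) (Deg.const _ _))
          (fun z hz => by rw [hu z hz o, h2, sub_self]) x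
        rw [dif, h3, ← e, update_eq_self, sub_sub, sub_eq_zero] at h4
        rw [h4, add_assoc]
        by_cases e2 : o = j
        · simp [e2, e]
        · simp [e2]
  obtain ⟨v, hv⟩ := key univ
  refine ⟨fun x => blk v fun o => xor (decide (Q o (fun _ => false) = 1)) (x o),
    (isProj_blk v).comp fun o => Or.inr ⟨o, _, fun _ => rfl⟩, fun x o => ?_⟩
  rw [hv _ (by simp)]
  generalize Q o (fun _ => false) = a
  generalize x o = b
  revert a b
  decide

variable [Fintype μ] [DecidableEq μ]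

theorem shatter_Zs {e s : ℕ} {Q : ν → (ν × μ → Bool) → ZMod 2} (hQ : ∀ o, Q o ∈ Deg (ZMod 2) _ e)
    (hs : (Fintype.card ν + 1) ^ e * Fintype.card ν * e + e * s ≤ Fintype.card μ)
    (v : ν → μ → Bool) (j : ν) : ∃ w : Fin e × Fin s → μ, Injective w ∧
      ∀ a : μ → Bool, ∃ u ∈ Zs e Q v j, ∀ q, u (w q) = a (w q) := by
  have h1 : ∀ x o, (fun u => dif Q v j u x o) ∈ Deg (ZMod 2) μ e := fun x o =>
    Deg.sub' (Deg.proj (isProj_blk_update v j _) (hQ o)) (Deg.const _ _)
  have h2 := Deg.prod (s := ball ν e ×ˢ (univ : Finset ν)) (a := e) (f := fun q u => 1 -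
    (dif Q v j u q.1 q.2 - if q.2 = j then dif Q v j u (fun _ => false) j else 0)) fun q _ => by
      refine Deg.sub' (Deg.const _ _) (Deg.sub' (h1 _ _) ?_)
      by_cases h : q.2 = j
      · simpa only [if_pos h] using h1 _ _
      · simpa only [if_neg h] using Deg.const _ _
  have h3 : ∀ x o, dif Q v j (fun _ => false) x o = 0 := by
    intro x o
    refine sub_eq_zero.2 (congrArg _ ?_)
    ext q
    by_cases h : q.1 = j <;> simp [blk, h]
  obtain ⟨S, h4, h5⟩ := Deg.shatter h2 ⟨fun _ => false, by simp [h3]⟩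
  obtain ⟨w⟩ := Function.Embedding.nonempty_of_card_le (α := Fin e × Fin s) (β := ↥Sᶜ) (by
    rw [Fintype.card_coe, card_compl, Fintype.card_prod, Fintype.card_fin, Fintype.card_fin]
    rw [card_product, card_univ] at h4
    have := Nat.mul_le_mul_right e (Nat.mul_le_mul_right (Fintype.card ν) (card_ball ν e))
    omega)
  refine ⟨fun q => (w q).1, Subtype.val_injective.comp w.injective, fun a => ?_⟩
  obtain ⟨u, h6, h7⟩ := h5 a
  refine ⟨u, fun x hx o => sub_eq_zero.1 ?_, fun q => h7 _ (mem_compl.1 (w q).2)⟩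
  have h8 := prod_ne_zero_iff.1 h6 (x, o) (mem_product.2 ⟨hx, mem_univ _⟩)
  simp only at h8
  generalize (dif Q v j u x o - if o = j then dif Q v j u (fun _ => false) j else 0) = a at h8
  revert a
  decide

theorem pr_bad [Fintype ι] {e s : ℕ} (he : 0 < e) [Fintype (ν → Deg (ZMod 2) ι e)]
    (hs : (Fintype.card ν + 1) ^ e * Fintype.card ν * e + e * s ≤ Fintype.card μ)
    {γ : (ν × μ → Bool) → ι → Bool} (hγ : IsProj γ) (hi : Injective γ) (v : ν → μ → Bool) (j : ν) :
    pr (fun P : ν → Deg (ZMod 2) ι e => Bad e (fun o z => (P o).1 (γ z)) v j) ≤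
      1 / 2 ^ s ^ e := by
  classical
  obtain ⟨π, hπ, hπ'⟩ := hγ.inv hi
  let Z : (ν → Deg (ZMod 2) ι e) → Set (μ → Bool) := fun P => Zs e (fun o z => (P o).1 (γ z)) v j
  have hZ : ∀ P, ∃ w : Fin e × Fin s → μ, Injective w ∧
      ∀ a : μ → Bool, ∃ u ∈ Z P, ∀ q, u (w q) = a (w q) := fun P =>
    shatter_Zs (fun o => Deg.proj hγ (P o).2) hs v j
  have h1 : ∀ Y : Set (μ → Bool), ∃ w : Fin e × Fin s → μ, (∃ P, Z P = Y) → Injective w ∧
      ∀ a : μ → Bool, ∃ u ∈ Y, ∀ q, u (w q) = a (w q) := by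
    intro Y
    by_cases h : ∃ P, Z P = Y
    · obtain ⟨P, rfl⟩ := h
      exact (hZ P).imp fun _ h _ => h
    · exact (hZ 0).imp fun _ _ h' => absurd h' h
  choose w hw using h1
  let R : Set (μ → Bool) → ((Fin e → Fin s) → ZMod 2) → (μ → Bool) → ZMod 2 := fun Y r u =>
    ∑ g, r g * ∏ a, tf (ZMod 2) (u (w Y (a, g a)))
  have hR : ∀ Y r, R Y r ∈ Deg (ZMod 2) μ e := fun Y r => Deg.sum' fun g _ => by
    simpa using Deg.mul (Deg.const 0 (r g))
      (Deg.prod (s := univ) fun a _ => Deg.var (F := ZMod 2) (w Y (a, g a)))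
  have hR0 : ∀ Y r, R Y r (fun _ => false) = 0 := fun Y r => sum_eq_zero fun g _ => by
    rw [prod_eq_zero (mem_univ ⟨0, he⟩) tf_false, mul_zero]
  have hπj : IsProj fun z l => π z (j, l) := fun l => hπ (j, l)
  let Φ : ((Fin e → Fin s) → ZMod 2) → (ν → Deg (ZMod 2) ι e) → ν → Deg (ZMod 2) ι e :=
    fun r P => P + Pi.single j ⟨_, Deg.proj hπj (hR (Z P) r)⟩
  have hd : ∀ r P u x o, dif (fun o z => (Φ r P o).1 (γ z)) v j u x o =
      dif (fun o z => (P o).1 (γ z)) v j u x o + if o = j then R (Z P) r u else 0 := by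
    intro r P u x o
    by_cases h : o = j
    · subst h
      simp only [dif, Φ, Pi.add_apply, Pi.single_eq_same, Submodule.coe_add, hπ', blk,
        update_self, Bool.true_and, Bool.false_and, hR0, if_true]
      ring
    · simp [dif, Φ, h]
  have hZΦ : ∀ r P, Z (Φ r P) = Z P := by
    intro r P
    ext u
    refine forall₂_congr fun x _ => forall_congr' fun o => ?_
    rw [hd, hd]
    by_cases h : o = j <;> simp [h]
  have hinv : ∀ r, Involutive (Φ r) := by
    intro r P
    simp only [Φ] at hZΦ ⊢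
    simp only [hZΦ]
    rw [add_assoc, ← Pi.single_add]
    refine add_eq_left.2 (Pi.single_eq_zero_iff.2 ?_)
    ext z
    exact CharTwo.add_self_eq_zero _
  rw [← av_const (X := (Fin e → Fin s) → ZMod 2) (pr _)]
  have h2 : ∀ r, pr (fun P : ν → Deg (ZMod 2) ι e => Bad e (fun o z => (P o).1 (γ z)) v j) =
      av fun P => ind (Bad e (fun o z => (Φ r P o).1 (γ z)) v j) := fun r =>
    (av_equiv (hinv r).toPerm _).symm
  rw [funext h2, av_comm, ← av_const (X := ν → Deg (ZMod 2) ι e) (1 / 2 ^ s ^ e)]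
  refine av_mono fun P => ?_
  change pr _ ≤ _
  rw [pr_eq, Fintype.card_fun, Fintype.card_fun, ZMod.card, Fintype.card_fin, Fintype.card_fin]
  push_cast
  gcongr
  refine Nat.cast_le_one.2 (card_le_one.2 fun r hr r' hr' => ?_)
  obtain ⟨h3, h4⟩ := hw (Z P) ⟨P, rfl⟩
  ext g
  obtain ⟨u, h5, h6⟩ := h4 fun l => decide (∃ a, w (Z P) (a, g a) = l)
  have h7 : ∀ r, R (Z P) r u = r g := by
    intro r
    simp only [R, h6, h3.eq_iff]
    rw [sum_eq_single g]
    · rw [prod_eq_one fun a _ => by simp, mul_one]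
    · intro g' _ hg
      obtain ⟨a, ha⟩ := Function.ne_iff.1 hg
      rw [prod_eq_zero (mem_univ a) (by simp [ha.symm]), mul_zero]
    · simp
  have h8 := (mem_filter.1 hr).2 u (by change u ∈ Z _; rwa [hZΦ])
  have h9 := (mem_filter.1 hr').2 u (by change u ∈ Z _; rwa [hZΦ])
  rw [hd, if_pos rfl, h7] at h8 h9
  exact add_left_cancel (h8.trans h9.symm)

theorem decoder_core [Fintype ι] {e s : ℕ} (he : 0 < e)
    (hs : (Fintype.card ν + 1) ^ e * Fintype.card ν * e + e * s ≤ Fintype.card μ)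
    (hc : ((Fintype.card ν * Fintype.card μ + 1) * 2) ^ Fintype.card ι *
      (Fintype.card ν * 2 ^ (Fintype.card ν * Fintype.card μ)) * 2 ≤ 2 ^ s ^ e) :
    ∃ P : (ι → Bool) → ν → Bool, BDeg (ZMod 2) e P ∧ ∀ γ : (ν × μ → Bool) → ι → Bool,
      IsProj γ → Injective γ → ∃ η, IsProj η ∧ ∀ x, P (γ (η x)) = x := by
  classical
  have : Fintype (ν → Deg (ZMod 2) ι e) := Fintype.ofFinite _
  let G : (ι → Option (ν × μ) × Bool) → (ν × μ → Bool) → ι → Bool := fun c y i =>
    xor (c i).2 ((c i).1.elim false y)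
  have hG : ∀ c, IsProj (G c) := by
    intro c i
    cases h : (c i).1 with
    | none => exact Or.inl ⟨(c i).2, fun y => by simp [G, h]⟩
    | some q => exact Or.inr ⟨q, (c i).2, fun y => by simp [G, h]⟩
  obtain ⟨P, hP⟩ := exists_avoid (X := ν → Deg (ZMod 2) ι e)
    (univ.filter fun c : (ι → Option (ν × μ) × Bool) × ν × (ν → μ → Bool) => Injective (G c.1))
    (fun c P => Bad e (fun o z => (P o).1 (G c.1 z)) c.2.2 c.2.1) (z := 2 / 2 ^ s ^ e)
    (fun c hc => (pr_bad he hs (hG _) (mem_filter.1 hc).2 _ _).trans_lt (by gcongr; norm_num)) (by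
      rw [← mul_div_assoc, div_le_one (by positivity)]
      have h1 := (card_filter_le univ fun c : (ι → Option (ν × μ) × Bool) × ν × (ν → μ → Bool) =>
        Injective (G c.1)).trans (le_of_eq card_univ)
      simp only [Fintype.card_prod, Fintype.card_fun, Fintype.card_option, Fintype.card_bool,
        ← pow_mul, mul_comm (Fintype.card μ)] at h1
      exact_mod_cast (Nat.mul_le_mul_right 2 h1).trans hc)
  refine ⟨fun z o => decide ((P o).1 z = 1), fun o => by simpa only [tf_decide] using (P o).2,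
    fun γ h1 h2 => ?_⟩
  have h3 : ∀ i, ∃ c : Option (ν × μ) × Bool, ∀ y, γ y i = xor c.2 (c.1.elim false y) := by
    intro i
    rcases h1 i with ⟨b, hb⟩ | ⟨q, b, hb⟩
    · exact ⟨(none, b), fun y => by simp [hb]⟩
    · exact ⟨(some q, b), fun y => by simp [hb]⟩
  choose c hc using h3
  obtain rfl : γ = G c := by
    ext y i
    exact hc i y
  obtain ⟨η, h4, h5⟩ := of_not_bad (fun o => Deg.proj h1 (P o).2) fun v j =>
    hP (c, j, v) (mem_filter.2 ⟨mem_univ _, h2⟩)
  refine ⟨η, h4, fun x => ?_⟩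
  ext o
  simp [h5, tf_eq_one]

theorem decoder {N : ℕ → ℕ} (hN : Pb N) : ∃ (e : ℕ) (K : ℕ → ℕ), Pb K ∧ ∀ n, n ≤ K n ∧
    ∃ P : (Fin (N (K n)) → Bool) → Fin n → Bool, BDeg (ZMod 2) e P ∧
      ∀ γ : (Fin (K n) → Bool) → Fin (N (K n)) → Bool, IsProj γ → Injective γ →
        ∃ η, IsProj η ∧ ∀ x, P (γ (η x)) = x := by
  obtain ⟨D, hD⟩ := hN
  let e := 3 * D + 4
  let s : ℕ → ℕ := fun n => (n + 1) ^ e * n * e + n + e + 3
  refine ⟨e, fun n => n * ((e + 1) * s n), by fun_prop, fun n => ?_⟩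
  have h1 : (n + 1) ^ e * n * e ≤ s n ∧ n ≤ s n ∧ e + 3 ≤ s n := by
    simp only [s]
    omega
  beta_reduce
  generalize s n = t at h1
  have h2 : n ≤ n * ((e + 1) * t) := Nat.le_mul_of_pos_right _ (Nat.mul_pos (by omega) (by omega))
  refine ⟨h2, ?_⟩
  obtain ⟨P, h3, h4⟩ := decoder_core (ι := Fin (N (n * ((e + 1) * t)))) (ν := Fin n)
    (μ := Fin ((e + 1) * t)) (e := e) (s := t) (by omega) (by
      simp only [Fintype.card_fin]
      nlinarith [h1.1]) (by
      simp only [Fintype.card_fin]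
      generalize hk : n * ((e + 1) * t) = k at h2
      have h3 : k + 2 ≤ t ^ 3 := by
        have h4 : k ≤ t * ((e + 1) * t) := hk ▸ Nat.mul_le_mul_right _ h1.2.1
        have h5 : t * t * (e + 3) ≤ t * t * t := Nat.mul_le_mul_left _ h1.2.2
        have h6 : 1 ≤ t * t := Nat.mul_pos (by omega) (by omega)
        nlinarith
      have h4 : N k ≤ t ^ (3 * D) := by
        rw [pow_mul]
        exact (hD k).trans (Nat.pow_le_pow_left h3 _)
      have h5 : 1 ≤ t ^ (3 * D) := Nat.one_le_pow _ _ (by omega)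
      calc _ ≤ (2 ^ ((k + 1) * 2)) ^ N k * (2 ^ n * 2 ^ k) * 2 ^ 1 := by
            gcongr
            · exact Nat.lt_two_pow_self.le
            · exact Nat.lt_two_pow_self.le
            · norm_num
        _ = 2 ^ ((k + 1) * 2 * N k + (n + k) + 1) := by rw [← pow_mul, ← pow_add, ← pow_add, ← pow_add]
        _ ≤ _ := by
          refine Nat.pow_le_pow_right two_pos ?_
          have h6 : t ^ e = t ^ (3 * D) * t ^ 3 * t := by simp only [e]; ring
          have h7 : (k + 1) * 2 * N k ≤ t ^ 3 * 2 * t ^ (3 * D) := by gcongr; omega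
          have h8 : t ^ 3 ≤ t ^ (3 * D) * t ^ 3 := Nat.le_mul_of_pos_left _ h5
          have h9 : t ^ (3 * D) * t ^ 3 * 4 ≤ t ^ (3 * D) * t ^ 3 * t :=
            Nat.mul_le_mul_left _ (by omega)
          rw [h6]
          nlinarith)
  refine ⟨P, h3, fun γ h5 h6 => ?_⟩
  have h7 : IsProj fun (y : Fin n × Fin ((e + 1) * t) → Bool) i => y (finProdFinEquiv.symm i) :=
    fun i => Or.inr ⟨_, false, fun _ => (Bool.false_xor _).symm⟩
  obtain ⟨η, h8, h9⟩ := h4 _ (h5.comp h7) fun x y hxy => by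
    ext q
    simpa using congrFun (h6 hxy) (finProdFinEquiv q)
  exact ⟨_, h7.comp h8, h9⟩

end Pool.Agent.MP_8a92de_lc.H86
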