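import Pool.Agent.MP_8a92de_lc.Mg.H86_CB
import Pool.Agent.MP_8a92de_lc.Mg.H86_Decoder
import Pool.Agent.Lib.Cx.All

/-! The encoded language, and the nice reduction obtained from a reduction of it. -/

namespace Pool.Agent.MP_8a92de_lc.H86

open Finset Function H92 Pool.Agent.Lib.Cx

/-- Length of the initial block of ones. -/
def pn (w : List Bool) : ℕ := w.idxOf false

/-- The word after the initial block of ones and the first zero. -/
def tl (w : List Bool) : List Bool := w.drop (pn w + 1)

/-- Value of the polynomial map written in the word `r` at the point written in `r`. -/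
def val (m N L : ℕ) (r : List Bool) : List Bool :=
  (List.range m).map fun o => decide (Odd ((List.range L).countP fun l =>
    r.getD (N + (l * (N + m) + (N + o))) false &&
      (List.range N).all fun i => !r.getD (N + (l * (N + m) + i)) false || r.getD i false))

/-- The decoding map. -/
def U (w : List Bool) : List Bool := val (pn w) (pn (tl w)) (pn (tl (tl w))) (tl (tl (tl w)))

theorem pn_eq (n : ℕ) (l : List Bool) : pn (List.replicate n true ++ false :: l) = n := by
  induction n with
  | zero => simp [pn]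
  | succ n ih => simpa [pn, List.replicate_succ, List.idxOf_cons] using ih

theorem tl_eq (n : ℕ) (l : List Bool) : tl (List.replicate n true ++ false :: l) = l := by
  rw [tl, pn_eq]
  induction n with
  | zero => simp
  | succ n ih => simpa [List.replicate_succ] using ih

@[fun_prop] theorem pn_pt {α : Type} [Enc α] {f : α → List Bool} (hf : PT f) :
    PT fun x => pn (f x) := by unfold pn; fun_prop

@[fun_prop] theorem pn_pb {α : Type} [Enc α] {f : α → List Bool} (hf : PT f) :
    PB fun x => pn (f x) := (PB.length hf).mono fun _ => List.idxOf_le_length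

@[fun_prop] theorem tl_pt {α : Type} [Enc α] {f : α → List Bool} (hf : PT f) :
    PT fun x => tl (f x) := by unfold tl; fun_prop

theorem U_pt : PT fun w => tl (U w) := by unfold U val; fun_prop

theorem isProj_append (n : ℕ) (a b : List Bool) :
    IsProj fun (y : Fin n → Bool) j => (a ++ (List.ofFn y ++ b)).getD j false := by
  intro j
  by_cases h : j < a.length
  · exact Or.inl ⟨a.getD j false, fun y => List.getD_append _ _ _ _ h⟩
  · by_cases h2 : j - a.length < n
    · refine Or.inr ⟨⟨_, h2⟩, false, fun y => ?_⟩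
      beta_reduce
      rw [List.getD_append_right _ _ _ _ (by omega), List.getD_append _ _ _ _ (by simpa using h2),
        getD_ofFn, dif_pos h2, Bool.false_xor]
    · refine Or.inl ⟨b.getD (j - a.length - n) false, fun y => ?_⟩
      beta_reduce
      rw [List.getD_append_right _ _ _ _ (by omega),
        List.getD_append_right _ _ _ _ (by simpa using h2), List.length_ofFn]

theorem exists_enc {e N m : ℕ} {P : (Fin N → Bool) → Fin m → Bool} (hP : BDeg (ZMod 2) e P) :
    ∃ a b : List Bool, a.length + b.length ≤ (N + 1) ^ e * (N + m + 1) + N + m + 3 ∧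
      ∀ z, U (a ++ (List.ofFn z ++ b)) = List.ofFn (P z) := by
  classical
  obtain ⟨c, h1, h2⟩ := hP.coeff
  let T := univ.filter fun S : Finset (Fin N) => S.card ≤ e
  let row : ℕ → ℕ → Bool := fun l i => decide (∃ h : l < T.card,
    (∃ t ∈ (T.equivFin.symm ⟨l, h⟩).1, t.1 = i) ∨
      ∃ o : Fin m, N + o = i ∧ c (T.equivFin.symm ⟨l, h⟩).1 o = 1)
  let b := (List.range (T.card * (N + m))).map fun t => row (t / (N + m)) (t % (N + m))
  refine ⟨List.replicate m true ++ false :: (List.replicate N true ++ false ::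
    (List.replicate T.card true ++ [false])), b, ?_, fun z => ?_⟩
  · have h3 : T.card ≤ (N + 1) ^ e := by simpa using card_small (Fin N) e
    have h4 := Nat.mul_le_mul_right (N + m + 1) h3
    simp only [b, List.length_append, List.length_replicate, List.length_cons, List.length_map,
      List.length_range, List.length_nil]
    nlinarith
  · simp only [U, List.append_assoc, List.cons_append, List.nil_append, tl_eq, pn_eq]
    have h3 : ∀ l < T.card, ∀ i < N + m,
        (List.ofFn z ++ b).getD (N + (l * (N + m) + i)) false = row l i := by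
      intro l hl i hi
      have h4 : l * (N + m) + i < T.card * (N + m) := by nlinarith
      rw [List.getD_append_right _ _ _ _ (by simp), List.length_ofFn, Nat.add_sub_cancel_left]
      simp only [b, List.getD_eq_getElem?_getD, List.getElem?_map, List.getElem?_range h4,
        Option.map_some, Option.getD_some]
      rw [mul_comm, Nat.mul_add_div (by omega), Nat.mul_add_mod, Nat.div_eq_of_lt hi,
        Nat.mod_eq_of_lt hi, add_zero]
    refine List.ext_getElem (by simp [val]) fun o h4 h5 => ?_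
    rw [List.length_ofFn] at h5
    simp only [val, List.getElem_map, List.getElem_range, List.getElem_ofFn]
    refine Bool.eq_iff_iff.2 ?_
    rw [decide_eq_true_eq, ← ZMod.natCast_eq_one_iff_odd, ← tf_eq_one (F := ZMod 2), h2,
      ← sum_filter_of_ne (p := fun S => S.card ≤ e) fun S _ hS => h1 S fun h => hS (by simp [h]),
      ← sum_coe_sort, ← T.equivFin.symm.sum_comp, List.countP_eq_length_filter,
      ← List.toFinset_card_of_nodup (List.nodup_range.filter _), List.toFinset_filter,
      List.toFinset_range, card_filter, Nat.cast_sum, sum_range]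
    refine Eq.congr_left (sum_congr rfl fun l _ => ?_)
    have h6 : row l (N + o) = decide (c (T.equivFin.symm l).1 ⟨o, h5⟩ = 1) := by
      refine decide_eq_decide.2 ⟨?_, fun h => ⟨l.2, Or.inr ⟨⟨o, h5⟩, rfl, h⟩⟩⟩
      rintro ⟨_, ⟨t, -, ht⟩ | ⟨o', ho, h⟩⟩
      · omega
      · obtain rfl : o' = ⟨o, h5⟩ := Fin.ext (by simpa using ho)
        exact h
    have h7 : ((List.range N).all fun i => !(List.ofFn z ++ b).getD (N + (l * (N + m) + i)) false ||
        (List.ofFn z ++ b).getD i false) = decide (∀ t ∈ (T.equivFin.symm l).1, z t = true) := by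
      refine Bool.eq_iff_iff.2 ?_
      simp only [List.all_eq_true, List.mem_range, decide_eq_true_eq]
      refine ⟨fun h t ht => ?_, fun h i hi => ?_⟩
      · have := h t t.2
        rw [h3 l l.2 t (by omega), List.getD_append _ _ _ _ (by simp), getD_ofFn, dif_pos t.2,
          show row l t = true from decide_eq_true ⟨l.2, Or.inl ⟨t, ht, rfl⟩⟩] at this
        simpa using this
      · rw [h3 l l.2 i (by omega), List.getD_append _ _ _ _ (by simpa using hi), getD_ofFn,
          dif_pos hi]
        cases e1 : row l i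
        · rfl
        · obtain ⟨_, ⟨t, ht, rfl⟩ | ⟨o', ho, -⟩⟩ := of_decide_eq_true e1
          · simpa using h t ht
          · omega
    rw [h3 l l.2 _ (by omega), h6, h7, ← tf_decide (c _ _)]
    by_cases h8 : ∀ t ∈ (T.equivFin.symm l).1, z t = true
    · rw [mon, prod_eq_one fun t ht => by rw [h8 t ht, tf_true], decide_eq_true h8]
      simp [tf]
    · rw [decide_eq_false h8]
      push Not at h8
      obtain ⟨t, ht, h8⟩ := h8
      rw [mon, prod_eq_zero ht (by simp [h8])]
      simp

theorem AInv.proj {F ι κ ω : Type} [Field F] {h : (ι → Bool) → ω → Bool} (hh : AInv F h)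
    {η : (κ → Bool) → ι → Bool} (h1 : IsProj η) (h2 : Injective η) : AInv F fun y => h (η y) := by
  obtain ⟨π, h3, h4⟩ := h1.inv h2
  choose ψ h5 h6 using hh
  intro t
  have key : ∃ G ∈ Deg F ω 1, ∀ y, G (h y) = tf F (π y t) := by
    refine Deg.ind (P := fun g => ∃ G ∈ Deg F ω 1, ∀ y, G (h y) = g y)
      (fun S hS => ⟨fun z => ∏ i ∈ S, ψ i z, ?_, fun y => prod_congr rfl fun i _ => h6 _ _⟩)
      ⟨0, zero_mem _, fun _ => rfl⟩ ?_ ?_ (h3.deg t)
    · exact Deg.mono_le (by omega) (Deg.prod fun i _ => h5 i)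
    · rintro f g ⟨G, a1, a2⟩ ⟨G', a3, a4⟩
      exact ⟨G + G', add_mem a1 a3, fun y => by simp [a2, a4]⟩
    · rintro c f ⟨G, a1, a2⟩
      exact ⟨c • G, Submodule.smul_mem _ c a1, fun y => by simp [a2]⟩
  obtain ⟨G, h7, h8⟩ := key
  exact ⟨G, h7, fun y => by rw [h8, h4]⟩

theorem Pb.lt_two_pow {f : ℕ → ℕ} (hf : Pb f) : ∃ m0, ∀ m, m0 ≤ m → f m < 2 ^ m := by
  obtain ⟨D, hD⟩ := hf
  have h := (tendsto_pow_const_div_const_pow_of_one_lt D (one_lt_two (α := ℝ))).eventually
    (gt_mem_nhds (show (0 : ℝ) < 1 / 4 by norm_num))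
  obtain ⟨m0, hm⟩ := Filter.eventually_atTop.1 h
  refine ⟨m0, fun m h1 => (hD m).trans_lt ?_⟩
  have h2 := hm (m + 2) (by omega)
  rw [div_lt_iff₀ (by positivity), pow_add] at h2
  have h3 : (((m + 2 : ℕ) : ℝ)) ^ D < 2 ^ m := by linarith
  exact_mod_cast h3

/-- Padding to length `m`. -/
def pad (m : ℕ) (x : List Bool) : List Bool := List.replicate (m - x.length - 1) true ++ false :: x

theorem pad_length {m : ℕ} {x : List Bool} (h : x.length < m) : (pad m x).length = m := by
  simp [pad]
  omega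

variable {p : ℕ} [Fact p.Prime] {A B : List Bool → Bool}

/-- What is used of a reduction: its length bits and output bits have bounded degree. -/
def LowDeg (p : ℕ) [Fact p.Prime] (f : List Bool → List Bool) : Prop :=
  ∃ (D : ℕ) (b : ℕ → ℕ), Pb b ∧ Monotone b ∧ (∀ x, (f x).length ≤ b x.length) ∧
    (∀ j, GD (ZMod p) D fun x => tf (ZMod p) (decide (j < (f x).length))) ∧
    ∀ j, GD (ZMod p) D fun x => tf (ZMod p) ((f x).getD j false)

theorem IsNCmod.lowDeg {f : List Bool → List Bool} (hf : IsNCmod p f) : LowDeg p f := by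
  obtain ⟨d, q, h⟩ := hf
  obtain ⟨a, ha⟩ := Pb.eval q
  have hp := (Fact.out : p.Prime).pos
  choose len bit h1 h2 using h
  refine ⟨(d + p) ^ d, fun n => (n + 2) ^ a, by fun_prop, fun _ _ h => Nat.pow_le_pow_left (by omega) _,
    fun x => (h2 _ x rfl).1.trans (ha _), fun j n => ?_, fun j n => ?_⟩
  · have := deg_fm (p := p) (isProj_getD n id).deg (len n j) (h1 n j).2.2.1
    simp only [id, fun y : Fin n → Bool => ((h2 n (List.ofFn y) (by simp)).2 j).1] at this
    exact Deg.mono_le (Nat.pow_le_pow_right (by omega) (h1 n j).1) this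
  · have := deg_fm (p := p) (isProj_getD n id).deg (bit n j) (h1 n j).2.2.2.2.2
    simp only [id, fun y : Fin n → Bool => ((h2 n (List.ofFn y) (by simp)).2 j).2] at this
    exact Deg.mono_le (Nat.pow_le_pow_right (by omega) (h1 n j).2.2.2.1) this

theorem GD.append {F : Type} [Field F] {D : ℕ} {φ : List Bool → F} (h : GD F D φ) (n : ℕ)
    (a b : List Bool) : (fun y : Fin n → Bool => φ (a ++ (List.ofFn y ++ b))) ∈ Deg F (Fin n) D := by
  have := Deg.proj (γ := fun y => H86.bits (a.length + (n + b.length)) (a ++ (List.ofFn y ++ b)))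
    (fun i => isProj_append n a b i) (h _)
  convert this using 3 with y
  exact (ofFn_bits (by simp)).symm

theorem level {f : List Bool → List Bool} (hf : LowDeg p f) (hS : ∀ w, A (tl (U w)) = B (f w))
    {a0 a1 : List Bool} (h01 : A a0 ≠ A a1) : ∃ (D m0 : ℕ) (b : ℕ → ℕ), Pb b ∧ ∀ m, m0 ≤ m →
      ∃ (ℓ : ℕ) (H : List Bool → List Bool), m ≤ ℓ ∧ ℓ ≤ b m ∧ (∀ u, (H u).length = ℓ) ∧
        GB (ZMod p) D H ∧ LInv (ZMod p) H m ∧ ∀ u, u.length = m → A (tl u) = B (H u) := by
  obtain ⟨D, q, hq, hq', f1, f2, f3⟩ := hf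
  obtain ⟨N, hN, hR⟩ := ramsey (ZMod p) D
  obtain ⟨e, K, hK, hP⟩ := decoder (N := fun k => N (N k + k)) (by fun_prop)
  let W : ℕ → ℕ := fun m => (N (N (K m) + K m) + 1) ^ e * (N (N (K m) + K m) + m + 1) +
    N (N (K m) + K m) + m + 3 + N (N (K m) + K m)
  have hW : Pb fun m => q (W m) := by fun_prop
  obtain ⟨m0, hm0⟩ := (hW.add (Pb.const 1)).lt_two_pow
  refine ⟨D, m0 + a0.length + a1.length + 1, _, hW, fun m hm => ?_⟩
  obtain ⟨h1, P, h2, h3⟩ := hP m
  obtain ⟨a, b, h4, h5⟩ := exists_enc h2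
  have h6 : ∀ z : Fin (N (N (K m) + K m)) → Bool,
      (f (a ++ (List.ofFn z ++ b))).length ≤ q (W m) := fun z => (f1 _).trans (hq' (by
    simp only [List.length_append, List.length_ofFn, W]
    omega))
  obtain ⟨γ, g1, g2, g3⟩ := hR (N (K m) + K m) (Fin (N (N (K m) + K m))) (Fin (q (W m)))
    (fun z j => decide (j.1 < (f (a ++ (List.ofFn z ++ b))).length)) (by simp)
    fun j => (f2 j).append _ a b
  rcases g3 with g3 | g3
  swap
  · have h7 := Fintype.card_le_of_injective (fun y => (⟨_, Nat.lt_succ_of_le (h6 (γ y))⟩ :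
      Fin (q (W m) + 1))) fun y y' hy => g3.inj (by
        simp only [Fin.mk.injEq] at hy
        simp only [hy])
    have h8 := hm0 m (by omega)
    have h9 : 2 ^ m ≤ 2 ^ (N (K m) + K m) := Nat.pow_le_pow_right two_pos (by omega)
    simp only [Fintype.card_fun, Fintype.card_bool, Fintype.card_fin] at h7
    omega
  obtain ⟨ℓ, hℓ⟩ : ∃ ℓ, ∀ y, (f (a ++ (List.ofFn (γ y) ++ b))).length = ℓ := by
    refine ⟨(f (a ++ (List.ofFn (γ fun _ => false) ++ b))).length, fun y => ?_⟩
    have h7 := fun j => decide_eq_decide.1 (congrFun (g3 y fun _ => false) j)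
    have h8 := h6 (γ y)
    have h9 := h6 (γ fun _ => false)
    by_contra hc
    rcases Nat.lt_or_gt_of_ne hc with hc | hc
    · exact lt_irrefl _ ((h7 ⟨_, hc.trans_le h9⟩).2 hc)
    · exact lt_irrefl _ ((h7 ⟨_, hc.trans_le h8⟩).1 hc)
  have h7 : BDeg (ZMod p) D fun y (j : ℕ) => (f (a ++ (List.ofFn (γ y) ++ b))).getD j false :=
    fun j => Deg.proj g1 ((f3 j).append _ a b)
  obtain ⟨γ', g4, g5, g6⟩ := hR (K m) (Fin (N (K m) + K m)) (Fin ℓ)
    (fun y => bits ℓ (f (a ++ (List.ofFn (γ y) ++ b)))) (by simp) fun j => h7 j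
  obtain ⟨η, g7, g8⟩ := h3 _ (g1.comp g4) (g2.comp g5)
  have h8 : ∀ u : List Bool, u.length = m →
      A (tl u) = B (f (a ++ (List.ofFn (γ (γ' (η (bits m u)))) ++ b))) := fun u hu => by
    rw [← hS, h5, g8, ofFn_bits hu]
  rcases g6 with g6 | g6
  · refine absurd ?_ h01
    rw [← tl_eq (m - a0.length - 1) a0, ← tl_eq (m - a1.length - 1) a1]
    change A (tl (pad m a0)) = A (tl (pad m a1))
    rw [h8 _ (pad_length (by omega)), h8 _ (pad_length (by omega)), ← ofFn_bits (hℓ _), g6,
      ofFn_bits (hℓ _)]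
  have g9 := g6.proj g7 (Injective.of_comp (f := fun y => P (γ (γ' y))) fun x y h => by
    simpa only [comp, g8] using h)
  refine ⟨ℓ, fun u => f (a ++ (List.ofFn (γ (γ' (η (bits m u)))) ++ b)), ?_, hℓ (fun _ => false) ▸
    h6 _, fun u => hℓ _, ⟨fun _ _ _ => by rw [hℓ, hℓ],
      fun j => GD.bits (Deg.proj (g4.comp g7) (h7 j))⟩, fun t => ?_, h8⟩
  · have := Fintype.card_le_of_injective _ g9.inj
    simp only [Fintype.card_fun, Fintype.card_bool, Fintype.card_fin] at this
    exact (Nat.pow_le_pow_iff_right one_lt_two).1 this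
  · by_cases ht : t < m
    · obtain ⟨g, h9, h10⟩ := g9 ⟨t, ht⟩
      exact ⟨_, GD.bits h9, fun x _ => h10 _⟩
    · exact ⟨fun _ => 0, fun _ => Deg.const _ _, fun x hx => by
        rw [List.getD_eq_default _ _ (by omega), tf_false]⟩

theorem exists_nice {f : List Bool → List Bool} (hf : LowDeg p f)
    (hS : ∀ w, A (tl (U w)) = B (f w)) {a0 a1 : List Bool} (h01 : A a0 ≠ A a1) :
    ∃ h, Nice p h ∧ ∀ x, A x = B (h x) := by
  classical
  obtain ⟨D, m0, b, ⟨c, hc⟩, h⟩ := level hf hS h01
  choose! ℓ H h1 h2 h3 h4 h5 h6 using h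
  let T : ℕ → ℕ := fun j => (fun m => (m + 2) ^ c + m + 1)^[j] m0
  have hT : ∀ j, T (j + 1) = (T j + 2) ^ c + T j + 1 := fun j => iterate_succ_apply' _ _ _
  have hT1 : StrictMono T := strictMono_nat_of_lt_succ fun j => by rw [hT]; omega
  have hT2 : ∀ j, m0 ≤ T j := fun j => hT1.monotone (Nat.zero_le j)
  have hT3 : ∀ n, ∃ j, n < T j := fun n => ⟨n + 1, hT1.id_le (n + 1)⟩
  have hT4 : StrictMono fun j => ℓ (T j) := strictMono_nat_of_lt_succ fun j => by
    have := h1 _ (hT2 (j + 1))
    have := (h2 _ (hT2 j)).trans (hc _)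
    have := hT j
    omega
  let lv : ℕ → ℕ := fun n => T (Nat.find (hT3 n))
  have hl1 : ∀ n, n < lv n := fun n => Nat.find_spec (hT3 n)
  have hl2 : ∀ n, lv n ≤ m0 + ((n + 2) ^ c + n + 1) := by
    intro n
    simp only [lv]
    cases e : Nat.find (hT3 n) with
    | zero => exact Nat.le_add_right _ _
    | succ j =>
      have h7 : T j ≤ n := not_lt.1 (Nat.find_min (hT3 n) (by omega))
      have : (T j + 2) ^ c ≤ (n + 2) ^ c := by gcongr
      rw [hT]
      omega
  have hpad : ∀ m, GB (ZMod p) 1 (pad m) := fun m => ⟨fun x y e => by simp [pad, e], fun j n => by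
    simpa [pad] using (isProj_append n (List.replicate (m - n - 1) true ++ [false]) []).deg
      (F := ZMod p) j⟩
  refine ⟨fun x => H (lv x.length) (pad (lv x.length) x), ⟨fun n => ℓ (lv n), D * 1, ?_,
    fun n => (hl1 n).trans_le (h1 _ (hT2 _)), fun x => h3 _ (hT2 _) _, fun x y hxy => ?_,
    ⟨fun x y e => by rw [h3 _ (hT2 _), h3 _ (hT2 _), e], fun j n => ?_⟩, fun n t => ?_⟩,
    fun x => ?_⟩
  · refine Pb.mono (g := fun n => (m0 + ((n + 2) ^ c + n + 1) + 2) ^ c) (by fun_prop) fun n => ?_
    exact ((h2 _ (hT2 _)).trans (hc _)).trans (Nat.pow_le_pow_left (Nat.add_le_add_right (hl2 n) 2) _)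
  · have h7 := congrArg List.length hxy
    simp only [lv, h3 _ (hT2 _)] at h7
    have h8 : lv x.length = lv y.length := congrArg T (hT4.injective h7)
    obtain ⟨d, -, -, h9⟩ := (h5 _ (hT2 (Nat.find (hT3 y.length)))).cand
    have h10 := congrArg d hxy
    simp only [h8] at h10
    rw [h9 _ (pad_length ((hl1 _).trans_eq h8)), h9 _ (pad_length (hl1 _))] at h10
    simpa only [pad, tl_eq] using congrArg tl h10
  · simpa only [List.length_ofFn] using ((h4 _ (hT2 (Nat.find (hT3 n)))).comp (hpad (lv n))).2 j n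
  · have h7 : LInv (ZMod p) (pad (lv n)) n := fun t =>
      ⟨_, GD.bit (lv n - n - 1 + (t + 1)), fun x hx => by
        rw [pad, hx, List.getD_append_right _ _ _ _ (by simp)]
        simp⟩
    obtain ⟨φ, h8, h9⟩ := h7.comp (fun x hx => pad_length (hx ▸ hl1 _)) (h5 _ (hT2 _)) t
    exact ⟨φ, h8, fun x hx => by simpa only [hx] using h9 x hx⟩
  · rw [← h6 _ (hT2 _) _ (pad_length (hl1 _)), pad, tl_eq]

end Pool.Agent.MP_8a92de_lc.H86
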