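import Pool.Agent.MP_8a92de_lc.Mg.H86_Ramsey
import Pool.Agent.Lib.Cx.All
import Pool.Agent.MP_8a92de_lc.Mg.H86_Mask

-- part MP_8a92de_lc.H86U.Alg
section

/-! Polynomial-time search problems, loops, and black-box functions on cubes. -/

namespace Pool.Agent.MP_8a92de_lc.H86

open Finset Function Pool.Agent.Lib.Cx

variable {α β γ ι κ : Type} [Enc α] [Enc β] [Enc γ] [Enc ι] [Enc κ]

noncomputable instance encZMod (p : ℕ) [NeZero p] : Enc (ZMod p) :=
  mkEnc (fun a => enc a.val) fun _ _ h => ZMod.val_injective p (enc_injective h)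

section Z

variable {p : ℕ} [NeZero p]

@[fun_prop] theorem pt_zadd {f g : α → ZMod p} (hf : PT f) (hg : PT g) : PT fun a => f a + g a :=
  (PT.of_finite fun z : ZMod p × ZMod p => z.1 + z.2).comp' (hf.prodMk hg)

@[fun_prop] theorem pt_zsub {f g : α → ZMod p} (hf : PT f) (hg : PT g) : PT fun a => f a - g a :=
  (PT.of_finite fun z : ZMod p × ZMod p => z.1 - z.2).comp' (hf.prodMk hg)

@[fun_prop] theorem pt_zmul {f g : α → ZMod p} (hf : PT f) (hg : PT g) : PT fun a => f a * g a :=
  (PT.of_finite fun z : ZMod p × ZMod p => z.1 * z.2).comp' (hf.prodMk hg)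

@[fun_prop] theorem pt_zneg {f : α → ZMod p} (hf : PT f) : PT fun a => -f a :=
  (PT.of_finite fun z : ZMod p => -z).comp' hf

@[fun_prop] theorem pt_zinv {f : α → ZMod p} (hf : PT f) : PT fun a => (f a)⁻¹ :=
  (PT.of_finite fun z : ZMod p => z⁻¹).comp' hf

@[fun_prop] theorem pt_zval {f : α → ZMod p} (hf : PT f) : PT fun a => (f a).val :=
  (PT.of_finite fun z : ZMod p => z.val).comp' hf

theorem size_zmod_le (a : ZMod p) : size a ≤ p :=
  (size_nat_le_self a.val).trans (ZMod.val_lt a).le

@[fun_prop] theorem pt_zsum {l : α → List (ZMod p)} (hl : PT l) : PT fun a => (l a).sum :=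
  PT.foldr (f := fun _ a (s : ZMod p) => a + s) (by fun_prop) hl (PT.const 0) (fun _ => p)
    (by fun_prop) fun _ _ => size_zmod_le _

@[fun_prop] theorem pt_zsum_range {n : α → ℕ} {f : α → ℕ → ZMod p} (hn : PT n) (hb : PB n)
    (hf : PT fun z : α × ℕ => f z.1 z.2) : PT fun a => ∑ i ∈ range (n a), f a i :=
  (pt_zsum (PT.map hf (PT.range hn hb))).of_eq fun a => by
    rw [Finset.sum, range_val, Multiset.range, Multiset.map_coe, Multiset.sum_coe]

end Z

@[fun_prop] theorem pt_tf {p : ℕ} [NeZero p] {b : α → Bool} (hb : PT b) :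
    PT fun a => tf (ZMod p) (b a) := (PT.of_finite (tf (ZMod p))).comp' hb

theorem Pb.pb {f : ℕ → ℕ} (hf : Pb f) {x : α → ℕ} (hx : PB x) : PB fun a => f (x a) := by
  obtain ⟨D, hD⟩ := hf
  exact PB.mono (s := fun a => (x a + 2) ^ D) (by fun_prop) fun a => hD _

/-- A polynomial-time function chooses a solution of the relation. -/
def PS (R : α → β → Prop) : Prop := ∃ g : α → β, PT g ∧ ∀ a, R a (g a)

theorem PS.mono {R S : α → β → Prop} (h : PS R) (h' : ∀ a b, R a b → S a b) : PS S :=
  ⟨h.choose, h.choose_spec.1, fun a => h' _ _ (h.choose_spec.2 a)⟩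

/-- Loops with an invariant. -/
theorem PS.loop {T M : α → ℕ} (hT : PT T) (hT' : PB T) (hM : PB M) {c : α → β} (hc : PT c)
    (V : α → Prop) (I : α → ℕ → β → Prop) (h0 : ∀ a, V a → I a 0 (c a))
    (hs : PS fun (z : α × ℕ × β) s => V z.1 → z.2.1 < T z.1 → I z.1 z.2.1 z.2.2 →
      I z.1 (z.2.1 + 1) s)
    (hb : ∀ a i s, V a → i ≤ T a → I a i s → size s ≤ M a) :
    PS fun a s => V a → I a (T a) s := by
  obtain ⟨g, hg, hs⟩ := hs
  obtain ⟨u, hu, hu'⟩ := PT.exists_unary hM
  let f : α → β → ℕ → β := fun a s i =>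
    if size (g (a, i, s)) ≤ (u a).length then g (a, i, s) else s
  refine ⟨fun a => (List.range (T a)).foldl (f a) (c a), PT.foldl_inv (by fun_prop) (by fun_prop) hc
    (fun a s => size s ≤ size (c a) + (u a).length) (fun _ => Nat.le_add_right _ _)
    (fun a s i _ h => ?_) (fun a => size (c a) + (u a).length) (by fun_prop) (fun _ _ h => h),
    fun a ha => ?_⟩
  · simp only [f]
    split_ifs <;> omega
  · have : ∀ i ≤ T a, I a i ((List.range i).foldl (f a) (c a)) := by
      intro i hi
      induction i with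
      | zero => exact h0 a ha
      | succ i ih =>
        have h1 := hs (a, i, _) ha hi (ih (by omega))
        rw [List.range_succ, List.foldl_append, List.foldl_cons, List.foldl_nil]
        simp only [f]
        rwa [if_pos ((hb a _ _ ha hi h1).trans (hu' a))]
    exact this _ le_rfl

/-- A family of functions on a cube that can be evaluated in polynomial time at points given by
polynomial-time predicates. -/
def BB (Φ : α → (ι → Bool) → γ) : Prop :=
  ∀ (β : Type) [Enc β] (σ : β → α) (x : β → ι → Bool), PT σ → PT (fun z : β × ι => x z.1 z.2) →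
    PT fun b => Φ (σ b) (x b)

theorem BB.pt {Φ : α → (ι → Bool) → γ} (h : BB Φ) {σ : β → α} {x : β → ι → Bool} (hσ : PT σ)
    (hx : PT fun z : β × ι => x z.1 z.2) : PT fun b => Φ (σ b) (x b) := h β σ x hσ hx

/-- All lists of length `D` with entries below `n`. -/
def tup : ℕ → ℕ → List (List ℕ)
  | 0, _ => [[]]
  | D + 1, n => (List.range n).flatMap fun i => (tup D n).map (i :: ·)

theorem mem_tup {D n : ℕ} {l : List ℕ} : l ∈ tup D n ↔ l.length = D ∧ ∀ i ∈ l, i < n := by
  induction D generalizing l with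
  | zero => cases l <;> simp [tup]
  | succ D ih =>
    cases l with
    | nil => simp [tup]
    | cons i l => simp [tup, ih, and_comm, and_assoc, and_left_comm]

theorem length_tup (D n : ℕ) : (tup D n).length = n ^ D := by
  induction D with
  | zero => simp [tup]
  | succ D ih => simp [tup, ih, pow_succ']

@[fun_prop] theorem pt_tup (D : ℕ) {n : α → ℕ} (hn : PT n) (hb : PB n) :
    PT fun a => tup D (n a) := by
  induction D with
  | zero => exact PT.const _
  | succ D ih =>
    have := ih.comp' (f := fun z : α × ℕ => z.1) (by fun_prop)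
    exact PT.flatMap (PT.map (by fun_prop) this) (PT.range hn hb)

/-- Entry of a list of bit lists. -/
def mk (us : List (List Bool)) (j i : ℕ) : Bool := (us.getD j []).getD i false

@[fun_prop] theorem pt_mk {us : α → List (List Bool)} {j i : α → ℕ} (h : PT us) (hj : PT j)
    (hi : PT i) : PT fun a => mk (us a) (j a) (i a) := by unfold mk; fun_prop

theorem size_lists {us : List (List Bool)} {r s : ℕ} (h1 : us.length ≤ r)
    (h2 : ∀ u ∈ us, u.length ≤ s) : size us ≤ r * (6 * s + 1) := by
  refine (size_list_le us (3 * s) fun u hu => ?_).trans (Nat.mul_le_mul h1 (by omega))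
  rw [size_listBool]
  exact Nat.mul_le_mul_left _ (h2 u hu)

end Pool.Agent.MP_8a92de_lc.H86

end

-- part MP_8a92de_lc.H86U.CBP
section

/-! Polynomial-time Cantor-Bernstein, and gluing of reductions given for each padded length. -/

namespace Pool.Agent.MP_8a92de_lc.H86

open Finset Function Pool.Agent.Lib.Cx

/-- One-one, length-increasing, polynomial-time computable and invertible. -/
def NiceP (h : List Bool → List Bool) : Prop :=
  PT h ∧ (∀ x, x.length < (h x).length) ∧ ∃ g, PT g ∧ ∀ x, g (h x) = x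

/-- one step along the chain of ancestors -/
def cbp_step (F G : List Bool → List Bool) (z : List Bool) : List Bool :=
  if F (G z) = z then G z else z

theorem cbp_len {F G : List Bool → List Bool} (hl : ∀ x, x.length < (F x).length) (n : ℕ)
    (x : List Bool) : ((cbp_step F G)^[n] x).length ≤ x.length := by
  induction n with
  | zero => exact le_rfl
  | succ n ih =>
    rw [iterate_succ_apply']
    refine le_trans ?_ ih
    unfold cbp_step
    split_ifs with e
    · exact (hl _).le.trans_eq (congrArg List.length e)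
    · exact le_rfl

theorem cbp_stop {F G : List Bool → List Bool} (hl : ∀ x, x.length < (F x).length) (n : ℕ)
    (x : List Bool) (hx : x.length ≤ n) :
    F (G ((cbp_step F G)^[n] x)) ≠ (cbp_step F G)^[n] x := by
  induction n generalizing x with
  | zero =>
    intro e
    have := hl (G x)
    rw [iterate_zero, id] at e
    rw [e] at this
    omega
  | succ n ih =>
    by_cases e : F (G x) = x
    · rw [iterate_succ_apply]
      refine ih _ ?_
      have := hl (G x)
      rw [e] at this
      rw [cbp_step, if_pos e]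
      omega
    · rwa [iterate_fixed (f := cbp_step F G) (if_neg e)]

theorem cbp_own {h h' G : List Bool → List Bool} (hG : ∀ x, G (h' (h x)) = x) (n : ℕ)
    (x : List Bool) : Own h h' ((cbp_step (fun z => h' (h z)) G)^[n] x) ↔ Own h h' x := by
  induction n with
  | zero => exact Iff.rfl
  | succ n ih =>
    rw [iterate_succ_apply', ← ih]
    generalize (cbp_step (fun z => h' (h z)) G)^[n] x = y
    unfold cbp_step
    split_ifs with e
    · constructor
      · rintro ⟨k, x0, h1, h2⟩
        exact ⟨k + 1, x0, h1, by rw [iterate_succ_apply', h2]; exact e⟩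
      · rintro ⟨k, x0, h1, h2⟩
        cases k with
        | zero => exact absurd ⟨_, e.trans h2.symm⟩ h1
        | succ k => exact ⟨k, x0, h1, by rw [← h2, iterate_succ_apply', hG]⟩
    · exact Iff.rfl

theorem cbp_root {h h' G : List Bool → List Bool} (hG : ∀ x, G (h' (h x)) = x) {r : List Bool}
    (hr : h' (h (G r)) ≠ r) : Own h h' r ↔ ¬∃ y, h' y = r := by
  refine ⟨?_, fun e => ⟨0, r, e, rfl⟩⟩
  rintro ⟨k, x0, h1, rfl⟩
  cases k with
  | zero => exact h1
  | succ k => exact absurd (by rw [iterate_succ_apply', hG]) hr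

theorem cbp_inj {h : List Bool → List Bool} (H : NiceP h) : Injective h :=
  let ⟨_, _, g, _, e⟩ := H
  LeftInverse.injective (g := g) e

/-- Plan (Berman-Hartmanis). With inverses `g, g'`, follow the chain of ancestors of `x` for
`|x| + 1` rounds (`PT.iterate`, lengths decrease): `Own h h' x` is decided by where the chain
stops (`own_not`, `not_own` in H86/CB.lean; `y` is in the range of `h` iff `h (g y) = y`), and
off `Own` the map is `g'`. -/
theorem pt_cb {h h' : List Bool → List Bool} (H : NiceP h) (H' : NiceP h') : PT (cb h h') := by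
  have hi' := cbp_inj H'
  obtain ⟨a1, a2, g, a3, a4⟩ := H
  obtain ⟨b1, b2, g', b3, b4⟩ := H'
  have hl : ∀ x, x.length < (h' (h x)).length := fun x => (a2 x).trans (b2 _)
  have hG : ∀ x, g (g' (h' (h x))) = x := fun x => by rw [b4, a4]
  have h1 : PT fun x : List Bool =>
      (cbp_step (fun z => h' (h z)) fun z => g (g' z))^[x.length] x :=
    PT.iterate (f := fun _ => cbp_step (fun z => h' (h z)) fun z => g (g' z))
      (by unfold cbp_step; fun_prop) (by fun_prop) (by fun_prop) (by fun_prop)
      (fun x => 3 * x.length) (by fun_prop) fun x i _ => by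
        rw [size_listBool]
        exact Nat.mul_le_mul_left 3 (cbp_len hl i x)
  generalize hr : (fun x : List Bool =>
    (cbp_step (fun z => h' (h z)) fun z => g (g' z))^[x.length] x) = r at h1
  have h2 : ∀ x, Own h h' x ↔ ¬h' (g' (r x)) = r x := fun x => by
    subst hr
    beta_reduce
    rw [← cbp_own (G := fun z => g (g' z)) hG x.length x,
      cbp_root (G := fun z => g (g' z)) hG (cbp_stop (G := fun z => g (g' z)) hl _ x le_rfl)]
    exact not_congr ⟨fun ⟨y, e⟩ => by rw [← e, b4], fun e => ⟨_, e⟩⟩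
  refine PT.of_eq (f := fun x => if h' (g' (r x)) = r x then g' x else h x) (by fun_prop) fun x => ?_
  by_cases hx : Own h h' x
  · rw [cb, if_pos hx, if_neg ((h2 x).1 hx)]
  · rw [cb, if_neg hx, if_pos (not_not.1 fun e => hx ((h2 x).2 e))]
    obtain ⟨y, -, rfl⟩ := not_own a2 b2 x hx
    rw [leftInverse_invFun hi', b4]

theorem iso_of_niceP {A B : List Bool → Bool} {h h' : List Bool → List Bool} (H : NiceP h)
    (H' : NiceP h') (hA : ∀ x, A x = B (h x)) (hB : ∀ x, B x = A (h' x)) :
    ∃ φ : List Bool ≃ List Bool, PT φ ∧ PT φ.symm ∧ ∀ x, A x = B (φ x) := by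
  refine ⟨⟨cb h h', cb h' h, cb_cb (cbp_inj H) (cbp_inj H') H.2.1 H'.2.1,
    cb_cb (cbp_inj H') (cbp_inj H) H'.2.1 H.2.1⟩, pt_cb H H', pt_cb H' H, fun x => ?_⟩
  change A x = B (cb h h' x)
  by_cases hx : Own h h' x
  · rw [cb, if_pos hx, hA]
  · obtain ⟨y, -, rfl⟩ := not_own H.2.1 H'.2.1 x hx
    rw [cb, if_neg hx, leftInverse_invFun (cbp_inj H'), hB]

end Pool.Agent.MP_8a92de_lc.H86

end

-- part MP_8a92de_lc.H86U.Lev
section

/-! Gluing of reductions given for each padded length. -/

namespace Pool.Agent.MP_8a92de_lc.H86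

open Finset Function Pool.Agent.Lib.Cx

/-- One round of the search for the first level above `n`. -/
def lev_step (c n m : ℕ) : ℕ := if n < m then m else (m + 2) ^ c + m + 1

theorem lev_iter (c m0 n i : ℕ) :
    (lev_step c n)^[i] m0 ≤ m0 + ((n + 2) ^ c + n + 1) ∧
      (n < (lev_step c n)^[i] m0 ∨ i ≤ (lev_step c n)^[i] m0) ∧
      ∃ j, (lev_step c n)^[i] m0 = (fun m => (m + 2) ^ c + m + 1)^[j] m0 := by
  induction i with
  | zero => exact ⟨Nat.le_add_right _ _, Or.inr (Nat.zero_le _), 0, rfl⟩
  | succ i ih =>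
    obtain ⟨h1, h2, j, h3⟩ := ih
    rw [iterate_succ_apply', lev_step]
    split_ifs with h
    · exact ⟨h1, Or.inl h, j, h3⟩
    · have h4 : ((lev_step c n)^[i] m0 + 2) ^ c ≤ (n + 2) ^ c :=
        Nat.pow_le_pow_left (by omega) _
      exact ⟨by omega, Or.inr (by omega), j + 1, by rw [iterate_succ_apply', h3]⟩

theorem lev_exists (c m0 : ℕ) {ℓ : ℕ → ℕ} (h : ∀ m, m0 ≤ m → m ≤ ℓ m ∧ ℓ m ≤ (m + 2) ^ c) :
    ∃ lv : ℕ → ℕ, PT (fun x : List Bool => lv x.length) ∧ PB (fun x : List Bool => lv x.length) ∧
      (∀ n, n < lv n) ∧ (∀ n, m0 ≤ lv n) ∧ ∀ n n', ℓ (lv n) = ℓ (lv n') → lv n = lv n' := by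
  let T : ℕ → ℕ := fun j => (fun m => (m + 2) ^ c + m + 1)^[j] m0
  have hT : ∀ j, T (j + 1) = (T j + 2) ^ c + T j + 1 := fun j => iterate_succ_apply' _ _ _
  have hT1 : StrictMono T := strictMono_nat_of_lt_succ fun j => by rw [hT]; omega
  have hT2 : ∀ j, m0 ≤ T j := fun j => hT1.monotone (Nat.zero_le j)
  have hT4 : StrictMono fun j => ℓ (T j) := strictMono_nat_of_lt_succ fun j => by
    have := (h _ (hT2 (j + 1))).1
    have := (h _ (hT2 j)).2
    have := hT j
    omega
  have hM : PB fun x : List Bool => m0 + ((x.length + 2) ^ c + x.length + 1) := by fun_prop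
  refine ⟨fun n => (lev_step c n)^[n + 1] m0, ?_, hM.mono fun x => (lev_iter c m0 _ _).1,
    fun n => ?_, fun n => ?_, fun n n' e => ?_⟩
  · refine PT.iterate (f := fun (x : List Bool) m => lev_step c x.length m) ?_ (by fun_prop)
      (by fun_prop) (PT.const m0) _ hM fun x i _ =>
        (size_nat_le_self _).trans (lev_iter c m0 _ i).1
    unfold lev_step
    fun_prop
  · have := (lev_iter c m0 n (n + 1)).2.1
    beta_reduce
    omega
  · obtain ⟨j, hj⟩ := (lev_iter c m0 n (n + 1)).2.2
    exact (hT2 j).trans_eq hj.symm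
  · obtain ⟨j, hj⟩ := (lev_iter c m0 n (n + 1)).2.2
    obtain ⟨j', hj'⟩ := (lev_iter c m0 n' (n' + 1)).2.2
    beta_reduce at e ⊢
    rw [hj, hj'] at e ⊢
    exact congrArg T (hT4.injective e)

/-- Plan: as `exists_nice` in H86/Mask.lean (levels `T (j+1) = (T j + 2)^c + T j + 1`, `lv n` the
first level above `n`, `h x = H (pad (lv |x|) x)`), now with polynomial time: `lv n` is computed
from `n` in unary by iterating `m ↦ if n < m then m else (m+2)^c + m + 1` for `n + 1` rounds. The
inverse of `y` tries all `m ≤ |y|`: candidates `x = tl (I (replicate m ()) y)`, and returns the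
first with `h x = y`. -/
theorem exists_niceP {A B : List Bool → Bool} {H : List Bool → List Bool}
    {I : List Unit → List Bool → List Bool} {ℓ : ℕ → ℕ} {m0 c : ℕ} (hH : PT H)
    (hI : PT fun z : List Unit × List Bool => I z.1 z.2)
    (h : ∀ u : List Bool, m0 ≤ u.length → (H u).length = ℓ u.length ∧ u.length ≤ ℓ u.length ∧
      ℓ u.length ≤ (u.length + 2) ^ c ∧ I (List.replicate u.length ()) (H u) = u ∧
      A (tl u) = B (H u)) : ∃ h, NiceP h ∧ ∀ x, A x = B (h x) := by
  obtain ⟨lv, l1, l2, l3, l4, l5⟩ := lev_exists c m0 (ℓ := ℓ) fun m hm => by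
    have := h (List.replicate m true) (by simpa using hm)
    rw [List.length_replicate] at this
    exact ⟨this.2.1, this.2.2.1⟩
  obtain ⟨f, hf⟩ : ∃ f : List Bool → List Bool, f = fun x => H (pad (lv x.length) x) := ⟨_, rfl⟩
  have f0 : PT f := by
    refine (hH.comp' (f := fun x : List Bool => pad (lv x.length) x) ?_).of_eq fun x => by rw [hf]
    exact PT.append (PT.replicate (PT.sub (PT.sub l1 (by fun_prop)) (PT.const 1)) l2.sub.sub
      (PT.const true)) (by fun_prop)
  have key : ∀ x : List Bool, (f x).length = ℓ (lv x.length) ∧ lv x.length ≤ ℓ (lv x.length) ∧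
      tl (I (List.replicate (lv x.length) ()) (f x)) = x ∧ A x = B (f x) := fun x => by
    have h1 := pad_length (l3 x.length)
    obtain ⟨h2, h3, -, h4, h5⟩ := h (pad (lv x.length) x) (h1.symm ▸ l4 _)
    have h6 : tl (pad (lv x.length) x) = x := tl_eq _ _
    rw [h1] at h2 h3 h4
    rw [h6] at h5
    rw [hf]
    exact ⟨h2, h3, (congrArg tl h4).trans h6, h5⟩
  have inj : Injective f := fun x y e => by
    have h1 := l5 _ _ ((key x).1.symm.trans ((congrArg List.length e).trans (key y).1))
    rw [← (key x).2.2.1, e, h1, (key y).2.2.1]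
  refine ⟨f, ⟨f0, fun x => (l3 _).trans_le ((key x).2.1.trans_eq (key x).1.symm), fun y =>
    (((List.range (y.length + 1)).map fun m => tl (I (List.replicate (min m y.length) ()) y)).find?
      fun x => decide (f x = y)).getD [], ?_, fun x => ?_⟩, fun x => (key x).2.2.2⟩
  · have h1 : PT fun z : List Bool × ℕ => I (List.replicate (min z.2 z.1.length) ()) z.1 :=
      hI.comp' (f := fun z : List Bool × ℕ => (List.replicate (min z.2 z.1.length) (), z.1))
        (by fun_prop)
    refine PT.getD (PT.find? (f := fun y x => decide (f x = y)) (by fun_prop)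
      (PT.map (f := fun (y : List Bool) m => tl (I (List.replicate (min m y.length) ()) y))
        (tl_pt h1) (by fun_prop))) (PT.const _)
  · have h1 : lv x.length ≤ (f x).length := (key x).2.1.trans_eq (key x).1.symm
    beta_reduce
    cases e : List.find? _ _ with
    | none =>
      refine absurd (decide_eq_true rfl) (List.find?_eq_none.1 e x (List.mem_map.2
        ⟨lv x.length, List.mem_range.2 (by omega), ?_⟩))
      rw [min_eq_left h1, (key x).2.2.1]
    | some y =>
      have h2 := List.find?_some e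
      exact inj (of_decide_eq_true h2)

end Pool.Agent.MP_8a92de_lc.H86

end

-- part MP_8a92de_lc.H86U.Core
section

/-! Adaptive encoding: a reduction whose input can be changed block by block while polynomially
many output symbols are kept yields an invertible reduction. -/

namespace Pool.Agent.MP_8a92de_lc.H86

open Finset Function Pool.Agent.Lib.Cx

/-- Number of ones in group `g`. -/
def cnt (w : List Bool) (g : ℕ) : ℕ :=
  (List.range (pn (tl w))).countP fun i => (tl (tl (tl w))).getD (pn (tl w) * g + i) false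

/-- The bit stored in block `t`. -/
def sem (w : List Bool) (t : ℕ) : Bool := decide (cnt w t % pn (tl (tl w)) ≠ 0)

/-- Unfinished words stand for `a0` or `a1` according to the parity of the stored bits. -/
def U3 (a0 a1 w : List Bool) : List Bool :=
  if sem w 0 = sem w (pn w + 1) then
    if Odd (∑ t ∈ range (pn w), (sem w (t + 1)).toNat) then a1 else a0
  else tl ((List.range (pn w)).map fun t => sem w (t + 1))

@[fun_prop] theorem pt_sem {α : Type} [Enc α] {w : α → List Bool} {t : α → ℕ} (hw : PT w)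
    (ht : PT t) : PT fun a => sem (w a) (t a) := by
  unfold sem cnt
  fun_prop

theorem pt_U3 (a0 a1 : List Bool) : PT (U3 a0 a1) := by
  have : PT fun w => ∑ t ∈ range (pn w), (sem w (t + 1)).toNat :=
    (PT.sum (l := fun w => (List.range (pn w)).map fun t => (sem w (t + 1)).toNat)
      (by fun_prop)).of_eq fun w => by
        rw [Finset.sum, range_val, Multiset.range, Multiset.map_coe, Multiset.sum_coe]
  unfold U3
  fun_prop

/-- The bits of the blocks can be set one after the other, keeping given output symbols. -/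
def Flex (f : List Bool → List Bool) : Prop :=
  ∃ (wd : List Unit × List Bool → List Bool) (y0 : List Unit → List Bool)
    (I : List Unit → ℕ → List Bool → Prop) (b : ℕ → ℕ), PT wd ∧ PT y0 ∧ Pb b ∧
    (∀ m, I m 0 (y0 m)) ∧ (∀ m t y, I m t y → y.length ≤ b m.length ∧ pn (wd (m, y)) = m.length) ∧
    PS fun (z : List Unit × ℕ × List Bool × List ℕ × Bool) y => z.2.1 ≤ z.1.length + 1 →
      z.2.2.2.1.length ≤ z.1.length + 2 → I z.1 z.2.1 z.2.2.1 → I z.1 (z.2.1 + 1) y ∧
        (∀ o ∈ z.2.2.2.1, (f (wd (z.1, y)))[o]? = (f (wd (z.1, z.2.2.1)))[o]?) ∧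
        sem (wd (z.1, y)) z.2.1 = z.2.2.2.2 ∧
        ∀ t ≠ z.2.1, sem (wd (z.1, y)) t = sem (wd (z.1, z.2.2.1)) t

theorem length_eq_of {a b : List Bool} (h1 : b[a.length - 1]? = a[a.length - 1]?)
    (h2 : b[a.length]? = a[a.length]?) : b.length = a.length := by
  have h3 := congrArg (· = none) h1
  have h4 := congrArg (· = none) h2
  simp only [List.getElem?_eq_none_iff, eq_iff_iff] at h3 h4
  omega

/-- A position where two words differ. -/
def dps (a b : List Bool) : ℕ := ((List.range a.length).find? fun j => a[j]? != b[j]?).getD 0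

theorem dps_spec {a b : List Bool} (h : a.length = b.length) (h' : a ≠ b) :
    dps a b ≤ a.length ∧ a[dps a b]? ≠ b[dps a b]? := by
  unfold dps
  cases e : List.find? _ _ with
  | none =>
    refine absurd (List.ext_getElem? fun j => ?_) h'
    by_cases hj : j < a.length
    · simpa using List.find?_eq_none.1 e j (List.mem_range.2 hj)
    · rw [List.getElem?_eq_none (by omega), List.getElem?_eq_none (by omega)]
  | some j => exact ⟨(List.mem_range.1 (List.mem_of_find?_eq_some e)).le,
      by simpa using List.find?_some e⟩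

theorem odd_sum_ne {g g' : ℕ → Bool} {m t : ℕ} (ht : t < m) (h : ∀ j ≠ t, g j = g' j)
    (h1 : g t = true) (h0 : g' t = false) :
    ∑ j ∈ range m, (g j).toNat = ∑ j ∈ range m, (g' j).toNat + 1 := by
  rw [← add_sum_erase _ _ (mem_range.2 ht), ← add_sum_erase _ _ (mem_range.2 ht), h1, h0,
    sum_congr rfl fun j hj => by rw [h j (ne_of_mem_erase hj)]]
  simp [add_comm]

theorem le_of_inj {H : List Bool → List Bool} {m l : ℕ} (h : ∀ v, (H v).length = l)
    (h' : ∀ v w, v.length = m → w.length = m → H v = H w → v = w) : m ≤ l := by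
  let g : List.Vector Bool m → List.Vector Bool l := fun v => ⟨H v.1, h _⟩
  have := Fintype.card_le_of_injective g fun v w e =>
    Subtype.ext (h' _ _ v.2 w.2 (congrArg Subtype.val e))
  simp only [card_vector, Fintype.card_bool] at this
  exact (Nat.pow_le_pow_iff_right one_lt_two).1 this

/-- One step of the encoder (`e = true`, the bits are read from `z`) or of the decoder. -/
def nxt (F : List Unit → List Bool → List Bool)
    (mv : List Unit × ℕ × List Bool × List ℕ × Bool → List Bool) (z : List Unit × Bool × List Bool)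
    (s : List Bool × List ℕ × List Bool) : List Bool × List ℕ × List Bool :=
  let a := F z.1 (mv (z.1, s.2.2.length + 1, s.1, s.2.1, true))
  let o := dps a (F z.1 (mv (z.1, s.2.2.length + 1, s.1, s.2.1, false)))
  let c := if z.2.1 then z.2.2.getD s.2.2.length false else z.2.2[o]? == a[o]?
  (mv (z.1, s.2.2.length + 1, s.1, s.2.1, c), s.2.1 ++ [o], s.2.2 ++ [c])

theorem niceP_of_flex {A B : List Bool → Bool} {f : List Bool → List Bool} {a0 a1 : List Bool}
    (hf : PT f) (hF : Flex f) (h01 : A a0 ≠ A a1) (hS : ∀ w, A (U3 a0 a1 w) = B (f w)) :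
    ∃ h, NiceP h ∧ ∀ x, A x = B (h x) := by
  obtain ⟨wd, y0, I, b, h1, h2, h3, h4, h5, mv, h6, h7⟩ := hF
  obtain ⟨F, hF⟩ : ∃ F : List Unit → List Bool → List Bool, ∀ m y, f (wd (m, y)) = F m y :=
    ⟨_, fun _ _ => rfl⟩
  have hF' : PT fun z : List Unit × List Bool => F z.1 z.2 := (hf.comp' h1).of_eq fun z => (hF _ _).symm
  simp only [hF] at h7
  obtain ⟨yA, hA⟩ : ∃ yA : List Unit → List Bool,
    yA = fun m => mv (m, 0, y0 m, [], sem (wd (m, y0 m)) (m.length + 1)) := ⟨_, rfl⟩
  have hA1 : PT yA := by rw [hA]; fun_prop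
  have hA2 : ∀ m, I m 1 (yA m) ∧ sem (wd (m, yA m)) 0 = sem (wd (m, yA m)) (m.length + 1) := by
    intro m
    obtain ⟨a1, -, a2, a3⟩ := h7 (m, 0, y0 m, [], sem (wd (m, y0 m)) (m.length + 1)) (by simp)
      (by simp) (h4 m)
    rw [hA]
    exact ⟨a1, a2.trans (a3 _ (by simp)).symm⟩
  obtain ⟨ℓ, hℓ⟩ : ∃ ℓ : List Unit → ℕ, ℓ = fun m => (F m (yA m)).length := ⟨_, rfl⟩
  have hℓ1 : PT ℓ ∧ PB ℓ := by rw [hℓ]; exact ⟨by fun_prop, by fun_prop⟩
  obtain ⟨run, hrun⟩ : ∃ run : List Unit × Bool × List Bool → ℕ → List Bool × List ℕ × List Bool,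
    run = fun z t => (nxt F mv z)^[t] (yA z.1, [ℓ z.1 - 1, ℓ z.1], []) := ⟨_, rfl⟩
  have hr : ∀ z t, run z (t + 1) = nxt F mv z (run z t) := fun z t => by
    rw [hrun]
    exact iterate_succ_apply' _ _ _
  let Inv : List Unit → ℕ → List Bool × List ℕ × List Bool → Prop := fun m t s =>
    s.2.2.length = t ∧ I m (t + 1) s.1 ∧ s.2.1.length = t + 2 ∧ (∀ o ∈ s.2.1, o ≤ ℓ m) ∧
      ℓ m - 1 ∈ s.2.1 ∧ ℓ m ∈ s.2.1 ∧ (F m s.1).length = ℓ m ∧
      sem (wd (m, s.1)) 0 = sem (wd (m, s.1)) (m.length + 1) ∧
      ∀ j < t, sem (wd (m, s.1)) (j + 1) = s.2.2.getD j false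
  have hmv : ∀ m t s c, t ≤ m.length → Inv m t s → I m (t + 2) (mv (m, t + 1, s.1, s.2.1, c)) ∧
      (F m (mv (m, t + 1, s.1, s.2.1, c))).length = ℓ m ∧
      (∀ o ∈ s.2.1, (F m (mv (m, t + 1, s.1, s.2.1, c)))[o]? = (F m s.1)[o]?) ∧
      sem (wd (m, mv (m, t + 1, s.1, s.2.1, c))) (t + 1) = c ∧
      ∀ j ≠ t + 1, sem (wd (m, mv (m, t + 1, s.1, s.2.1, c))) j = sem (wd (m, s.1)) j := by
    rintro m t s c ht ⟨-, b1, b2, -, b3, b4, b5, -⟩
    obtain ⟨a1, a2, a3⟩ := h7 (m, t + 1, s.1, s.2.1, c) (by simpa using ht) (by simp only; omega) b1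
    refine ⟨a1, ?_, a2, a3⟩
    rw [← b5] at b3 b4 ⊢
    exact length_eq_of (a2 _ b3) (a2 _ b4)
  have hdif : ∀ m t s, t < m.length → Inv m t s → F m (mv (m, t + 1, s.1, s.2.1, true)) ≠
      F m (mv (m, t + 1, s.1, s.2.1, false)) := by
    intro m t s ht hs e
    obtain ⟨a1, -, -, a2, a3⟩ := hmv m t s true ht.le hs
    obtain ⟨b1, -, -, b2, b3⟩ := hmv m t s false ht.le hs
    have e1 := (hS _).trans ((congrArg B ((hF _ _).trans (e.trans (hF _ _).symm))).trans (hS _).symm)
    have e2 := hs.2.2.2.2.2.2.2.1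
    rw [U3, U3, (h5 _ _ _ a1).2, (h5 _ _ _ b1).2,
      if_pos (by rw [a3 _ (by omega), a3 _ (by omega), e2]),
      if_pos (c := _ = _) (by rw [b3 _ (by omega), b3 _ (by omega), e2]),
      odd_sum_ne (g := fun j => sem _ (j + 1)) (g' := fun j => sem _ (j + 1)) ht (fun j hj => (a3 _ (by omega)).trans (b3 _ (by omega)).symm) a2 b2] at e1
    simp only [Nat.odd_add_one, ite_not] at e1
    split_ifs at e1
    exacts [h01 e1, h01 e1.symm]
  have hinv : ∀ z t, t ≤ z.1.length → Inv z.1 t (run z t) := by
    intro z t ht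
    induction t with
    | zero =>
      rw [hrun]
      exact ⟨rfl, (hA2 _).1, rfl, by simp, by simp, by simp, by rw [hℓ]; rfl, (hA2 _).2, by simp⟩
    | succ t ih =>
      have ih := ih (by omega)
      have a0 := hdif _ t _ ht ih
      have a1 := fun c => hmv _ t _ c (by omega) ih
      have a2 := (dps_spec ((a1 _).2.1.trans (a1 _).2.1.symm) a0).1
      rw [(a1 _).2.1] at a2
      obtain ⟨b1, -, b2, b3, b4, b5, -, b6, b7⟩ := ih
      rw [hr]
      simp only [nxt, b1, Inv]
      refine ⟨by simp [b1], (a1 _).1, by simp [b2], by simpa [or_imp, forall_and, a2] using b3,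
        by simp [b4], by simp [b5], (a1 _).2.1, ?_, fun j hj => ?_⟩
      · rw [(a1 _).2.2.2.2 _ (by omega), (a1 _).2.2.2.2 _ (by omega), b6]
      · by_cases e : j = t
        · rw [e, (a1 _).2.2.2.1, List.getD_append_right _ _ _ _ b1.le]
          simp [b1]
        · rw [(a1 _).2.2.2.2 _ (by omega), b7 j (by omega), List.getD_append _ _ _ _ (by omega)]
  have hkeep : ∀ z t t', t + t' ≤ z.1.length → ∀ o ∈ (run z t).2.1, o ∈ (run z (t + t')).2.1 ∧
      (F z.1 (run z (t + t')).1)[o]? = (F z.1 (run z t).1)[o]? := by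
    intro z t t' ht o ho
    induction t' with
    | zero => exact ⟨ho, rfl⟩
    | succ t' ih =>
      obtain ⟨a1, a2⟩ := ih (by omega)
      have a3 := hinv z (t + t') (by omega)
      rw [← add_assoc, hr]
      simp only [nxt, a3.1]
      exact ⟨by simp [a1], ((hmv _ _ _ _ (by omega) a3).2.2.1 o a1).trans a2⟩
  have hpt : PT fun z => run z z.1.length := by
    have := hℓ1.1
    have h8 : PB fun z : List Unit × Bool × List Bool => b z.1.length := h3.pb (by fun_prop)
    have h9 : PB fun z : List Unit × Bool × List Bool => ℓ z.1 := hℓ1.2.comp (by fun_prop)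
    have := PT.iterate (f := nxt F mv) (n := fun z => z.1.length)
      (c := fun z => (yA z.1, [ℓ z.1 - 1, ℓ z.1], [])) (by unfold nxt dps; fun_prop) (by fun_prop)
      (by fun_prop) (by fun_prop) (fun z => 2 * (3 * b z.1.length) + 1 +
        (2 * ((z.1.length + 2) * (2 * ℓ z.1 + 1)) + 1 + 3 * z.1.length))
      (.add (.add (.mul (.const _) (.mul (.const _) h8)) (.const _)) (.add (.add (.mul (.const _)
        (.mul (by fun_prop) (.add (.mul (.const _) h9) (.const _)))) (.const _)) (by fun_prop)))
      fun z t ht => ?_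
    · rw [hrun]
      exact this
    obtain ⟨a1, a2, a3, a4, -⟩ := hinv z t ht
    simp only [hrun] at a1 a2 a3 a4
    have a5 := size_list_le _ (ℓ z.1) fun o ho => (size_nat_le_self o).trans (a4 o ho)
    have a6 := (h5 _ _ _ a2).1
    rw [size_prod, size_prod, size_listBool, size_listBool, a1]
    rw [a3] at a5
    have a7 : (t + 2) * (2 * ℓ z.1 + 1) ≤ (z.1.length + 2) * (2 * ℓ z.1 + 1) := by gcongr
    omega
  have henc : ∀ m u t, t ≤ m.length →
      (run (m, true, u) t).2.2 = (List.range t).map fun j => u.getD j false := by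
    intro m u t ht
    induction t with
    | zero => rw [hrun]; rfl
    | succ t ih =>
      rw [hr]
      simp [nxt, ih (Nat.le_of_succ_le ht), List.range_succ]
  obtain ⟨G, hG⟩ : ∃ G : List Unit × List Bool → List Bool, G = fun z => mv (z.1, z.1.length + 1,
    (run (z.1, true, z.2) z.1.length).1, (run (z.1, true, z.2) z.1.length).2.1,
    !sem (wd (z.1, (run (z.1, true, z.2) z.1.length).1)) 0) := ⟨_, rfl⟩
  have hG1 : PT G := by
    have := hpt.comp' (f := fun z : List Unit × List Bool => (z.1, true, z.2)) (by fun_prop)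
    rw [hG]
    exact h6.comp' (.prodMk (by fun_prop) (.prodMk (by fun_prop) (.prodMk this.fst (.prodMk
      this.snd.fst (pt_sem (h1.comp' (.prodMk (by fun_prop) this.fst)) (.const _)).not))))
  have hG2 := fun (m : List Unit) (u : List Bool) => hmv m m.length _
    (!sem (wd (m, (run (m, true, u) m.length).1)) 0) le_rfl (hinv (m, true, u) _ le_rfl)
  have hG3 : ∀ m u, mv (m, m.length + 1, (run (m, true, u) m.length).1,
      (run (m, true, u) m.length).2.1, !sem (wd (m, (run (m, true, u) m.length).1)) 0) = G (m, u) :=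
    fun _ _ => by rw [hG]
  simp only [hG3] at hG2
  have hdec : ∀ m u t, t ≤ m.length → run (m, false, F m (G (m, u))) t = run (m, true, u) t := by
    intro m u t ht
    induction t with
    | zero => rw [hrun]; rfl
    | succ t ih =>
      have a1 := hinv (m, true, u) t (Nat.le_of_succ_le ht)
      have a2 := fun c => (hmv m t _ c (by omega) a1).2.1
      have a3 := (dps_spec ((a2 _).trans (a2 _).symm) (hdif _ t _ ht a1)).2
      have a4 := hkeep (m, true, u) (t + 1) (m.length - (t + 1)) (by simp only; omega)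
      rw [Nat.add_sub_cancel' ht] at a4
      have a5 := fun o ho => ((hG2 m u).2.2.1 o (a4 o ho).1).trans (a4 o ho).2
      rw [hr] at a5
      rw [hr, hr, ih (by omega)]
      simp only [nxt, a1.1, if_true, Bool.false_eq_true, if_false] at a5 ⊢
      rw [a5 _ (by simp)]
      cases u.getD t false
      · rw [beq_false_of_ne a3.symm]
      · rw [beq_self_eq_true]
  have hu : ∀ u : List Bool, ((List.range u.length).map fun j => u.getD j false) = u := fun u =>
    List.ext_getElem (by simp) fun j _ hj => by simp [List.getElem?_eq_getElem hj]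
  have hinv' : ∀ u : List Bool, (run (List.replicate u.length (), false, F (List.replicate u.length ())
      (G (List.replicate u.length (), u))) (List.replicate u.length ()).length).2.2 = u := by
    intro u
    rw [hdec _ _ _ le_rfl, henc _ _ _ le_rfl, List.length_replicate, hu]
  obtain ⟨q, hq⟩ := hℓ1.2
  obtain ⟨c, hc⟩ := Pb.eval q
  refine exists_niceP (H := fun u => F (List.replicate u.length ()) (G (List.replicate u.length (), u)))
    (I := fun m z => (run (m, false, z) m.length).2.2) (ℓ := fun n => ℓ (List.replicate n ()))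
    (m0 := 0) (c := c) (by fun_prop)
    (hpt.comp' (f := fun z : List Unit × List Bool => (z.1, false, z.2)) (by fun_prop)).snd.snd
    fun u _ => ⟨(hG2 _ u).2.1, ?_, ?_, hinv' u, ?_⟩
  · refine le_of_inj (H := fun v => F (List.replicate u.length ()) (G (List.replicate u.length (), v)))
      (fun v => (hG2 _ _).2.1) fun v w hv hw e => ?_
    have e1 := hinv' v
    have e2 := hinv' w
    rw [hv] at e1
    rw [hw, ← e] at e2
    exact e1.symm.trans e2
  · simpa [size_listUnit] using (hq (List.replicate u.length ())).trans (hc _)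
  · obtain ⟨a1, -, -, a2, a3⟩ := hG2 (List.replicate u.length ()) u
    have a4 := (hinv (List.replicate u.length (), true, u) _ le_rfl).2.2.2.2.2.2.2.2
    rw [henc _ _ _ le_rfl] at a4
    simp only [List.length_replicate, hu] at a2 a3 a4
    rw [← hF, ← hS, U3, (h5 _ _ _ a1).2, List.length_replicate, a2, a3 0 (by omega),
      if_neg (by simp)]
    congr 2
    refine (hu u).symm.trans (List.map_congr_left fun j hj => ?_)
    rw [a3 _ (by have := List.mem_range.1 hj; omega), a4 j (List.mem_range.1 hj)]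

theorem iso_of_flex (C : Set (List Bool → Bool))
    (hC : ∀ A B, N793a5b8e.ManyOneReducible A B → B ∈ C → A ∈ C)
    (A B : List Bool → Bool) (hA : A ∈ C) (hB : B ∈ C)
    (hA' : ∀ L ∈ C, ∃ f, (PT f ∧ Flex f) ∧ ∀ x, L x = A (f x))
    (hB' : ∀ L ∈ C, ∃ f, (PT f ∧ Flex f) ∧ ∀ x, L x = B (f x)) :
    ∃ φ : List Bool ≃ List Bool, N68a2faeb.IsPolyTime φ ∧ N68a2faeb.IsPolyTime φ.symm ∧
      ∀ x, A x = B (φ x) := by
  have key : ∀ {A B : List Bool → Bool}, A ∈ C →
      (∀ L ∈ C, ∃ f, (PT f ∧ Flex f) ∧ ∀ x, L x = B (f x)) → ∀ {a0 a1}, A a0 ≠ A a1 →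
      ∃ h, NiceP h ∧ ∀ x, A x = B (h x) := by
    intro A B hA hB a0 a1 h
    obtain ⟨f, h1, h2⟩ := hB (fun w => A (U3 a0 a1 w))
      (hC _ _ ⟨_, (pt_U3 a0 a1).isPolyTime, fun _ => rfl⟩ hA)
    exact niceP_of_flex h1.1 h1.2 h h2
  by_cases h : ∃ a0 a1, A a0 ≠ A a1
  · obtain ⟨a0, a1, h⟩ := h
    obtain ⟨f, -, hf⟩ := hB' A hA
    obtain ⟨g, g1, g2⟩ := key hA hB' h
    obtain ⟨g', g3, g4⟩ := key hB hA' (a0 := f a0) (a1 := f a1) (by rwa [← hf, ← hf])
    obtain ⟨φ, h1, h2, h3⟩ := iso_of_niceP g1 g3 g2 g4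
    exact ⟨φ, h1.isPolyTime, h2.isPolyTime, h3⟩
  · push Not at h
    obtain ⟨f, -, hf⟩ := hA' B hB
    exact ⟨Equiv.refl _, PT.id'.isPolyTime, PT.id'.isPolyTime, fun x => by rw [hf, h x]⟩

end Pool.Agent.MP_8a92de_lc.H86

end

-- part MP_8a92de_lc.H86U.Flex
section

/-! Moves inside one group of free variables. -/

namespace Pool.Agent.MP_8a92de_lc.H86

open Finset Function Pool.Agent.Lib.Cx

/-- The header of a word. -/
def hdr (m s q : ℕ) : List Bool := List.replicate m true ++ false ::
  (List.replicate s true ++ false :: (List.replicate q true ++ [false]))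

theorem pn_hdr (m s q : ℕ) (w : List Bool) :
    pn (hdr m s q ++ w) = m ∧ pn (tl (tl (hdr m s q ++ w))) = q := by
  simp only [hdr, List.append_assoc, List.cons_append, pn_eq, tl_eq, and_self]

theorem cnt_hdr (m s q : ℕ) (w : List Bool) (g : ℕ) :
    cnt (hdr m s q ++ w) g = ∑ i ∈ range s, (w.getD (s * g + i) false).toNat := by
  simp only [cnt, hdr, List.append_assoc, List.cons_append, List.nil_append, tl_eq, pn_eq]
  generalize s * g = a
  induction s with
  | zero => simp
  | succ s ih =>
    rw [List.range_succ, List.countP_append, ih, sum_range_succ]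
    cases e : w.getD (a + s) false <;> simp only [List.countP_singleton, e] <;> rfl

/-- Write `v` into group `g`. -/
def upd (r g : ℕ) (y v : List Bool) : List Bool :=
  (List.range y.length).map fun i =>
    y.getD i false || (decide (r * g ≤ i) && v.getD (i - r * g) false)

theorem upd_getD {r g G : ℕ} {y v : List Bool} (hy : y.length = r * G) (hg : g < G)
    (hv : v.length ≤ r) (i : ℕ) : (upd r g y v).getD i false =
      (y.getD i false || (decide (r * g ≤ i) && v.getD (i - r * g) false)) := by
  by_cases hi : i < y.length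
  · simp [upd, List.getD_eq_getElem?_getD, hi]
  · have := Nat.mul_le_mul_left r hg
    rw [Nat.mul_succ] at this
    rw [List.getD_eq_default _ _ (by simpa [upd] using hi), List.getD_eq_default _ _ (by omega),
      List.getD_eq_default _ _ (by omega)]
    simp

theorem pick {α β : Type} [Enc α] [Enc β] {l : α → List β} (hl : PT l) {R : α → β → Prop}
    (hR : PP fun z : α × β => R z.1 z.2) (d : β) :
    PS fun a b => (∃ b' ∈ l a, R a b') → R a b := by
  classical
  refine ⟨fun a => ((l a).find? fun b => decide (R a b)).getD d,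
    PT.getD (PT.find? (PT.decide hR) hl) (PT.const d), fun a ⟨b, h1, h2⟩ => ?_⟩
  beta_reduce
  cases h : (l a).find? fun b => decide (R a b) with
  | none => exact absurd (decide_eq_true h2) (List.find?_eq_none.1 h b h1)
  | some b' => simpa using List.find?_some h

theorem flex_of {f : List Bool → List Bool} (hf : PT f) {q : ℕ}
    {wd : List Unit × List Bool → List Bool} {r : ℕ → ℕ} (hwd : PT wd)
    (hr : PT fun m : List Unit => r m.length) (hr' : Pb r)
    (hpn : ∀ m y, pn (wd (m, y)) = m.length ∧ pn (tl (tl (wd (m, y)))) = q) {C : List Unit → ℕ → ℕ}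
    (hcnt : ∀ m y g, cnt (wd (m, y)) g = if g < m.length + 2 then
      C m g + ∑ i ∈ range (r m.length), (y.getD (r m.length * g + i) false).toNat else 0)
    {cd : List Unit × ℕ × List Bool × List ℕ → List (List Bool)} (hcd : PT cd)
    (h : ∀ (m : List Unit) g y O, g < m.length + 2 → O.length ≤ m.length + 2 →
      y.length = r m.length * (m.length + 2) →
      (∀ i, r m.length * g ≤ i → y.getD i false = false) → ∀ c b, ∃ v ∈ cd (m, g, y, O),
        v.length ≤ r m.length ∧
        decide ((c + ∑ i ∈ range (r m.length), (v.getD i false).toNat) % q ≠ 0) = b ∧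
        ∀ o ∈ O, (f (wd (m, upd (r m.length) g y v)))[o]? = (f (wd (m, y)))[o]?) : Flex f := by
  have h1 : PB fun m : List Unit => r m.length := hr'.pb (by fun_prop)
  have h2 : PT fun z : List Unit × ℕ × List Bool × List Bool =>
      upd (r z.1.length) z.2.1 z.2.2.1 z.2.2.2 := by
    have := hr.comp' (f := fun z : (List Unit × ℕ × List Bool × List Bool) × ℕ => z.1.1)
      (by fun_prop)
    refine PT.map (PT.or (by fun_prop) (PT.and (PT.decide (PP.le (this.mul (by fun_prop))
      (by fun_prop))) (PT.listGetD (by fun_prop) (PT.sub (by fun_prop) (this.mul (by fun_prop)))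
        (by fun_prop)))) (by fun_prop)
  obtain ⟨up, hup⟩ : ∃ up : List Unit × ℕ × List Bool × List Bool → List Bool, ∀ m g y v,
    upd (r m.length) g y v = up (m, g, y, v) :=
    ⟨fun z => upd (r z.1.length) z.2.1 z.2.2.1 z.2.2.2, fun _ _ _ _ => rfl⟩
  have h3 : PT up := h2.of_eq fun z => (hup _ _ _ _).symm
  obtain ⟨len, hlen⟩ : ∃ len : List Unit → ℕ, ∀ m, r m.length = len m := ⟨_, fun _ => rfl⟩
  have h4 : PT len := hr.of_eq fun z => (hlen _).symm
  obtain ⟨g, hg, h5⟩ := pick (l := fun z : List Unit × ℕ × List Bool × List ℕ × Bool =>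
    cd (z.1, z.2.1, z.2.2.1, z.2.2.2.1)) (R := fun z v => v.length ≤ len z.1 ∧
      sem (wd (z.1, up (z.1, z.2.1, z.2.2.1, v))) z.2.1 = z.2.2.2.2 ∧
      ∀ o ∈ z.2.2.2.1, (f (wd (z.1, up (z.1, z.2.1, z.2.2.1, v))))[o]? =
        (f (wd (z.1, z.2.2.1)))[o]?) (by fun_prop) (by fun_prop) []
  refine ⟨wd, fun m => List.replicate (r m.length * (m.length + 2)) false,
    fun m t y => y.length = r m.length * (m.length + 2) ∧
      ∀ i, r m.length * t ≤ i → y.getD i false = false, fun n => r n * (n + 2), hwd,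
    PT.replicate (hr.mul (by fun_prop)) (h1.mul (by fun_prop)) (by fun_prop), by fun_prop,
    fun m => ⟨by simp, fun i _ => by
      simp only [List.getD_eq_getElem?_getD, List.getElem?_replicate]; split_ifs <;> rfl⟩,
    fun m t y hy => ⟨hy.1.le, (hpn _ _).1⟩,
    fun z => up (z.1, z.2.1, z.2.2.1, g z), by fun_prop, ?_⟩
  rintro ⟨m, t, y, O, b⟩ ht hO ⟨hy, h7⟩
  simp only [← hup, ← hlen] at ht hO hy h7 h5 ⊢
  have h6 : t < m.length + 2 := by omega
  have h8 : ∀ v : List Bool, v.length ≤ r m.length → ∀ g',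
      cnt (wd (m, upd (r m.length) t y v)) g' = cnt (wd (m, y)) g' +
        if g' = t then ∑ i ∈ range (r m.length), (v.getD i false).toNat else 0 := by
    intro v hv g'
    simp only [hcnt, upd_getD hy h6 hv]
    by_cases e : g' = t
    · simp [e, h6, h7, -List.getD_eq_getElem?_getD]
    · rw [if_neg e, add_zero]
      congr 2
      refine sum_congr rfl fun i hi => ?_
      have := mem_range.1 hi
      rcases Nat.lt_or_gt_of_ne e with e | e
      · have := Nat.mul_le_mul_left (r m.length) e
        rw [Nat.mul_succ] at this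
        rw [decide_eq_false (by omega), Bool.false_and, Bool.or_false]
      · have := Nat.mul_le_mul_left (r m.length) e
        rw [Nat.mul_succ] at this
        rw [List.getD_eq_default v _ (by omega), Bool.and_false, Bool.or_false]
  obtain ⟨a1, a2, a3⟩ := h5 (m, t, y, O, b) (by
    obtain ⟨v, b1, b2, b3, b4⟩ := h m _ y O h6 hO hy h7 (cnt (wd (m, y)) t) b
    exact ⟨v, b1, b2, by simpa only [sem, h8 v b2, (hpn _ _).2, if_true] using b3, b4⟩)
  simp only at a1 a2 a3
  refine ⟨⟨by simp [upd, hy], fun i hi => ?_⟩, a3, a2, fun t' ht' => ?_⟩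
  · rw [Nat.mul_succ] at hi
    rw [upd_getD hy h6 a1, h7 i (by omega), List.getD_eq_default _ _ (by omega)]
    simp
  · simp only [sem, h8 _ a1, (hpn _ _).2, if_neg ht', add_zero]

end Pool.Agent.MP_8a92de_lc.H86

end
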