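import Pool.Agent.MP_8a92de_lc.Mg.H86U_Flex

-- part MP_8a92de_lc.H86U.Kd
section

/-! Iterated differences of functions on a cube along sets of variables. -/

namespace Pool.Agent.MP_8a92de_lc.H86

open Finset Function Pool.Agent.Lib.Cx

variable {F : Type} [CommRing F] {ι κ : Type}

/-- Set the variables in `u` to zero. -/
def kill (u x : ι → Bool) : ι → Bool := fun i => x i && !u i

/-- Keep the first `k` variables. -/
def cut (k : ℕ) (y : ℕ → Bool) : ℕ → Bool := fun i => y i && decide (i < k)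

/-- Alternating sum over all ways of killing some of the sets `u 0, .., u (n-1)`. -/
def kd {R : Type} [Sub R] : ℕ → (ℕ → ι → Bool) → ((ι → Bool) → R) → (ι → Bool) → R
  | 0, _, φ, x => φ x
  | n + 1, u, φ, x => kd n u φ x - kd n u φ (kill (u n) x)

/-- The sets `u 0, .., u (n-1)` are pairwise disjoint. -/
def Disj (n : ℕ) (u : ℕ → ι → Bool) : Prop :=
  ∀ l < n, ∀ l' < n, ∀ i, u l i = true → u l' i = true → l = l'

theorem isProj_and (o : ι → κ) (W : ι → Bool) : IsProj fun (y : κ → Bool) i => y (o i) && W i := by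
  intro i
  cases e : W i
  · exact Or.inl ⟨false, fun y => by simp [e]⟩
  · exact Or.inr ⟨o i, false, fun y => by simp [e]⟩

theorem isProj_or (w : ι → Bool) : IsProj fun (y : ι → Bool) i => y i || w i := by
  intro i
  cases e : w i
  · exact Or.inr ⟨i, false, fun y => by simp [e]⟩
  · exact Or.inl ⟨true, fun y => by simp [e]⟩

theorem isProj_comp (o : ι → κ) : IsProj fun (y : κ → Bool) i => y (o i) :=
  fun i => Or.inr ⟨o i, false, fun _ => (Bool.false_xor _).symm⟩

variable {n : ℕ} {u : ℕ → ι → Bool} {φ ψ : (ι → Bool) → F}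

theorem kd_add (x : ι → Bool) : kd n u (φ + ψ) x = kd n u φ x + kd n u ψ x := by
  induction n generalizing x with
  | zero => rfl
  | succ n ih => simp only [kd, ih]; ring

theorem kd_sub (x : ι → Bool) : kd n u (fun y => φ y - ψ y) x = kd n u φ x - kd n u ψ x := by
  induction n generalizing x with
  | zero => rfl
  | succ n ih => simp only [kd, ih]; ring

theorem kd_smul (c : F) (x : ι → Bool) : kd n u (c • φ) x = c * kd n u φ x := by
  induction n generalizing x with
  | zero => rfl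
  | succ n ih => simp only [kd, ih]; ring

theorem kd_zero (x : ι → Bool) : kd n u (0 : (ι → Bool) → F) x = 0 := by
  simpa using kd_smul (n := n) (u := u) (φ := (0 : (ι → Bool) → F)) 0 x

theorem kd_sum {μ : Type} (s : Finset μ) (f : μ → (ι → Bool) → F) (x : ι → Bool) :
    kd n u (fun y => ∑ m ∈ s, f m y) x = ∑ m ∈ s, kd n u (f m) x := by
  induction n generalizing x with
  | zero => rfl
  | succ n ih => simp only [kd, ih, sum_sub_distrib]

theorem mon_eq (S : Finset ι) (x : ι → Bool) :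
    mon F S x = if ∀ i ∈ S, x i = true then 1 else 0 := by
  split_ifs with h
  · exact prod_eq_one fun i hi => by rw [h i hi, tf_true]
  · push Not at h
    obtain ⟨i, hi, h⟩ := h
    exact prod_eq_zero hi (by simp [h])

open Classical in
theorem kd_mon (S : Finset ι) (x : ι → Bool) :
    kd n u (mon F S) x = if ∀ l < n, ∃ i ∈ S, u l i = true then mon F S x else 0 := by
  induction n generalizing x with
  | zero => simp [kd]
  | succ n ih =>
    simp only [kd, ih, Nat.forall_lt_succ_right]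
    by_cases h1 : ∀ l < n, ∃ i ∈ S, u l i = true
    · by_cases h2 : ∃ i ∈ S, u n i = true
      · rw [if_pos h1, if_pos h1, if_pos ⟨h1, h2⟩]
        obtain ⟨i, hi, h2⟩ := h2
        rw [mon_eq S (kill _ _), if_neg fun h => by simpa [kill, h2] using h i hi, sub_zero]
      · rw [if_pos h1, if_pos h1, if_neg fun h => h2 h.2, sub_eq_zero]
        push Not at h2
        exact prod_congr rfl fun i hi => by simp [kill, h2 i hi]
    · simp [h1]

theorem transversal (hu : Disj n u) {S : Finset ι} (h : ∀ l < n, ∃ i ∈ S, u l i = true) :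
    n ≤ S.card ∧ (S.card ≤ n → (∀ i ∈ S, ∃ l < n, u l i = true) ∧
      ∀ l < n, ∃ i ∈ S, u l i = true ∧ ∀ i' ∈ S, u l i' = true → i' = i) := by
  classical
  choose e h1 h2 using fun l : Fin n => h l l.2
  have h3 : (univ.image e).card = n := by
    rw [card_image_of_injective _ fun l l' (he : e l = e l') =>
      Fin.ext (hu l l.2 l' l'.2 _ (h2 l) (he ▸ h2 l')),
      card_univ, Fintype.card_fin]
  have h4 : univ.image e ⊆ S := image_subset_iff.2 fun l _ => h1 l
  refine ⟨h3 ▸ card_le_card h4, fun h5 => ?_⟩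
  have h6 : ∀ i ∈ S, ∃ l, e l = i := fun i hi => by
    rw [← eq_of_subset_of_card_le h4 (by omega)] at hi
    simpa using hi
  refine ⟨fun i hi => ?_, fun l hl => ⟨e ⟨l, hl⟩, h1 _, h2 ⟨l, hl⟩, fun i hi h7 => ?_⟩⟩
  · obtain ⟨l, rfl⟩ := h6 i hi
    exact ⟨l, l.2, h2 l⟩
  · obtain ⟨l', rfl⟩ := h6 i hi
    exact congrArg e (Fin.ext (hu l' l'.2 l hl _ (h2 l') h7))

/-- The top difference is additive in the part of the point that lies in `u l`. -/
theorem kd_split (hu : Disj n u) (h : φ ∈ Deg F ι n) {l : ℕ} (hl : l < n) {x y z : ι → Bool}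
    (h1 : ∀ i, u l i = false → y i = x i ∧ z i = x i)
    (h2 : ∀ i, u l i = true → tf F (x i) = tf F (y i) + tf F (z i)) :
    kd n u φ x = kd n u φ y + kd n u φ z := by
  classical
  refine Deg.ind (P := fun φ => kd n u φ x = kd n u φ y + kd n u φ z) (fun S hS => ?_)
    (by simp only [kd_zero, add_zero]) (fun f g h1 h2 => by simp only [kd_add, h1, h2]; ring)
    (fun c f h1 => by simp only [kd_smul, h1]; ring) h
  simp only [kd_mon]
  split_ifs with hc
  · obtain ⟨i, hi, h3, h4⟩ := ((transversal hu hc).2 hS).2 l hl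
    have h5 : ∀ j ∈ S.erase i, u l j = false := fun j hj => by
      by_contra h6
      exact ne_of_mem_erase hj (h4 j (mem_of_mem_erase hj) (by simpa using h6))
    simp only [mon, ← mul_prod_erase _ _ hi, h2 i h3, add_mul]
    congr 2
    · exact prod_congr rfl fun j hj => by rw [(h1 j (h5 j hj)).1]
    · exact prod_congr rfl fun j hj => by rw [(h1 j (h5 j hj)).2]
  · simp

theorem kd_map {R : Type} [Sub R] {φ : (ι → Bool) → R} {w : ℕ → κ → Bool}
    {X : (κ → Bool) → ι → Bool} (P : (κ → Bool) → Prop) (h1 : ∀ l < n, ∀ z, P z → P (kill (w l) z))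
    (h2 : ∀ l < n, ∀ z, P z → X (kill (w l) z) = kill (u l) (X z)) {z : κ → Bool} (hz : P z) :
    kd n w (fun y => φ (X y)) z = kd n u φ (X z) := by
  induction n generalizing z with
  | zero => rfl
  | succ n ih =>
    have ih' := fun z hz => ih (fun l hl => h1 l (by omega)) (fun l hl => h2 l (by omega)) (z := z) hz
    simp only [kd]
    rw [ih' z hz, ih' _ (h1 n (by omega) z hz), h2 n (by omega) z hz]

theorem kd_congr {R : Type} [Sub R] {φ ψ : (ι → Bool) → R} {x : ι → Bool}
    (h : ∀ y, (∀ i, y i = true → x i = true) → φ y = ψ y) : kd n u φ x = kd n u ψ x := by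
  induction n generalizing x with
  | zero => exact h x fun _ h => h
  | succ n ih =>
    simp only [kd]
    rw [ih h, ih fun y hy => h y fun i hi => by have := hy i hi; simp [kill] at this; exact this.1]

/-- The difference vanishes if killing one of the sets changes nothing. -/
theorem kd_indep {l : ℕ} (hl : l < n) {x : ι → Bool}
    (h : ∀ y, (∀ i, y i = true → x i = true) → φ (kill (u l) y) = φ y) : kd n u φ x = 0 := by
  induction n generalizing x with
  | zero => omega
  | succ n ih =>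
    rcases Nat.lt_succ_iff_lt_or_eq.1 hl with h1 | rfl
    · rw [kd, ih h1 h, ih h1 fun y hy => h y fun i hi => by
        have := hy i hi; simp [kill] at this; exact this.1, sub_self]
    · rw [kd, sub_eq_zero, ← kd_map (w := u) (X := kill (u l)) (fun _ => True) (fun _ _ _ _ => trivial)
        (fun _ _ _ _ => funext fun i => by simp only [kill]; ac_rfl) trivial]
      exact kd_congr fun y hy => (h y hy).symm

theorem kd_empty {l : ℕ} (hl : l < n) {x : ι → Bool} (h : ∀ i, x i = true → u l i = false) :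
    kd n u φ x = 0 :=
  kd_indep hl fun y hy => congrArg φ (funext fun i => by
    cases e : y i
    · simp [kill, e]
    · simp [kill, e, h i (hy i e)])

theorem Deg.coeff_cut {D : ℕ} {φ : (ℕ → Bool) → F} (h : φ ∈ Deg F ℕ D) (k : ℕ) :
    ∃ c : Finset ℕ → F, (∀ S, c S ≠ 0 → S.card ≤ D) ∧
      ∀ y, φ (cut k y) = ∑ S ∈ (range k).powerset, c S * mon F S y := by
  refine Deg.ind (P := fun φ => ∃ c : Finset ℕ → F, (∀ S, c S ≠ 0 → S.card ≤ D) ∧
    ∀ y, φ (cut k y) = ∑ S ∈ (range k).powerset, c S * mon F S y)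
    (fun S hS => ⟨Pi.single S 1, fun T hT => ?_, fun y => ?_⟩) ⟨0, by simp, by simp⟩ ?_ ?_ h
  · by_cases h : T = S
    · rwa [h]
    · simp [h] at hT
  · simp only [Pi.single_apply, ite_mul, one_mul, zero_mul, sum_ite_eq', mem_powerset]
    split_ifs with e
    · exact prod_congr rfl fun i hi => by simp [cut, mem_range.1 (e hi)]
    · obtain ⟨i, hi, e⟩ := not_subset.1 e
      exact prod_eq_zero hi (by simp [cut, mem_range.not.1 e])
  · rintro f g ⟨c, h1, h2⟩ ⟨d, h3, h4⟩
    refine ⟨c + d, fun S hS => ?_, fun x => by simp [h2, h4, add_mul, sum_add_distrib]⟩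
    by_cases h : c S = 0
    · exact h3 S (by simpa [h] using hS)
    · exact h1 S h
  · rintro a f ⟨c, h1, h2⟩
    refine ⟨a • c, fun S hS => h1 S fun h => hS (by simp [h]), fun x => ?_⟩
    simp [h2, mul_sum, mul_assoc]

/-- If all top differences vanish, the degree drops. -/
theorem Deg.drop {D k : ℕ} {φ : (ℕ → Bool) → F} (h : φ ∈ Deg F ℕ (D + 1))
    (h0 : ∀ S ⊆ range k, S.card = D + 1 → ∃ e : ℕ → ℕ, (∀ l < D + 1, e l ∈ S) ∧
      (∀ i ∈ S, ∃ l < D + 1, e l = i) ∧
      kd (D + 1) (fun l i => decide (i = e l)) φ (fun i => decide (i ∈ S)) = 0) :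
    (fun y => φ (cut k y)) ∈ Deg F ℕ D := by
  obtain ⟨c, h1, h2⟩ := Deg.coeff_cut h k
  simp only [h2]
  refine Deg.sum' fun S hS => ?_
  by_cases h3 : c S = 0
  · simpa [h3] using Deg.const D (0 : F)
  refine Deg.mul (a := 0) (Deg.const _ _) (mon_mem ?_) |> Deg.mono_le (by simp; rfl)
  by_contra h4
  have h5 : S.card = D + 1 := by have := h1 S h3; omega
  obtain ⟨e, h6, h7, h8⟩ := h0 S (mem_powerset.1 hS) h5
  rw [kd_congr (ψ := fun y => φ (cut k y)) fun y hy => congrArg φ (funext fun i => by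
    cases e1 : y i
    · simp [cut, e1]
    · simp [cut, e1, mem_range.1 (mem_powerset.1 hS (by simpa using hy i e1))])] at h8
  simp only [h2, kd_sum] at h8
  rw [sum_eq_single S] at h8
  · change kd _ _ (c S • mon F S) _ = 0 at h8
    rw [kd_smul, kd_mon, if_pos fun l hl => ⟨e l, h6 l hl, by simp⟩, mon_eq, if_pos (by simp),
      mul_one] at h8
    exact h3 h8
  · intro T _ hT
    change kd _ _ (c T • mon F T) _ = 0
    rw [kd_smul, kd_mon]
    by_cases h9 : c T = 0
    · rw [h9, zero_mul]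
    · rw [if_neg, mul_zero]
      intro hc
      refine hT (eq_of_subset_of_card_le (fun i hi => ?_) (h5 ▸ h1 T h9)).symm
      obtain ⟨l, hl, rfl⟩ := h7 i hi
      obtain ⟨j, hj, h10⟩ := hc l hl
      rwa [← of_decide_eq_true h10]
  · exact fun h => absurd hS h

theorem exists_enum {S : Finset ℕ} {D : ℕ} (h : S.card = D) : ∃ τ : List ℕ, τ.Nodup ∧
    τ.length = D ∧ (∀ i, i ∈ τ ↔ i ∈ S) ∧ (∀ l < D, τ.getD l 0 ∈ S) ∧
      ∀ i ∈ S, ∃ l < D, τ.getD l 0 = i := by
  refine ⟨S.toList, nodup_toList S, by simp [h], by simp, fun l hl => ?_, fun i hi => ?_⟩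
  · rw [List.getD_eq_getElem _ _ (by simpa [h] using hl)]
    exact mem_toList.1 (List.getElem_mem _)
  · obtain ⟨l, hl, h1⟩ := List.getElem_of_mem (mem_toList.2 hi)
    exact ⟨l, by simpa [h] using hl, by rw [List.getD_eq_getElem _ _ hl, h1]⟩

section

variable {α β γ : Type} [Enc α] [Enc β] [Enc ι] {p : ℕ} [NeZero p]

theorem BB.kd {Φ : α → (ι → Bool) → ZMod p} (h : BB Φ) (n : ℕ) {u : α → ℕ → ι → Bool}
    (hu : PT fun z : α × ℕ × ι => u z.1 z.2.1 z.2.2) : BB fun a => kd n (u a) (Φ a) := by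
  induction n with
  | zero => exact h
  | succ n ih =>
    intro β _ σ x hσ hx
    refine pt_zsub (ih β σ x hσ hx) (ih β σ _ hσ ?_)
    unfold kill
    fun_prop

end

end Pool.Agent.MP_8a92de_lc.H86

end

-- part MP_8a92de_lc.H86U.ZS1
section

/-! Linear dependencies in polynomial time. -/

namespace Pool.Agent.MP_8a92de_lc.H86

open Finset Function Pool.Agent.Lib.Cx

section

variable {p : ℕ} [Fact p.Prime] {α : Type} [Enc α]

/-- Entry of a matrix given by lists. -/
def zs1_en (M : List (List (ZMod p))) (j i : ℕ) : ZMod p := (M.getD j []).getD i 0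

/-- The square matrix with the given entries. -/
def zs1_mx (n : ℕ) (f : ℕ → ℕ → ZMod p) : List (List (ZMod p)) :=
  (List.range n).map fun j => (List.range n).map fun i => f j i

/-- Some index below `n` where `w` is not zero, if there is one. -/
def zs1_pv (n : ℕ) (w : ℕ → ZMod p) : ℕ := ((List.range n).find? fun k => decide (w k ≠ 0)).getD n

/-- Value of row `j` at the coordinate `w`. -/
def zs1_vl (n : ℕ) (w : ℕ → ZMod p) (M : List (List (ZMod p))) (j : ℕ) : ZMod p :=
  ∑ i ∈ range n, zs1_en M j i * w i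

/-- Subtracting multiples of row `k`. -/
def zs1_sub (n : ℕ) (c : ℕ → ZMod p) (k : ℕ) (M : List (List (ZMod p))) : List (List (ZMod p)) :=
  zs1_mx n fun j i => zs1_en M j i - c j * (c k)⁻¹ * zs1_en M k i

/-- One elimination step. -/
def zs1_st (n : ℕ) (w : ℕ → ZMod p) (M : List (List (ZMod p))) : List (List (ZMod p)) :=
  zs1_sub n (zs1_vl n w M) (zs1_pv n (zs1_vl n w M)) M

theorem zs1_en_mx (n : ℕ) (f : ℕ → ℕ → ZMod p) (j i : ℕ) :
    zs1_en (zs1_mx n f) j i = if j < n ∧ i < n then f j i else 0 := by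
  unfold zs1_en zs1_mx
  by_cases hj : j < n <;> by_cases hi : i < n <;> simp [List.getD_eq_getElem?_getD, hj, hi]

theorem zs1_size_mx (n : ℕ) (f : ℕ → ℕ → ZMod p) :
    size (zs1_mx n f) ≤ n * (2 * (n * (2 * p + 1)) + 1) := by
  refine (size_list_le _ (n * (2 * p + 1)) fun u hu => ?_).trans (by simp [zs1_mx])
  obtain ⟨j, -, rfl⟩ := List.mem_map.1 hu
  exact (size_list_le _ p fun a _ => size_zmod_le a).trans (by simp)

theorem zs1_pv_spec (n : ℕ) (w : ℕ → ZMod p) :
    (zs1_pv n w < n ∧ w (zs1_pv n w) ≠ 0) ∨ (zs1_pv n w = n ∧ ∀ j < n, w j = 0) := by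
  unfold zs1_pv
  cases h : (List.range n).find? fun k => decide (w k ≠ 0) with
  | none => exact Or.inr ⟨rfl, by simpa using h⟩
  | some k =>
    exact Or.inl ⟨List.mem_range.1 (List.mem_of_find?_eq_some h), by simpa using List.find?_some h⟩

theorem zs1_vl_sub (n : ℕ) (c w : ℕ → ZMod p) (k : ℕ) (M : List (List (ZMod p))) {j : ℕ}
    (hj : j < n) :
    zs1_vl n w (zs1_sub n c k M) j = zs1_vl n w M j - c j * (c k)⁻¹ * zs1_vl n w M k := by
  unfold zs1_vl zs1_sub
  rw [mul_sum, ← sum_sub_distrib]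
  refine sum_congr rfl fun i hi => ?_
  rw [zs1_en_mx, if_pos ⟨hj, mem_range.1 hi⟩]
  ring

/-- The invariant: the rows vanish on the coordinates seen, and at most one private index is lost
for each of them. -/
def zs1_I {μ : Type} (n : ℕ) (v : μ → ℕ → ZMod p) (l : List μ) (M : List (List (ZMod p))) : Prop :=
  (∀ m ∈ l, ∀ j < n, zs1_vl n (v m) M j = 0) ∧ ∃ A ⊆ range n, n ≤ A.card + l.length ∧
    ∀ j ∈ A, ∀ j' < n, zs1_en M j' j = if j' = j then 1 else 0

theorem zs1_step {μ : Type} {n : ℕ} {v : μ → ℕ → ZMod p} {l : List μ} {M : List (List (ZMod p))}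
    (h : zs1_I n v l M) (m : μ) : zs1_I n v (l ++ [m]) (zs1_st n (v m) M) := by
  obtain ⟨h1, A, hA, h2, h3⟩ := h
  unfold zs1_st
  rcases zs1_pv_spec n (zs1_vl n (v m) M) with ⟨hk, hk'⟩ | ⟨-, hk⟩
  · generalize zs1_pv n (zs1_vl n (v m) M) = k at hk hk'
    refine ⟨fun m' hm' j hj => ?_, A.erase k, (erase_subset _ _).trans hA, ?_, fun j hj j' hj' => ?_⟩
    · rw [zs1_vl_sub _ _ _ _ _ hj]
      rcases List.mem_append.1 hm' with h | h
      · rw [h1 m' h j hj, h1 m' h k hk, mul_zero, sub_zero]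
      · rw [List.mem_singleton.1 h, inv_mul_cancel_right₀ hk', sub_self]
    · have := pred_card_le_card_erase (s := A) (a := k)
      rw [List.length_append, List.length_singleton]
      omega
    · obtain ⟨a1, a2⟩ := mem_erase.1 hj
      rw [zs1_sub, zs1_en_mx, if_pos ⟨hj', mem_range.1 (hA a2)⟩, h3 j a2 j' hj', h3 j a2 k hk,
        if_neg a1.symm, mul_zero, sub_zero]
  · refine ⟨fun m' hm' j hj => ?_, A, hA, by simp; omega, fun j hj j' hj' => ?_⟩
    · rw [zs1_vl_sub _ _ _ _ _ hj, hk j hj, zero_mul, zero_mul, sub_zero]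
      rcases List.mem_append.1 hm' with h | h
      · exact h1 m' h j hj
      · rw [List.mem_singleton.1 h, hk j hj]
    · rw [zs1_sub, zs1_en_mx, if_pos ⟨hj', mem_range.1 (hA hj)⟩, h3 j hj j' hj', hk j' hj',
        zero_mul, zero_mul, sub_zero]

theorem zs1_fold {μ : Type} (n : ℕ) (v : μ → ℕ → ZMod p) (l : List μ) :
    zs1_I n v l (l.foldl (fun M m => zs1_st n (v m) M)
      (zs1_mx n fun j i => if j = i then 1 else 0)) := by
  induction l using List.reverseRecOn with
  | nil =>
    refine ⟨by simp, range n, Subset.rfl, by simp, fun j hj j' hj' => ?_⟩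
    rw [List.foldl_nil, zs1_en_mx, if_pos ⟨hj', mem_range.1 hj⟩]
  | append_singleton l m ih =>
    rw [List.foldl_append, List.foldl_cons, List.foldl_nil]
    exact zs1_step ih m

@[fun_prop] theorem zs1_pt_en {M : α → List (List (ZMod p))} {j i : α → ℕ} (h : PT M) (hj : PT j)
    (hi : PT i) : PT fun a => zs1_en (M a) (j a) (i a) := by unfold zs1_en; fun_prop

@[fun_prop] theorem zs1_pt_mx {n : α → ℕ} {f : α → ℕ → ℕ → ZMod p} (hn : PT n) (hb : PB n)
    (hf : PT fun z : (α × ℕ) × ℕ => f z.1.1 z.1.2 z.2) : PT fun a => zs1_mx (n a) (f a) :=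
  PT.map (PT.map hf (PT.range (hn.comp' (by fun_prop)) (hb.comp (by fun_prop)))) (PT.range hn hb)

@[fun_prop] theorem zs1_pt_pv {n : α → ℕ} {w : α → ℕ → ZMod p} (hn : PT n) (hb : PB n)
    (hw : PT fun z : α × ℕ => w z.1 z.2) : PT fun a => zs1_pv (n a) (w a) :=
  PT.getD (PT.find? (PT.decide (PP.ne hw (PT.const 0))) (PT.range hn hb)) hn

theorem zs1_pt_st {n : α → ℕ} {w : α → ℕ → ZMod p} {M : α → List (List (ZMod p))} (hn : PT n)
    (hb : PB n) (hw : PT fun z : α × ℕ => w z.1 z.2) (hM : PT M) :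
    PT fun a => zs1_st (n a) (w a) (M a) := by
  have h1 : PT fun z : α × ℕ => zs1_vl (n z.1) (w z.1) (M z.1) z.2 :=
    pt_zsum_range (hn.comp' (by fun_prop)) (hb.comp (by fun_prop))
      (pt_zmul (by fun_prop) (hw.comp' (f := fun z : (α × ℕ) × ℕ => (z.1.1, z.2)) (by fun_prop)))
  have h2 := zs1_pt_pv (w := fun a => zs1_vl (n a) (w a) (M a)) hn hb h1
  have h3 := h1.comp' (PT.id'.prodMk h2)
  refine zs1_pt_mx hn hb (pt_zsub (by fun_prop) (pt_zmul (pt_zmul ?_ (pt_zinv ?_)) ?_))
  · exact h1.comp' (f := fun z : (α × ℕ) × ℕ => z.1) (by fun_prop)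
  · exact h3.comp' (f := fun z : (α × ℕ) × ℕ => z.1.1) (by fun_prop)
  · exact zs1_pt_en (by fun_prop) (h2.comp' (f := fun z : (α × ℕ) × ℕ => z.1.1) (by fun_prop))
      (by fun_prop)

end

/-- More vectors than coordinates: a nontrivial linear dependency is found in polynomial time.
The vectors are indexed by `i < |s a|`, the coordinates by the members `m` of the list `L a`.
Gaussian elimination as a fold over the coordinates. -/
theorem lindep (p : ℕ) [Fact p.Prime] (α μ : Type) [Enc α] [Enc μ] (L : α → List μ)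
    (s : α → List Unit) (v : α → μ → ℕ → ZMod p) (hL : PT L) (hs : PT s)
    (hv : PT fun z : α × μ × ℕ => v z.1 z.2.1 z.2.2) :
    PS fun a (c : List (ZMod p)) => (L a).length < (s a).length →
      (∃ i < (s a).length, c.getD i 0 ≠ 0) ∧
        ∀ m ∈ L a, ∑ i ∈ range (s a).length, c.getD i 0 * v a m i = 0 := by
  let G : α → List (List (ZMod p)) := fun a => (L a).foldl
    (fun M m => zs1_st (s a).length (v a m) M)
    (zs1_mx (s a).length fun j i => if j = i then 1 else 0)
  have hG : PT G := PT.foldl_inv (f := fun a M m => zs1_st (s a).length (v a m) M)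
    (zs1_pt_st (by fun_prop) (by fun_prop)
      (hv.comp' (f := fun z : (α × List (List (ZMod p)) × μ) × ℕ => (z.1.1, z.1.2.2, z.2))
        (by fun_prop)) (by fun_prop)) hL
    (zs1_pt_mx (by fun_prop) (by fun_prop) (by fun_prop))
    (fun a M => size M ≤ (s a).length * (2 * ((s a).length * (2 * p + 1)) + 1))
    (fun _ => zs1_size_mx _ _) (fun _ _ _ _ _ => zs1_size_mx _ _) _ (by fun_prop) fun _ _ h => h
  refine ⟨fun a => (G a).getD (zs1_pv (s a).length fun j => zs1_en (G a) j j) [],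
    PT.listGetD hG (zs1_pt_pv (by fun_prop) (by fun_prop) (by fun_prop)) (PT.const _),
    fun a ha => ?_⟩
  obtain ⟨h1, A, hA, h2, h3⟩ : zs1_I _ _ _ (G a) := zs1_fold (s a).length (v a) (L a)
  rcases zs1_pv_spec (s a).length fun j => zs1_en (G a) j j with ⟨hk, hk'⟩ | ⟨-, hk⟩
  · exact ⟨⟨_, hk, hk'⟩, fun m hm => h1 m hm _ hk⟩
  · obtain ⟨j, hj⟩ := card_pos.1 (show 0 < A.card by omega)
    have a1 := mem_range.1 (hA hj)
    have a2 := h3 j hj j a1
    rw [hk j a1, if_pos rfl] at a2
    exact absurd a2 zero_ne_one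

end Pool.Agent.MP_8a92de_lc.H86

end

-- part MP_8a92de_lc.H86U.ZS2
section

/-! Zero-sum subsets in polynomial time. -/

namespace Pool.Agent.MP_8a92de_lc.H86

open Finset Function Pool.Agent.Lib.Cx

/-- From polynomially many vectors a nonempty zero-sum subset is found in polynomial time. -/
def ZeroSum (p e : ℕ) [NeZero p] : Prop :=
  ∀ (α μ : Type) [Enc α] [Enc μ] (L : α → List μ) (s : α → List Unit) (v : α → μ → ℕ → ZMod p),
    PT L → PT s → PT (fun z : α × μ × ℕ => v z.1 z.2.1 z.2.2) →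
    PS fun a (u : List Bool) => ((L a).length + 2) ^ e ≤ (s a).length →
      (∃ i < (s a).length, u.getD i false = true) ∧
        ∀ m ∈ L a, (∑ i ∈ range (s a).length, if u.getD i false then v a m i else 0) = 0

/-- A nontrivial relation with nonzero coefficients in `A` is found in polynomial time. -/
def zs2_Alg (p : ℕ) [NeZero p] (A : Set (ZMod p)) : Prop :=
  ∃ e : ℕ, ∀ (α μ : Type) [Enc α] [Enc μ] (L : α → List μ) (s : α → List Unit)
    (v : α → μ → ℕ → ZMod p), PT L → PT s → PT (fun z : α × μ × ℕ => v z.1 z.2.1 z.2.2) →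
    PS fun a (c : List (ZMod p)) => ((L a).length + 2) ^ e ≤ (s a).length →
      (∃ i < (s a).length, c.getD i 0 ≠ 0) ∧
        (∀ i < (s a).length, c.getD i 0 ≠ 0 → c.getD i 0 ∈ A) ∧
        ∀ m ∈ L a, ∑ i ∈ range (s a).length, c.getD i 0 * v a m i = 0

theorem zs2_mono {p : ℕ} [NeZero p] {A A' : Set (ZMod p)} (h : zs2_Alg p A)
    (h' : ∀ x ∈ A, x ≠ 0 → x ∈ A') : zs2_Alg p A' := by
  obtain ⟨e, h⟩ := h
  refine ⟨e, fun α μ _ _ L s v hL hs hv => (h α μ L s v hL hs hv).mono fun a c hc hle => ?_⟩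
  obtain ⟨h1, h2, h3⟩ := hc hle
  exact ⟨h1, fun i hi h0 => h' _ (h2 i hi h0) h0, h3⟩

theorem zs2_univ (p : ℕ) [Fact p.Prime] : zs2_Alg p Set.univ := by
  refine ⟨1, fun α μ _ _ L s v hL hs hv => (lindep p α μ L s v hL hs hv).mono fun a c hc hle => ?_⟩
  obtain ⟨h1, h3⟩ := hc (by rw [pow_one] at hle; omega)
  exact ⟨h1, fun _ _ _ => trivial, h3⟩

theorem zs2_table {p : ℕ} [NeZero p] {α : Type} [Enc α] (T : Finset (ZMod p) → ZMod p → ZMod p)
    {l : α → List (ZMod p)} {x : α → ZMod p} (hl : PT l) (hx : PT x) :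
    PT fun a => T (l a).toFinset (x a) := by
  classical
  let U : List (ZMod p) := (univ : Finset (ZMod p)).toList
  have h1 : PT fun a => U.filter fun y => decide (y ∈ l a) := by fun_prop
  have h2 := PT.subtypeMk (p := fun X => X ∈ U.sublists) h1
    fun a => List.mem_sublists.mpr List.filter_sublist
  refine ((PT.of_finite fun z : {X // X ∈ U.sublists} × ZMod p => T z.1.1.toFinset z.2).comp'
    (h2.prodMk hx)).of_eq fun a => ?_
  congr 1
  ext y
  simp [U]

theorem zs2_sum_mul {R : Type} [AddCommMonoid R] (f : ℕ → R) (N M : ℕ) :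
    ∑ k ∈ range (N * M), f k = ∑ j ∈ range N, ∑ i ∈ range M, f (j * M + i) := by
  induction N with
  | zero => simp
  | succ N ih => rw [Nat.succ_mul, sum_range_add, ih, sum_range_succ]

/-- Two-level composition: a relation `c` with coefficients in `B` inside each group gives the
vector `u = ∑ e (c i) • v i` and the representations `a • u = ∑ (a * e (c i) + l a * c i) • v i`. -/
theorem zs2_step {p : ℕ} [Fact p.Prime] {A A' B : Set (ZMod p)} (hB : zs2_Alg p B)
    (hA : zs2_Alg p A)
    (H : ∀ X : Finset (ZMod p), X.Nonempty → (∀ x ∈ X, x ≠ 0 ∧ x ∈ B) →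
      ∃ e l : ZMod p → ZMod p, ∀ a ∈ A, a ≠ 0 →
        (∀ x ∈ X, a * e x + l a * x ≠ 0 → a * e x + l a * x ∈ A') ∧
          ∃ x ∈ X, a * e x + l a * x ≠ 0) : zs2_Alg p A' := by
  classical
  have H' : ∀ Y : Finset (ZMod p), ∃ e l : ZMod p → ZMod p, e 0 = 0 ∧ l 0 = 0 ∧
      ((∃ x ∈ Y, x ≠ 0) → (∀ x ∈ Y, x ≠ 0 → x ∈ B) → ∀ a ∈ A, a ≠ 0 →
        (∀ x ∈ Y, a * e x + l a * x ≠ 0 → a * e x + l a * x ∈ A') ∧
          ∃ x ∈ Y, a * e x + l a * x ≠ 0) := by
    intro Y
    by_cases hY : (∃ x ∈ Y, x ≠ 0) ∧ ∀ x ∈ Y, x ≠ 0 → x ∈ B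
    · obtain ⟨⟨x, hx, hx0⟩, hY⟩ := hY
      obtain ⟨e, l, h⟩ := H (Y.erase 0) ⟨x, mem_erase.mpr ⟨hx0, hx⟩⟩
        fun y hy => ⟨(mem_erase.mp hy).1, hY y (mem_erase.mp hy).2 (mem_erase.mp hy).1⟩
      refine ⟨update e 0 0, update l 0 0, update_self .., update_self .., fun _ _ a ha ha0 => ?_⟩
      obtain ⟨h1, y, hy, h2⟩ := h a ha ha0
      rw [update_of_ne ha0]
      refine ⟨fun z hz => ?_, y, mem_of_mem_erase hy, by rwa [update_of_ne (mem_erase.mp hy).1]⟩
      by_cases hz0 : z = 0
      · simp [hz0]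
      · rw [update_of_ne hz0]
        exact h1 z (mem_erase.mpr ⟨hz0, hz⟩)
    · exact ⟨0, 0, rfl, rfl, fun h1 h2 => absurd ⟨h1, h2⟩ hY⟩
  choose E Λ hE0 hΛ0 hT using H'
  obtain ⟨e1, hB⟩ := hB
  obtain ⟨e2, hA⟩ := hA
  refine ⟨e2 + e1, fun α μ _ _ L s v hL hs hv => ?_⟩
  obtain ⟨M, hM⟩ : ∃ M : α → ℕ, M = fun a => ((L a).length + 2) ^ e1 := ⟨_, rfl⟩
  obtain ⟨N, hN⟩ : ∃ N : α → ℕ, N = fun a => ((L a).length + 2) ^ e2 := ⟨_, rfl⟩
  have hMt : PT M := by rw [hM]; fun_prop
  have hMb : PB M := by rw [hM]; fun_prop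
  have hNt : PT N := by rw [hN]; fun_prop
  have hNb : PB N := by rw [hN]; fun_prop
  have hM0 : ∀ a, 0 < M a := fun a => by rw [hM]; positivity
  have hMb' : ∀ {β : Type} [Enc β] {f : β → α}, PT f → PB fun z => M (f z) :=
    fun hf => hMb.comp hf
  obtain ⟨g1, hg1, h1⟩ := hB (α × ℕ) μ (fun z => L z.1) (fun z => List.replicate (M z.1) ())
    (fun z m i => v z.1 m (z.2 * M z.1 + i)) (by fun_prop)
    (PT.replicate (by fun_prop) (hMb' (by fun_prop)) (by fun_prop))
    (hv.comp' (f := fun z : (α × ℕ) × μ × ℕ => (z.1.1, z.2.1, z.1.2 * M z.1.1 + z.2.2))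
      (by fun_prop))
  simp only [List.length_replicate] at h1
  obtain ⟨Y, hY⟩ : ∃ Y : α → ℕ → List (ZMod p),
    Y = fun a j => (List.range (M a)).map fun i => (g1 (a, j)).getD i 0 := ⟨_, rfl⟩
  have hYt : PT fun z : α × ℕ => Y z.1 z.2 := by
    rw [hY]
    exact PT.map (by fun_prop) (PT.range (by fun_prop) (hMb' (by fun_prop)))
  have hYm : ∀ a j x, x ∈ (Y a j).toFinset ↔ ∃ i < M a, (g1 (a, j)).getD i 0 = x := by
    intro a j x
    simp [hY]
  obtain ⟨w, hw⟩ : ∃ w : α → μ → ℕ → ZMod p, w = fun a m j => ∑ i ∈ range (M a),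
    E (Y a j).toFinset ((g1 (a, j)).getD i 0) * v a m (j * M a + i) := ⟨_, rfl⟩
  have hwt : PT fun z : α × μ × ℕ => w z.1 z.2.1 z.2.2 := by
    rw [hw]
    refine pt_zsum_range (by fun_prop) (hMb' (by fun_prop)) (pt_zmul (zs2_table E
      (hYt.comp' (f := fun z : (α × μ × ℕ) × ℕ => (z.1.1, z.1.2.2)) (by fun_prop))
      (by fun_prop)) ?_)
    exact hv.comp' (f := fun z : (α × μ × ℕ) × ℕ => (z.1.1, z.1.2.1, z.1.2.2 * M z.1.1 + z.2))
      (by fun_prop)
  obtain ⟨g2, hg2, h2⟩ := hA α μ L (fun a => List.replicate (N a) ()) w hL (by fun_prop) hwt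
  simp only [List.length_replicate] at h2
  obtain ⟨cf, hcf⟩ : ∃ cf : α → ℕ → ℕ → ZMod p, cf = fun a j i =>
    (g2 a).getD j 0 * E (Y a j).toFinset ((g1 (a, j)).getD i 0)
      + Λ (Y a j).toFinset ((g2 a).getD j 0) * (g1 (a, j)).getD i 0 := ⟨_, rfl⟩
  have hct : PT fun z : α × ℕ × ℕ => cf z.1 z.2.1 z.2.2 := by
    rw [hcf]
    have hY' := hYt.comp' (f := fun z : α × ℕ × ℕ => (z.1, z.2.1)) (by fun_prop)
    exact pt_zadd (pt_zmul (by fun_prop) (zs2_table E hY' (by fun_prop)))
      (pt_zmul (zs2_table Λ hY' (by fun_prop)) (by fun_prop))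
  refine ⟨fun a => (List.range (s a).length).map fun k =>
    if k < N a * M a then cf a (k / M a) (k % M a) else 0, PT.map (PT.ite (by fun_prop)
      (hct.comp' (f := fun z : α × ℕ => (z.1, z.2 / M z.1, z.2 % M z.1)) (by fun_prop))
      (by fun_prop)) (by fun_prop), fun a hle => ?_⟩
  have hNM : N a * M a ≤ (s a).length := by rw [hN, hM, ← pow_add]; exact hle
  have hget : ∀ k < (s a).length, ((List.range (s a).length).map fun k =>
      if k < N a * M a then cf a (k / M a) (k % M a) else 0).getD k 0 =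
      if k < N a * M a then cf a (k / M a) (k % M a) else 0 := by
    intro k hk
    simp [List.getD_eq_getElem?_getD, hk]
  obtain ⟨⟨j0, hj0, hj0'⟩, hA2, hs2⟩ := h2 a (by rw [hN])
  have h1' := fun j => h1 (a, j) (by rw [hM])
  have hT' : ∀ j < N a, (g2 a).getD j 0 ≠ 0 →
      (∀ i < M a, cf a j i ≠ 0 → cf a j i ∈ A') ∧ ∃ i < M a, cf a j i ≠ 0 := by
    intro j hj hj'
    obtain ⟨⟨i0, hi0, hi0'⟩, hB1, -⟩ := h1' j
    obtain ⟨k1, x, hx, k2⟩ := hT (Y a j).toFinset ⟨_, (hYm a j _).mpr ⟨i0, hi0, rfl⟩, hi0'⟩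
      (fun x hx hx0 => by
        obtain ⟨i, hi, rfl⟩ := (hYm a j x).mp hx
        exact hB1 i hi hx0) _ (hA2 j hj hj') hj'
    obtain ⟨i, hi, rfl⟩ := (hYm a j x).mp hx
    rw [hcf]
    exact ⟨fun i hi => k1 _ ((hYm a j _).mpr ⟨i, hi, rfl⟩), i, hi, k2⟩
  have hdiv : ∀ j, ∀ i < M a, (j * M a + i) / M a = j ∧ (j * M a + i) % M a = i := by
    intro j i hi
    rw [add_comm, Nat.add_mul_div_right _ _ (hM0 a), Nat.add_mul_mod_self_right,
      Nat.div_eq_of_lt hi, Nat.mod_eq_of_lt hi, zero_add]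
    exact ⟨rfl, rfl⟩
  have hlt : ∀ j < N a, ∀ i < M a, j * M a + i < N a * M a := by
    intro j hj i hi
    have := Nat.mul_le_mul_right (M a) (Nat.succ_le_of_lt hj)
    rw [Nat.succ_mul] at this
    omega
  refine ⟨?_, fun k hk => ?_, fun m hm => ?_⟩
  · obtain ⟨i, hi, hi'⟩ := (hT' j0 hj0 hj0').2
    have := hlt j0 hj0 i hi
    refine ⟨j0 * M a + i, by omega, ?_⟩
    rwa [hget _ (by omega), if_pos this, (hdiv j0 i hi).1, (hdiv j0 i hi).2]
  · rw [hget k hk]
    split_ifs with h
    · intro h0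
      have hj : k / M a < N a := (Nat.div_lt_iff_lt_mul (hM0 a)).mpr h
      refine (hT' _ hj fun h3 => h0 ?_).1 _ (Nat.mod_lt _ (hM0 a)) h0
      simp only [hcf, h3, hΛ0, zero_mul, add_zero]
    · exact fun h0 => absurd rfl h0
  · rw [sum_congr rfl fun k hk => by rw [hget k (mem_range.mp hk)],
      ← sum_subset (range_subset_range.mpr hNM) fun k _ hk => by
        rw [if_neg (mt mem_range.mpr hk), zero_mul], zs2_sum_mul, ← hs2 m hm]
    refine sum_congr rfl fun j hj => ?_
    rw [sum_congr rfl fun i hi => by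
      rw [if_pos (hlt j (mem_range.mp hj) i (mem_range.mp hi)), (hdiv j i (mem_range.mp hi)).1,
        (hdiv j i (mem_range.mp hi)).2]]
    have h3 := (h1' j).2.2 m hm
    simp only [hcf, hw, add_mul, sum_add_distrib, mul_assoc, ← mul_sum]
    rw [h3, mul_zero, add_zero]

/-- Removal of a pair `± b` from a symmetric set of coefficients. -/
theorem zs2_sym {p : ℕ} [Fact p.Prime] {A A' : Set (ZMod p)} {b : ZMod p} (hA : zs2_Alg p A)
    (h1 : 1 ∈ A') (hs : ∀ x ∈ A', -x ∈ A') (hb : ∀ x ∈ A, x ∈ A' ∨ x = b ∨ x = -b) :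
    zs2_Alg p A' := by
  classical
  refine zs2_step hA hA fun X ⟨x0, hx0⟩ hX => ?_
  by_cases c1 : ∀ x ∈ X, x ∈ A'
  · exact ⟨0, 1, fun a _ _ => ⟨fun x hx _ => by simpa using c1 x hx, x0, hx0,
      by simpa using (hX x0 hx0).1⟩⟩
  push Not at c1
  obtain ⟨x1, hx1, hx1'⟩ := c1
  have hx1b := (hb x1 (hX x1 hx1).2).resolve_left hx1'
  have hb0 : b ≠ 0 := by
    rintro rfl
    exact (hX x1 hx1).1 (by simpa using hx1b)
  have hpm : ∀ x, x = b ∨ x = -b → ∀ y ∈ A', x * b⁻¹ * y ∈ A' ∧ -(x * b⁻¹) * y ∈ A' := by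
    rintro x (rfl | rfl) y hy <;> simp [hb0, hy, hs y hy]
  by_cases c2 : ∀ x ∈ X, x = b ∨ x = -b
  · refine ⟨0, fun _ => b⁻¹, fun a _ _ => ⟨fun x hx _ => ?_, x0, hx0, ?_⟩⟩
    · simpa [mul_comm] using (hpm x (c2 x hx) 1 h1).1
    · simpa [hb0] using (hX x0 hx0).1
  push Not at c2
  obtain ⟨x2, hx2, hx2'⟩ := c2
  refine ⟨fun x => if x = b ∨ x = -b then x * b⁻¹ else 0,
    fun a => if a = b ∨ a = -b then -(a * b⁻¹) else 0, fun a ha ha0 => ?_⟩
  by_cases hab : a = b ∨ a = -b
  · simp only [if_pos hab]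
    refine ⟨fun x hx h0 => ?_, x2, hx2, ?_⟩
    · by_cases hxb : x = b ∨ x = -b
      · rw [if_pos hxb] at h0
        exact absurd (by ring) h0
      · rw [if_neg hxb, mul_zero, zero_add]
        exact (hpm a hab x ((hb x (hX x hx).2).resolve_right hxb)).2
    · rw [if_neg (not_or.mpr hx2')]
      simp [ha0, hb0, (hX x2 hx2).1]
  · simp only [if_neg hab, zero_mul, add_zero]
    refine ⟨fun x hx h0 => ?_, x1, hx1, ?_⟩
    · by_cases hxb : x = b ∨ x = -b
      · rw [if_pos hxb, mul_comm]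
        exact (hpm x hxb a ((hb a ha).resolve_right hab)).1
      · rw [if_neg hxb] at h0
        exact absurd (mul_zero _) h0
    · rw [if_pos hx1b]
      simp [ha0, hb0, (hX x1 hx1).1]

theorem zs2_pm (p : ℕ) [Fact p.Prime] : zs2_Alg p {x | x = 1 ∨ x = -1} := by
  classical
  have : ∀ T : Finset (ZMod p), zs2_Alg p {x | x = 1 ∨ x = -1 ∨ x ∈ T ∨ -x ∈ T} →
      zs2_Alg p {x | x = 1 ∨ x = -1} := by
    intro T
    induction T using Finset.induction_on with
    | empty => exact fun h => zs2_mono h (by simp)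
    | insert b T _ ih =>
      refine fun h => ih (zs2_sym (b := b) h (Or.inl rfl) ?_ ?_)
      · rintro x (rfl | rfl | h | h) <;> simp [*]
      · intro x hx
        simp only [Set.mem_ofPred_eq, mem_insert, neg_eq_iff_eq_neg] at hx ⊢
        tauto
  exact this univ (zs2_mono (zs2_univ p) (by simp))

/-- Removal of the coefficient `b = (b - 1) + 1` with the help of two sets with equal sums. -/
theorem zs2_pos {p : ℕ} [Fact p.Prime] {A A' : Set (ZMod p)} {b : ZMod p} (hA : zs2_Alg p A)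
    (h1 : 1 ∈ A') (h2 : b - 1 ∈ A') (hb : ∀ x ∈ A, x ∈ A' ∨ x = b) : zs2_Alg p A' := by
  classical
  refine zs2_step (zs2_pm p) hA fun X ⟨x0, hx0⟩ hX => ?_
  by_cases c1 : ∀ x ∈ X, x = 1
  · exact ⟨0, 1, fun a _ _ => ⟨fun x hx _ => by simpa [c1 x hx] using h1, x0, hx0,
      by simpa using (hX x0 hx0).1⟩⟩
  by_cases c2 : ∀ x ∈ X, x = -1
  · exact ⟨0, -1, fun a _ _ => ⟨fun x hx _ => by simpa [c2 x hx] using h1, x0, hx0,
      by simpa using (hX x0 hx0).1⟩⟩
  push Not at c1 c2
  obtain ⟨x1, hx1, hx1'⟩ := c1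
  obtain ⟨x2, hx2, hx2'⟩ := c2
  have e2 : x2 = 1 := (hX x2 hx2).2.resolve_right hx2'
  refine ⟨fun x => if x = 1 then 1 else 0, fun a => if a = b then -1 else 0, fun a ha ha0 => ?_⟩
  by_cases hab : a = b
  · simp only [if_pos hab]
    refine ⟨fun x hx _ => ?_, x1, hx1, by simpa [hx1'] using (hX x1 hx1).1⟩
    by_cases hx' : x = 1
    · simpa [hx', hab, ← sub_eq_add_neg] using h2
    · rw [if_neg hx', (hX x hx).2.resolve_left hx']
      simpa using h1
  · simp only [if_neg hab, zero_mul, add_zero]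
    refine ⟨fun x hx h0 => ?_, x2, hx2, by simpa [e2] using ha0⟩
    by_cases hx' : x = 1
    · simpa [hx'] using (hb a ha).resolve_right hab
    · exact absurd (by simp [hx']) h0

theorem zs2_one (p : ℕ) [Fact p.Prime] : zs2_Alg p {1} := by
  have : ∀ k : ℕ, zs2_Alg p {x | ∃ t ≤ k, x = (t : ZMod p) + 1} → zs2_Alg p {1} := by
    intro k
    induction k with
    | zero => exact fun h => zs2_mono h (by simp)
    | succ k ih =>
      refine fun h => ih (zs2_pos (b := (k : ZMod p) + 1 + 1) h ⟨0, by simp⟩ ⟨k, by simp⟩ ?_)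
      rintro x ⟨t, ht, rfl⟩
      rcases ht.lt_or_eq with ht | rfl
      · exact Or.inl ⟨t, by omega, rfl⟩
      · exact Or.inr (by simp)
  exact this p (zs2_mono (zs2_univ p) fun x _ _ =>
    ⟨(x - 1).val, (ZMod.val_lt _).le, by simp⟩)

/-- Zero-sum subsets: the set of allowed coefficients of a linear relation is shrunk one value at a
time, first to `± 1` and then to `1`. -/
theorem zeroSum (p : ℕ) [Fact p.Prime] : ∃ e, ZeroSum p e := by
  obtain ⟨e, h⟩ := zs2_one p
  refine ⟨e, fun α μ _ _ L s v hL hs hv => ?_⟩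
  obtain ⟨g, hg, h⟩ := h α μ L s v hL hs hv
  have hget : ∀ (c : List (ZMod p)) i,
      (c.map fun x => decide (x ≠ 0)).getD i false = decide (c.getD i 0 ≠ 0) := by
    intro c i
    simpa using List.getD_map c 0 (n := i) fun x => decide (x ≠ 0)
  refine ⟨fun a => (g a).map fun x => decide (x ≠ 0), by fun_prop, fun a hle => ?_⟩
  obtain ⟨⟨i, hi, hi'⟩, h2, h3⟩ := h a hle
  refine ⟨⟨i, hi, by rw [hget]; exact decide_eq_true hi'⟩, fun m hm => ?_⟩
  refine (sum_congr rfl fun k hk => ?_).trans (h3 m hm)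
  rw [hget]
  by_cases h0 : (g a).getD k 0 = 0
  · rw [h0]
    simp
  · rw [if_pos (decide_eq_true h0), h2 k (mem_range.mp hk) h0, one_mul]

end Pool.Agent.MP_8a92de_lc.H86

end

-- part MP_8a92de_lc.H86U.ZS3
section

/-! Zero-sum subsets of nonzero weight in polynomial time. -/

namespace Pool.Agent.MP_8a92de_lc.H86

open Finset Function Pool.Agent.Lib.Cx

/-- From polynomially many vectors with nonzero weights modulo `q`, a zero-sum subset of nonzero
total weight is found in polynomial time. -/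
def SZS (p q e : ℕ) [NeZero p] [NeZero q] : Prop :=
  ∀ (α μ : Type) [Enc α] [Enc μ] (L : α → List μ) (s : α → List Unit) (v : α → μ → ℕ → ZMod p)
    (δ : α → ℕ → ZMod q), PT L → PT s → PT (fun z : α × μ × ℕ => v z.1 z.2.1 z.2.2) →
    PT (fun z : α × ℕ => δ z.1 z.2) →
    PS fun a (u : List Bool) => ((L a).length + 2) ^ e ≤ (s a).length → (∀ i, δ a i ≠ 0) →
      u.length = (s a).length ∧
        (∀ m ∈ L a, (∑ i ∈ range (s a).length, if u.getD i false then v a m i else 0) = 0) ∧
        (∑ i ∈ range (s a).length, if u.getD i false then δ a i else 0) ≠ 0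

section Aux

variable {α β μ : Type}

/-- sum over the indices with label `l` -/
def zs3_sv {M : Type} [AddCommMonoid M] (c : List (ℕ × Bool)) (l : ℕ × Bool) (f : ℕ → M)
    (S : ℕ) : M :=
  ∑ i ∈ range S, if c.getD i (0, false) = l then f i else 0

/-- a finished answer, or two families of `r` sets -/
def zs3_Good {p q : ℕ} (r : ℕ) (L : List μ) (S : ℕ) (v : μ → ℕ → ZMod p) (δ : ℕ → ZMod q)
    (c : List (ℕ × Bool)) : Prop :=
  ((∀ m ∈ L, zs3_sv c (1, true) (v m) S = 0) ∧ zs3_sv c (1, true) δ S ≠ 0) ∨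
    ∀ j < r, (∀ m ∈ L, zs3_sv c (j + 1, true) (v m) S = zs3_sv c (1, true) (v m) S ∧
      zs3_sv c (j + 1, false) (v m) S = -zs3_sv c (1, true) (v m) S) ∧
      zs3_sv c (j + 1, true) δ S = 1 ∧ zs3_sv c (j + 1, false) δ S = -1

/-- new labels on consecutive windows -/
def zs3_rel (S w N : ℕ) (g : ℕ → List (ℕ × Bool)) (φ : ℕ → ℕ × Bool → ℕ × Bool) :
    List (ℕ × Bool) :=
  (List.range S).map fun n =>
    if n / w < N then φ (n / w) ((g (n / w)).getD (n % w) (0, false)) else (0, false)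

theorem zs3_getD {γ : Type} {S i : ℕ} (hi : i < S) (F : ℕ → γ) (d : γ) :
    ((List.range S).map F).getD i d = F i := by
  simp [List.getD_eq_getElem?_getD, hi]

theorem zs3_sum_mul {M : Type} [AddCommMonoid M] (F : ℕ → M) (N w : ℕ) :
    ∑ n ∈ range (N * w), F n = ∑ t ∈ range N, ∑ i ∈ range w, F (t * w + i) := by
  induction N with
  | zero => simp
  | succ N ih => rw [Nat.succ_mul, sum_range_add, ih, sum_range_succ]

theorem zs3_rel_sv {M : Type} [AddCommMonoid M] {S w N : ℕ} (hw : 0 < w) (hS : N * w ≤ S)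
    (g : ℕ → List (ℕ × Bool)) {φ : ℕ → ℕ × Bool → ℕ × Bool} {l ψ : ℕ × Bool}
    (hl : l ≠ (0, false)) (P : ℕ → Prop) [DecidablePred P]
    (h : ∀ t x, φ t x = l ↔ P t ∧ x = ψ) (f : ℕ → M) :
    zs3_sv (zs3_rel S w N g φ) l f S =
      ∑ t ∈ range N, if P t then zs3_sv (g t) ψ (fun i => f (t * w + i)) w else 0 := by
  unfold zs3_sv zs3_rel
  rw [sum_congr rfl fun i hi => by rw [zs3_getD (mem_range.1 hi)]]
  rw [← sum_subset (range_subset_range.2 hS) fun n _ hn => ?_, zs3_sum_mul]
  · refine sum_congr rfl fun t ht => ?_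
    have e : ∀ i ∈ range w, (t * w + i) / w = t ∧ (t * w + i) % w = i := fun i hi => by
      rw [mul_comm]
      exact ⟨by rw [Nat.mul_add_div hw, Nat.div_eq_of_lt (mem_range.1 hi), add_zero],
        by rw [Nat.mul_add_mod, Nat.mod_eq_of_lt (mem_range.1 hi)]⟩
    by_cases hP : P t
    · rw [if_pos hP]
      refine sum_congr rfl fun i hi => ?_
      rw [(e i hi).1, (e i hi).2, if_pos (mem_range.1 ht)]
      exact if_congr ((h t _).trans (and_iff_right hP)) rfl rfl
    · rw [if_neg hP]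
      refine sum_eq_zero fun i hi => ?_
      rw [(e i hi).1, (e i hi).2, if_pos (mem_range.1 ht)]
      exact if_neg fun c => hP ((h t _).1 c).1
  · have : ¬ n / w < N := by
      rw [Nat.div_lt_iff_lt_mul hw]
      exact fun c => hn (mem_range.2 c)
    rw [if_neg this, if_neg hl.symm]

/-- doubling map -/
def zs3_dbl (r t0 : ℕ) (u : List Bool) (t : ℕ) (x : ℕ × Bool) : ℕ × Bool :=
  if t = t0 then (if x.1 ≤ r then x else (0, false))
  else if u.getD t false = true ∧ x.1 ≠ 0 then (x.1 + r, !x.2) else (0, false)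

theorem zs3_dbl_lo {r j : ℕ} (hj : j < r) (t0 : ℕ) (u : List Bool) (b : Bool) (t : ℕ)
    (x : ℕ × Bool) : zs3_dbl r t0 u t x = (j + 1, b) ↔ t = t0 ∧ x = (j + 1, b) := by
  obtain ⟨y, c⟩ := x
  unfold zs3_dbl
  split_ifs with h1 h2 h3 <;> simp only [Prod.mk.injEq] at * <;> simp only [h1, true_and,
    false_and, iff_false, not_and] <;> omega

theorem zs3_dbl_hi {r j : ℕ} (t0 : ℕ) (u : List Bool) (b : Bool) (t : ℕ)
    (x : ℕ × Bool) : zs3_dbl r t0 u t x = (j + r + 1, b) ↔
      (t ≠ t0 ∧ u.getD t false = true) ∧ x = (j + 1, !b) := by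
  obtain ⟨y, c⟩ := x
  unfold zs3_dbl
  split_ifs with h1 h2 h3
  · simp only [Prod.mk.injEq, h1, ne_eq, not_true, false_and, iff_false, not_and] at *
    omega
  · simp only [Prod.mk.injEq, h1, ne_eq, not_true, false_and, iff_false, not_and] at *
    omega
  · simp only [Prod.mk.injEq, ne_eq, h1, not_false_eq_true, h3.1, true_and]
    constructor
    · rintro ⟨a1, rfl⟩
      exact ⟨by omega, by simp⟩
    · rintro ⟨rfl, rfl⟩
      exact ⟨by omega, by simp⟩
  · simp only [Prod.mk.injEq, ne_eq, h1, not_false_eq_true, true_and]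
    constructor
    · rintro ⟨a1, -⟩
      omega
    · rintro ⟨a1, rfl, -⟩
      exact (h3 ⟨a1, by omega⟩).elim

theorem zs3_split {M : Type} [AddCommMonoid M] {N t0 : ℕ} (h0 : t0 < N) {P : ℕ → Prop}
    [DecidablePred P] (hP : P t0) (x : ℕ → M) : (∑ t ∈ range N, if P t then x t else 0) =
      x t0 + ∑ t ∈ range N, if t ≠ t0 ∧ P t then x t else 0 := by
  have e : x t0 = ∑ t ∈ range N, if t = t0 then x t else 0 := by
    rw [sum_ite_eq', if_pos (mem_range.2 h0)]
  rw [e, ← sum_add_distrib]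
  refine sum_congr rfl fun t _ => ?_
  by_cases h : t = t0
  · simp [h, hP]
  · simp [h]

theorem zs3_neg {M : Type} [AddCommGroup M] {N : ℕ} {P : ℕ → Prop} [DecidablePred P]
    {x y : ℕ → M} (h : ∀ t < N, y t = -x t) : (∑ t ∈ range N, if P t then y t else 0) =
      -∑ t ∈ range N, if P t then x t else 0 := by
  rw [← sum_neg_distrib]
  refine sum_congr rfl fun t ht => ?_
  rw [h t (mem_range.1 ht)]
  split_ifs <;> simp

theorem zs3_same {M : Type} [AddCommGroup M] {N : ℕ} {P : ℕ → Prop} [DecidablePred P]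
    {x y : ℕ → M} (h : ∀ t < N, y t = x t) : (∑ t ∈ range N, if P t then y t else 0) =
      ∑ t ∈ range N, if P t then x t else 0 :=
  sum_congr rfl fun t ht => by rw [h t (mem_range.1 ht)]

/-- the candidates of the doubling step -/
def zs3_cand (r S w N : ℕ) (g : ℕ → List (ℕ × Bool)) (u : List Bool) : List (List (ℕ × Bool)) :=
  zs3_rel S w N g (fun t x => if u.getD t false = true then x else (0, false)) ::
    (((List.range N).map fun t0 =>
      zs3_rel S w N g fun t x => if t = t0 then x else (0, false)) ++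
    (List.range N).map fun t0 => zs3_rel S w N g (zs3_dbl r t0 u))

theorem zs3_step {p q r S w N : ℕ} (hr : 0 < r) (hw : 0 < w) (hS : N * w ≤ S) {L : List μ}
    {v : μ → ℕ → ZMod p} {δ : ℕ → ZMod q} {g : ℕ → List (ℕ × Bool)} {u : List Bool}
    (hg : ∀ t, zs3_Good r L w (fun m i => v m (t * w + i)) (fun i => δ (t * w + i)) (g t))
    (h1 : ∃ t < N, u.getD t false = true)
    (h2 : ∀ m ∈ L, (∑ t ∈ range N, if u.getD t false = true then
      zs3_sv (g t) (1, true) (fun i => v m (t * w + i)) w else 0) = 0) :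
    ∃ c ∈ zs3_cand r S w N g u, zs3_Good (r + r) L S v δ c := by
  by_cases a : ∃ t0 < N, (∀ m ∈ L, zs3_sv (g t0) (1, true) (fun i => v m (t0 * w + i)) w = 0) ∧
      zs3_sv (g t0) (1, true) (fun i => δ (t0 * w + i)) w ≠ 0
  · obtain ⟨t0, a0, a1, a2⟩ := a
    have e : ∀ (t : ℕ) (x : ℕ × Bool), (if t = t0 then x else (0, false)) = (1, true) ↔
        t = t0 ∧ x = (1, true) := fun t x => by split_ifs with h <;> simp [h]
    refine ⟨zs3_rel S w N g fun t x => if t = t0 then x else (0, false),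
      List.mem_cons_of_mem _ (List.mem_append_left _
        (List.mem_map.2 ⟨t0, List.mem_range.2 a0, rfl⟩)), Or.inl ⟨fun m hm => ?_, ?_⟩⟩
    · rw [zs3_rel_sv hw hS g (by simp) _ e, sum_ite_eq', if_pos (mem_range.2 a0)]
      exact a1 m hm
    · rw [zs3_rel_sv hw hS g (by simp) _ e, sum_ite_eq', if_pos (mem_range.2 a0)]
      exact a2
  have b := fun t (ht : t < N) => (hg t).resolve_left fun c => a ⟨t, ht, c⟩
  by_cases c : (∑ t ∈ range N, if u.getD t false = true then (1 : ZMod q) else 0) = 0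
  · obtain ⟨t0, c0, c1⟩ := h1
    rw [zs3_split c0 c1 fun _ => (1 : ZMod q)] at c
    have one := fun m => zs3_rel_sv hw hS g (by simp) _ (zs3_dbl_lo hr t0 u true) (v m)
    refine ⟨zs3_rel S w N g (zs3_dbl r t0 u), List.mem_cons_of_mem _ (List.mem_append_right _
      (List.mem_map.2 ⟨t0, List.mem_range.2 c0, rfl⟩)), Or.inr fun j hj => ?_⟩
    simp only [zero_add, sum_ite_eq', if_pos (mem_range.2 c0)] at one
    by_cases d : j < r
    · have lo := fun (M : Type) [AddCommMonoid M] (b : Bool) (f : ℕ → M) =>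
        zs3_rel_sv hw hS g (by simp) _ (zs3_dbl_lo d t0 u b) f
      simp only [sum_ite_eq', if_pos (mem_range.2 c0)] at lo
      simp only [lo, one]
      exact b t0 c0 j d
    · obtain ⟨j, rfl⟩ : ∃ i, j = i + r := ⟨j - r, by omega⟩
      have d' : j < r := by omega
      have hi := fun (M : Type) [AddCommMonoid M] (b : Bool) (f : ℕ → M) =>
        zs3_rel_sv hw hS g (by simp) _ (zs3_dbl_hi (r := r) (j := j) t0 u b) f
      simp only [hi, one, Bool.not_true, Bool.not_false]
      refine ⟨fun m hm => ?_, ?_, ?_⟩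
      · have k := h2 m hm
        rw [zs3_split c0 c1] at k
        rw [zs3_neg fun t ht => ((b t ht j d').1 m hm).2,
          zs3_same fun t ht => ((b t ht j d').1 m hm).1]
        exact ⟨(eq_neg_of_add_eq_zero_left k).symm, eq_neg_of_add_eq_zero_right k⟩
      · rw [zs3_neg (x := fun _ => 1) fun t ht => (b t ht j d').2.2]
        exact (eq_neg_of_add_eq_zero_left c).symm
      · rw [zs3_same (x := fun _ => 1) fun t ht => (b t ht j d').2.1]
        exact eq_neg_of_add_eq_zero_right c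
  · have e : ∀ (t : ℕ) (x : ℕ × Bool), (if u.getD t false = true then x else (0, false)) =
        (1, true) ↔ u.getD t false = true ∧ x = (1, true) := fun t x => by
      split_ifs with h
      · exact (and_iff_right h).symm
      · exact ⟨fun c => absurd c (by simp), fun c => absurd c.1 h⟩
    refine ⟨_, List.mem_cons_self, Or.inl ⟨fun m hm => ?_, ?_⟩⟩
    · rw [zs3_rel_sv hw hS g (by simp) _ e]
      exact h2 m hm
    · rw [zs3_rel_sv hw hS g (by simp) _ e,
        zs3_same (x := fun _ => 1) fun t ht => (b t ht 0 hr).2.1]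
      exact c

/-- splitting off one index -/
def zs3_one (S : ℕ) (u : List Bool) (i0 : ℕ) (b : Bool) : List (ℕ × Bool) :=
  (List.range S).map fun i =>
    if i = i0 then (1, b) else if u.getD i false = true then (1, !b) else (0, false)

theorem zs3_one_sv {M : Type} [AddCommMonoid M] {S i0 : ℕ} (h0 : i0 < S) (u : List Bool)
    (b : Bool) (f : ℕ → M) : zs3_sv (zs3_one S u i0 b) (1, b) f S = f i0 ∧
      zs3_sv (zs3_one S u i0 b) (1, !b) f S =
        ∑ i ∈ range S, if i ≠ i0 ∧ u.getD i false = true then f i else 0 := by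
  unfold zs3_sv zs3_one
  constructor
  · have e : f i0 = ∑ t ∈ range S, if t = i0 then f t else 0 := by
      rw [sum_ite_eq', if_pos (mem_range.2 h0)]
    rw [e]
    refine sum_congr rfl fun i hi => ?_
    rw [zs3_getD (mem_range.1 hi)]
    refine if_congr ?_ rfl rfl
    split_ifs with h1 h2 <;> simp [h1]
  · refine sum_congr rfl fun i hi => ?_
    rw [zs3_getD (mem_range.1 hi)]
    refine if_congr ?_ rfl rfl
    split_ifs with h1 h2
    · simp [h1]
    · exact ⟨fun _ => ⟨h1, h2⟩, fun _ => rfl⟩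
    · exact ⟨fun c => absurd c (by simp), fun c => absurd c.2 h2⟩

theorem zs3_base {p q S : ℕ} {L : List μ}
    {v : μ → ℕ → ZMod p} {δ : ℕ → ZMod q} {u : List Bool} (hδ : ∀ i, δ i = 1 ∨ δ i = -1)
    (h1 : ∃ t < S, u.getD t false = true)
    (h2 : ∀ m ∈ L, (∑ t ∈ range S, if u.getD t false = true then v m t else 0) = 0) :
    ∃ c ∈ zs3_one S u S false :: (((List.range S).map fun i => zs3_one S u i true) ++
      (List.range S).map fun i => zs3_one S u i false), zs3_Good 1 L S v δ c := by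
  by_cases c : (∑ t ∈ range S, if u.getD t false = true then δ t else 0) = 0
  · obtain ⟨i0, c0, c1⟩ := h1
    rw [zs3_split c0 c1] at c
    have k := fun m hm => (zs3_split c0 c1 (v m)).symm.trans (h2 m hm)
    rcases hδ i0 with d | d
    · refine ⟨zs3_one S u i0 true, List.mem_cons_of_mem _ (List.mem_append_left _
        (List.mem_map.2 ⟨i0, List.mem_range.2 c0, rfl⟩)), Or.inr fun j hj => ?_⟩
      obtain rfl : j = 0 := by omega
      have e := fun (M : Type) [AddCommMonoid M] (f : ℕ → M) => zs3_one_sv c0 u true f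
      simp only [Bool.not_true] at e
      simp only [zero_add, e]
      rw [d] at c
      exact ⟨fun m hm => ⟨trivial, eq_neg_of_add_eq_zero_right (k m hm)⟩, d,
        eq_neg_of_add_eq_zero_right c⟩
    · refine ⟨zs3_one S u i0 false, List.mem_cons_of_mem _ (List.mem_append_right _
        (List.mem_map.2 ⟨i0, List.mem_range.2 c0, rfl⟩)), Or.inr fun j hj => ?_⟩
      obtain rfl : j = 0 := by omega
      have e := fun (M : Type) [AddCommMonoid M] (f : ℕ → M) => zs3_one_sv c0 u false f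
      simp only [Bool.not_false] at e
      simp only [zero_add, e]
      rw [d] at c
      exact ⟨fun m hm => ⟨trivial, eq_neg_of_add_eq_zero_left (k m hm)⟩,
        (neg_add_eq_zero.1 c).symm, d⟩
  · have e : ∀ (M : Type) [AddCommMonoid M] (f : ℕ → M),
        zs3_sv (zs3_one S u S false) (1, true) f S =
          ∑ t ∈ range S, if u.getD t false = true then f t else 0 := by
      intro M _ f
      unfold zs3_sv zs3_one
      refine sum_congr rfl fun i hi => ?_
      rw [zs3_getD (mem_range.1 hi), if_neg (mem_range.1 hi).ne]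
      refine if_congr ?_ rfl rfl
      split_ifs with h
      · exact ⟨fun _ => h, fun _ => rfl⟩
      · exact ⟨fun c => absurd c (by simp), fun c => absurd c h⟩
    exact ⟨_, List.mem_cons_self, Or.inl ⟨fun m hm => (e _ _).trans (h2 m hm), by rwa [e]⟩⟩

/-- union of the first `k` sets of the first family -/
def zs3_out (S k : ℕ) (c : List (ℕ × Bool)) : List Bool :=
  (List.range S).map fun i => decide ((c.getD i (0, false)).2 = true ∧
    1 ≤ (c.getD i (0, false)).1 ∧ (c.getD i (0, false)).1 ≤ k)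

theorem zs3_out_sum {M : Type} [AddCommMonoid M] (S k : ℕ) (c : List (ℕ × Bool)) (f : ℕ → M) :
    (∑ i ∈ range S, if (zs3_out S k c).getD i false = true then f i else 0) =
      ∑ j ∈ range k, zs3_sv c (j + 1, true) f S := by
  unfold zs3_sv zs3_out
  rw [sum_comm]
  refine sum_congr rfl fun i hi => ?_
  rw [zs3_getD (mem_range.1 hi)]
  generalize c.getD i (0, false) = x
  obtain ⟨y, b⟩ := x
  by_cases h : b = true ∧ 1 ≤ y ∧ y ≤ k
  · obtain ⟨rfl, h1, h2⟩ := h
    rw [if_pos (by simp [h1, h2]), sum_eq_single (y - 1), if_pos (by rw [Nat.sub_add_cancel h1])]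
    · intro j _ hj
      exact if_neg fun c => hj (by have := congrArg Prod.fst c; simp only at this; omega)
    · intro hy
      exact absurd (mem_range.2 (by omega)) hy
  · rw [if_neg (by simpa using h)]
    refine (sum_eq_zero fun j hj => if_neg fun c => h ?_).symm
    obtain ⟨rfl, rfl⟩ := Prod.mk.inj c
    exact ⟨rfl, by omega, mem_range.1 hj⟩

variable [Enc α] [Enc β] [Enc μ]

theorem zs3_pick {l : α → List β} (hl : PT l) {R : α → β → Prop}
    (hR : PP fun z : α × β => R z.1 z.2) (d : β) :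
    PS fun a b => (∃ b' ∈ l a, R a b') → R a b := by
  classical
  refine ⟨fun a => ((l a).find? fun b => decide (R a b)).getD d,
    PT.getD (PT.find? (PT.decide hR) hl) (PT.const d), fun a ⟨b, h1, h2⟩ => ?_⟩
  cases h : (l a).find? fun b => decide (R a b) with
  | none => exact absurd (decide_eq_true h2) (List.find?_eq_none.1 h b h1)
  | some b' =>
    have k := List.find?_some h
    show R a (((l a).find? fun b => decide (R a b)).getD d)
    rw [h]
    exact of_decide_eq_true k

@[fun_prop] theorem zs3_pt_sv {p : ℕ} [NeZero p] {c : α → List (ℕ × Bool)} {l : α → ℕ × Bool}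
    {f : α → ℕ → ZMod p} {S : α → ℕ} (hc : PT c) (hl : PT l)
    (hf : PT fun z : α × ℕ => f z.1 z.2) (hS : PT S) (hb : PB S) :
    PT fun a => zs3_sv (c a) (l a) (f a) (S a) := by
  unfold zs3_sv
  fun_prop

theorem zs3_pp_good {p q : ℕ} [NeZero p] [NeZero q] (r : ℕ) {L : α → List μ} {s : α → List Unit}
    {v : α → μ → ℕ → ZMod p} {δ : α → ℕ → ZMod q} (hL : PT L) (hs : PT s)
    (hv : PT fun z : α × μ × ℕ => v z.1 z.2.1 z.2.2) (hδ : PT fun z : α × ℕ => δ z.1 z.2) :
    PP fun z : α × List (ℕ × Bool) => zs3_Good r (L z.1) (s z.1).length (v z.1) (δ z.1) z.2 := by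
  unfold zs3_Good
  fun_prop

@[fun_prop] theorem zs3_pt_rel {S w N : α → ℕ} {g : α → ℕ → List (ℕ × Bool)}
    {φ : α → ℕ → ℕ × Bool → ℕ × Bool} (hS : PT S) (hb : PB S) (hw : PT w) (hN : PT N)
    (hg : PT fun z : α × ℕ => g z.1 z.2)
    (hφ : PT fun z : α × ℕ × (ℕ × Bool) => φ z.1 z.2.1 z.2.2) :
    PT fun a => zs3_rel (S a) (w a) (N a) (g a) (φ a) := by
  unfold zs3_rel
  fun_prop

theorem zs3_pt_cand (r : ℕ) {S w N : α → ℕ} {g : α → ℕ → List (ℕ × Bool)} {u : α → List Bool}
    (hS : PT S) (hb : PB S) (hw : PT w) (hN : PT N) (hN' : PB N)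
    (hg : PT fun z : α × ℕ => g z.1 z.2) (hu : PT u) :
    PT fun a => zs3_cand r (S a) (w a) (N a) (g a) (u a) := by
  have h1 : PB fun z : α × ℕ => S z.1 := hb.comp (by fun_prop)
  have h2 : PT fun z : (α × ℕ) × ℕ => g z.1.1 z.2 := by fun_prop
  unfold zs3_cand
  refine PT.cons (by fun_prop) (PT.append (PT.map ?_ (by fun_prop)) (PT.map ?_ (by fun_prop)))
  · exact zs3_pt_rel (by fun_prop) h1 (by fun_prop) (by fun_prop) h2 (by fun_prop)
  · exact zs3_pt_rel (by fun_prop) h1 (by fun_prop) (by fun_prop) h2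
      (by unfold zs3_dbl; fun_prop)

@[fun_prop] theorem zs3_pt_one {s : α → List Unit} {u : α → List Bool} {i : α → ℕ} (b : Bool)
    (hs : PT s) (hu : PT u) (hi : PT i) : PT fun a => zs3_one (s a).length (u a) (i a) b := by
  unfold zs3_one
  fun_prop

end Aux

/-- items of level `r` are found in polynomial time -/
def zs3_Lev (p q r e : ℕ) [NeZero p] [NeZero q] : Prop :=
  ∀ (α μ : Type) [Enc α] [Enc μ] (L : α → List μ) (s : α → List Unit) (v : α → μ → ℕ → ZMod p)
    (δ : α → ℕ → ZMod q), PT L → PT s → PT (fun z : α × μ × ℕ => v z.1 z.2.1 z.2.2) →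
    PT (fun z : α × ℕ => δ z.1 z.2) →
    PS fun a (c : List (ℕ × Bool)) => ((L a).length + 2) ^ e ≤ (s a).length →
      (∀ i, δ a i = 1 ∨ δ a i = -1) → zs3_Good r (L a) (s a).length (v a) (δ a) c

theorem zs3_lev_one {p q e : ℕ} [NeZero p] [NeZero q] (he : ZeroSum p e) : zs3_Lev p q 1 e := by
  intro α μ _ _ L s v δ hL hs hv hδ
  obtain ⟨u, hu, h⟩ := he α μ L s v hL hs hv
  refine (zs3_pick (l := fun a => zs3_one (s a).length (u a) (s a).length false ::
    (((List.range (s a).length).map fun i => zs3_one (s a).length (u a) i true) ++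
      (List.range (s a).length).map fun i => zs3_one (s a).length (u a) i false))
    (by fun_prop) (zs3_pp_good 1 hL hs hv hδ) []).mono fun a c hc h1 h2 => hc ?_
  exact zs3_base h2 (h a h1).1 (h a h1).2

theorem zs3_lev_step {p q r e e' : ℕ} [NeZero p] [NeZero q] (hr : 0 < r) (he : ZeroSum p e)
    (hl : zs3_Lev p q r e') : zs3_Lev p q (r + r) (e + e') := by
  intro α μ _ _ L s v δ hL hs hv hδ
  obtain ⟨g, hg, h⟩ := hl (α × ℕ) μ (fun z => L z.1)
    (fun z => List.replicate (((L z.1).length + 2) ^ e') ())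
    (fun z m i => v z.1 m (z.2 * ((L z.1).length + 2) ^ e' + i))
    (fun z i => δ z.1 (z.2 * ((L z.1).length + 2) ^ e' + i))
    (by fun_prop) (by fun_prop) (by fun_prop) (by fun_prop)
  obtain ⟨u, hu, k⟩ := he α μ L (fun a => List.replicate (((L a).length + 2) ^ e) ())
    (fun a m t => zs3_sv (g (a, t)) (1, true)
      (fun i => v a m (t * ((L a).length + 2) ^ e' + i)) (((L a).length + 2) ^ e'))
    hL (by fun_prop) (by fun_prop)
  simp only [List.length_replicate] at h k
  refine (zs3_pick (zs3_pt_cand r (S := fun a => (s a).length)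
    (w := fun a => ((L a).length + 2) ^ e') (N := fun a => ((L a).length + 2) ^ e)
    (g := fun a t => g (a, t)) (by fun_prop) (by fun_prop) (by fun_prop) (by fun_prop)
    (by fun_prop) hg hu) (zs3_pp_good (r + r) hL hs hv hδ) []).mono fun a c hc h1 h2 => hc ?_
  exact zs3_step hr (by positivity) (by rwa [← pow_add])
    (fun t => h (a, t) le_rfl fun i => h2 _) (k a le_rfl).1 (k a le_rfl).2

theorem zs3_lev {p q e : ℕ} [NeZero p] [NeZero q] (he : ZeroSum p e) (k : ℕ) :
    ∃ e', zs3_Lev p q (2 ^ k) e' := by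
  induction k with
  | zero => exact ⟨e, zs3_lev_one he⟩
  | succ k ih =>
    obtain ⟨e', h⟩ := ih
    rw [pow_succ, mul_two]
    exact ⟨e + e', zs3_lev_step (by positivity) he h⟩

/-- Plan (doubling). A level-`k` item in a window is either a finished answer (zero sum, nonzero
weight) or two families of `2^k` index sets, all pairwise disjoint, the first with vector sum `x`
and weight `1` each, the second with vector sum `-x` and weight `-1` each. Level 0: `zeroSum` on a
window gives `U`; if its weight is `0`, split `U` into one index and the rest, and order the two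
parts so that the first has weight `1`. Step: apply `zeroSum` to the vectors `x_t` of many
level-`k` items in consecutive windows (if one of them is finished, return it), get a nonempty set
`U` of items with `∑ x_t = 0`; if `|U| ≠ 0` in `ZMod q` the union of the first sets of the first
families is an answer; otherwise pick `t0 ∈ U`: the sets of `t0` and the unions over `U \ t0` of
the sets of the opposite family give a level-`k+1` item for `x_{t0}`. At level `k` with `p ≤ 2^k`
the union of `p` sets of the first family has sum `p • x = 0` and weight `p ≠ 0`.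
All weights are `1` or `-1` here. -/
theorem zs3_pm {p q e : ℕ} [NeZero p] [NeZero q] (he : ZeroSum p e) (hpq : (p : ZMod q) ≠ 0) :
    ∃ e' : ℕ, ∀ (α μ : Type) [Enc α] [Enc μ] (L : α → List μ) (s : α → List Unit)
      (v : α → μ → ℕ → ZMod p) (δ : α → ℕ → ZMod q), PT L → PT s →
      PT (fun z : α × μ × ℕ => v z.1 z.2.1 z.2.2) → PT (fun z : α × ℕ => δ z.1 z.2) →
      PS fun a (u : List Bool) => ((L a).length + 2) ^ e' ≤ (s a).length →
        (∀ i, δ a i = 1 ∨ δ a i = -1) → u.length = (s a).length ∧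
          (∀ m ∈ L a, (∑ i ∈ range (s a).length, if u.getD i false then v a m i else 0) = 0) ∧
          (∑ i ∈ range (s a).length, if u.getD i false then δ a i else 0) ≠ 0 := by
  obtain ⟨e', hl⟩ := zs3_lev (q := q) he p
  refine ⟨e', fun α μ _ _ L s v δ hL hs hv hδ => ?_⟩
  obtain ⟨g, hg, h⟩ := hl α μ L s v δ hL hs hv hδ
  refine (zs3_pick (l := fun a => [zs3_out (s a).length 1 (g a), zs3_out (s a).length p (g a)])
    (R := fun a u => u.length = (s a).length ∧
      (∀ m ∈ L a, (∑ i ∈ range (s a).length, if u.getD i false then v a m i else 0) = 0) ∧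
      (∑ i ∈ range (s a).length, if u.getD i false then δ a i else 0) ≠ 0)
    (by unfold zs3_out; fun_prop) (by fun_prop) []).mono fun a c hc h1 h2 => hc ?_
  rcases h a h1 h2 with k | k
  · refine ⟨_, List.mem_cons_self, by simp [zs3_out], fun m hm => ?_, ?_⟩
    · rw [zs3_out_sum, sum_range_one]
      exact k.1 m hm
    · rw [zs3_out_sum, sum_range_one]
      exact k.2
  · have hp : ∀ j ∈ range p, j < 2 ^ p := fun j hj =>
      (mem_range.1 hj).trans (Nat.lt_two_pow_self)
    refine ⟨_, List.mem_cons_of_mem _ List.mem_cons_self, by simp [zs3_out], fun m hm => ?_, ?_⟩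
    · rw [zs3_out_sum, sum_congr rfl fun j hj => ((k j (hp j hj)).1 m hm).1, sum_const, card_range,
        nsmul_eq_mul, ZMod.natCast_self, zero_mul]
    · rw [zs3_out_sum, sum_congr rfl fun j hj => (k j (hp j hj)).2.1, sum_const, card_range,
        nsmul_eq_mul, mul_one]
      exact hpq

theorem szs (p q : ℕ) [Fact p.Prime] [NeZero q] (hq : ∀ d : ZMod q, d ≠ 0 → d = 1 ∨ d = -1)
    (hpq : (p : ZMod q) ≠ 0) : ∃ e, SZS p q e := by
  obtain ⟨e, he⟩ := zeroSum p
  obtain ⟨e', h⟩ := zs3_pm he hpq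
  exact ⟨e', fun α μ _ _ L s v δ hL hs hv hδ =>
    (h α μ L s v δ hL hs hv hδ).mono fun a u k h1 h2 => k h1 fun i => hq _ (h2 i)⟩

end Pool.Agent.MP_8a92de_lc.H86

end

-- part MP_8a92de_lc.H86U.ZS4
section

/-! Zero-sum subsets modulo an arbitrary number. -/

namespace Pool.Agent.MP_8a92de_lc.H86

open Finset Function Pool.Agent.Lib.Cx

theorem zs4_cast (m : ℕ) [NeZero m] {α : Type} [Enc α] {f : α → ℕ} (hf : PT f) :
    PT fun a => (f a : ZMod m) := by
  have h1 : PT fun a => f a % m := by fun_prop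
  have h2 := PT.subtypeMk (p := fun n => n ∈ List.range m) h1
    fun a => List.mem_range.mpr (Nat.mod_lt _ (NeZero.pos m))
  exact ((PT.of_finite fun z : {n // n ∈ List.range m} => (z.1 : ZMod m)).comp' h2).of_eq
    fun a => (ZMod.natCast_mod _ _).symm

theorem zs4_sum {α : Type} [Enc α] {n : α → ℕ} {f : α → ℕ → ℕ} (hn : PT n) (hb : PB n)
    (hf : PT fun z : α × ℕ => f z.1 z.2) : PT fun a => ∑ i ∈ range (n a), f a i :=
  (PT.sum (PT.map hf (PT.range hn hb))).of_eq fun a => by
    rw [Finset.sum, range_val, Multiset.range, Multiset.map_coe, Multiset.sum_coe]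

theorem zs4_one : ZeroSum 1 0 := fun α μ _ _ L s v _ _ _ =>
  ⟨fun _ => [true], PT.const _, fun a h => ⟨⟨0, by rw [pow_zero] at h; omega, rfl⟩,
    fun _ _ => Subsingleton.elim _ _⟩⟩

theorem zs4_mul {p q e1 e2 : ℕ} [NeZero p] [NeZero q] [NeZero (p * q)] (hp : ZeroSum p e1)
    (hq : ZeroSum q e2) : ZeroSum (p * q) (e2 + e1) := by
  intro α μ _ _ L s v hL hs hv
  obtain ⟨M, hM⟩ : ∃ M : α → ℕ, M = fun a => ((L a).length + 2) ^ e1 := ⟨_, rfl⟩
  obtain ⟨N, hN⟩ : ∃ N : α → ℕ, N = fun a => ((L a).length + 2) ^ e2 := ⟨_, rfl⟩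
  have hMt : PT M := by rw [hM]; fun_prop
  have hMb : PB M := by rw [hM]; fun_prop
  have hNt : PT N := by rw [hN]; fun_prop
  have hNb : PB N := by rw [hN]; fun_prop
  have hM0 : ∀ a, 0 < M a := fun a => by rw [hM]; positivity
  have hMb' : ∀ {β : Type} [Enc β] {f : β → α}, PT f → PB fun z => M (f z) :=
    fun hf => hMb.comp hf
  obtain ⟨g1, hg1, h1⟩ := hp (α × ℕ) μ (fun z => L z.1) (fun z => List.replicate (M z.1) ())
    (fun z m i => ((v z.1 m (z.2 * M z.1 + i)).val : ZMod p)) (by fun_prop)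
    (PT.replicate (by fun_prop) (hMb' (by fun_prop)) (by fun_prop))
    (zs4_cast p (pt_zval
      (hv.comp' (f := fun z : (α × ℕ) × μ × ℕ => (z.1.1, z.2.1, z.1.2 * M z.1.1 + z.2.2))
        (by fun_prop))))
  simp only [List.length_replicate] at h1
  obtain ⟨S, hS⟩ : ∃ S : α → μ → ℕ → ℕ, S = fun a m j => ∑ i ∈ range (M a),
    if (g1 (a, j)).getD i false then (v a m (j * M a + i)).val else 0 := ⟨_, rfl⟩
  have hSt : PT fun z : α × μ × ℕ => S z.1 z.2.1 z.2.2 := by
    rw [hS]
    refine zs4_sum (by fun_prop) (hMb' (by fun_prop)) (PT.ite (by fun_prop) (pt_zval ?_)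
      (by fun_prop))
    exact hv.comp' (f := fun z : (α × μ × ℕ) × ℕ => (z.1.1, z.1.2.1, z.1.2.2 * M z.1.1 + z.2))
      (by fun_prop)
  obtain ⟨g2, hg2, h2⟩ := hq α μ L (fun a => List.replicate (N a) ())
    (fun a m j => ((S a m j / p : ℕ) : ZMod q)) hL (by fun_prop) (zs4_cast q (by fun_prop))
  simp only [List.length_replicate] at h2
  refine ⟨fun a => (List.range (N a * M a)).map fun k =>
    (g2 a).getD (k / M a) false && (g1 (a, k / M a)).getD (k % M a) false,
    PT.map (by fun_prop) (PT.range (by fun_prop) (by fun_prop)), fun a hle => ?_⟩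
  have hNM : N a * M a ≤ (s a).length := by rw [hN, hM, ← pow_add]; exact hle
  have hdiv : ∀ j, ∀ i < M a, (j * M a + i) / M a = j ∧ (j * M a + i) % M a = i := by
    intro j i hi
    rw [add_comm, Nat.add_mul_div_right _ _ (hM0 a), Nat.add_mul_mod_self_right,
      Nat.div_eq_of_lt hi, Nat.mod_eq_of_lt hi, zero_add]
    exact ⟨rfl, rfl⟩
  have hlt : ∀ j < N a, ∀ i < M a, j * M a + i < N a * M a := by
    intro j hj i hi
    have := Nat.mul_le_mul_right (M a) (Nat.succ_le_of_lt hj)
    rw [Nat.succ_mul] at this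
    omega
  obtain ⟨u, hu⟩ : ∃ u : List Bool, u = (List.range (N a * M a)).map fun k =>
    (g2 a).getD (k / M a) false && (g1 (a, k / M a)).getD (k % M a) false := ⟨_, rfl⟩
  beta_reduce
  rw [← hu]
  have hget : ∀ j < N a, ∀ i < M a, u.getD (j * M a + i) false =
      ((g2 a).getD j false && (g1 (a, j)).getD i false) := by
    intro j hj i hi
    have := hlt j hj i hi
    simp [hu, List.getD_eq_getElem?_getD, this, (hdiv j i hi).1, (hdiv j i hi).2]
  have hout : ∀ k, N a * M a ≤ k → u.getD k false = false := by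
    intro k hk
    exact List.getD_eq_default _ _ (by simpa [hu] using hk)
  obtain ⟨⟨j0, hj0, hj0'⟩, hs2⟩ := h2 a (by rw [hN])
  have h1' := fun j => h1 (a, j) (by rw [hM])
  refine ⟨?_, fun m hm => ?_⟩
  · obtain ⟨i, hi, hi'⟩ := (h1' j0).1
    have := hlt j0 hj0 i hi
    exact ⟨j0 * M a + i, by omega, by rw [hget j0 hj0 i hi, hj0', hi']; rfl⟩
  · have hd : ∀ j, p ∣ S a m j := by
      intro j
      rw [← ZMod.natCast_eq_zero_iff, ← (h1' j).2 m hm, hS]
      simp only [Nat.cast_sum, Nat.cast_ite, Nat.cast_zero]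
    have hd2 : q ∣ ∑ j ∈ range (N a), if (g2 a).getD j false then S a m j / p else 0 := by
      rw [← ZMod.natCast_eq_zero_iff, ← hs2 m hm]
      simp only [Nat.cast_sum, Nat.cast_ite, Nat.cast_zero]
    have hd3 := (ZMod.natCast_eq_zero_iff _ _).mpr (Nat.mul_dvd_mul_left p hd2)
    refine Eq.trans ?_ hd3
    rw [← sum_subset (range_subset_range.mpr hNM) fun k _ hk => by
      rw [hout k (not_lt.mp (mt mem_range.mpr hk))]; rfl, zs2_sum_mul, mul_sum, Nat.cast_sum]
    refine sum_congr rfl fun j hj => ?_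
    rw [sum_congr rfl fun i hi => by rw [hget j (mem_range.mp hj) i (mem_range.mp hi)]]
    by_cases hj' : (g2 a).getD j false = true
    · rw [if_pos hj', Nat.mul_div_cancel' (hd j), hS, hj']
      simp only [Bool.true_and, Nat.cast_sum, Nat.cast_ite, Nat.cast_zero, ZMod.natCast_val,
        ZMod.cast_id', id]
    · rw [if_neg hj', Bool.eq_false_iff.mpr hj']
      simp

/-- Induction on `m`; the product step cuts the indices into windows. -/
theorem zeroSum' (m : ℕ) [NeZero m] : ∃ e, ZeroSum m e := by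
  have : ∀ m : ℕ, ∀ [NeZero m], ∃ e, ZeroSum m e := by
    intro m
    induction m using induction_on_primes with
    | zero => exact fun {h} => absurd rfl h.out
    | one => exact fun {_} => ⟨0, zs4_one⟩
    | prime_mul p a hp ih =>
      intro h
      have : Fact p.Prime := ⟨hp⟩
      have : NeZero a := ⟨fun h0 => h.out (by rw [h0, mul_zero])⟩
      obtain ⟨e1, h1⟩ := zeroSum p
      obtain ⟨e2, h2⟩ := ih
      exact ⟨_, zs4_mul h1 h2⟩
  exact this m

end Pool.Agent.MP_8a92de_lc.H86

end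

-- part MP_8a92de_lc.H86U.ZS5
section

/-! Zero-sum subsets of nonzero weight modulo an arbitrary prime. -/

namespace Pool.Agent.MP_8a92de_lc.H86

open Finset Function Pool.Agent.Lib.Cx

theorem zs5_sum {M : Type} [AddCommMonoid M] {S : ℕ} {l : List ℕ} (hl : l.Nodup)
    (hS : ∀ i ∈ l, i < S) (g : List Bool) (f : ℕ → M) :
    (∑ i ∈ range S, if ((List.range S).map fun i =>
        decide (i ∈ l ∧ g.getD (l.idxOf i) false = true)).getD i false then f i else 0) =
      ∑ j ∈ range l.length, if g.getD j false then f (l.getD j 0) else 0 := by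
  have e : ∀ i ∈ range S, (if ((List.range S).map fun i =>
      decide (i ∈ l ∧ g.getD (l.idxOf i) false = true)).getD i false then f i else 0) =
      if i ∈ l then (if g.getD (l.idxOf i) false then f i else 0) else 0 := fun i hi => by
    rw [zs3_getD (mem_range.1 hi), ← ite_and]
    exact if_congr decide_eq_true_iff rfl rfl
  rw [sum_congr rfl e, ← sum_filter]
  have k : ∀ i ∈ l, l.getD (l.idxOf i) 0 = i := fun i hi => by
    rw [List.getD_eq_getElem _ _ (List.idxOf_lt_length_iff.2 hi), List.getElem_idxOf]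
  refine sum_nbij' (fun i => l.idxOf i) (fun j => l.getD j 0) (fun i hi => ?_) (fun j hj => ?_)
    (fun i hi => k i (mem_filter.1 hi).2) (fun j hj => ?_) fun i hi => ?_
  · exact mem_range.2 (List.idxOf_lt_length_iff.2 (mem_filter.1 hi).2)
  · have : l.getD j 0 ∈ l := by
      rw [List.getD_eq_getElem _ _ (mem_range.1 hj)]
      exact List.getElem_mem _
    exact mem_filter.2 ⟨mem_range.2 (hS _ this), this⟩
  · rw [List.getD_eq_getElem _ _ (mem_range.1 hj)]
    exact hl.idxOf_getElem _ _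
  · rw [k i (mem_filter.1 hi).2]

/-- For every residue `d` apply the version with all weights `1` to the indices of weight `d`, and
put the chosen bits back; a most frequent residue gives an answer. -/
theorem szs' (m q : ℕ) [NeZero m] [Fact q.Prime] (hmq : (m : ZMod q) ≠ 0) : ∃ e, SZS m q e := by
  obtain ⟨e, he⟩ := zeroSum' m
  obtain ⟨e', h⟩ := zs3_pm he hmq
  refine ⟨e' + q, fun α μ _ _ L s v δ hL hs hv hδ => ?_⟩
  let idx : α × ZMod q → List ℕ := fun z =>
    (List.range (s z.1).length).filter fun i => decide (δ z.1 i = z.2)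
  have hidx : PT idx := by
    unfold idx
    fun_prop
  obtain ⟨g, hg, k⟩ := h (α × ZMod q) μ (fun z => L z.1) (fun z => (idx z).map fun _ => ())
    (fun z x i => v z.1 x ((idx z).getD i 0)) (fun _ _ => 1) (by fun_prop) (by fun_prop)
    (by fun_prop) (by fun_prop)
  simp only [List.length_map] at k
  let out : α × ZMod q → List Bool := fun z => (List.range (s z.1).length).map fun i =>
    decide (i ∈ idx z ∧ (g z).getD ((idx z).idxOf i) false = true)
  have hout : PT out := by
    unfold out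
    fun_prop
  refine (zs3_pick (l := fun a => (univ : Finset (ZMod q)).toList.map fun d => out (a, d))
    (R := fun a u => u.length = (s a).length ∧
      (∀ x ∈ L a, (∑ i ∈ range (s a).length, if u.getD i false then v a x i else 0) = 0) ∧
      (∑ i ∈ range (s a).length, if u.getD i false then δ a i else 0) ≠ 0)
    (PT.map hout (PT.const _)) (by fun_prop) []).mono fun a c hc h1 h2 => hc ?_
  obtain ⟨d, -, hd⟩ := exists_le_card_fiber_of_mul_le_card_of_maps_to (f := δ a)
    (s := range (s a).length) (t := univ) (n := ((L a).length + 2) ^ e')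
    (fun _ _ => mem_univ _) univ_nonempty (by
      rw [card_univ, ZMod.card, card_range]
      refine le_trans ?_ h1
      rw [pow_add, mul_comm]
      exact Nat.mul_le_mul_left _ (Nat.lt_two_pow_self.le.trans
        (Nat.pow_le_pow_left (by omega) _)))
  have h3 : ((L a).length + 2) ^ e' ≤ (idx (a, d)).length := hd
  have h4 : ∀ i ∈ idx (a, d), i < (s a).length ∧ δ a i = d := fun i hi =>
    ⟨List.mem_range.1 (List.mem_filter.1 hi).1, of_decide_eq_true (List.mem_filter.1 hi).2⟩
  have h5 : ∀ j ∈ range (idx (a, d)).length, δ a ((idx (a, d)).getD j 0) = d := fun j hj => by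
    rw [List.getD_eq_getElem _ _ (mem_range.1 hj)]
    exact (h4 _ (List.getElem_mem _)).2
  have h6 : d ≠ 0 := h5 0 (mem_range.2 (lt_of_lt_of_le (by positivity) h3)) ▸ h2 _
  have h7 : (idx (a, d)).Nodup := List.nodup_range.filter _
  obtain ⟨-, k1, k2⟩ := k (a, d) h3 fun _ => Or.inl trivial
  refine ⟨out (a, d), List.mem_map.2 ⟨d, mem_toList.2 (mem_univ _), rfl⟩, by simp [out],
    fun x hx => ?_, ?_⟩
  · exact (zs5_sum h7 (fun i hi => (h4 i hi).1) _ _).trans (k1 x hx)
  · rw [zs5_sum h7 (fun i hi => (h4 i hi).1)]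
    refine fun c => mul_ne_zero h6 k2 (Eq.trans ?_ c)
    rw [mul_sum]
    refine sum_congr rfl fun j hj => ?_
    rw [h5 j hj, mul_ite, mul_one, mul_zero]

end Pool.Agent.MP_8a92de_lc.H86

end

-- part MP_8a92de_lc.H86U.Kill
section

/-! Killing the top degree of polynomially many scalar functions along new directions. -/

namespace Pool.Agent.MP_8a92de_lc.H86

open Finset Function Pool.Agent.Lib.Cx

/-- The cube spanned by the directions `us`, the `j`-th one in block `j`. -/
def emb (us : List (List Bool)) (y : ℕ → Bool) (v : ℕ × ℕ) : Bool := y v.1 && mk us v.1 v.2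

/-- The weight of the `j`-th direction. -/
def wr {q : ℕ} (δ : ℕ × ℕ → ZMod q) (s : ℕ) (us : List (List Bool)) (j : ℕ) : ZMod q :=
  ∑ i ∈ range s, if mk us j i then δ (j, i) else 0

theorem isProj_emb (us : List (List Bool)) : IsProj (emb us) := isProj_and Prod.fst _

theorem mk_of_le {us : List (List Bool)} {j : ℕ} (h : us.length ≤ j) (i : ℕ) : mk us j i = false := by
  rw [mk, List.getD_eq_default _ _ h]
  rfl

theorem mk_append {us vs : List (List Bool)} {j : ℕ} (h : j < us.length) (i : ℕ) :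
    mk (us ++ vs) j i = mk us j i := by rw [mk, List.getD_append _ _ _ _ h, mk]

theorem emb_cut {us : List (List Bool)} {k : ℕ} (h : us.length ≤ k) (y : ℕ → Bool) :
    emb us (cut k y) = emb us y := by
  ext v
  by_cases hj : v.1 < k
  · simp [emb, cut, hj]
  · simp [emb, mk_of_le (h.trans (not_lt.1 hj))]

theorem kd_union {F ι : Type} [CommRing F] {n l : ℕ} {u : ℕ → ι → Bool} {φ : (ι → Bool) → F}
    (hu : Disj n u) (h : φ ∈ Deg F ι n) (hl : l < n) {b : ι → Bool} {z : ℕ → ι → Bool}
    (hb : ∀ v, b v = true → u l v = false) (hz : ∀ i v, z i v = true → u l v = true)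
    (hz' : ∀ i j v, z i v = true → z j v = true → i = j) (c : ℕ → Bool) (s : ℕ) :
    kd n u φ (fun v => b v || (List.range s).any fun i => c i && z i v) =
      ∑ i ∈ range s, if c i then kd n u φ (fun v => b v || z i v) else 0 := by
  induction s with
  | zero => simpa using kd_empty hl hb
  | succ s ih =>
    rw [sum_range_succ, ← ih]
    cases e : c s
    · simp [List.range_succ, e]
    · refine kd_split hu h hl (fun v hv => ?_) fun v hv => ?_
      · have h1 : ∀ i, z i v = false := fun i => by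
          by_contra hc
          simp [hz i v (by simpa using hc)] at hv
        simp [h1, List.range_succ]
      · have h1 : b v = false := by
          by_contra hc
          simp [hb v (by simpa using hc)] at hv
        cases e2 : z s v
        · simp [List.range_succ, h1, e2]
        · have h2 : ((List.range s).any fun i => c i && z i v) = false := by
            simp only [List.any_eq_false, List.mem_range, Bool.and_eq_true, not_and]
            exact fun i hi _ h3 => hi.ne (hz' i s v h3 e2)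
          simp [List.range_succ, h1, e2, h2, e]

theorem disj_getD {ι : Type} {τ : List ℕ} (h : τ.Nodup) (o : ι → ℕ) :
    Disj τ.length fun l v => decide (o v = τ.getD l 0) := by
  intro l hl l' hl' v h1 h2
  have h3 := (of_decide_eq_true h1).symm.trans (of_decide_eq_true h2)
  rw [List.getD_eq_getElem _ _ hl, List.getD_eq_getElem _ _ hl'] at h3
  exact (h.getElem_inj_iff).1 h3

variable {p q e : ℕ} [NeZero p] [NeZero q]

@[fun_prop] theorem pt_wr {α : Type} [Enc α] {δ : α → ℕ × ℕ → ZMod q} {s j : α → ℕ}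
    {us : α → List (List Bool)} (hδ : PT fun z : α × ℕ × ℕ => δ z.1 z.2) (hs : PT s) (hs' : PB s)
    (hus : PT us) (hj : PT j) : PT fun a => wr (δ a) (s a) (us a) (j a) := by
  unfold wr
  exact pt_zsum_range hs hs' (by fun_prop)

theorem kill_one (hz : SZS p q e) (D : ℕ) (α μ : Type) [Enc α] [Enc μ] (L : α → List μ)
    (s : α → List Unit) (old : α → List (List Bool)) (Φ : α × μ → (ℕ × ℕ → Bool) → ZMod p)
    (δ : α → ℕ × ℕ → ZMod q) (hL : PT L) (hs : PT s) (hold : PT old) (hΦ : BB Φ)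
    (hδ : PT fun z : α × ℕ × ℕ => δ z.1 z.2) :
    PS fun a (u : List Bool) => ((L a).length * (old a).length ^ D + 2) ^ e ≤ (s a).length →
      (∀ v, δ a v ≠ 0) → (∀ m ∈ L a, Φ (a, m) ∈ Deg (ZMod p) _ (D + 1)) →
      u.length = (s a).length ∧ wr (δ a) (s a).length (old a ++ [u]) (old a).length ≠ 0 ∧
        ∀ m ∈ L a, (fun y => Φ (a, m) (emb (old a ++ [u]) y) - Φ (a, m) (emb (old a) y)) ∈
          Deg (ZMod p) ℕ D := by
  have h1 := BB.kd (Φ := fun z : α × μ × List ℕ => Φ (z.1, z.2.1))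
    (fun β _ σ x hσ hx => hΦ.pt (by fun_prop) hx) (D + 1)
    (u := fun z l v => decide (v.1 = (z.2.2 ++ [(old z.1).length]).getD l 0)) (by fun_prop)
  have h1' := h1.pt (σ := fun z : α × (μ × List ℕ) × ℕ => (z.1, z.2.1))
    (x := fun z v => emb (old z.1) (fun j => decide (j ∈ z.2.1.2)) v ||
      decide (v = ((old z.1).length, z.2.2))) (by fun_prop) (by unfold emb; fun_prop)
  refine (hz α (μ × List ℕ) (fun a => L a ×ˢ tup D (old a).length) s
    (fun a c i => kd (D + 1) (fun l v => decide (v.1 = (c.2 ++ [(old a).length]).getD l 0))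
      (Φ (a, c.1)) fun v => emb (old a) (fun j => decide (j ∈ c.2)) v ||
        decide (v = ((old a).length, i))) (fun a i => δ a ((old a).length, i)) (by fun_prop) hs
    h1' (by fun_prop)).mono fun a u h h2 h3 h4 => ?_
  obtain ⟨h5, h6, h7⟩ := h (by rwa [List.length_product, length_tup]) fun i => h3 _
  set n := (old a).length with hn
  have h8 : ∀ i, mk (old a ++ [u]) n i = u.getD i false := fun i => by simp [mk, hn]
  refine ⟨h5, by simpa only [wr, h8] using h7, fun m hm => ?_⟩
  have h9 := Deg.drop (k := n + 1) (Deg.sub' (Deg.proj (isProj_emb (old a ++ [u])) (h4 m hm))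
    (Deg.proj (isProj_emb (old a)) (h4 m hm))) fun S hS hS' => ?_
  · simpa only [emb_cut (show (old a ++ [u]).length ≤ n + 1 by simp [hn]),
      emb_cut (show (old a).length ≤ n + 1 by omega)] using h9
  have h10 : ∀ y : ℕ → Bool, y n = false → emb (old a ++ [u]) y = emb (old a) y := by
    intro y hy
    ext v
    rcases lt_trichotomy v.1 n with hv | hv | hv
    · simp [emb, mk_append hv]
    · simp [emb, hv, hy]
    · rw [emb, emb, mk_of_le hv.le, mk_of_le (by simpa using hv)]
  by_cases hnS : n ∈ S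
  swap
  · obtain ⟨τ, -, -, -, a1, a2⟩ := exists_enum hS'
    refine ⟨_, a1, a2, (kd_congr (ψ := 0) fun y hy => ?_).trans (kd_zero _)⟩
    rw [h10 y (by by_contra hc; exact hnS (by simpa using hy n (by simpa using hc))), sub_self]
    rfl
  obtain ⟨τ, a1, a2, a3, -⟩ := exists_enum (S := S.erase n) (D := D)
    (by rw [card_erase_of_mem hnS, hS']; rfl)
  have a4 : ∀ i, i ∈ τ ++ [n] ↔ i ∈ S := fun i => by
    simp only [List.mem_append, a3, mem_erase, List.mem_singleton]
    exact ⟨fun h => h.elim And.right (· ▸ hnS), fun h => (em (i = n)).symm.imp (⟨·, h⟩) id⟩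
  have a5 : (τ ++ [n]).length = D + 1 := by simp [a2]
  have a6 : (τ ++ [n]).getD D 0 = n := by simp [← a2]
  have a7 : ∀ i ∈ τ, i < n := fun i hi => by
    have := mem_erase.1 ((a3 i).1 hi)
    have := mem_range.1 (hS this.2)
    omega
  have a8 : (τ ++ [n]).Nodup := by
    simpa using List.Nodup.concat (fun hc => (a7 n hc).false) a1
  refine ⟨fun l => (τ ++ [n]).getD l 0, fun l hl => ?_, fun i hi => ?_, ?_⟩
  · beta_reduce
    rw [← a4, List.getD_eq_getElem _ _ (by omega)]
    exact List.getElem_mem _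
  · obtain ⟨l, hl, h⟩ := List.getElem_of_mem ((a4 i).2 hi)
    exact ⟨l, by omega, (List.getD_eq_getElem _ _ hl).trans h⟩
  rw [kd_sub, kd_indep (φ := fun y => Φ (a, m) (emb (old a) y)) (l := D) (by omega) fun y _ => by
    congr 1
    ext v
    by_cases hv : v.1 = n
    · simp [emb, hv, mk_of_le hn.ge]
    · simp only [emb, kill, a6, hv, decide_false, Bool.not_false, Bool.and_true], sub_zero,
    kd_map (u := fun l v => decide (v.1 = (τ ++ [n]).getD l 0)) (fun _ => True)
      (fun _ _ _ _ => trivial) (fun l _ z _ => funext fun v => by simp only [emb, kill]; ac_rfl)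
      trivial, ← h6 (m, τ) (List.mem_product.2 ⟨hm, mem_tup.2 ⟨a2, a7⟩⟩),
    ← kd_union (a5 ▸ disj_getD a8 Prod.fst) (h4 m hm) (l := D) (by omega)]
  · congr 1
    ext v
    refine Bool.eq_iff_iff.2 ?_
    simp only [emb, ← a4, List.mem_append, List.mem_singleton, Bool.and_eq_true, decide_eq_true_eq,
      Bool.or_eq_true, List.any_eq_true, List.mem_range]
    constructor
    · rintro ⟨h | h, h'⟩
      · exact Or.inl ⟨h, by rwa [mk_append (a7 _ h)] at h'⟩
      · rw [h, h8] at h'
        refine Or.inr ⟨v.2, ?_, h', Prod.ext h rfl⟩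
        by_contra hc
        rw [List.getD_eq_default _ _ (by omega)] at h'
        exact absurd h' (by simp)
    · rintro (⟨h, h'⟩ | ⟨i, -, h, rfl⟩)
      · exact ⟨Or.inl h, by rwa [mk_append (a7 _ h)]⟩
      · exact ⟨Or.inr rfl, by rwa [h8]⟩
  · intro v hv
    simp only [emb, Bool.and_eq_true, decide_eq_true_eq] at hv
    simp only [a6, (a7 _ hv.1).ne, decide_false]
  · intro i v hv
    simp only [a6, of_decide_eq_true hv, decide_true]
  · intro i j v h1 h2
    exact (Prod.ext_iff.1 ((of_decide_eq_true h1).symm.trans (of_decide_eq_true h2))).2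

theorem kill_many (hz : SZS p q e) (D : ℕ) (α μ : Type) [Enc α] [Enc μ] (L : α → List μ)
    (s r : α → List Unit) (old : α → List (List Bool)) (Φ : α × μ → (ℕ × ℕ → Bool) → ZMod p)
    (δ : α → ℕ × ℕ → ZMod q) (hL : PT L) (hs : PT s) (hr : PT r) (hold : PT old) (hΦ : BB Φ)
    (hδ : PT fun z : α × ℕ × ℕ => δ z.1 z.2) :
    PS fun a (us : List (List Bool)) =>
      (((L a).length * ((old a).length + (r a).length) ^ D + 2) ^ e ≤ (s a).length ∧
      (∀ v, δ a v ≠ 0) ∧ (∀ m ∈ L a, Φ (a, m) ∈ Deg (ZMod p) _ (D + 1)) ∧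
      ∀ u ∈ old a, u.length = (s a).length) →
      old a <+: us ∧ us.length = (old a).length + (r a).length ∧
        (∀ u ∈ us, u.length = (s a).length) ∧
        (∀ j, (old a).length ≤ j → j < us.length → wr (δ a) (s a).length us j ≠ 0) ∧
        ∀ m ∈ L a, (fun y => Φ (a, m) (emb us y) - Φ (a, m) (emb (old a) y)) ∈ Deg (ZMod p) ℕ D := by
  refine PS.loop (T := fun a => (r a).length)
    (M := fun a => ((old a).length + (r a).length) * (6 * (s a).length + 1)) (by fun_prop)
    (by fun_prop) (by fun_prop) hold _ (fun a i us => old a <+: us ∧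
      us.length = (old a).length + i ∧ (∀ u ∈ us, u.length = (s a).length) ∧
        (∀ j, (old a).length ≤ j → j < us.length → wr (δ a) (s a).length us j ≠ 0) ∧
        ∀ m ∈ L a, (fun y => Φ (a, m) (emb us y) - Φ (a, m) (emb (old a) y)) ∈ Deg (ZMod p) ℕ D)
    (fun a ha => ⟨List.prefix_rfl, rfl, ha.2.2.2, fun j h1 h2 => by omega,
      fun m _ => by simpa using Deg.const D (0 : ZMod p)⟩) ?_
    fun a i us _ hi h => size_lists (by omega) fun u hu => (h.2.2.1 u hu).le
  obtain ⟨g, hg, h⟩ := kill_one hz D (α × ℕ × List (List Bool)) μ (fun z => L z.1) (fun z => s z.1)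
    (fun z => z.2.2) (fun z => Φ (z.1.1, z.2)) (fun z => δ z.1) (by fun_prop) (by fun_prop)
    (by fun_prop) (fun β _ σ x hσ hx => hΦ.pt (by fun_prop) hx) (by fun_prop)
  refine ⟨fun z => z.2.2 ++ [g z], by fun_prop, ?_⟩
  rintro ⟨a, i, us⟩ ⟨h1, h2, h3, h4⟩ hi ⟨h5, h6, h7, h8, h9⟩
  simp only at hi h1 h2 h3 h4 h5 h6 h7 h8 h9 ⊢
  obtain ⟨b1, b2, b3⟩ := h (a, i, us) (le_trans (by simp only [h6]; gcongr) h1) h2 h3
  refine ⟨h5.trans (List.prefix_append _ _), by simp [h6, add_assoc], fun u hu => ?_,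
    fun j c1 c2 => ?_, fun m hm => ?_⟩
  · rcases List.mem_append.1 hu with hu | hu
    · exact h7 u hu
    · rwa [List.mem_singleton.1 hu]
  · by_cases c3 : j < us.length
    · simpa only [wr, mk_append c3] using h8 j c1 c3
    · rwa [show j = us.length by simp at c2; omega]
  · simpa using Deg.add' (b3 m hm) (h9 m hm)

theorem sum_range_mul {M : Type} [AddCommMonoid M] (f : ℕ → M) (a s : ℕ) :
    ∑ r ∈ range (s * a), f r = ∑ j ∈ range a, ∑ i ∈ range s, f (s * j + i) := by
  induction a with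
  | zero => simp
  | succ a ih => rw [Nat.mul_succ, sum_range_add, ih, sum_range_succ]

/-- Polynomially many scalar functions of bounded degree are constant on a cube through the
origin whose directions lie in consecutive windows and have nonzero weights. -/
theorem iso (hz : SZS p q e) (D : ℕ) : ∃ σ : Polynomial ℕ, (∀ x, 0 < σ.eval x) ∧
    ∀ (α μ : Type) [Enc α] [Enc μ] (L : α → List μ) (x : α → List Unit)
      (Φ : α × μ → (ℕ → Bool) → ZMod p) (δ : α → ℕ → ZMod q), PT L → PT x → BB Φ →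
      PT (fun z : α × ℕ => δ z.1 z.2) → ∃ W : α → ℕ → Bool, PT (fun z : α × ℕ => W z.1 z.2) ∧
      ∀ a, (L a).length ≤ (x a).length → (∀ v, δ a v ≠ 0) →
        (∀ m ∈ L a, Φ (a, m) ∈ Deg (ZMod p) ℕ D) →
        (∀ m ∈ L a, ∀ y, Φ (a, m) (fun v => cut (x a).length y (v / σ.eval (x a).length) && W a v) =
          Φ (a, m) fun _ => false) ∧ ∀ g < (x a).length, (∑ r ∈ range (σ.eval (x a).length),
            if W a (σ.eval (x a).length * g + r) then δ a (σ.eval (x a).length * g + r) else 0) ≠ 0 := by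
  induction D with
  | zero =>
    exact ⟨1, by simp, fun α μ _ _ L x Φ δ _ _ _ _ => ⟨fun _ _ => true, by fun_prop,
      fun a _ h2 h3 => ⟨fun m hm y => Deg.zero_const (h3 m hm) _ _, fun g _ => by simpa using h2 g⟩⟩⟩
  | succ D ih =>
    obtain ⟨σ, hσ, ih⟩ := ih
    let S : Polynomial ℕ := (.X * (σ * .X) ^ D + 2) ^ e
    have hS : ∀ x, S.eval x = (x * (σ.eval x * x) ^ D + 2) ^ e := fun x => by simp [S]
    have hS' : ∀ x, 0 < S.eval x := fun x => by rw [hS]; positivity
    refine ⟨S * σ, fun x => by simpa using ⟨hS' x, hσ x⟩, fun α μ _ _ L x Φ δ hL hx hΦ hδ => ?_⟩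
    obtain ⟨us, hus, h⟩ := kill_many hz D α μ L (fun a => List.replicate (S.eval (x a).length) ())
      (fun a => List.replicate (σ.eval (x a).length * (x a).length) ()) (fun _ => [])
      (fun z y => Φ z fun v => y (v / S.eval (x z.1).length, v % S.eval (x z.1).length))
      (fun a v => δ a (S.eval (x a).length * v.1 + v.2)) hL (by fun_prop) (by fun_prop)
      (by fun_prop) (fun β _ σ y hσ hy => hΦ.pt hσ (by fun_prop)) (by fun_prop)
    simp only [List.length_replicate, List.length_nil, zero_add] at h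
    obtain ⟨W, hW, h'⟩ := ih α μ L x (fun z y => Φ z fun v =>
      emb (us z.1) y (v / S.eval (x z.1).length, v % S.eval (x z.1).length))
      (fun a j => if j < (us a).length then wr (fun v => δ a (S.eval (x a).length * v.1 + v.2))
        (S.eval (x a).length) (us a) j else 1) hL hx
      (fun β _ σ y hσ hy => hΦ.pt hσ (by unfold emb; fun_prop)) (by fun_prop)
    refine ⟨fun a v => W a (v / S.eval (x a).length) &&
      mk (us a) (v / S.eval (x a).length) (v % S.eval (x a).length), by fun_prop,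
      fun a h1 h2 h3 => ?_⟩
    obtain ⟨-, b1, -, b2, b3⟩ := h a ⟨by rw [hS]; gcongr, fun _ => h2 _,
      fun m hm => Deg.proj (isProj_comp _) (h3 m hm), by simp⟩
    have hq : (1 : ZMod q) ≠ 0 := fun hc => h2 0 (by rw [← mul_one (δ a 0), hc, mul_zero])
    obtain ⟨b4, b5⟩ := h' a h1 (fun j => by
      split_ifs with hj
      · exact b2 j (Nat.zero_le _) hj
      · exact hq) fun m hm => by
        simpa [emb, mk] using Deg.add' (b3 m hm) (Deg.const D (Φ (a, m) fun _ => false))
    have hs0 := hS' (x a).length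
    simp only [Polynomial.eval_mul]
    dsimp only at b4 b5
    generalize S.eval (x a).length = s at hs0 b2 b4 b5 ⊢
    refine ⟨fun m hm y => ?_, fun g hg => ?_⟩
    · simpa only [emb, Bool.false_and, Bool.and_assoc, Nat.div_div_eq_div_mul] using b4 m hm y
    · rw [sum_range_mul]
      convert b5 g hg using 2 with j hj
      have h4 : σ.eval (x a).length * g + j < (us a).length := by
        rw [b1]
        have := mem_range.1 hj
        nlinarith
      rw [if_pos h4, wr]
      have h5 : ∀ i ∈ range s, s * σ.eval (x a).length * g + (s * j + i) =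
          s * (σ.eval (x a).length * g + j) + i := fun i _ => by ring
      cases e1 : W a (σ.eval (x a).length * g + j)
      · refine (sum_eq_zero fun i hi => ?_).trans (by simp)
        rw [h5 i hi, Nat.mul_add_div hs0, Nat.div_eq_of_lt (mem_range.1 hi), add_zero, e1]
        simp
      · refine (sum_congr rfl fun i hi => ?_).trans (by simp only [if_true]; rfl)
        rw [h5 i hi, Nat.mul_add_div hs0, Nat.mul_add_mod, Nat.div_eq_of_lt (mem_range.1 hi),
          Nat.mod_eq_of_lt (mem_range.1 hi), add_zero, e1, Bool.true_and]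

end Pool.Agent.MP_8a92de_lc.H86

end

-- part MP_8a92de_lc.H86U.CE
section

/-! The method of conditional expectations in polynomial time. -/

namespace Pool.Agent.MP_8a92de_lc.H86

open Finset Function Pool.Agent.Lib.Cx

theorem ce_prod {K r : ℕ} {f : ℕ → ℕ} {g : ℕ → ℕ → ℕ} {k0 : ℕ}
    (h1 : ∀ k < K, k ≠ k0 → ∀ j, g j k = f k) (h2 : ∑ j ∈ range r, g j k0 ≤ r * f k0) :
    ∑ j ∈ range r, ∏ k ∈ range K, g j k ≤ r * ∏ k ∈ range K, f k := by
  by_cases h : k0 ∈ range K
  · have e : ∀ j, ∏ k ∈ range K, g j k = g j k0 * ∏ k ∈ (range K).erase k0, f k := fun j => by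
      rw [← mul_prod_erase _ _ h]
      exact congrArg _ (prod_congr rfl fun k hk =>
        h1 k (mem_range.1 (mem_of_mem_erase hk)) (ne_of_mem_erase hk) j)
    simp only [e]
    rw [← sum_mul, ← mul_prod_erase _ f h, ← mul_assoc]
    exact Nat.mul_le_mul_right _ h2
  · have e : ∀ j, ∏ k ∈ range K, g j k = ∏ k ∈ range K, f k := fun j =>
      prod_congr rfl fun k hk => h1 k (mem_range.1 hk) (fun e => h (e ▸ hk)) j
    simp [e]

theorem ce_sum {μ : Type} {r : ℕ} {f : μ → ℕ} {g : ℕ → μ → ℕ} (l : List μ)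
    (h : ∀ m ∈ l, ∑ j ∈ range r, g j m ≤ r * f m) :
    ∑ j ∈ range r, (l.map (g j)).sum ≤ r * (l.map f).sum := by
  induction l with
  | nil => simp
  | cons m l ih =>
    simp only [List.map_cons, List.sum_cons, sum_add_distrib, mul_add]
    exact add_le_add (h m List.mem_cons_self) (ih fun x hx => h x (List.mem_cons_of_mem _ hx))

theorem ce_ex {r c : ℕ} {g : ℕ → ℕ} (hr : 0 < r) (h : ∑ j ∈ range r, g j ≤ r * c) :
    ∃ j < r, g j ≤ c := by
  obtain ⟨j, hj, h'⟩ := exists_le_of_sum_le (f := g) (g := fun _ => c) (nonempty_range_iff.2 hr.ne')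
    (by simpa using h)
  exact ⟨j, mem_range.1 hj, h'⟩

theorem ce_find {r : ℕ} {p : ℕ → Bool} (h : ∃ j < r, p j = true) :
    (List.range r).findIdx p < r ∧ p ((List.range r).findIdx p) = true := by
  obtain ⟨j, hj, h⟩ := h
  have h1 : (List.range r).findIdx p < (List.range r).length :=
    List.findIdx_lt_length_of_exists ⟨j, List.mem_range.2 hj, h⟩
  have h2 := List.findIdx_getElem (w := h1)
  rw [List.getElem_range] at h2
  exact ⟨by simpa using h1, h2⟩

/-- The method of conditional expectations: the sum over `m` of the products does not grow when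
the entries are chosen one after the other. -/
theorem ce (α μ : Type) [Enc α] [Enc μ] (L : α → List μ) (K n r : α → List Unit)
    (φ : α × μ × ℕ → List ℕ → ℕ) (hL : PT L) (hK : PT K) (hn : PT n) (hr : PT r)
    (hφ : PT fun z : (α × μ × ℕ) × List ℕ => φ z.1 z.2) :
    PS fun a (ρ : List ℕ) => 0 < (r a).length →
      (∀ m ∈ L a, ∀ σ : List ℕ, σ.length < (n a).length → ∃ k0,
        (∀ k < (K a).length, k ≠ k0 → ∀ j, φ (a, m, k) (σ ++ [j]) = φ (a, m, k) σ) ∧
        ∑ j ∈ range (r a).length, φ (a, m, k0) (σ ++ [j]) ≤ (r a).length * φ (a, m, k0) σ) →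
      ρ.length = (n a).length ∧ (∀ j ∈ ρ, j < (r a).length) ∧
        ((L a).map fun m => ∏ k ∈ range (K a).length, φ (a, m, k) ρ).sum ≤
          ((L a).map fun m => ∏ k ∈ range (K a).length, φ (a, m, k) []).sum := by
  let Φ : α → List ℕ → ℕ := fun a σ =>
    ((L a).map fun m => ∏ k ∈ range (K a).length, φ (a, m, k) σ).sum
  have hΦ : PT fun z : α × List ℕ => Φ z.1 z.2 := by
    have h1 : PT fun z : ((α × List ℕ) × μ) × ℕ => φ (z.1.1.1, z.1.2, z.2) z.1.1.2 :=
      hφ.comp' (f := fun z : ((α × List ℕ) × μ) × ℕ => ((z.1.1.1, z.1.2, z.2), z.1.1.2))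
        (by fun_prop)
    have h2 : PT fun z : (α × List ℕ) × μ => List.range (K z.1.1).length :=
      PT.range_length (hK.comp' (by fun_prop))
    have h3 : PT fun z : (α × List ℕ) × μ => ∏ k ∈ range (K z.1.1).length, φ (z.1.1, z.2, k) z.1.2 :=
      (PT.prod (PT.map (f := fun (z : (α × List ℕ) × μ) k => φ (z.1.1, z.2, k) z.1.2) h1 h2)).of_eq
        fun z => by rw [Finset.prod, range_val, Multiset.range, Multiset.map_coe, Multiset.prod_coe]
    exact PT.sum (PT.map (f := fun (z : α × List ℕ) m =>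
      ∏ k ∈ range (K z.1).length, φ (z.1, m, k) z.2) h3 (hL.comp' (by fun_prop)))
  let V : α → Prop := fun a => 0 < (r a).length ∧
    ∀ m ∈ L a, ∀ σ : List ℕ, σ.length < (n a).length → ∃ k0,
      (∀ k < (K a).length, k ≠ k0 → ∀ j, φ (a, m, k) (σ ++ [j]) = φ (a, m, k) σ) ∧
      ∑ j ∈ range (r a).length, φ (a, m, k0) (σ ++ [j]) ≤ (r a).length * φ (a, m, k0) σ
  have hg : PT fun z : α × ℕ × List ℕ => z.2.2 ++ [(List.range (r z.1).length).findIdx
      fun j => decide (Φ z.1 (z.2.2 ++ [j]) ≤ Φ z.1 z.2.2)] := by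
    have h1 : PT fun w : (α × ℕ × List ℕ) × ℕ => Φ w.1.1 (w.1.2.2 ++ [w.2]) :=
      hΦ.comp' (f := fun w : (α × ℕ × List ℕ) × ℕ => (w.1.1, w.1.2.2 ++ [w.2])) (by fun_prop)
    have h2 : PT fun w : (α × ℕ × List ℕ) × ℕ => Φ w.1.1 w.1.2.2 :=
      hΦ.comp' (f := fun w : (α × ℕ × List ℕ) × ℕ => (w.1.1, w.1.2.2)) (by fun_prop)
    have h3 : PT fun z : α × ℕ × List ℕ => (List.range (r z.1).length).findIdx
        fun j => decide (Φ z.1 (z.2.2 ++ [j]) ≤ Φ z.1 z.2.2) :=
      PT.findIdx (f := fun (z : α × ℕ × List ℕ) j => decide (Φ z.1 (z.2.2 ++ [j]) ≤ Φ z.1 z.2.2))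
        (by fun_prop) (PT.range_length (hr.comp' (by fun_prop)))
    fun_prop
  refine (PS.loop (T := fun a => (n a).length)
    (M := fun a => (n a).length * (2 * (r a).length + 1)) (c := fun _ => ([] : List ℕ))
    (by fun_prop) (by fun_prop) (by fun_prop) (PT.const _) V
    (fun a i σ => σ.length = i ∧ (∀ j ∈ σ, j < (r a).length) ∧ Φ a σ ≤ Φ a [])
    (fun a _ => ⟨rfl, by simp, le_rfl⟩) ⟨_, hg, ?_⟩ ?_).mono fun a ρ h h1 h2 => h ⟨h1, h2⟩
  · rintro ⟨a, i, σ⟩ ⟨h1, h2⟩ hi ⟨e, h3, h4⟩
    simp only at e hi h3 h4 ⊢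
    have h5 : ∑ j ∈ range (r a).length, Φ a (σ ++ [j]) ≤ (r a).length * Φ a σ :=
      ce_sum (g := fun j m => ∏ k ∈ range (K a).length, φ (a, m, k) (σ ++ [j])) (L a) fun m hm => by
        obtain ⟨k0, h6, h7⟩ := h2 m hm σ (e ▸ hi)
        exact ce_prod (g := fun j k => φ (a, m, k) (σ ++ [j])) h6 h7
    obtain ⟨h6, h7⟩ := ce_find (r := (r a).length)
      (p := fun j => decide (Φ a (σ ++ [j]) ≤ Φ a σ)) (by simpa using ce_ex h1 h5)
    refine ⟨by simp [e], fun j hj => ?_, (of_decide_eq_true h7).trans h4⟩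
    rcases List.mem_append.1 hj with hj | hj
    · exact h3 j hj
    · rw [List.mem_singleton.1 hj]
      exact h6
  · rintro a i σ _ hi ⟨e, h3, _⟩
    exact (size_list_le σ (r a).length fun j hj => (size_nat_le_self j).trans (h3 j hj).le).trans
      (Nat.mul_le_mul_right _ (e ▸ hi))

end Pool.Agent.MP_8a92de_lc.H86

end
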