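import Pool.Agent.MP_8a92de_lc.Mg.H86U_Sw
import Pool.Agent.MP_8a92de_lc.H86U.TDefs
import Pool.Agent.MP_8a92de_lc.Mg.H86U_Flex
import Pool.Agent.MP_8a92de_lc.Mg.H86U_CE

-- part MP_8a92de_lc.H86U.Lay
section

/-! On a subcube found in polynomial time, a tame map has bounded degree. -/

namespace Pool.Agent.MP_8a92de_lc.H86

open Finset Function Pool.Agent.Lib.Cx

/-- On a subcube found in polynomial time all values of `F` have bounded degree. -/
def Cube (p : ℕ) (F : List Bool × ℕ → ℕ) : Prop :=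
  ∃ D E B : ℕ, ∀ (α : Type) [Enc α] (x : α → List Unit) (pre : α → List Bool), PT x → PT pre →
    ∃ (ch : α → ℕ → ℕ) (X : α → ℕ → Bool), PT (fun z : α × ℕ => ch z.1 z.2) ∧
      PT (fun z : α × ℕ => X z.1 z.2) ∧ ∀ a, B ≤ (x a).length →
        (pre a).length ≤ 2 * (x a).length ^ (E + 1) → (∀ i, ch a i < (x a).length ^ E) ∧ ∀ j,
          (fun y => (F (pre a ++ (List.range ((x a).length ^ (E + 1))).map
            (res ((x a).length ^ E) (ch a) (X a) y), j) : ZMod p)) ∈ Deg (ZMod p) ℕ D

theorem lay_dep_deg {F : Type} [CommRing F] (V : List ℕ) {g : (ℕ → Bool) → F} (h : Dep g V) :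
    g ∈ Deg F ℕ V.length := by
  induction V generalizing g with
  | nil =>
    have : g = fun _ => g fun _ => false := funext fun y => h _ _ (by simp)
    rw [this]
    exact Deg.const _ _
  | cons v V ih =>
    have h1 : ∀ b, (fun y => g (update y v b)) ∈ Deg F ℕ V.length := fun b =>
      ih fun y y' e => h _ _ fun w hw => by
        by_cases e1 : w = v
        · simp [e1]
        · rw [update_of_ne e1, update_of_ne e1]
          exact e w ((List.mem_cons.1 hw).resolve_left e1)
    have : g = fun y => tf F (y v) * g (update y v true) +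
        (1 - tf F (y v)) * g (update y v false) := by
      funext y
      conv_lhs => rw [← update_eq_self v y]
      cases y v <;> simp
    rw [this, List.length_cons, add_comm]
    exact Deg.add' (Deg.mul (Deg.var v) (h1 _))
      (Deg.mul (Deg.sub' (Deg.const 1 1) (Deg.var v)) (h1 _))

theorem lay_eval_deg {F ι : Type} [CommRing F] {c D : ℕ} {u : ℕ → (ι → Bool) → F}
    (hu : ∀ i, u i ∈ Deg F ι c) {P : MvPolynomial ℕ F} (hP : P.totalDegree ≤ D) :
    (fun y => MvPolynomial.eval (fun i => u i y) P) ∈ Deg F ι (D * c) := by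
  have h1 : ∀ (d : ℕ → ℕ) (s : Finset ℕ),
      (fun y => ∏ i ∈ s, u i y ^ d i) ∈ Deg F ι ((∑ i ∈ s, d i) * c) := by
    intro d s
    induction s using Finset.induction_on with
    | empty => simpa using Deg.const 0 (1 : F)
    | insert t s ht ih =>
      simp only [prod_insert ht, sum_insert ht, add_mul]
      exact Deg.mul (Deg.pow (hu t) _) ih
  simp only [MvPolynomial.eval_eq]
  refine Deg.sum' fun d hd => ?_
  refine Deg.mono_le ?_ (Deg.mul (Deg.const 0 _) (h1 d d.support))
  rw [zero_add]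
  exact Nat.mul_le_mul_right _ ((MvPolynomial.le_totalDegree hd).trans hP)

theorem lay_pt_gate {W : List Bool × ℕ × ℕ × ℕ → Bool} (hW : PT W) (l : ℕ) :
    ∀ {β : Type} [Enc β] {Q : β → ℕ} {z : β → List Bool} {g : β → ℕ}, PT Q → PB Q → PT z → PT g →
      PT fun b => gate W (Q b) (z b) l (g b) := by
  induction l with
  | zero =>
    intro β _ Q z g _ _ hz hg
    simp only [gate]
    fun_prop
  | succ l ih =>
    intro β _ Q z g hQ hQ' hz hg
    simp only [gate]
    have h1 : PT fun b : β × ℕ => gate W (Q b.1) (z b.1) l (b.2 / 2) :=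
      ih (by fun_prop) (hQ'.comp (f := fun b : β × ℕ => b.1) (by fun_prop)) (by fun_prop)
        (by fun_prop)
    refine PT.any (PT.and ?_ (PT.xor (by fun_prop) h1)) (PT.range hQ hQ')
    fun_prop

theorem lay_num1 {m t Q : ℕ} (hm : 2 ≤ m) (h : Q ≤ m ^ t) : 3 * Q < (1 + m) ^ (t + 1 + 1) := by
  have h1 : m ^ t ≤ (1 + m) ^ t := Nat.pow_le_pow_left (by omega) _
  have h2 : 0 < (1 + m) ^ t := by positivity
  have h3 : 4 ≤ (1 + m) * (1 + m) := by nlinarith
  have h4 := Nat.mul_le_mul_left ((1 + m) ^ t) h3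
  rw [pow_succ, pow_succ, mul_assoc]
  omega

theorem lay_num2 {m c E N v : ℕ} (hE : 2 * c + 2 = E) (hm : c * 3 ^ c ≤ m)
    (hN : N ≤ 3 * m ^ (E + 1)) (h : v ^ (c + 1) ≤ c * N ^ c) : m * v ≤ m ^ E := by
  subst hE
  have h1 : c * (3 * m ^ (2 * c + 2 + 1)) ^ c ≤ (m ^ (2 * c + 1)) ^ (c + 1) := by
    rw [mul_pow, ← mul_assoc, ← pow_mul, ← pow_mul,
      show (2 * c + 1) * (c + 1) = (2 * c + 2 + 1) * c + 1 by ring, pow_succ']
    exact Nat.mul_le_mul_right _ hm
  have h2 := (Nat.pow_le_pow_iff_left (by omega)).1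
    ((h.trans (Nat.mul_le_mul_left _ (Nat.pow_le_pow_left hN _))).trans h1)
  rw [pow_succ']
  exact Nat.mul_le_mul_left _ h2

/-- The input on the subcube. -/
def lay_inp (pre : List Bool) (m E : ℕ) (ch : ℕ → ℕ) (X y : ℕ → Bool) : List Bool :=
  pre ++ (List.range (m ^ (E + 1))).map (res (m ^ E) ch X y)

theorem lay_len (pre : List Bool) (m E : ℕ) (ch : ℕ → ℕ) (X y : ℕ → Bool) :
    (lay_inp pre m E ch X y).length = pre.length + m ^ (E + 1) := by simp [lay_inp]

/-- The gates of layer `l` depend on few variables. -/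
def LayT (W : List Bool × ℕ × ℕ × ℕ → Bool) (Q : ℕ → ℕ) (k : List Bool → List Bool)
    (l c E B : ℕ) : Prop :=
  ∀ (α : Type) [Enc α] (x : α → List Unit) (pre : α → List Bool), PT x → PT pre →
    ∃ (ch : α → ℕ → ℕ) (X : α → ℕ → Bool) (U : α × ℕ → List ℕ),
      PT (fun z : α × ℕ => ch z.1 z.2) ∧ PT (fun z : α × ℕ => X z.1 z.2) ∧ PT U ∧
      ∀ a, B ≤ (x a).length → (pre a).length ≤ 2 * (x a).length ^ (E + 1) →
        (∀ i, ch a i < (x a).length ^ E) ∧ ∀ g < Q ((pre a).length + (x a).length ^ (E + 1)),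
          (U (a, g)).length ≤ c ∧ (∀ v ∈ U (a, g), v < (x a).length) ∧
          Dep (fun y => gate W (Q ((pre a).length + (x a).length ^ (E + 1)))
            (k (lay_inp (pre a) (x a).length E (ch a) (X a) y)) l g) (U (a, g))

section

variable {W : List Bool × ℕ × ℕ × ℕ → Bool} {Q : ℕ → ℕ} {k : List Bool → List Bool} {e : ℕ}
  (hQ : PT fun u : List Unit => Q u.length) (hQ' : PB fun u : List Unit => Q u.length)
  (he : ∀ n N, 2 ≤ n → N ≤ 3 * n → Q N ≤ n ^ e)

include hQ hQ'

theorem lay_Q {α : Type} [Enc α] {N : α → ℕ} (h : PT N) (h' : PB N) :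
    PT (fun a => Q (N a)) ∧ PB fun a => Q (N a) := by
  have h1 : PT fun a => List.replicate (N a) () := by fun_prop
  exact ⟨by simpa using hQ.comp' h1, by simpa using hQ'.comp h1⟩

include he

theorem lay_zero (hk : IsLocal k) : ∃ c E B, LayT W Q k 0 c E B := by
  obtain ⟨-, -, c0, V, hV, hk⟩ := hk
  have hV' : PT V := pt_iff_isPolyTime.2 hV
  refine ⟨(2 * c0 + 2 + 1) * e + 1, 2 * c0 + 2, c0 * 3 ^ c0 + 2, fun α _ x pre hx hpre => ?_⟩
  generalize hE : 2 * c0 + 2 = E
  obtain ⟨h1, h2⟩ := lay_Q hQ hQ' (N := fun a => (pre a).length + (x a).length ^ (E + 1))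
    (by fun_prop) (by fun_prop)
  let H : α × ℕ → List ℕ := fun z => (V (List.replicate ((pre z.1).length +
    (x z.1).length ^ (E + 1)) true, z.2)).map (· - (pre z.1).length)
  have hH : PT H := by fun_prop
  obtain ⟨ch, h3, h4⟩ := free ((E + 1) * e + 1) α ℕ
    (fun a => List.range (Q ((pre a).length + (x a).length ^ (E + 1)))) x
    (fun a => List.replicate ((x a).length ^ E) ()) x H (PT.range h1 h2) hx (by fun_prop) hx hH
  simp only [List.length_replicate, List.length_range, List.mem_range] at h4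
  refine ⟨ch, fun _ _ => false, fun z => (List.range (x z.1).length).filter fun i =>
    decide ((x z.1).length ^ E * i + ch z.1 i ∈ H (z.1, z.2)), h3, by fun_prop, by fun_prop,
    fun a ha hp => ?_⟩
  have hm2 : 2 ≤ (x a).length := by omega
  have hn : 2 ≤ (x a).length ^ (E + 1) := hm2.trans (Nat.le_self_pow (by omega) _)
  obtain ⟨h5, h6⟩ := h4 a (by positivity)
    (lay_num1 hm2 (by rw [pow_mul]; exact he _ _ hn (by omega))) fun g _ => by
      simp only [H, List.length_map]
      exact lay_num2 hE (by omega) (by omega) (hk ((pre a).length + (x a).length ^ (E + 1)) g).1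
  refine ⟨h5, fun g hg => ⟨h6 g hg, fun v hv => List.mem_range.1 (List.mem_filter.1 hv).1,
    fun y y' hy => (hk _ g).2 _ _ (lay_len ..) (lay_len ..) fun i hi => ?_⟩⟩
  unfold lay_inp
  by_cases h7 : i < (pre a).length
  · rw [List.getD_append _ _ _ _ h7, List.getD_append _ _ _ _ h7]
  · rw [List.getD_append_right _ _ _ _ (not_lt.1 h7), List.getD_append_right _ _ _ _ (not_lt.1 h7)]
    generalize hv : i - (pre a).length = v
    by_cases h8 : v < (x a).length ^ (E + 1)
    · rw [List.getD_eq_getElem _ _ (by simpa using h8), List.getD_eq_getElem _ _ (by simpa using h8)]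
      simp only [List.getElem_map, List.getElem_range, res]
      split_ifs with h9
      · refine hy _ (List.mem_filter.2 ⟨List.mem_range.2 (Nat.div_lt_of_lt_mul h8), ?_⟩)
        rw [← h9, Nat.div_add_mod, decide_eq_true_eq]
        exact List.mem_map.2 ⟨i, hi, hv⟩
      · rfl
    · rw [List.getD_eq_default _ _ (by simpa using h8), List.getD_eq_default _ _ (by simpa using h8)]

theorem lay_succ (hW : PT W) (hk : IsLocal k) {l c E B : ℕ} (h : LayT W Q k l c E B) :
    ∃ c E B, LayT W Q k (l + 1) c E B := by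
  obtain ⟨hk, hlen, -⟩ := hk
  have hk' : PT k := pt_iff_isPolyTime.2 hk
  obtain ⟨c', E', B', hs⟩ := sw c ((E + 1) * e)
  refine ⟨c', (E' + 1) * E + E', B + B' + 2, fun α _ x pre hx hpre => ?_⟩
  have e1 : ∀ m : ℕ, m ^ ((E' + 1) * E + E' + 1) = (m ^ (E' + 1)) ^ (E + 1) := fun m => by ring
  have e2 : ∀ m : ℕ, m ^ ((E' + 1) * E + E') = (m ^ (E' + 1)) ^ E * m ^ E' := fun m => by ring
  obtain ⟨ch, X, U, h1, h2, h3, h4⟩ := h α (fun a => List.replicate ((x a).length ^ (E' + 1)) ())
    pre (by fun_prop) hpre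
  simp only [List.length_replicate] at h4
  let N : α → ℕ := fun a => Q ((pre a).length + ((x a).length ^ (E' + 1)) ^ (E + 1))
  obtain ⟨h5, h6⟩ : PT N ∧ PB N := lay_Q hQ hQ' (by fun_prop) (by fun_prop)
  let z : α → (ℕ → Bool) → List Bool := fun a y =>
    k (lay_inp (pre a) ((x a).length ^ (E' + 1)) E (ch a) (X a) y)
  obtain ⟨ch', X', U', h7, h8, h9, h10⟩ := hs α ℕ ℕ x (fun a => List.range (N a))
    (fun w => List.range (N w.1)) (fun w y => W (List.replicate (z w.1 y).length true, l, w.2.1,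
      w.2.2) && xor (decide (w.2.2 % 2 = 1)) (gate W (N w.1) (z w.1 y) l (w.2.2 / 2)))
    (fun w => U (w.1, w.2.2 / 2)) hx (PT.range h5 h6)
    ((PT.range h5 h6).comp' (f := fun w : α × ℕ => w.1) (by fun_prop)) (fun β _ σ y hσ hy => by
      have h7 : PT fun b => z (σ b).1 (y b) := by
        refine hk'.comp' ?_
        unfold lay_inp
        refine PT.append (by fun_prop) (PT.map (pt_res (by fun_prop) ?_ ?_ ?_ (by fun_prop))
          (by fun_prop))
        · exact h1.comp' (f := fun w : (β × ℕ) × ℕ => ((σ w.1.1).1, w.2)) (by fun_prop)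
        · exact h2.comp' (f := fun w : (β × ℕ) × ℕ => ((σ w.1.1).1, w.2)) (by fun_prop)
        · exact hy.comp' (f := fun w : (β × ℕ) × ℕ => (w.1.1, w.2)) (by fun_prop)
      have h8 : PT fun b => (σ b).1 := by fun_prop
      exact PT.and (hW.comp' (PT.prodMk (PT.replicate h7.length (PB.length h7) (PT.const _))
        (by fun_prop))) (PT.xor (by fun_prop)
          (lay_pt_gate hW l (h5.comp' h8) (h6.comp h8) h7 (by fun_prop)))) (by fun_prop)
  refine ⟨fun a i => ((x a).length ^ (E' + 1)) ^ E * ch' a i +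
    ch a ((x a).length ^ E' * i + ch' a i), fun a => res (((x a).length ^ (E' + 1)) ^ E) (ch a)
      (X a) (X' a), U', by fun_prop, ?_, h9, fun a ha hp => ?_⟩
  · refine pt_res (by fun_prop) ?_ ?_ ?_ (by fun_prop)
    · exact h1.comp' (f := fun w : (α × ℕ) × ℕ => (w.1.1, w.2)) (by fun_prop)
    · exact h2.comp' (f := fun w : (α × ℕ) × ℕ => (w.1.1, w.2)) (by fun_prop)
    · exact h8.comp' (f := fun w : (α × ℕ) × ℕ => (w.1.1, w.2)) (by fun_prop)
  rw [e1] at hp
  have h11 : (x a).length ≤ (x a).length ^ (E' + 1) := Nat.le_self_pow (by omega) _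
  have h12 : (x a).length ^ (E' + 1) ≤ ((x a).length ^ (E' + 1)) ^ (E + 1) :=
    Nat.le_self_pow (by omega) _
  obtain ⟨h13, h14⟩ := h4 a (by omega) hp
  obtain ⟨h15, h16⟩ := h10 a (by omega) (by
    rw [List.length_range, pow_mul]
    exact he _ _ (by omega) (by omega)) fun g _ i hi => by
      obtain ⟨h15, h16, h17⟩ := h14 (i / 2) ((Nat.div_le_self _ _).trans_lt (List.mem_range.1 hi))
      refine ⟨h15, h16, fun y y' hy => ?_⟩
      have h18 : (z a y).length = (z a y').length := hlen _ _ (by simp only [lay_len])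
      have h19 : gate W (N a) (z a y) l (i / 2) = gate W (N a) (z a y') l (i / 2) := h17 y y' hy
      simp only [h18, h19]
  refine ⟨fun i => e2 _ ▸ res_lt h13 h15 i, fun g hg => ?_⟩
  rw [e1] at hg ⊢
  obtain ⟨h17, h18, h19⟩ := h16 g (List.mem_range.2 hg)
  refine ⟨h17, h18, ?_⟩
  simp only [lay_inp, e1, e2, ← res_res h13]
  exact h19

theorem lay_all (hW : PT W) (hk : IsLocal k) (l : ℕ) : ∃ c E B, LayT W Q k l c E B := by
  induction l with
  | zero => exact lay_zero hQ hQ' he hk
  | succ l ih =>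
    obtain ⟨c, E, B, h⟩ := ih
    exact lay_succ hQ hQ' he hW hk h

end

/-- Plan. Let `h` come with `d, q, W` and `k` with `c0, V`. Write `n = |x| ^ (E + 1)`,
`N = |pre| + n ≤ 3 * n`, `ℓ N = |k (replicate N false)|`, `Q = q.eval (ℓ N)`; `Q ≤ n ^ e` for a
constant `e` if `2 ≤ n` (`PB` of the length of `k`, `Pb`). Prove by induction on `l`: there are
`c E B` such that for all `α x pre` there are polynomial-time `ch X` and `U : α × ℕ → List ℕ` with,
for `g < Q`, `|U (a, g)| ≤ c`, entries below `|x a|`, and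
`Dep (fun y => gate W Q (k (pre a ++ (range n).map (res (|x| ^ E) ch X y))) l g) (U (a, g))`.
* `l = 0`: `free` with `L = range Q`, `R = lam = x`, `ρ = |x| ^ E`, `E = 2 * c0 + 2`,
  `H (a, g) = (V (replicate N true, g)).map (· - |pre|)`, `c = (E + 1) * e + 1`,
  `B = c0 * 3 ^ c0 + 2`, `X = false`, `U` the filtered list of `free`.
* `l + 1`: with `c E1 B1` for `l`, take `c' E2 B2` from `sw c ((E1 + 1) * e)`, use the hypothesis
  for `x' = replicate (|x| ^ (E2 + 1)) ()`, `E + 1 = (E2 + 1) * (E1 + 1)`, and `SwT` for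
  `L = J = range Q`, `ψ (a, g, i) y = W (.., l, g, i) && xor (i % 2 = 1) (gate .. l (i / 2))`,
  `V (a, g, i) = U (a, i / 2)`; compose by `res_res`, `res_lt`. `BB ψ` needs: `gate W Q x l g` is
  polynomial-time for fixed `l` (induction, `PT.any`, `PB Q`).
* End: a bit that depends on a list of `c` variables has degree `≤ c` (induction on the list, or sum
  over patterns); a polynomial of total degree `≤ D` in functions of degree `≤ c` has degree
  `≤ D * c` (`MvPolynomial.eval_eq`, `MvPolynomial.le_totalDegree`, `Deg.mul`, `Deg.pow`). -/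
theorem cube_of {p : ℕ} {F : List Bool × ℕ → ℕ} {h k : List Bool → List Bool} (hh : IsUAC h)
    (hk : IsLocal k) (hf : IsModPoly p (fun x => h (k x)) F) : Cube p F := by
  obtain ⟨d, q, W, hW, hh⟩ := hh
  obtain ⟨D, hf⟩ := hf
  have hk' : PT k := pt_iff_isPolyTime.2 hk.1
  let Q : ℕ → ℕ := fun N => q.eval (k (List.replicate N false)).length
  have h0 : PT fun u : List Unit => k (List.replicate u.length false) := by fun_prop
  have hQ : PT fun u : List Unit => Q u.length := PT.polyEval q h0.length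
  have hQ' : PB fun u : List Unit => Q u.length := (PB.length h0).eval q
  obtain ⟨e, he⟩ : ∃ e, ∀ n N, 2 ≤ n → N ≤ 3 * n → Q N ≤ n ^ e := by
    obtain ⟨P, hP⟩ := hQ'
    obtain ⟨b, hb⟩ := Pb.eval P
    refine ⟨3 * b, fun n N h1 h2 => ?_⟩
    have h3 : Q N ≤ P.eval N := by simpa [size_listUnit] using hP (List.replicate N ())
    rw [pow_mul]
    refine (h3.trans (hb N)).trans (Nat.pow_le_pow_left ?_ _)
    have : 4 * n ≤ n ^ 3 := by nlinarith [Nat.mul_le_mul h1 h1]
    omega
  obtain ⟨c, E, B, hL⟩ := lay_all hQ hQ' he (pt_iff_isPolyTime.2 hW) hk d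
  refine ⟨D * c, E, B, fun α _ x pre hx hpre => ?_⟩
  obtain ⟨ch, X, U, h1, h2, -, h4⟩ := hL α x pre hx hpre
  refine ⟨ch, X, h1, h2, fun a ha hp => ⟨(h4 a ha hp).1, fun j => ?_⟩⟩
  obtain ⟨P, h5, h7⟩ := hf ((pre a).length + (x a).length ^ (E + 1)) j
  have h8 : ∀ i, (fun y => if (h (k (lay_inp (pre a) (x a).length E (ch a) (X a) y))).getD i false
      then (1 : ZMod p) else 0) ∈ Deg (ZMod p) ℕ c := fun i => by
    have h9 : ∀ y, q.eval (k (lay_inp (pre a) (x a).length E (ch a) (X a) y)).length =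
        Q ((pre a).length + (x a).length ^ (E + 1)) := fun y =>
      congrArg q.eval (hk.2.1 _ _ (by rw [lay_len, List.length_replicate]))
    simp only [hh, h9]
    by_cases hi : i < Q ((pre a).length + (x a).length ^ (E + 1))
    · obtain ⟨h10, -, h11⟩ := (h4 a ha hp).2 i hi
      refine Deg.mono_le h10 (lay_dep_deg _ fun y y' hy => ?_)
      have h12 := h11 y y' hy
      simp only at h12
      simp [List.getD_eq_getElem?_getD, hi, h12]
    · simpa [List.getD_eq_getElem?_getD, hi] using Deg.const c (0 : ZMod p)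
  convert lay_eval_deg h8 h5 using 2 with y
  rw [h7 _ (lay_len ..)]
  rfl

end Pool.Agent.MP_8a92de_lc.H86

end

-- part MP_8a92de_lc.H86U.FlexC
section

/-! Maps of bounded degree on a subcube are flexible. -/

namespace Pool.Agent.MP_8a92de_lc.H86

open Finset Function Pool.Agent.Lib.Cx

theorem sum_res {ρ : ℕ} {ch : ℕ → ℕ} (h : ∀ i, ch i < ρ) (X Y : ℕ → Bool) (r g : ℕ) :
    ∑ i ∈ range (ρ * r), (res ρ ch X Y (ρ * r * g + i)).toNat =
      ∑ i ∈ range (ρ * r), (res ρ ch X (fun _ => false) (ρ * r * g + i)).toNat +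
        ∑ i ∈ range r, (Y (r * g + i)).toNat := by
  rw [sum_range_mul, sum_range_mul, ← sum_add_distrib]
  refine sum_congr rfl fun j _ => ?_
  have h1 : ∀ Y, ∀ i ∈ range ρ, (res ρ ch X Y (ρ * r * g + (ρ * j + i))).toNat =
      (if i = ch (r * g + j) then Y (r * g + j) else X (ρ * (r * g + j) + i)).toNat := by
    intro Y i hi
    have hi := mem_range.1 hi
    rw [show ρ * r * g + (ρ * j + i) = ρ * (r * g + j) + i by ring, res, Nat.mul_add_mod,
      Nat.mul_add_div (by omega), Nat.mod_eq_of_lt hi, Nat.div_eq_of_lt hi, add_zero]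
  rw [sum_congr rfl (h1 Y), sum_congr rfl (h1 _), ← add_sum_erase _ _ (mem_range.2 (h (r * g + j))),
    ← add_sum_erase _ _ (mem_range.2 (h (r * g + j))), if_pos rfl, if_pos rfl, Bool.toNat_false,
    zero_add, add_comm]
  congr 1
  exact sum_congr rfl fun i hi => by rw [if_neg (ne_of_mem_erase hi), if_neg (ne_of_mem_erase hi)]

theorem getD_map_range (n i : ℕ) (Z : ℕ → Bool) :
    ((List.range n).map Z).getD i false = (decide (i < n) && Z i) := by
  by_cases h : i < n <;> simp [List.getD_eq_getElem?_getD, h]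

theorem pt_natCast {α : Type} [Enc α] {p : ℕ} [NeZero p] {n : α → ℕ} (hn : PT n) :
    PT fun a => (n a : ZMod p) := by
  have h : PT fun a => (((univ : Finset (ZMod p)).toList.find? fun c =>
      decide (c.val = n a % p)).getD 0) := by fun_prop
  refine h.of_eq fun a => ?_
  cases e : List.find? _ _ with
  | none => simpa using List.find?_eq_none.1 e (n a) (by simp)
  | some c =>
    have := List.find?_some e
    rw [decide_eq_true_eq, ← ZMod.val_natCast] at this
    exact (ZMod.val_injective p this).symm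

theorem subset_sums {q : ℕ} [Fact q.Prime] {A : ℕ → ℕ} (k : ℕ) (hA : ∀ j < k, A j % q ≠ 0) :
    min q (k + 1) ≤ ((range k).powerset.image fun η => ((∑ j ∈ η, A j : ℕ) : ZMod q)).card := by
  induction k with
  | zero => simp
  | succ k ih =>
    have h1 : (A k : ZMod q) ≠ 0 := fun hc =>
      hA k (by omega) (Nat.mod_eq_zero_of_dvd ((ZMod.natCast_eq_zero_iff _ _).1 hc))
    have h2 := ZMod.cauchy_davenport (Fact.out : q.Prime) (s := (range k).powerset.image fun η =>
      ((∑ j ∈ η, A j : ℕ) : ZMod q)) (t := {0, (A k : ZMod q)}) ⟨_, mem_image_of_mem _ (empty_mem_powerset _)⟩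
      (by simp)
    have h3 := ih fun j hj => hA j (by omega)
    rw [card_pair h1.symm] at h2
    refine le_trans (by omega) (h2.trans (card_le_card fun z hz => ?_))
    obtain ⟨_, a1, b, a2, rfl⟩ := mem_add.1 hz
    obtain ⟨η, a4, rfl⟩ := mem_image.1 a1
    have a3 := mem_powerset.1 a4
    rw [range_add_one]
    rcases mem_insert.1 a2 with rfl | a2
    · exact mem_image.2 ⟨η, mem_powerset.2 (a3.trans (subset_insert _ _)), by simp⟩
    · refine mem_image.2 ⟨insert k η, mem_powerset.2 (insert_subset_insert _ a3), ?_⟩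
      rw [sum_insert fun hc => by simpa using a3 hc, mem_singleton.1 a2]
      simp [add_comm]

theorem exists_subset {q : ℕ} [Fact q.Prime] {A : ℕ → ℕ} (hA : ∀ j < q, A j % q ≠ 0) (a : ℕ)
    (b : Bool) : ∃ η ∈ (List.range q).sublists, (∀ j ∈ η, j < q) ∧
      decide ((a + ∑ j ∈ range q, if j ∈ η then A j else 0) % q ≠ 0) = b := by
  have h1 := eq_univ_of_card _ (le_antisymm (card_le_univ _)
    (le_trans (by simp) (subset_sums q hA)))
  obtain ⟨η, h2, h3⟩ := mem_image.1 (h1 ▸ mem_univ (tf (ZMod q) b - a))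
  refine ⟨(List.range q).filter (· ∈ η), List.mem_sublists.2 List.filter_sublist,
    fun j hj => List.mem_range.1 (List.mem_filter.1 hj).1, ?_⟩
  have h4 : (∑ j ∈ range q, if j ∈ (List.range q).filter (· ∈ η) then A j else 0) = ∑ j ∈ η, A j := by
    rw [← sum_filter]
    refine sum_congr (by ext j; simpa using fun hj => by simpa using mem_powerset.1 h2 hj)
      fun _ _ => rfl
  rw [h4, ← ZMod.val_natCast, Nat.cast_add, h3]
  cases b <;> simp

theorem Cube.flex {p : ℕ} [NeZero p] {F : List Bool × ℕ → ℕ} {f : List Bool → List Bool}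
    (hf : PT f) (hF : PT F) (h : Cube p F) (hT : IsCert p F f) : Flex f := by
  obtain ⟨q, hq, hq'⟩ := Nat.exists_infinite_primes (p + 1)
  have : Fact q.Prime := ⟨hq'⟩
  obtain ⟨e, hz⟩ := szs' p q fun hc => by
    have := Nat.le_of_dvd (NeZero.pos p) ((ZMod.natCast_eq_zero_iff _ _).1 hc)
    omega
  obtain ⟨D, E, B, h⟩ := h
  obtain ⟨σ, hσ, hi⟩ := iso hz D
  obtain ⟨T, t1, t2, t3⟩ := hT
  replace t1 : PT T := .of_isPolyTime t1
  have h0 : Pb fun Y => σ.eval (Y * Y) * (Y * Y) + B :=
    (((Pb.eval σ).comp (g := fun Y => Y * Y) (by fun_prop)).mul (by fun_prop)).add (by fun_prop)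
  obtain ⟨c, hc⟩ : Pb fun Y => 3 * ((σ.eval (Y * Y) * (Y * Y) + B) * Y) ^ (E + 1) + 1 :=
    ((Pb.const 3).mul ((h0.mul Pb.id).pow _)).add (Pb.const 1)
  obtain ⟨K, t2⟩ := t2 (2 * c + 1)
  obtain ⟨Z, hZ⟩ : ∃ Z : ℕ → ℕ, Z = fun m => (m + 3 + K + q) * (m + 3 + K + q) := ⟨_, rfl⟩
  obtain ⟨r, hr⟩ : ∃ r : ℕ → ℕ, r = fun m => σ.eval (Z m) * Z m + B := ⟨_, rfl⟩
  have h1 : PT fun m : List Unit => r m.length := by rw [hr, hZ]; fun_prop
  have h2 : Pb r := by
    rw [hr, hZ]
    exact h0.comp (g := fun m => m + 3 + K + q) (by fun_prop)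
  obtain ⟨R, hR⟩ : ∃ R : List Unit → List Unit, R = fun m => List.replicate (r m.length) () :=
    ⟨_, rfl⟩
  have h3 : PT R := hR ▸ PT.replicate h1 (h2.pb (by fun_prop)) (by fun_prop)
  have h4 : ∀ m, (R m).length = r m.length := fun m => by simp [hR]
  obtain ⟨u, hu⟩ : ∃ u : List Unit → List Unit, u = fun m => List.replicate (Z m.length) () :=
    ⟨_, rfl⟩
  have hu1 : PT u := by rw [hu, hZ]; fun_prop
  have hu2 : ∀ m, (u m).length = Z m.length := fun m => by simp [hu]
  obtain ⟨x, hx⟩ : ∃ x : List Unit → List Unit,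
    x = fun m => List.replicate ((R m).length * (m.length + 2)) () := ⟨_, rfl⟩
  have h5 : PT x := by rw [hx]; fun_prop
  have h6 : ∀ m, (x m).length = r m.length * (m.length + 2) := fun m => by simp [hx, h4]
  have h7 : ∀ m, q + 3 ≤ Z m ∧ Z m ≤ r m := fun m =>
    ⟨by rw [hZ]; nlinarith, by have := hσ (Z m); rw [hr]; nlinarith⟩
  have h8 : ∀ m, (x m).length ^ (E + 1) = (x m).length ^ E * r m.length * (m.length + 2) :=
    fun m => by rw [pow_succ, mul_assoc, ← h6]
  have h9 : ∀ m : List Unit, (hdr m.length ((x m).length ^ E * (R m).length) q).length ≤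
      2 * (x m).length ^ (E + 1) := fun m => by
    have h9 := h7 m.length
    have : r m.length ≤ (x m).length ^ E * r m.length :=
      Nat.le_mul_of_pos_left _ (by rw [h6]; exact pow_pos (Nat.mul_pos (by omega) (by omega)) _)
    simp only [hdr, List.length_append, List.length_replicate, List.length_cons, List.length_nil]
    rw [h8, h4]
    nlinarith
  obtain ⟨ch, X, a1, a2, a3⟩ := h (List Unit) x
    (fun m => hdr m.length ((x m).length ^ E * (R m).length) q) h5 (by unfold hdr; fun_prop)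
  replace a3 := fun m => a3 m (by
    have : B ≤ r m.length := by simp [hr]
    rw [h6]
    nlinarith) (h9 m)
  obtain ⟨w, hw⟩ : ∃ w : List Unit → (ℕ → Bool) → List Bool, ∀ m y,
    hdr m.length ((x m).length ^ E * (R m).length) q ++ (List.range ((x m).length ^ (E + 1))).map
      (res ((x m).length ^ E) (ch m) (X m) y) = w m y := ⟨_, fun _ _ => rfl⟩
  simp only [hw] at a3
  have hw' : BB w := fun β _ s y hs hy => PT.of_eq (by
    have b1 := a1.comp' (f := fun z : (β × ℕ) × ℕ => (s z.1.1, z.2)) (by fun_prop)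
    have b2 := a2.comp' (f := fun z : (β × ℕ) × ℕ => (s z.1.1, z.2)) (by fun_prop)
    unfold hdr
    exact PT.append (by fun_prop) (PT.map (pt_res (by fun_prop) b1 b2 (by fun_prop) (by fun_prop))
      (by fun_prop))) fun b => (hw (s b) (y b)).symm
  have hT : ∀ m y o, (T (w m y, o)).length ≤ m.length + 3 + K + q := fun m y o => by
    have b1 : (w m y).length ≤ 3 * (x m).length ^ (E + 1) := by
      have := h9 m
      rw [← hw, List.length_append, List.length_map, List.length_range]
      omega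
    have b2 := hc (m.length + 3 + K + q)
    have b3 := t2 (w m y) o
    rw [h6, hr, hZ] at b1
    simp only at b1 b2
    have b4 : 2 ≤ m.length + 3 + K + q ∧ m.length + 2 ≤ m.length + 3 + K + q ∧
      K ≤ m.length + 3 + K + q := by omega
    generalize m.length + 3 + K + q = Y at b1 b2 b4 ⊢
    refine (Nat.pow_le_pow_iff_left (n := 2 * c + 1) (by omega)).1 (b3.trans ?_)
    rw [pow_succ', pow_mul]
    refine Nat.mul_le_mul b4.2.2 (le_trans ?_ (b2.trans (Nat.pow_le_pow_left (by nlinarith) _)))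
    exact Nat.succ_le_succ (b1.trans (by gcongr; exact b4.2.1))
  obtain ⟨Y, hY⟩ : ∃ Y : List Unit × ℕ × List Bool × List ℕ → (ℕ → Bool) → ℕ → Bool, Y = fun z v i =>
    z.2.2.1.getD i false || (decide ((R z.1).length * z.2.1 ≤ i) &&
      v (i - (R z.1).length * z.2.1)) := ⟨_, rfl⟩
  have hY' : ∀ z, IsProj (Y z) := fun z => by
    rw [hY]
    simpa only [Bool.or_comm, Bool.and_comm] using (isProj_or fun i => z.2.2.1.getD i false).comp
      (isProj_and (fun i => i - (R z.1).length * z.2.1) fun i => decide ((R z.1).length * z.2.1 ≤ i))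
  have hwd : PT fun z : List Unit × List Bool => w z.1 fun i => z.2.getD i false :=
    hw'.pt (by fun_prop) (by fun_prop)
  obtain ⟨W, b1, b2⟩ := hi (List Unit × ℕ × List Bool × List ℕ) ℕ
    (fun z => z.2.2.2.flatMap fun o => T (w z.1 fun i => z.2.2.1.getD i false, o)) (fun z => u z.1)
    (fun z v => (F (w z.1.1 (Y z.1 v), z.2) : ZMod p)) (fun _ _ => 1)
    (PT.flatMap (t1.comp' (.prodMk (hwd.comp' (f := fun z : (List Unit × ℕ × List Bool × List ℕ) × ℕ =>
      (z.1.1, z.1.2.2.1)) (by fun_prop)) (by fun_prop))) (by fun_prop)) (by fun_prop)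
    (fun β _ s v hs hv => pt_natCast (hF.comp' (.prodMk (hw'.pt (σ := fun b => (s b).1.1)
      (x := fun b => Y (s b).1 (v b)) (by fun_prop) (by rw [hY]; fun_prop)) (by fun_prop))))
    (by fun_prop)
  refine flex_of hf (q := q) (r := r) (wd := fun z => w z.1 fun i => z.2.getD i false)
    (C := fun m g => ∑ i ∈ range ((x m).length ^ E * r m.length), (res ((x m).length ^ E) (ch m)
      (X m) (fun _ => false) ((x m).length ^ E * r m.length * g + i)).toNat)
    (cd := fun z => (List.range q).sublists.map fun η : List ℕ => (List.range (R z.1).length).map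
      fun v => cut (u z.1).length (fun j => decide (j ∈ η)) (v / σ.eval (u z.1).length) && W z v)
    hwd h1 h2 (fun m y => by rw [← hw]; exact pn_hdr _ _ _ _) (fun m y g => ?_)
    (by unfold cut; fun_prop) fun m g y O hg hO hy hy' a b => ?_
  · simp only [← hw, cnt_hdr, h4, getD_map_range, h8]
    split_ifs with e
    · rw [← sum_res (a3 m).1 _ fun i => y.getD i false]
      refine sum_congr rfl fun i hi => ?_
      have h9 := Nat.mul_le_mul_left ((x m).length ^ E * r m.length) e
      have := mem_range.1 hi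
      rw [Nat.mul_succ] at h9
      rw [decide_eq_true (by omega), Bool.true_and]
    · refine sum_eq_zero fun i _ => ?_
      have := Nat.mul_le_mul_left ((x m).length ^ E * r m.length) (not_lt.1 e)
      rw [decide_eq_false (by omega)]
      rfl
  obtain ⟨c1, c2⟩ := b2 (m, g, y, O) (by
    rw [List.length_flatMap, hu2, hZ]
    refine (List.sum_le_card_nsmul _ (m.length + 3 + K + q) (by simpa using fun o _ => hT _ _ o)).trans ?_
    rw [List.length_map]
    exact Nat.mul_le_mul_right _ (by simp only; omega)) (fun _ => one_ne_zero)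
    fun o _ => Deg.proj (hY' _) ((a3 m).2 o)
  simp only [hu2] at c1 c2 ⊢
  have hs := hσ (Z m.length)
  have hrs : r m.length = σ.eval (Z m.length) * Z m.length + B := by rw [hr]
  have hqZ := (h7 m.length).1
  generalize σ.eval (Z m.length) = s at c1 c2 hs hrs ⊢
  generalize Z m.length = z at c1 c2 hrs hqZ ⊢
  let A : ℕ → ℕ := fun j => ∑ i ∈ range s, (W (m, g, y, O) (s * j + i)).toNat
  have c3 : ∀ j < q, A j % q ≠ 0 := fun j hj hc => c2 j (by omega) (by
    refine Eq.trans ?_ ((ZMod.natCast_eq_zero_iff _ _).2 (Nat.dvd_of_mod_eq_zero hc))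
    rw [Nat.cast_sum]
    exact sum_congr rfl fun i _ => by cases W (m, g, y, O) (s * j + i) <;> simp)
  obtain ⟨η, d1, d2, d3⟩ := exists_subset c3 a b
  have c4 : ∑ i ∈ range (r m.length), (((List.range (r m.length)).map fun v =>
      cut z (fun j => decide (j ∈ η)) (v / s) && W (m, g, y, O) v).getD i false).toNat =
      ∑ j ∈ range q, if j ∈ η then A j else 0 := by
    rw [← sum_subset (range_subset_range.2 (show s * q ≤ r m.length by nlinarith)) fun i _ hi => by
      have : i / s ∉ η := fun hc => hi (mem_range.2 (by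
        rw [mul_comm]; exact (Nat.div_lt_iff_lt_mul hs).1 (d2 _ hc)))
      simp [getD_map_range, cut, this, -List.getD_eq_getElem?_getD], sum_range_mul]
    refine sum_congr rfl fun j hj => ?_
    have hj := mem_range.1 hj
    rw [sum_congr rfl (g := fun i => if j ∈ η then (W (m, g, y, O) (s * j + i)).toNat else 0)
      fun i hi => by
        have hi := mem_range.1 hi
        rw [getD_map_range, decide_eq_true (by nlinarith), Nat.mul_add_div hs, Nat.div_eq_of_lt hi,
          add_zero, cut, decide_eq_true (show j < _ by omega)]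
        by_cases e : j ∈ η <;> simp [e]]
    split_ifs <;> simp [A]
  refine ⟨_, List.mem_map.2 ⟨η, d1, rfl⟩, by simp [h4], by rw [h4, c4, d3], fun o ho => ?_⟩
  have d4 : (fun i => (upd (r m.length) g y ((List.range (R m).length).map fun v =>
      cut z (fun j => decide (j ∈ η)) (v / s) && W (m, g, y, O) v)).getD i false) =
      Y (m, g, y, O) fun v => cut z (fun j => decide (j ∈ η)) (v / s) && W (m, g, y, O) v := by
    ext i
    rw [upd_getD hy hg (by simp [h4]), getD_map_range, hY]
    simp only [h4]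
    by_cases e : i - r m.length * g < r m.length
    · simp [e]
    · have : ¬(i - r m.length * g) / s < z := fun hc => e (by
        have := (Nat.div_lt_iff_lt_mul hs).1 hc
        nlinarith)
      simp [e, cut, this]
  have d5 : (Y (m, g, y, O) fun _ => false) = fun i => y.getD i false := by simp [hY]
  rw [d4]
  refine t3 _ _ o (by simp [← hw]) fun i hi => (ZMod.natCast_eq_natCast_iff _ _ _).1 ?_
  rw [c1 i (List.mem_flatMap.2 ⟨o, ho, hi⟩), d5]

theorem IsTame.flex {f : List Bool → List Bool} (h : IsTame f) : PT f ∧ Flex f := by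
  obtain ⟨h1, p, h, k, F, hp, h2, h3, h4, h5, h6⟩ := h
  have : NeZero p := ⟨hp.ne'⟩
  exact ⟨.of_isPolyTime h1, (cube_of h2 h3 h5).flex (.of_isPolyTime h1) (.of_isPolyTime h4) h6⟩

end Pool.Agent.MP_8a92de_lc.H86

end
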