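import Pool.Agent.MP_8a92de_lc.Mg.H86U_CE
import Pool.Agent.MP_8a92de_lc.Mg.H86U_Flex

-- part MP_8a92de_lc.H86U.Sat
section

/-! One assignment that satisfies a term in each of many long families of disjoint terms. -/

namespace Pool.Agent.MP_8a92de_lc.H86

open Finset Function Pool.Agent.Lib.Cx

/-- The conditional expectation of the scaled indicator of a term. -/
def satN (V : List ℕ) (t : ℕ → Bool) (σ : List ℕ) : ℕ :=
  ((List.range σ.length).map fun v =>
    if v ∈ V then (if decide (σ.getD v 0 = 1) = t v then 2 else 0) else 1).prod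

theorem satN_eq (V : List ℕ) (t : ℕ → Bool) (σ : List ℕ) : satN V t σ = ∏ v ∈ range σ.length,
    if v ∈ V then (if decide (σ.getD v 0 = 1) = t v then 2 else 0) else 1 := by
  rw [satN, Finset.prod, range_val, Multiset.range, Multiset.map_coe, Multiset.prod_coe]

theorem satN_snoc (V : List ℕ) (t : ℕ → Bool) (σ : List ℕ) (j : ℕ) :
    satN V t (σ ++ [j]) = satN V t σ *
      if σ.length ∈ V then (if decide (j = 1) = t σ.length then 2 else 0) else 1 := by
  rw [satN_eq, satN_eq, List.length_append, List.length_singleton, prod_range_succ]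
  congr 1
  · refine prod_congr rfl fun v hv => ?_
    rw [List.getD_append _ _ _ _ (mem_range.1 hv)]
  · rw [List.getD_append_right _ _ _ _ le_rfl]
    simp

theorem satN_le (V : List ℕ) (t : ℕ → Bool) (σ : List ℕ) : satN V t σ ≤ 2 ^ V.length := by
  rw [satN_eq]
  calc _ ≤ ∏ v ∈ range σ.length, if v ∈ V then 2 else 1 :=
        prod_le_prod' fun v _ => by split_ifs <;> omega
    _ = 2 ^ ((range σ.length).filter (· ∈ V)).card := by
        rw [prod_ite, prod_const, prod_const_one, mul_one]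
    _ ≤ 2 ^ V.length := by
        refine Nat.pow_le_pow_right two_pos ((card_le_card fun v hv => ?_).trans
          V.toFinset_card_le)
        exact List.mem_toFinset.2 (mem_filter.1 hv).2

theorem satN_zero {V : List ℕ} {t : ℕ → Bool} {σ : List ℕ} {v : ℕ} (h1 : v ∈ V)
    (h2 : v < σ.length) (h3 : decide (σ.getD v 0 = 1) ≠ t v) : satN V t σ = 0 := by
  rw [satN_eq]
  exact prod_eq_zero (mem_range.2 h2) (by rw [if_pos h1, if_neg h3])

theorem satN_step {V : List ℕ} {c : ℕ} (h : V.length ≤ c) (t : ℕ → Bool) (σ : List ℕ) :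
    ∑ j ∈ range 2, (2 ^ c - satN V t (σ ++ [j])) ≤ 2 * (2 ^ c - satN V t σ) := by
  have hc : 2 ^ V.length ≤ 2 ^ c := Nat.pow_le_pow_right two_pos h
  have h0 := (satN_le V t (σ ++ [0])).trans hc
  have h1 := (satN_le V t (σ ++ [1])).trans hc
  rw [sum_range_succ, sum_range_one]
  rw [satN_snoc] at h0 h1
  rw [satN_snoc, satN_snoc]
  by_cases hm : σ.length ∈ V
  · simp only [if_pos hm] at h0 h1 ⊢
    cases ht : t σ.length <;> simp [ht] at h0 h1 ⊢ <;> omega
  · simp only [if_neg hm]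
    omega

/-- Plan. Apply `ce` with `r = 2` (choice `j` means the bit `decide (j = 1)`),
`φ (a, m, k) σ = 2 ^ c - N σ`, where `N σ` is the product over `v < |σ|` of
`if v ∈ V then (if decide (σ.getD v 0 = 1) = t v then 2 else 0) else 1`. So `N [] = 1`,
`N σ ≤ 2 ^ c` (at most `c` factors are not `1`), `N (σ ++ [0]) + N (σ ++ [1]) = 2 * N σ`, and
`N (σ ++ [j]) = N σ` if `|σ| ∉ V`; `k0` is the unique `k < K` with `|σ| ∈ V (a, m, k)` if there is
one. If no term of the family `m` is satisfied at the end, all its `N` vanish and the product is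
`(2 ^ c) ^ K`. -/
theorem sat (c : ℕ) (α μ : Type) [Enc α] [Enc μ] (L : α → List μ) (K n : α → List Unit)
    (V : α × μ × ℕ → List ℕ) (t : α × μ × ℕ → ℕ → Bool) (hL : PT L) (hK : PT K) (hn : PT n)
    (hV : PT V) (ht : PT fun z : (α × μ × ℕ) × ℕ => t z.1 z.2) :
    ∃ X : α → ℕ → Bool, PT (fun z : α × ℕ => X z.1 z.2) ∧ ∀ a,
      (L a).length * (2 ^ c - 1) ^ (K a).length < (2 ^ c) ^ (K a).length →
      (∀ m ∈ L a, ∀ k < (K a).length, (V (a, m, k)).length ≤ c ∧
        (∀ v ∈ V (a, m, k), v < (n a).length) ∧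
        ∀ k' < (K a).length, ∀ v ∈ V (a, m, k), v ∈ V (a, m, k') → k = k') →
      ∀ m ∈ L a, ∃ k < (K a).length, ∀ v ∈ V (a, m, k), X a v = t (a, m, k) v := by
  have hφ : PT fun z : (α × μ × ℕ) × List ℕ => 2 ^ c - satN (V z.1) (t z.1) z.2 := by
    have h1 : PT fun y : ((α × μ × ℕ) × List ℕ) × ℕ => t y.1.1 y.2 :=
      ht.comp' (f := fun y : ((α × μ × ℕ) × List ℕ) × ℕ => (y.1.1, y.2)) (by fun_prop)
    unfold satN
    fun_prop
  obtain ⟨g, hg, hs⟩ := ce α μ L K n (fun _ => [(), ()])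
    (fun x σ => 2 ^ c - satN (V x) (t x) σ) hL hK hn (PT.const _) hφ
  refine ⟨fun a v => decide ((g a).getD v 0 = 1), by fun_prop, fun a h1 h2 m hm => ?_⟩
  have hK0 : 0 < (K a).length := by
    refine Nat.pos_of_ne_zero fun h0 => ?_
    have := List.length_pos_of_mem hm
    rw [h0, pow_zero, pow_zero] at h1
    omega
  obtain ⟨a1, -, a2⟩ := hs a two_pos fun m hm σ _ => by
    have e : ∀ k, σ.length ∉ V (a, m, k) → ∀ j,
        2 ^ c - satN (V (a, m, k)) (t (a, m, k)) (σ ++ [j]) =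
          2 ^ c - satN (V (a, m, k)) (t (a, m, k)) σ := fun k hk j => by
      rw [satN_snoc, if_neg hk, mul_one]
    by_cases h : ∃ k < (K a).length, σ.length ∈ V (a, m, k)
    · obtain ⟨k0, b1, b2⟩ := h
      exact ⟨k0, fun k hk hne => e k fun b3 => hne ((h2 m hm k hk).2.2 k0 b1 _ b3 b2),
        satN_step (h2 m hm k0 b1).1 _ _⟩
    · exact ⟨0, fun k hk _ => e k fun b3 => h ⟨k, hk, b3⟩, satN_step (h2 m hm 0 hK0).1 _ _⟩
  by_contra hn
  push Not at hn
  have b1 : ∏ k ∈ range (K a).length, (2 ^ c - satN (V (a, m, k)) (t (a, m, k)) (g a)) =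
      (2 ^ c) ^ (K a).length := by
    refine (prod_congr rfl fun k hk => ?_).trans ((prod_const _).trans (by rw [card_range]))
    replace hk := mem_range.1 hk
    obtain ⟨v, c1, c2⟩ := hn k hk
    rw [satN_zero c1 (a1 ▸ (h2 m hm k hk).2.1 v c1) c2, Nat.sub_zero]
  have b2 := List.single_le_sum (fun _ _ => Nat.zero_le _) _ (List.mem_map_of_mem
    (f := fun m => ∏ k ∈ range (K a).length,
      (2 ^ c - satN (V (a, m, k)) (t (a, m, k)) (g a))) hm)
  have b3 : ((L a).map fun m => ∏ k ∈ range (K a).length,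
      (2 ^ c - satN (V (a, m, k)) (t (a, m, k)) [])).sum =
      (L a).length * (2 ^ c - 1) ^ (K a).length := by
    simp [satN]
  rw [b1] at b2
  rw [b3] at a2
  omega

end Pool.Agent.MP_8a92de_lc.H86

end

-- part MP_8a92de_lc.H86U.Free
section

/-! One variable from each row such that many small sets contain few chosen variables. -/

namespace Pool.Agent.MP_8a92de_lc.H86

open Finset Function Pool.Agent.Lib.Cx

/-- The number of variables of row `k` in `H`. -/
def Free_h (ρ k : ℕ) (H : List ℕ) : ℕ :=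
  ((List.range ρ).filter fun j => decide (ρ * k + j ∈ H)).length

/-- The conditional expectation for one row. -/
def Free_phi (ρ lam : ℕ) (H : List ℕ) (k : ℕ) (σ : List ℕ) : ℕ :=
  if k < σ.length then ρ * (if ρ * k + σ.getD k 0 ∈ H then 1 + lam else 1)
  else ρ + lam * Free_h ρ k H

theorem Free_len (n : ℕ) (p : ℕ → Prop) [DecidablePred p] :
    ((List.range n).filter fun j => decide (p j)).length = #{j ∈ range n | p j} := by
  induction n with
  | zero => simp
  | succ n ih =>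
    rw [List.range_succ, List.filter_append, List.length_append, ih, range_add_one, filter_insert]
    by_cases h : p n
    · rw [if_pos h, card_insert_of_notMem (by simp)]
      simp [h]
    · simp [h]

theorem Free_sum (ρ R : ℕ) (H : List ℕ) : ∑ k ∈ range R, Free_h ρ k H ≤ H.length := by
  simp only [Free_h, Free_len]
  rw [← card_sigma]
  refine le_trans (card_le_card_of_injOn (t := H.toFinset) (fun z => ρ * z.1 + z.2) ?_ ?_)
    (List.toFinset_card_le H)
  · intro z hz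
    simp only [coe_sigma, Set.mem_sigma_iff, mem_coe, mem_filter] at hz
    simpa using hz.2.2
  · rintro ⟨k, j⟩ hz ⟨k', j'⟩ hz' e
    simp only [coe_sigma, Set.mem_sigma_iff, mem_coe, mem_filter, mem_range] at hz hz' e
    have h0 : 0 < ρ := (Nat.zero_le _).trans_lt hz.2.1
    have e1 := congrArg (· / ρ) e
    have e2 := congrArg (· % ρ) e
    simp only [Nat.mul_add_div h0, Nat.div_eq_of_lt hz.2.1, Nat.div_eq_of_lt hz'.2.1,
      Nat.mul_add_mod, Nat.mod_eq_of_lt hz.2.1, Nat.mod_eq_of_lt hz'.2.1, add_zero] at e1 e2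
    subst e1 e2
    rfl

theorem Free_prod {ρ R : ℕ} (h0 : 0 < ρ) (x : ℕ → ℕ) (hx : ∑ k ∈ range R, x k ≤ ρ) :
    ∏ k ∈ range R, (ρ + x k) ≤ 3 * ρ ^ R := by
  have h1 : (0 : ℝ) < ρ := by exact_mod_cast h0
  have h2 : ∏ k ∈ range R, ((ρ : ℝ) + x k) ≤ ∏ k ∈ range R, (ρ * Real.exp (x k / ρ)) := by
    refine prod_le_prod (fun k _ => by positivity) fun k _ => ?_
    have h3 := mul_le_mul_of_nonneg_left (Real.add_one_le_exp ((x k : ℝ) / ρ)) h1.le
    have h4 : (ρ : ℝ) * (x k / ρ + 1) = ρ + x k := by field_simp; ring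
    rwa [h4] at h3
  rw [prod_mul_distrib, prod_const, card_range, ← Real.exp_sum, ← sum_div] at h2
  have h5 : (∑ k ∈ range R, (x k : ℝ)) / ρ ≤ 1 := by
    rw [div_le_one h1]
    exact_mod_cast hx
  have h6 : Real.exp ((∑ k ∈ range R, (x k : ℝ)) / ρ) ≤ 3 :=
    (Real.exp_le_exp.2 h5).trans (by linarith [Real.exp_one_lt_d9])
  have h7 : ∏ k ∈ range R, ((ρ : ℝ) + x k) ≤ 3 * (ρ : ℝ) ^ R := by
    refine h2.trans ?_
    rw [mul_comm]
    exact mul_le_mul_of_nonneg_right h6 (by positivity)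
  exact_mod_cast h7

theorem Free_start {ρ lam R : ℕ} {H : List ℕ} (h0 : 0 < ρ) (hH : lam * H.length ≤ ρ) :
    ∏ k ∈ range R, Free_phi ρ lam H k [] ≤ 3 * ρ ^ R := by
  simp only [Free_phi, List.length_nil, Nat.not_lt_zero, if_false]
  refine Free_prod h0 _ ?_
  rw [← mul_sum]
  exact (Nat.mul_le_mul_left _ (Free_sum ρ R H)).trans hH

theorem Free_end {ρ lam : ℕ} {H σ : List ℕ} :
    ∏ k ∈ range σ.length, Free_phi ρ lam H k σ = ρ ^ σ.length * (1 + lam) ^
      ((List.range σ.length).filter fun i => decide (ρ * i + σ.getD i 0 ∈ H)).length := by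
  rw [Free_len, prod_congr rfl (g := fun k => ρ * (if ρ * k + σ.getD k 0 ∈ H then 1 + lam else 1))
    fun k hk => by rw [Free_phi, if_pos (mem_range.1 hk)], prod_mul_distrib, prod_const,
    card_range, prod_ite, prod_const, prod_const_one, mul_one]

theorem Free_other {ρ lam k : ℕ} {H σ : List ℕ} (hk : k ≠ σ.length) (j : ℕ) :
    Free_phi ρ lam H k (σ ++ [j]) = Free_phi ρ lam H k σ := by
  unfold Free_phi
  by_cases h : k < σ.length
  · rw [if_pos h, if_pos (by simp; omega), List.getD_append _ _ _ _ h]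
  · rw [if_neg h, if_neg (by simp; omega)]

theorem Free_step {ρ lam : ℕ} {H σ : List ℕ} :
    ∑ j ∈ range ρ, Free_phi ρ lam H σ.length (σ ++ [j]) ≤ ρ * Free_phi ρ lam H σ.length σ := by
  have h1 : ∀ j, Free_phi ρ lam H σ.length (σ ++ [j]) =
      ρ * (1 + if ρ * σ.length + j ∈ H then lam else 0) := by
    intro j
    rw [Free_phi, if_pos (by simp), List.getD_append_right _ _ _ _ le_rfl]
    simp only [Nat.sub_self, List.getD_cons_zero]
    split_ifs <;> rfl
  simp only [h1]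
  rw [← mul_sum, Free_phi, if_neg (lt_irrefl _), sum_add_distrib, ← sum_filter, Free_h, Free_len]
  simp [mul_comm]

theorem Free_pt_h {α : Type} [Enc α] {ρ : α → List Unit} {k : α → ℕ} {H : α → List ℕ}
    (hρ : PT ρ) (hk : PT k) (hH : PT H) : PT fun a => Free_h (ρ a).length (k a) (H a) := by
  unfold Free_h
  fun_prop

theorem Free_pt_phi {α : Type} [Enc α] {ρ lam : α → List Unit} {k : α → ℕ} {H σ : α → List ℕ}
    (hρ : PT ρ) (hl : PT lam) (hH : PT H) (hk : PT k) (hσ : PT σ) :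
    PT fun a => Free_phi (ρ a).length (lam a).length (H a) (k a) (σ a) := by
  have h1 : PT fun a => (σ a).getD (k a) 0 := by fun_prop
  exact PT.ite (PP.lt hk hσ.length) (hρ.length.mul (PT.ite (PP.mem hH ((hρ.length.mul hk).add h1))
    ((PT.const 1).add hl.length) (PT.const 1))) (hρ.length.add (hl.length.mul (Free_pt_h hρ hk hH)))

/-- Plan. Row `i < R` consists of the variables `ρ * i + j`, `j < ρ`. Apply `ce` with `K = n = R`,
`r = ρ`, `k0 = |σ|` and, with `h k` the number of `j < ρ` with `ρ * k + j ∈ H (a, m)`,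
`φ (a, m, k) σ = if k < |σ| then ρ * (if ρ * k + σ.getD k 0 ∈ H then 1 + lam else 1)
else ρ + lam * h k`. At the end the product is `ρ ^ R * (1 + lam) ^ hits`; at the start it is at
most `ρ ^ R * exp (lam * ∑ h k / ρ) ≤ 3 * ρ ^ R`, since `∑ k < R, h k ≤ |H|`
(`Real.add_one_le_exp`, `Real.exp_one_lt_d9`). Put `ch a i = ρlist.getD i 0`. -/
theorem free (c : ℕ) (α μ : Type) [Enc α] [Enc μ] (L : α → List μ) (R ρ lam : α → List Unit)
    (H : α × μ → List ℕ) (hL : PT L) (hR : PT R) (hρ : PT ρ) (hlam : PT lam) (hH : PT H) :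
    ∃ ch : α → ℕ → ℕ, PT (fun z : α × ℕ => ch z.1 z.2) ∧ ∀ a, 0 < (ρ a).length →
      3 * (L a).length < (1 + (lam a).length) ^ (c + 1) →
      (∀ m ∈ L a, (lam a).length * (H (a, m)).length ≤ (ρ a).length) →
      (∀ i, ch a i < (ρ a).length) ∧ ∀ m ∈ L a, ((List.range (R a).length).filter fun i =>
        decide ((ρ a).length * i + ch a i ∈ H (a, m))).length ≤ c := by
  have hφ : PT fun z : (α × μ × ℕ) × List ℕ =>
      Free_phi (ρ z.1.1).length (lam z.1.1).length (H (z.1.1, z.1.2.1)) z.1.2.2 z.2 :=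
    Free_pt_phi (by fun_prop) (by fun_prop) (by fun_prop) (by fun_prop) (by fun_prop)
  obtain ⟨g, hg, hs⟩ := ce α μ L R R ρ
    (fun w σ => Free_phi (ρ w.1).length (lam w.1).length (H (w.1, w.2.1)) w.2.2 σ) hL hR hR hρ hφ
  refine ⟨fun a i => (g a).getD i 0, by fun_prop, fun a h0 hc hm => ?_⟩
  obtain ⟨h1, h2, h3⟩ := hs a h0 fun m _ σ _ =>
    ⟨σ.length, fun k _ hk j => Free_other hk j, Free_step⟩
  refine ⟨fun i => ?_, fun m hmL => ?_⟩
  · change (g a).getD i 0 < _
    by_cases hi : i < (g a).length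
    · rw [List.getD_eq_getElem _ _ hi]
      exact h2 _ (List.getElem_mem hi)
    · rwa [List.getD_eq_default _ _ (not_lt.1 hi)]
  · have h4 := List.single_le_sum (l := (L a).map fun m => ∏ k ∈ range (R a).length,
      Free_phi (ρ a).length (lam a).length (H (a, m)) k (g a)) (fun _ _ => Nat.zero_le _) _
      (List.mem_map_of_mem hmL)
    have h5 := List.sum_le_card_nsmul ((L a).map fun m => ∏ k ∈ range (R a).length,
      Free_phi (ρ a).length (lam a).length (H (a, m)) k []) (3 * (ρ a).length ^ (R a).length)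
      (fun x hx => by
        obtain ⟨m', hm', rfl⟩ := List.mem_map.1 hx
        exact Free_start h0 (hm m' hm'))
    have h6 := h4.trans (h3.trans h5)
    rw [← h1, Free_end, List.length_map, smul_eq_mul, ← mul_assoc, mul_comm,
      Nat.mul_le_mul_right_iff (pow_pos h0 _), h1] at h6
    have h7 := h6.trans_lt (by rwa [mul_comm] at hc)
    exact Nat.lt_succ_iff.1 (lt_of_not_ge fun h => absurd h7 (not_lt.2
      (Nat.pow_le_pow_right (by omega) h)))

end Pool.Agent.MP_8a92de_lc.H86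

end

-- part MP_8a92de_lc.H86U.Res
section

/-! Restrictions that leave one variable free in each row. -/

namespace Pool.Agent.MP_8a92de_lc.H86

open Finset Function Pool.Agent.Lib.Cx

/-- `φ` depends only on the variables in `V`. -/
def Dep {γ : Type} (φ : (ℕ → Bool) → γ) (V : List ℕ) : Prop :=
  ∀ x y, (∀ v ∈ V, x v = y v) → φ x = φ y

/-- In row `i` (the variables `ρ * i + j`, `j < ρ`) the variable `ρ * i + ch i` gets the value
`y i`; the other variables are fixed by `X`. -/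
def res (ρ : ℕ) (ch : ℕ → ℕ) (X y : ℕ → Bool) (v : ℕ) : Bool :=
  if v % ρ = ch (v / ρ) then y (v / ρ) else X v

@[fun_prop] theorem pt_res {α : Type} [Enc α] {ρ v : α → ℕ} {ch : α → ℕ → ℕ}
    {X y : α → ℕ → Bool} (hρ : PT ρ) (hch : PT fun z : α × ℕ => ch z.1 z.2)
    (hX : PT fun z : α × ℕ => X z.1 z.2) (hy : PT fun z : α × ℕ => y z.1 z.2) (hv : PT v) :
    PT fun a => res (ρ a) (ch a) (X a) (y a) (v a) := by
  unfold res
  fun_prop

theorem res_res {ρ ρ' : ℕ} {ch ch' : ℕ → ℕ} (h : ∀ i, ch i < ρ) (X X' y : ℕ → Bool) :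
    res ρ ch X (res ρ' ch' X' y) =
      res (ρ * ρ') (fun i => ρ * ch' i + ch (ρ' * i + ch' i)) (res ρ ch X X') y := by
  ext v
  have h0 : 0 < ρ := (Nat.zero_le _).trans_lt (h 0)
  have h1 : v % (ρ * ρ') = ρ * ch' (v / (ρ * ρ')) + ch (ρ' * (v / (ρ * ρ')) + ch' (v / (ρ * ρ'))) ↔
      v % ρ = ch (v / ρ) ∧ v / ρ % ρ' = ch' (v / ρ / ρ') := by
    rw [Nat.mod_mul, ← Nat.div_div_eq_div_mul]
    constructor
    · intro e
      have e1 := congrArg (· / ρ) e
      have e2 := congrArg (· % ρ) e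
      simp only [Nat.add_mul_div_left _ _ h0, Nat.mul_add_div h0, Nat.div_eq_of_lt (h _),
        Nat.div_eq_of_lt (Nat.mod_lt v h0), Nat.add_mul_mod_self_left, Nat.mul_add_mod,
        Nat.mod_mod, Nat.mod_eq_of_lt (h _), zero_add, add_zero] at e1 e2
      rw [← e1, Nat.div_add_mod] at e2
      exact ⟨e2, e1⟩
    · rintro ⟨e1, e2⟩
      rw [← e2, Nat.div_add_mod, ← e1, add_comm]
  simp only [res, h1, Nat.div_div_eq_div_mul]
  by_cases e1 : v % ρ = ch (v / ρ) <;> simp [e1]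

theorem res_lt {ρ ρ' : ℕ} {ch ch' : ℕ → ℕ} (h : ∀ i, ch i < ρ) (h' : ∀ i, ch' i < ρ') (i : ℕ) :
    ρ * ch' i + ch (ρ' * i + ch' i) < ρ * ρ' := by
  have := h (ρ' * i + ch' i)
  have := Nat.mul_le_mul_left ρ (h' i)
  rw [Nat.mul_succ] at this
  omega

/-- The restriction finds, for each of polynomially many ORs of functions of at most `c` variables,
at most `c'` variables on which the restricted OR depends. -/
def SwT (c e c' E B : ℕ) : Prop :=
  ∀ (α μ ν : Type) [Enc α] [Enc μ] [Enc ν] (x : α → List Unit) (L : α → List μ)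
    (J : α × μ → List ν) (ψ : α × μ × ν → (ℕ → Bool) → Bool) (V : α × μ × ν → List ℕ),
    PT x → PT L → PT J → BB ψ → PT V →
    ∃ (ch : α → ℕ → ℕ) (X : α → ℕ → Bool) (U : α × μ → List ℕ),
      PT (fun z : α × ℕ => ch z.1 z.2) ∧ PT (fun z : α × ℕ => X z.1 z.2) ∧ PT U ∧
      ∀ a, B ≤ (x a).length → (L a).length ≤ ((x a).length ^ (E + 1)) ^ e →
        (∀ m ∈ L a, ∀ k ∈ J (a, m), (V (a, m, k)).length ≤ c ∧
          (∀ v ∈ V (a, m, k), v < (x a).length ^ (E + 1)) ∧ Dep (ψ (a, m, k)) (V (a, m, k))) →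
        (∀ i, ch a i < (x a).length ^ E) ∧ ∀ m ∈ L a, (U (a, m)).length ≤ c' ∧
          (∀ v ∈ U (a, m), v < (x a).length) ∧ Dep (fun y => (J (a, m)).any fun k =>
            ψ (a, m, k) (res ((x a).length ^ E) (ch a) (X a) y)) (U (a, m))

end Pool.Agent.MP_8a92de_lc.H86

end

-- part MP_8a92de_lc.H86U.Sw
section

/-! A deterministic switching lemma. -/

namespace Pool.Agent.MP_8a92de_lc.H86

open Finset Function Pool.Agent.Lib.Cx

/-- The assignment with pattern `β` on the list `V`. -/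
def sw_asg (V β : List ℕ) (v : ℕ) : Bool := decide (β.getD (V.idxOf v) 0 = 1)

@[fun_prop] theorem sw_pt_asg {α : Type} [Enc α] {V β : α → List ℕ} {v : α → ℕ} (hV : PT V)
    (hβ : PT β) (hv : PT v) : PT fun a => sw_asg (V a) (β a) (v a) := by
  unfold sw_asg
  fun_prop

theorem sw_pat {V : List ℕ} {c : ℕ} (h : V.length ≤ c) (z : ℕ → Bool) :
    ∃ β ∈ tup c 2, ∀ v ∈ V, sw_asg V β v = z v := by
  refine ⟨(List.range c).map fun i => if z (V.getD i 0) then 1 else 0, mem_tup.2 ⟨by simp, ?_⟩,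
    fun v hv => ?_⟩
  · intro i hi
    obtain ⟨j, -, rfl⟩ := List.mem_map.1 hi
    split_ifs <;> omega
  · have h1 := List.idxOf_lt_length_of_mem hv
    have h2 : V.getD (V.idxOf v) 0 = v := by
      rw [List.getD_eq_getElem _ _ h1, List.getElem_idxOf]
    have h3 : V.idxOf v < ((List.range c).map fun i => if z (V.getD i 0) then 1 else 0).length := by
      simpa using h1.trans_le h
    rw [sw_asg, List.getD_eq_getElem _ _ h3, List.getElem_map, List.getElem_range, h2]
    cases z v <;> simp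

/-- A greedy family of disjoint terms. -/
def sw_gr (P : List (List ℕ × List ℕ)) : List (List ℕ × List ℕ) :=
  P.foldr (fun p F => if ∀ q ∈ F, ∀ v ∈ p.1, v ∉ q.1 then p :: F else F) []

theorem sw_pt_gr {α : Type} [Enc α] {P : α → List (List ℕ × List ℕ)} (hP : PT P) :
    PT fun a => sw_gr (P a) :=
  PT.foldr_add' (f := fun _ (p : List ℕ × List ℕ) (F : List (List ℕ × List ℕ)) =>
    if ∀ q ∈ F, ∀ v ∈ p.1, v ∉ q.1 then p :: F else F) (by fun_prop) hP (PT.const [])
    (fun p => 2 * size p.2 + 1) (by fun_prop) fun _ a b => by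
      split_ifs
      · rw [size_cons]; simp only; omega
      · omega

theorem sw_gr_spec (P : List (List ℕ × List ℕ)) : (∀ q ∈ sw_gr P, q ∈ P) ∧
    (sw_gr P).Pairwise (fun p q => ∀ v ∈ p.1, v ∉ q.1) ∧
    ∀ p ∈ P, p.1 = [] ∨ ∃ q ∈ sw_gr P, ∃ v ∈ p.1, v ∈ q.1 := by
  induction P with
  | nil => simp [sw_gr]
  | cons p P ih =>
    obtain ⟨h1, h2, h3⟩ := ih
    have e : sw_gr (p :: P) =
      if ∀ q ∈ sw_gr P, ∀ v ∈ p.1, v ∉ q.1 then p :: sw_gr P else sw_gr P := rfl
    rw [e]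
    split_ifs with h
    · refine ⟨fun q hq => ?_, List.pairwise_cons.2 ⟨h, h2⟩, fun p' hp' => ?_⟩
      · rcases List.mem_cons.1 hq with rfl | hq
        · exact List.mem_cons_self
        · exact List.mem_cons_of_mem _ (h1 q hq)
      · rcases List.mem_cons.1 hp' with rfl | hp'
        · rcases hv : p'.1 with _ | ⟨v, t⟩
          · exact Or.inl rfl
          · exact Or.inr ⟨p', List.mem_cons_self, v, by simp, by simp [hv]⟩
        · refine (h3 p' hp').imp id fun ⟨q, hq, hv⟩ => ⟨q, List.mem_cons_of_mem _ hq, hv⟩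
    · refine ⟨fun q hq => List.mem_cons_of_mem _ (h1 q hq), h2, fun p' hp' => ?_⟩
      rcases List.mem_cons.1 hp' with rfl | hp'
      · push Not at h
        exact Or.inr h
      · exact h3 p' hp'

theorem sw_big (d q : ℕ) (hq : 0 < q) : ∃ B, ∀ n, B ≤ n → n ^ d * (q - 1) ^ n < q ^ n := by
  have hq' : (0 : ℝ) < q := by exact_mod_cast hq
  have hr : |((q - 1 : ℕ) : ℝ) / q| < 1 := by
    rw [abs_of_nonneg (by positivity), div_lt_one hq']
    exact_mod_cast Nat.sub_lt hq one_pos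
  obtain ⟨B, hB⟩ := Filter.eventually_atTop.1
    ((tendsto_pow_const_mul_const_pow_of_abs_lt_one d hr).eventually (gt_mem_nhds one_pos))
  refine ⟨B, fun n hn => ?_⟩
  have := hB n hn
  rw [div_pow, ← mul_div_assoc, div_lt_one (by positivity)] at this
  exact_mod_cast this

theorem sw_fam (c : ℕ) {α μ ν : Type} [Enc α] [Enc μ] [Enc ν] {J : α × μ → List ν}
    {ψ : α × μ × ν → (ℕ → Bool) → Bool} {V : α × μ × ν → List ℕ} (hJ : PT J) (hψ : BB ψ)
    (hV : PT V) : ∃ (F : α × μ → List (List ℕ × List ℕ)) (S : α × μ → List ν), PT F ∧ PT S ∧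
      ∀ a m, (∀ q ∈ F (a, m), ∃ k ∈ J (a, m), q.1 = V (a, m, k) ∧
        ψ (a, m, k) (sw_asg q.1 q.2) = true) ∧
      (F (a, m)).Pairwise (fun p q => ∀ v ∈ p.1, v ∉ q.1) ∧
      (∀ k ∈ S (a, m), k ∈ J (a, m) ∧
        (V (a, m, k) = [] ∨ ∃ q ∈ F (a, m), ∃ v ∈ V (a, m, k), v ∈ q.1)) ∧
      ∀ k ∈ J (a, m), (V (a, m, k)).length ≤ c → Dep (ψ (a, m, k)) (V (a, m, k)) →
        ∀ y, ψ (a, m, k) y = true → k ∈ S (a, m) := by
  have h1 : PT fun z : ((α × μ) × ν) × List ℕ =>
      ψ (z.1.1.1, z.1.1.2, z.1.2) (sw_asg (V (z.1.1.1, z.1.1.2, z.1.2)) z.2) :=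
    hψ.pt (by fun_prop) (by fun_prop)
  have h2 : PT fun z : (α × μ) × ν => (tup c 2).filter fun β =>
      ψ (z.1.1, z.1.2, z.2) (sw_asg (V (z.1.1, z.1.2, z.2)) β) :=
    PT.filter h1 (PT.const _)
  refine ⟨fun z => sw_gr ((J z).flatMap fun k => ((tup c 2).filter fun β =>
      ψ (z.1, z.2, k) (sw_asg (V (z.1, z.2, k)) β)).map fun β => (V (z.1, z.2, k), β)),
    fun z => (J z).filter fun k => (tup c 2).any fun β =>
      ψ (z.1, z.2, k) (sw_asg (V (z.1, z.2, k)) β),
    sw_pt_gr (PT.flatMap (PT.map (by fun_prop) h2) hJ),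
    PT.filter (PT.any h1 (PT.const _)) hJ, fun a m => ?_⟩
  obtain ⟨g1, g2, g3⟩ := sw_gr_spec ((J (a, m)).flatMap fun k => ((tup c 2).filter fun β =>
      ψ (a, m, k) (sw_asg (V (a, m, k)) β)).map fun β => (V (a, m, k), β))
  refine ⟨fun q hq => ?_, g2, fun k hk => ?_, fun k hk hl hd y hy => ?_⟩
  · obtain ⟨k, hk, h⟩ := List.mem_flatMap.1 (g1 q hq)
    obtain ⟨β, hβ, rfl⟩ := List.mem_map.1 h
    exact ⟨k, hk, rfl, (List.mem_filter.1 hβ).2⟩
  · obtain ⟨hk, h⟩ := List.mem_filter.1 hk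
    obtain ⟨β, hβ, h⟩ := List.any_eq_true.1 h
    exact ⟨hk, g3 (V (a, m, k), β) (List.mem_flatMap.2 ⟨k, hk, List.mem_map.2
      ⟨β, List.mem_filter.2 ⟨hβ, h⟩, rfl⟩⟩)⟩
  · obtain ⟨β, hβ, h⟩ := sw_pat hl y
    exact List.mem_filter.2 ⟨hk, List.any_eq_true.2 ⟨β, hβ, (hd _ _ h).trans hy⟩⟩

theorem sw_eq {F : List (List ℕ × List ℕ)} (hF : F.Pairwise fun p q => ∀ v ∈ p.1, v ∉ q.1)
    {i j : ℕ} (hi : i < F.length) (hj : j < F.length) {v : ℕ} (h1 : v ∈ (F.getD i ([], [])).1)
    (h2 : v ∈ (F.getD j ([], [])).1) : i = j := by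
  rw [List.getD_eq_getElem _ _ hi] at h1
  rw [List.getD_eq_getElem _ _ hj] at h2
  rcases lt_trichotomy i j with h | h | h
  · exact absurd h2 (List.pairwise_iff_getElem.1 hF i j hi hj h v h1)
  · exact h
  · exact absurd h1 (List.pairwise_iff_getElem.1 hF j i hj hi h v h2)

theorem sw_lt {K d j k : ℕ} (hj : j < d) (hk : k < K) : K * j + k < d * K := by
  have := Nat.mul_le_mul_left K (Nat.succ_le_of_lt hj)
  rw [Nat.mul_succ, mul_comm K d] at this
  omega

theorem sw_one {F : List (List ℕ × List ℕ)} (hF : F.Pairwise fun p q => ∀ v ∈ p.1, v ∉ q.1)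
    {K d ρ : ℕ} {ch : ℕ → ℕ} (hb : (d + 1) * K ≤ F.length) {U : List ℕ} (hU : U.length ≤ d)
    (hU' : ∀ v ∈ (F.take ((d + 1) * K)).flatMap Prod.fst, v % ρ = ch (v / ρ) → v / ρ ∈ U)
    {k : ℕ → ℕ} (hk : ∀ j < d + 1, k j < K) :
    ∃ j < d + 1, ∀ v ∈ (F.getD (K * j + k j) ([], [])).1, v % ρ ≠ ch (v / ρ) := by
  by_contra h
  push Not at h
  choose! v hv hv' using h
  have h1 := Finset.card_le_card_of_injOn (s := range (d + 1)) (t := U.toFinset)
    (fun j => v j / ρ) (fun j hj => ?_) (fun j hj j' hj' e => ?_)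
  · have := List.toFinset_card_le U
    rw [card_range] at h1
    omega
  · have hj := mem_range.1 (mem_coe.1 hj)
    have h2 := sw_lt hj (hk j hj)
    refine mem_coe.2 (List.mem_toFinset.2 (hU' _ (List.mem_flatMap.2 ⟨_, ?_, hv j hj⟩) (hv' j hj)))
    rw [List.getD_eq_getElem _ _ (h2.trans_le hb)]
    exact List.mem_take_iff_getElem.2 ⟨_, by omega, rfl⟩
  · have hj := mem_range.1 (mem_coe.1 hj)
    have hj' := mem_range.1 (mem_coe.1 hj')
    have e' : v j / ρ = v j' / ρ := e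
    have e1 : v j = v j' := by
      rw [← Nat.div_add_mod (v j) ρ, ← Nat.div_add_mod (v j') ρ, hv' j hj, hv' j' hj', e']
    have e2 := sw_eq hF ((sw_lt hj (hk j hj)).trans_le hb) ((sw_lt hj' (hk j' hj')).trans_le hb)
      (hv j hj) (e1 ▸ hv j' hj')
    have e3 := congrArg (· / K) e2
    have h0 : 0 < K := (Nat.zero_le _).trans_lt (hk j hj)
    simpa only [Nat.mul_add_div h0, Nat.div_eq_of_lt (hk j hj), Nat.div_eq_of_lt (hk j' hj'),
      add_zero] using e3

/-- One round: every restricted OR is `true` or an OR of functions with one variable less, apart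
from a few common variables. -/
theorem sw_round (c e : ℕ) : ∃ B, ∀ (α μ ν : Type) [Enc α] [Enc μ] [Enc ν] (N : α → List Unit)
    (L : α → List μ) (J : α × μ → List ν) (ψ : α × μ × ν → (ℕ → Bool) → Bool)
    (V : α × μ × ν → List ℕ), PT N → PT L → PT J → BB ψ → PT V →
    ∃ (ch : α → ℕ → ℕ) (X : α → ℕ → Bool) (U : α × μ → List ℕ) (J' : α × μ → List ν)
      (V' : α × μ × ν → List ℕ),
      PT (fun z : α × ℕ => ch z.1 z.2) ∧ PT (fun z : α × ℕ => X z.1 z.2) ∧ PT U ∧ PT J' ∧ PT V' ∧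
      ∀ a, B ≤ (N a).length → (L a).length ≤ (N a).length ^ e →
        (∀ m ∈ L a, ∀ k ∈ J (a, m), (V (a, m, k)).length ≤ c + 1 ∧
          (∀ v ∈ V (a, m, k), v < (N a).length ^ 4) ∧ Dep (ψ (a, m, k)) (V (a, m, k))) →
        (∀ i, ch a i < (N a).length ^ 3) ∧ ∀ m ∈ L a, (U (a, m)).length ≤ e + 1 ∧
          (∀ v ∈ U (a, m), v < (N a).length) ∧
          (∀ k ∈ J' (a, m), (V' (a, m, k)).length ≤ c ∧ (∀ v ∈ V' (a, m, k), v < (N a).length) ∧
            Dep (fun y => ψ (a, m, k) (res ((N a).length ^ 3) (ch a) (X a) y))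
              (U (a, m) ++ V' (a, m, k))) ∧
          ∃ b : Bool, ∀ y,
            ((J (a, m)).any fun k => ψ (a, m, k) (res ((N a).length ^ 3) (ch a) (X a) y)) =
            (b || (J' (a, m)).any fun k => ψ (a, m, k) (res ((N a).length ^ 3) (ch a) (X a) y)) := by
  obtain ⟨B, hB⟩ := sw_big (e + 1) (2 ^ (c + 1)) (by positivity)
  refine ⟨B + (e + 2) * (c + 1), fun α μ ν _ _ _ N L J ψ V hN hL hJ hψ hV => ?_⟩
  obtain ⟨F, S, hF, hS, hFS⟩ := sw_fam (c + 1) hJ hψ hV
  obtain ⟨H, hH, eH⟩ : ∃ H : α × μ → List ℕ, PT H ∧ ∀ a m,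
      H (a, m) = ((F (a, m)).take ((e + 1 + 1) * (N a).length)).flatMap Prod.fst :=
    ⟨fun z => ((F z).take ((e + 1 + 1) * (N z.1).length)).flatMap fun q => q.1, by fun_prop,
      fun _ _ => rfl⟩
  obtain ⟨ch, hch, hfree⟩ := free (e + 1) α μ L N (fun a => List.replicate ((N a).length ^ 3) ())
    N H hL hN (by fun_prop) hN hH
  obtain ⟨X, hX, hsat⟩ := sat (c + 1) α (μ × ℕ) (fun a => ((L a).filter fun m =>
      decide ((e + 1 + 1) * (N a).length ≤ (F (a, m)).length)) ×ˢ List.range (e + 1 + 1)) N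
    (fun a => List.replicate ((N a).length ^ 4) ())
    (fun z => ((F (z.1, z.2.1.1)).getD ((N z.1).length * z.2.1.2 + z.2.2) ([], [])).1)
    (fun z v => sw_asg ((F (z.1, z.2.1.1)).getD ((N z.1).length * z.2.1.2 + z.2.2) ([], [])).1
      ((F (z.1, z.2.1.1)).getD ((N z.1).length * z.2.1.2 + z.2.2) ([], [])).2 v)
    (by fun_prop) hN (by fun_prop) (by fun_prop) (by fun_prop)
  refine ⟨ch, X, fun z => (List.range (N z.1).length).filter fun i =>
      decide ((N z.1).length ^ 3 * i + ch z.1 i ∈ H z),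
    fun z => if (e + 1 + 1) * (N z.1).length ≤ (F z).length then [] else S z,
    fun z => ((V z).filter fun v => decide (v ∉ H (z.1, z.2.1) ∧
      v % (N z.1).length ^ 3 = ch z.1 (v / (N z.1).length ^ 3))).map (· / (N z.1).length ^ 3),
    hch, hX, by fun_prop, by fun_prop, by fun_prop, fun a hn hl hyp => ?_⟩
  simp only [List.length_replicate] at hfree hsat
  replace hfree := hfree a
  replace hsat := hsat a
  replace hFS := hFS a
  replace eH := eH a
  dsimp +instances only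
  generalize (N a).length = n at *
  have hn1 : e + 2 ≤ n := by nlinarith
  have hρ : 0 < n ^ 3 := pow_pos (by omega) _
  have hdiv : ∀ v < n ^ 4, v / n ^ 3 < n := fun v hv =>
    Nat.div_lt_of_lt_mul (by rwa [← pow_succ])
  have hq : ∀ m ∈ L a, ∀ q ∈ F (a, m), q.1.length ≤ c + 1 ∧ ∀ v ∈ q.1, v < n ^ 4 := by
    intro m hm q hq
    obtain ⟨k, hk, e1, -⟩ := (hFS m).1 q hq
    rw [e1]
    exact ⟨(hyp m hm k hk).1, (hyp m hm k hk).2.1⟩
  have hA : 3 * (L a).length < (1 + n) ^ (e + 1 + 1) := by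
    have h1 : n ^ e ≤ (1 + n) ^ e := Nat.pow_le_pow_left (by omega) _
    have h2 : 0 < (1 + n) ^ e := by positivity
    have h3 : 4 ≤ (1 + n) * (1 + n) := by nlinarith
    have h4 := Nat.mul_le_mul_left ((1 + n) ^ e) h3
    rw [pow_succ, pow_succ, mul_assoc]
    omega
  obtain ⟨hch1, hU⟩ := hfree hρ hA fun m hm => by
    have h1 : (H (a, m)).length ≤ (e + 1 + 1) * n * (c + 1) := by
      rw [eH, List.length_flatMap]
      refine (List.sum_le_card_nsmul _ (c + 1) fun x hx => ?_).trans ?_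
      · obtain ⟨q, hq', rfl⟩ := List.mem_map.1 hx
        exact (hq m hm q (List.mem_of_mem_take hq')).1
      · rw [List.length_map, smul_eq_mul]
        exact Nat.mul_le_mul_right _ (List.length_take_le _ _)
    calc n * (H (a, m)).length ≤ n * ((e + 1 + 1) * n * (c + 1)) := Nat.mul_le_mul_left _ h1
      _ = n * n * ((e + 2) * (c + 1)) := by ring
      _ ≤ n * n * n := Nat.mul_le_mul_left _ (by omega)
      _ = n ^ 3 := by ring
  have hX1 := hsat (by
    refine lt_of_le_of_lt (Nat.mul_le_mul_right _ ?_) (hB n (by omega))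
    rw [List.length_product, List.length_range, pow_succ]
    exact Nat.mul_le_mul ((List.length_filter_le _ _).trans hl) hn1) fun ⟨m, j⟩ hm k hk => by
    obtain ⟨h1, h2⟩ := List.mem_product.1 hm
    obtain ⟨h1, h3⟩ := List.mem_filter.1 h1
    have h2 := List.mem_range.1 h2
    have h3 := of_decide_eq_true h3
    have h4 := (sw_lt h2 hk).trans_le h3
    have h5 : (F (a, m)).getD (n * j + k) ([], []) ∈ F (a, m) := by
      rw [List.getD_eq_getElem _ _ h4]
      exact List.getElem_mem _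
    refine ⟨(hq m h1 _ h5).1, (hq m h1 _ h5).2, fun k' hk' v hv hv' => ?_⟩
    have := sw_eq (hFS m).2.1 h4 ((sw_lt h2 hk').trans_le h3) hv hv'
    omega
  clear hfree hsat
  refine ⟨hch1, fun m hm => ?_⟩
  have hHU : ∀ v ∈ H (a, m), v % n ^ 3 = ch a (v / n ^ 3) → v / n ^ 3 ∈
      (List.range n).filter fun i => decide (n ^ 3 * i + ch a i ∈ H (a, m)) := by
    intro v hv h
    refine List.mem_filter.2 ⟨List.mem_range.2 (hdiv v ?_), decide_eq_true ?_⟩
    · rw [eH] at hv
      obtain ⟨q, h1, h2⟩ := List.mem_flatMap.1 hv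
      exact (hq m hm q (List.mem_of_mem_take h1)).2 v h2
    · rwa [← h, Nat.div_add_mod]
  refine ⟨hU m hm, fun v hv => List.mem_range.1 (List.mem_filter.1 hv).1, fun k hk => ?_, ?_⟩
  · split_ifs at hk with hb
    · simp at hk
    obtain ⟨hk, h1⟩ := (hFS m).2.2.1 k hk
    obtain ⟨h2, h3, h4⟩ := hyp m hm k hk
    refine ⟨?_, fun v hv => ?_, fun y y' h => h4 _ _ fun v hv => ?_⟩
    · rw [List.length_map]
      rcases h1 with h1 | ⟨q, hq', v, hv, hv'⟩
      · simp [h1]
      · refine Nat.le_of_lt_succ ((List.length_filter_lt_length_iff_exists.2 ⟨v, hv, ?_⟩).trans_le h2)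
        have : v ∈ H (a, m) := by
          rw [eH, List.take_of_length_le (by omega)]
          exact List.mem_flatMap.2 ⟨q, hq', hv'⟩
        simp [this]
    · obtain ⟨w, hw, rfl⟩ := List.mem_map.1 hv
      exact hdiv w (h3 w (List.mem_filter.1 hw).1)
    · unfold res
      split_ifs with h5
      · refine h _ (List.mem_append.2 ?_)
        by_cases h6 : v ∈ H (a, m)
        · exact Or.inl (hHU v h6 h5)
        · exact Or.inr (List.mem_map.2 ⟨v, List.mem_filter.2 ⟨hv, decide_eq_true ⟨h6, h5⟩⟩, rfl⟩)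
      · rfl
  · split_ifs with hb
    · refine ⟨true, fun y => ?_⟩
      have h1 := fun j (hj : j < e + 1 + 1) => hX1 (m, j) (List.mem_product.2
        ⟨List.mem_filter.2 ⟨hm, decide_eq_true hb⟩, List.mem_range.2 hj⟩)
      choose! k hk hk' using h1
      obtain ⟨j, hj, h2⟩ := sw_one (hFS m).2.1 hb (hU m hm) (fun v hv => hHU v (eH m ▸ hv)) hk
      have h4 := (sw_lt hj (hk j hj)).trans_le hb
      have h5 : (F (a, m)).getD (n * j + k j) ([], []) ∈ F (a, m) := by
        rw [List.getD_eq_getElem _ _ h4]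
        exact List.getElem_mem _
      obtain ⟨k0, hk0, e1, e2⟩ := (hFS m).1 _ h5
      rw [Bool.true_or]
      refine List.any_eq_true.2 ⟨k0, hk0, ((hyp m hm k0 hk0).2.2 _ _ fun v hv => ?_).trans e2⟩
      rw [← e1] at hv
      rw [res, if_neg (h2 v hv)]
      exact hk' j hj v hv
    · refine ⟨false, fun y => ?_⟩
      rw [Bool.false_or, Bool.eq_iff_iff, List.any_eq_true, List.any_eq_true]
      constructor
      · rintro ⟨k, hk, h⟩
        exact ⟨k, (hFS m).2.2.2 k hk (hyp m hm k hk).1 (hyp m hm k hk).2.2 _ h, h⟩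
      · rintro ⟨k, hk, h⟩
        exact ⟨k, ((hFS m).2.2.1 k hk).1, h⟩

theorem sw_zero (e : ℕ) : SwT 0 e 0 0 0 := by
  intro α μ ν _ _ _ x L J ψ V _ _ _ _ _
  refine ⟨fun _ _ => 0, fun _ _ => false, fun _ => [], PT.const _, PT.const _, PT.const _,
    fun a _ _ hyp => ⟨fun i => by simp, fun m hm => ⟨le_rfl, by simp, fun y y' _ => ?_⟩⟩⟩
  rw [Bool.eq_iff_iff, List.any_eq_true, List.any_eq_true]
  refine exists_congr fun k => and_congr_right fun hk => ?_
  obtain ⟨h1, -, h2⟩ := hyp m hm k hk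
  rw [List.length_eq_zero_iff.1 (Nat.le_zero.1 h1)] at h2
  rw [h2 _ _ (by simp)]

theorem sw_step {c e c' E B : ℕ} (ih : SwT c (4 * e + (4 * e + 1)) c' E B) :
    ∃ B', SwT (c + 1) e (4 * e + 1 + 2 ^ (4 * e + 1) * c') (4 * E + 3) B' := by
  obtain ⟨B1, hB1⟩ := sw_round c (4 * e)
  refine ⟨B + B1 + 2, fun α μ ν _ _ _ x L J ψ V hx hL hJ hψ hV => ?_⟩
  obtain ⟨ch, X, U, J', V', hch, hX, hU, hJ', hV', h1⟩ := hB1 α μ ν
    (fun a => List.replicate ((x a).length ^ (E + 1)) ()) L J ψ V (by fun_prop) hL hJ hψ hV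
  simp only [List.length_replicate] at h1
  obtain ⟨ch2, X2, U2, hch2, hX2, hU2, h2⟩ := ih α (μ × List ℕ) ν x
    (fun a => L a ×ˢ tup (4 * e + 1) 2) (fun z => J' (z.1, z.2.1))
    (fun z y => ψ (z.1, z.2.1.1, z.2.2) (res (((x z.1).length ^ (E + 1)) ^ 3) (ch z.1) (X z.1)
      fun i => if i ∈ U (z.1, z.2.1.1) then sw_asg (U (z.1, z.2.1.1)) z.2.1.2 i else y i))
    (fun z => V' (z.1, z.2.1.1, z.2.2)) hx (PT.sprod hL (PT.const _)) (by fun_prop)
    (fun β _ σ y hσ hy => hψ.pt (by fun_prop) (by fun_prop)) (by fun_prop)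
  refine ⟨fun a i => ((x a).length ^ (E + 1)) ^ 3 * ch2 a i + ch a ((x a).length ^ E * i + ch2 a i),
    fun a => res (((x a).length ^ (E + 1)) ^ 3) (ch a) (X a) (X2 a),
    fun z => ((U z).filter fun i => decide (i % (x z.1).length ^ E =
      ch2 z.1 (i / (x z.1).length ^ E))).map (· / (x z.1).length ^ E) ++
      (tup (4 * e + 1) 2).flatMap fun β => U2 (z.1, z.2, β),
    by fun_prop, by fun_prop, by fun_prop, fun a hn hl hyp => ?_⟩
  replace h1 := h1 a
  replace h2 := h2 a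
  dsimp +instances only at h2 ⊢
  generalize (x a).length = n at *
  have e1 : n ^ (4 * E + 3 + 1) = (n ^ (E + 1)) ^ 4 := by ring
  have e2 : n ^ (4 * E + 3) = (n ^ (E + 1)) ^ 3 * n ^ E := by ring
  have hn' : n ≤ n ^ (E + 1) := Nat.le_self_pow (by omega) _
  rw [e1] at hl hyp
  rw [← pow_mul] at hl
  rw [e2]
  obtain ⟨g1, g2⟩ := h1 (by omega) hl hyp
  obtain ⟨g3, g4⟩ := h2 (by omega) (by
    rw [List.length_product, length_tup, pow_add (n ^ (E + 1))]
    exact Nat.mul_le_mul hl (Nat.pow_le_pow_left (by omega) _)) fun ⟨m, β⟩ hm k hk => by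
    obtain ⟨f1, f2, f3⟩ := (g2 m (List.mem_product.1 hm).1).2.2.1 k hk
    refine ⟨f1, f2, fun y y' h => f3 _ _ fun v hv => ?_⟩
    dsimp only
    split_ifs with hv'
    · rfl
    · exact h v ((List.mem_append.1 hv).resolve_left hv')
  refine ⟨res_lt g1 g3, fun m hm => ?_⟩
  obtain ⟨f1, f2, -, b, f3⟩ := g2 m hm
  have g5 := fun β (hβ : β ∈ tup (4 * e + 1) 2) => g4 (m, β) (List.mem_product.2 ⟨hm, hβ⟩)
  refine ⟨?_, fun v hv => ?_, fun y y' h => ?_⟩
  · rw [List.length_append, List.length_map, List.length_flatMap]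
    refine Nat.add_le_add ((List.length_filter_le _ _).trans f1)
      ((List.sum_le_card_nsmul _ c' fun x hx => ?_).trans ?_)
    · obtain ⟨β, hβ, rfl⟩ := List.mem_map.1 hx
      exact (g5 β hβ).1
    · rw [List.length_map, length_tup, smul_eq_mul]
  · rcases List.mem_append.1 hv with hv | hv
    · obtain ⟨w, hw, rfl⟩ := List.mem_map.1 hv
      exact Nat.div_lt_of_lt_mul (by rw [← pow_succ]; exact f2 w (List.mem_filter.1 hw).1)
    · obtain ⟨β, hβ, hv⟩ := List.mem_flatMap.1 hv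
      exact (g5 β hβ).2.1 v hv
  · obtain ⟨β, hβ, hb⟩ := sw_pat f1 (res (n ^ E) (ch2 a) (X2 a) y)
    have k1 : (fun i => if i ∈ U (a, m) then sw_asg (U (a, m)) β i
        else res (n ^ E) (ch2 a) (X2 a) y i) = res (n ^ E) (ch2 a) (X2 a) y := by
      funext i
      split_ifs with hi
      · exact hb i hi
      · rfl
    have k2 : (fun i => if i ∈ U (a, m) then sw_asg (U (a, m)) β i
        else res (n ^ E) (ch2 a) (X2 a) y' i) = res (n ^ E) (ch2 a) (X2 a) y' := by
      funext i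
      split_ifs with hi
      · rw [hb i hi]
        unfold res
        split_ifs with h5
        · exact h _ (List.mem_append.2 (Or.inl (List.mem_map.2
            ⟨i, List.mem_filter.2 ⟨hi, decide_eq_true h5⟩, rfl⟩)))
        · rfl
      · rfl
    have k3 := (g5 β hβ).2.2 y y' fun v hv =>
      h v (List.mem_append.2 (Or.inr (List.mem_flatMap.2 ⟨β, hβ, hv⟩)))
    dsimp only at k3 ⊢
    rw [k1, k2] at k3
    rw [← res_res g1, ← res_res g1, f3, f3, k3]

/-- The deterministic switching lemma, by induction on `c` (for all `e`). -/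
theorem sw (c e : ℕ) : ∃ c' E B, SwT c e c' E B := by
  induction c generalizing e with
  | zero => exact ⟨0, 0, 0, sw_zero e⟩
  | succ c ih =>
    obtain ⟨c', E, B, h⟩ := ih (4 * e + (4 * e + 1))
    obtain ⟨B', h'⟩ := sw_step h
    exact ⟨_, _, B', h'⟩

end Pool.Agent.MP_8a92de_lc.H86

end
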