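import Mathlib

-- part MP_8a92de_lc.H86.Deg
section

/-! Low-degree functions on Boolean cubes and projections between cubes. -/

namespace Pool.Agent.MP_8a92de_lc.H86

open Finset

/-- A bit as a field element. -/
def tf (F : Type) [CommRing F] (b : Bool) : F := if b then 1 else 0

variable {F : Type} [CommRing F] {ι κ μ : Type}

@[simp] theorem tf_true : tf F true = 1 := rfl
@[simp] theorem tf_false : tf F false = 0 := rfl

theorem tf_mul_self (b : Bool) : tf F b * tf F b = tf F b := by cases b <;> simp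

theorem tf_inj [Nontrivial F] {a b : Bool} (h : tf F a = tf F b) : a = b := by
  cases a <;> cases b <;> simp_all

theorem tf_not (b : Bool) : tf F (!b) = 1 - tf F b := by cases b <;> simp

theorem tf_eq_one [Nontrivial F] {b : Bool} : tf F b = 1 ↔ b = true := by cases b <;> simp

/-- A monomial. -/
def mon (F : Type) [CommRing F] (S : Finset ι) (x : ι → Bool) : F := ∏ i ∈ S, tf F (x i)

/-- Functions of degree at most `D` on the cube. -/
def Deg (F : Type) [CommRing F] (ι : Type) (D : ℕ) : Submodule F ((ι → Bool) → F) :=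
  Submodule.span F (Set.range fun S : {S : Finset ι // S.card ≤ D} => mon F S.1)

theorem mon_mem {D : ℕ} {S : Finset ι} (h : S.card ≤ D) : mon F S ∈ Deg F ι D :=
  Submodule.subset_span ⟨⟨S, h⟩, rfl⟩

theorem Deg.ind {D : ℕ} {P : ((ι → Bool) → F) → Prop} (h1 : ∀ S : Finset ι, S.card ≤ D → P (mon F S))
    (h0 : P 0) (h2 : ∀ f g, P f → P g → P (f + g)) (h3 : ∀ (c : F) f, P f → P (c • f))
    {f : (ι → Bool) → F} (hf : f ∈ Deg F ι D) : P f := by
  induction hf using Submodule.span_induction with
  | zero => exact h0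
  | add x y _ _ hx hy => exact h2 _ _ hx hy
  | smul c x _ hx => exact h3 _ _ hx
  | mem x hx =>
    obtain ⟨S, rfl⟩ := hx
    exact h1 _ S.2

theorem Deg.mono_le {a b : ℕ} (h : a ≤ b) {f : (ι → Bool) → F} (hf : f ∈ Deg F ι a) :
    f ∈ Deg F ι b :=
  Deg.ind (P := fun f => f ∈ Deg F ι b) (fun _ hS => mon_mem (hS.trans h)) (zero_mem _)
    (fun _ _ => add_mem) (fun c _ => Submodule.smul_mem _ c) hf

theorem Deg.const (D : ℕ) (c : F) : (fun _ => c) ∈ Deg F ι D := by
  have : (fun _ => c) = c • mon F (∅ : Finset ι) := by ext T; simp [mon]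
  rw [this]
  exact Submodule.smul_mem _ _ (mon_mem (by simp))

theorem Deg.var (i : ι) : (fun x : ι → Bool => tf F (x i)) ∈ Deg F ι 1 := by
  have : (fun x : ι → Bool => tf F (x i)) = mon F {i} := by ext T; simp [mon]
  rw [this]
  exact mon_mem (by simp)

theorem mon_mul [DecidableEq ι] (S T : Finset ι) : mon F S * mon F T = mon F (S ∪ T) := by
  ext x
  simp only [mon, Pi.mul_apply]
  rw [← prod_union_inter]
  by_cases h : ∀ i ∈ S ∩ T, x i = true
  · rw [prod_eq_one (s := S ∩ T) fun i hi => by rw [h i hi]; rfl, mul_one]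
  · push Not at h
    obtain ⟨i, hi, h⟩ := h
    rw [prod_eq_zero (s := S ∪ T) (inter_subset_union hi) (by simp [h]), zero_mul]

theorem Deg.mul {a b : ℕ} {f g : (ι → Bool) → F} (hf : f ∈ Deg F ι a) (hg : g ∈ Deg F ι b) :
    (fun x => f x * g x) ∈ Deg F ι (a + b) := by
  classical
  change f * g ∈ _
  refine Deg.ind (P := fun f => f * g ∈ Deg F ι (a + b)) (fun S hS => ?_) (by simp)
    (fun x y hx hy => by rw [add_mul]; exact add_mem hx hy)
    (fun c x hx => by rw [smul_mul_assoc]; exact Submodule.smul_mem _ _ hx) hf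
  refine Deg.ind (P := fun g => mon F S * g ∈ Deg F ι (a + b)) (fun T hT => ?_) (by simp)
    (fun x y hx hy => by rw [mul_add]; exact add_mem hx hy)
    (fun c x hx => by rw [mul_smul_comm]; exact Submodule.smul_mem _ _ hx) hg
  rw [mon_mul]
  exact mon_mem ((card_union_le _ _).trans (Nat.add_le_add hS hT))

theorem Deg.add' {a : ℕ} {f g : (ι → Bool) → F} (hf : f ∈ Deg F ι a) (hg : g ∈ Deg F ι a) :
    (fun x => f x + g x) ∈ Deg F ι a := add_mem hf hg

theorem Deg.sub' {a : ℕ} {f g : (ι → Bool) → F} (hf : f ∈ Deg F ι a) (hg : g ∈ Deg F ι a) :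
    (fun x => f x - g x) ∈ Deg F ι a := sub_mem hf hg

theorem Deg.sum' {a : ℕ} {s : Finset μ} {f : μ → (ι → Bool) → F} (hf : ∀ t ∈ s, f t ∈ Deg F ι a) :
    (fun x => ∑ t ∈ s, f t x) ∈ Deg F ι a := by
  have := Submodule.sum_mem (Deg F ι a) hf
  convert this using 1
  ext x
  simp

theorem Deg.prod {a : ℕ} {s : Finset μ} {f : μ → (ι → Bool) → F} (hf : ∀ t ∈ s, f t ∈ Deg F ι a) :
    (fun x => ∏ t ∈ s, f t x) ∈ Deg F ι (s.card * a) := by
  classical
  induction s using Finset.induction_on with
  | empty => simpa using Deg.const 0 (1 : F)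
  | insert t s ht ih =>
    simp only [prod_insert ht, card_insert_of_notMem ht]
    rw [Nat.succ_mul, add_comm]
    exact Deg.mul (hf t (mem_insert_self _ _)) (ih fun u hu => hf u (mem_insert_of_mem hu))

theorem Deg.pow {a : ℕ} {f : (ι → Bool) → F} (hf : f ∈ Deg F ι a) (k : ℕ) :
    (fun x => f x ^ k) ∈ Deg F ι (k * a) := by
  have := Deg.prod (s := range k) (f := fun _ => f) fun _ _ => hf
  simpa using this

theorem Deg.comp {a D : ℕ} {γ : (κ → Bool) → ι → Bool}
    (h : ∀ i, (fun y => tf F (γ y i)) ∈ Deg F κ a) {g : (ι → Bool) → F} (hg : g ∈ Deg F ι D) :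
    (fun y => g (γ y)) ∈ Deg F κ (D * a) :=
  Deg.ind (P := fun g => (fun y => g (γ y)) ∈ Deg F κ (D * a))
    (fun _ hS => Deg.mono_le (Nat.mul_le_mul_right _ hS) (Deg.prod fun i _ => h i)) (zero_mem _)
    (fun _ _ hf hg => add_mem hf hg) (fun c _ hf => Submodule.smul_mem _ c hf) hg

/-- Every output bit is a constant or a literal. -/
def IsProj (γ : (κ → Bool) → ι → Bool) : Prop :=
  ∀ i, (∃ b, ∀ y, γ y i = b) ∨ ∃ j b, ∀ y, γ y i = xor b (y j)

theorem IsProj.deg {γ : (κ → Bool) → ι → Bool} (h : IsProj γ) (i : ι) :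
    (fun y => tf F (γ y i)) ∈ Deg F κ 1 := by
  rcases h i with ⟨b, hb⟩ | ⟨j, b, hb⟩
  · simp only [hb]
    exact Deg.const _ _
  · simp only [hb]
    cases b
    · simpa using Deg.var j
    · simpa [tf_not] using Deg.sub' (Deg.const 1 1) (Deg.var j)

theorem Deg.proj {D : ℕ} {γ : (κ → Bool) → ι → Bool} (h : IsProj γ) {g : (ι → Bool) → F}
    (hg : g ∈ Deg F ι D) : (fun y => g (γ y)) ∈ Deg F κ D := by
  simpa using Deg.comp h.deg hg

theorem IsProj.comp {γ : (κ → Bool) → ι → Bool} {η : (μ → Bool) → κ → Bool} (h : IsProj γ)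
    (h' : IsProj η) : IsProj fun y => γ (η y) := by
  intro i
  rcases h i with ⟨b, hb⟩ | ⟨j, b, hb⟩
  · exact Or.inl ⟨b, fun y => hb _⟩
  · rcases h' j with ⟨c, hc⟩ | ⟨l, c, hc⟩
    · exact Or.inl ⟨xor b c, fun y => by simp only [hb, hc]⟩
    · exact Or.inr ⟨l, xor b c, fun y => by simp only [hb, hc, Bool.xor_assoc]⟩

/-- An injective projection has a projection as left inverse. -/
theorem IsProj.inv {γ : (κ → Bool) → ι → Bool} (h : IsProj γ) (hi : Function.Injective γ) :
    ∃ π : (ι → Bool) → κ → Bool, IsProj π ∧ ∀ y, π (γ y) = y := by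
  classical
  have : ∀ j, ∃ i b, ∀ y, γ y i = xor b (y j) := by
    intro j
    by_contra hc
    push Not at hc
    have h1 : γ (fun _ => false) = γ (Function.update (fun _ => false) j true) := by
      ext i
      rcases h i with ⟨b, hb⟩ | ⟨l, b, hb⟩
      · rw [hb, hb]
      · have : l ≠ j := by
          rintro rfl
          obtain ⟨y, hy⟩ := hc i b
          exact hy (hb y)
        rw [hb, hb, Function.update_of_ne this]
    simpa using congrFun (hi h1) j
  choose i b hb using this
  exact ⟨fun z j => xor (b j) (z (i j)), fun j => Or.inr ⟨i j, b j, fun _ => rfl⟩,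
    fun y => by ext j; simp [hb]⟩

theorem Deg.coeff [Fintype ι] [DecidableEq ι] {D : ℕ} {f : (ι → Bool) → F} (hf : f ∈ Deg F ι D) :
    ∃ c : Finset ι → F, (∀ S, c S ≠ 0 → S.card ≤ D) ∧ ∀ x, f x = ∑ S, mon F S x * c S := by
  refine Deg.ind (P := fun f => ∃ c : Finset ι → F, (∀ S, c S ≠ 0 → S.card ≤ D) ∧
    ∀ x, f x = ∑ S, mon F S x * c S) (fun S hS => ⟨Pi.single S 1, fun T hT => ?_, fun x => ?_⟩)
    ⟨0, by simp, by simp⟩ ?_ ?_ hf
  · by_cases h : T = S
    · rwa [h]
    · simp [h] at hT
  · simp [Pi.single_apply]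
  · rintro f g ⟨c, h1, h2⟩ ⟨d, h3, h4⟩
    refine ⟨c + d, fun S hS => ?_, fun x => by simp [h2, h4, mul_add, sum_add_distrib]⟩
    by_cases h : c S = 0
    · exact h3 S (by simpa [h] using hS)
    · exact h1 S h
  · rintro a f ⟨c, h1, h2⟩
    refine ⟨a • c, fun S hS => h1 S fun h => hS (by simp [h]), fun x => ?_⟩
    simp [h2, mul_sum, mul_left_comm]

theorem Deg.zero_const {f : (ι → Bool) → F} (hf : f ∈ Deg F ι 0) (x y : ι → Bool) : f x = f y := by
  refine Deg.ind (P := fun f => f x = f y) (fun S hS => ?_) rfl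
    (fun f g h1 h2 => by simp [h1, h2]) (fun c f h => by simp [h]) hf
  rw [card_eq_zero.1 (Nat.le_zero.1 hS)]
  simp [mon]

theorem Deg.deriv [DecidableEq ι] {D : ℕ} {f : (ι → Bool) → F} (hf : f ∈ Deg F ι (D + 1)) (i : ι) :
    (fun x => f (Function.update x i true) - f (Function.update x i false)) ∈ Deg F ι D := by
  refine Deg.ind (P := fun f => (fun x => f (Function.update x i true) -
    f (Function.update x i false)) ∈ Deg F ι D) (fun S hS => ?_) (by simpa using Deg.const D 0)
    (fun f g h1 h2 => ?_) (fun c f h => ?_) hf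
  · by_cases h : i ∈ S
    · have e : ∀ x b, mon F S (Function.update x i b) = tf F b * mon F (S.erase i) x := by
        intro x b
        unfold mon
        rw [← mul_prod_erase _ _ h, Function.update_self]
        exact congrArg _ (prod_congr rfl fun j hj => by
          rw [Function.update_of_ne (ne_of_mem_erase hj)])
      simp only [e, tf_true, tf_false, one_mul, zero_mul, sub_zero]
      exact mon_mem (by rw [card_erase_of_mem h]; omega)
    · have e : ∀ x b, mon F S (Function.update x i b) = mon F S x := fun x b =>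
        prod_congr rfl fun j hj => by rw [Function.update_of_ne (by rintro rfl; exact h hj)]
      simpa [e] using Deg.const D (0 : F)
  · convert add_mem h1 h2 using 1
    ext x
    simp only [Pi.add_apply]
    ring
  · convert Submodule.smul_mem _ c h using 1
    ext x
    simp only [Pi.smul_apply, smul_eq_mul]
    ring

theorem const_of_update [Fintype ι] [DecidableEq ι] {X : Type} {g : (ι → Bool) → X}
    (h : ∀ i x, g (Function.update x i true) = g (Function.update x i false)) (x y : ι → Bool) :
    g x = g y := by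
  have h1 : ∀ i x b, g (Function.update x i b) = g x := by
    intro i x b
    conv_rhs => rw [← Function.update_eq_self i x]
    cases b <;> cases x i <;> simp only [h]
  have h2 : ∀ s : Finset ι, g (s.piecewise y x) = g x := by
    intro s
    induction s using Finset.induction_on with
    | empty => simp
    | insert i s _ ih => rw [piecewise_insert, h1, ih]
  rw [← h2 univ, piecewise_univ]

/-- The support of a nonzero function of degree `D` shatters all but `D` coordinates. -/
theorem Deg.shatter [Fintype ι] [DecidableEq ι] {D : ℕ} {f : (ι → Bool) → F} (hf : f ∈ Deg F ι D)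
    (h0 : ∃ x, f x ≠ 0) : ∃ S : Finset ι, S.card ≤ D ∧ ∀ a : ι → Bool,
      ∃ z, f z ≠ 0 ∧ ∀ i ∉ S, z i = a i := by
  induction D generalizing f with
  | zero =>
    obtain ⟨x, hx⟩ := h0
    exact ⟨∅, by simp, fun a => ⟨a, by rwa [Deg.zero_const hf a x], fun _ _ => rfl⟩⟩
  | succ D ih =>
    by_cases h : ∀ i x, f (Function.update x i true) = f (Function.update x i false)
    · obtain ⟨x, hx⟩ := h0
      exact ⟨∅, by simp, fun a => ⟨a, by rwa [const_of_update h a x], fun _ _ => rfl⟩⟩
    · push Not at h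
      obtain ⟨i, x, hx⟩ := h
      obtain ⟨S, h1, h2⟩ := ih (Deg.deriv hf i) ⟨x, sub_ne_zero.2 hx⟩
      refine ⟨insert i S, (card_insert_le _ _).trans (by omega), fun a => ?_⟩
      obtain ⟨z, h3, h4⟩ := h2 a
      have h5 : ∃ b, f (Function.update z i b) ≠ 0 := by
        by_contra hc
        push Not at hc
        exact h3 (by rw [hc, hc, sub_self])
      obtain ⟨b, hb⟩ := h5
      refine ⟨_, hb, fun j hj => ?_⟩
      rw [mem_insert, not_or] at hj
      rw [Function.update_of_ne hj.1, h4 j hj.2]

/-- Points of weight at most `D`. -/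
def ball (ι : Type) [Fintype ι] [DecidableEq ι] (D : ℕ) : Finset (ι → Bool) :=
  univ.filter fun z => (univ.filter fun i => z i = true).card ≤ D

theorem Deg.eq_zero [Fintype ι] [DecidableEq ι] {D : ℕ} {f : (ι → Bool) → F} (hf : f ∈ Deg F ι D)
    (h : ∀ z ∈ ball ι D, f z = 0) (x : ι → Bool) : f x = 0 := by
  by_contra hx
  obtain ⟨S, h1, h2⟩ := Deg.shatter hf ⟨x, hx⟩
  obtain ⟨z, h3, h4⟩ := h2 fun _ => false
  refine h3 (h z ?_)
  simp only [ball, mem_filter, mem_univ, true_and]
  refine le_trans (card_le_card fun i hi => ?_) h1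
  by_contra hc
  simp [h4 i hc] at hi

theorem card_small (ι : Type) [Fintype ι] [DecidableEq ι] (D : ℕ) :
    (univ.filter fun S : Finset ι => S.card ≤ D).card ≤ (Fintype.card ι + 1) ^ D := by
  have h : (univ.filter fun S : Finset ι => S.card ≤ D) ⊆
      univ.image fun g : Fin D → Option ι => univ.filter fun i => ∃ t, g t = some i := by
    intro S hS
    simp only [mem_filter, mem_univ, true_and] at hS
    refine mem_image.2 ⟨fun t => S.toList[t.1]?, mem_univ _, ?_⟩
    ext i
    simp only [mem_filter, mem_univ, true_and]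
    constructor
    · rintro ⟨t, ht⟩
      exact mem_toList.1 (List.mem_of_getElem? ht)
    · intro hi
      obtain ⟨t, h1, h2⟩ := List.getElem_of_mem (mem_toList.2 hi)
      refine ⟨⟨t, ?_⟩, by rw [← h2]; exact List.getElem?_eq_getElem h1⟩
      rw [length_toList] at h1
      omega
  refine (card_le_card h).trans (card_image_le.trans ?_)
  simp

theorem card_ball (ι : Type) [Fintype ι] [DecidableEq ι] (D : ℕ) :
    (ball ι D).card ≤ (Fintype.card ι + 1) ^ D := by
  refine le_trans (card_le_card_of_injOn (fun z => univ.filter fun i => z i = true) ?_ ?_)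
    (card_small ι D)
  · intro z hz
    simpa [ball] using hz
  · intro z _ w _ h
    ext i
    have := congrArg (i ∈ ·) h
    simp only [mem_filter, mem_univ, true_and, eq_iff_iff] at this
    exact Bool.eq_iff_iff.2 this

theorem Deg.test {p : ℕ} [Fact p.Prime] {a : ℕ} {f : (ι → Bool) → ZMod p}
    (hf : f ∈ Deg (ZMod p) ι a) :
    (fun x => tf (ZMod p) (decide (f x = 0))) ∈ Deg (ZMod p) ι ((p - 1) * a) := by
  have e : (fun x => tf (ZMod p) (decide (f x = 0))) = fun x => 1 - f x ^ (p - 1) := by
    ext x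
    by_cases h : f x = 0
    · have := (Fact.out : p.Prime).two_le
      simp [h, zero_pow (by omega : p - 1 ≠ 0)]
    · simp [h, ZMod.pow_card_sub_one_eq_one h]
  rw [e]
  exact Deg.sub' (Deg.const _ _) (Deg.pow hf _)

end Pool.Agent.MP_8a92de_lc.H86

end

-- part MP_8a92de_lc.H86.Rank
section

/-! Densities of zero sets of multilinear maps. -/

namespace Pool.Agent.MP_8a92de_lc.H86

open Finset Function

section Av

variable {X Y : Type} [Fintype X] [Fintype Y]

/-- Average over a finite type. -/
noncomputable def av (f : X → ℝ) : ℝ := (∑ x, f x) / Fintype.card X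

open Classical in
/-- Indicator of a proposition. -/
noncomputable def ind (P : Prop) : ℝ := if P then 1 else 0

/-- Density of an event. -/
noncomputable def pr (P : X → Prop) : ℝ := av fun x => ind (P x)

theorem ind_nonneg (P : Prop) : 0 ≤ ind P := by unfold ind; split_ifs <;> norm_num
theorem ind_le_one (P : Prop) : ind P ≤ 1 := by unfold ind; split_ifs <;> norm_num
theorem ind_pos {P : Prop} (h : P) : ind P = 1 := if_pos h
theorem ind_neg {P : Prop} (h : ¬P) : ind P = 0 := if_neg h
theorem ind_mono {P Q : Prop} (h : P → Q) : ind P ≤ ind Q := by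
  by_cases hP : P
  · rw [ind_pos hP, ind_pos (h hP)]
  · rw [ind_neg hP]; exact ind_nonneg _
theorem ind_and (P Q : Prop) : ind (P ∧ Q) = ind P * ind Q := by
  by_cases hP : P <;> by_cases hQ : Q <;> simp [ind, hP, hQ]

theorem av_mono {f g : X → ℝ} (h : ∀ x, f x ≤ g x) : av f ≤ av g :=
  div_le_div_of_nonneg_right (sum_le_sum fun x _ => h x) (Nat.cast_nonneg _)

theorem av_nonneg {f : X → ℝ} (h : ∀ x, 0 ≤ f x) : 0 ≤ av f :=
  div_nonneg (sum_nonneg fun x _ => h x) (Nat.cast_nonneg _)

theorem av_const [Nonempty X] (c : ℝ) : av (fun _ : X => c) = c := by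
  have : (Fintype.card X : ℝ) ≠ 0 := by positivity
  simp [av, mul_div_cancel_left₀ _ this]

theorem av_comm (f : X → Y → ℝ) :
    av (fun x => av fun y => f x y) = av fun y => av fun x => f x y := by
  simp only [av, ← sum_div]
  rw [sum_comm, div_right_comm]

theorem av_prod (f : X × Y → ℝ) : av f = av fun x => av fun y => f (x, y) := by
  simp only [av, ← sum_div, Fintype.sum_prod_type, Fintype.card_prod, Nat.cast_mul]
  rw [div_div, mul_comm]

theorem av_equiv (e : X ≃ Y) (f : Y → ℝ) : av (fun x => f (e x)) = av f := by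
  simp only [av, Fintype.card_congr e, e.sum_comp]

theorem av_mul_av (f : X → ℝ) (g : Y → ℝ) : av f * av g = av fun x => av fun y => f x * g y := by
  simp only [av, ← sum_div, ← mul_sum, ← sum_mul]
  ring

theorem av_add (f g : X → ℝ) : av (fun x => f x + g x) = av f + av g := by
  simp only [av, sum_add_distrib, add_div]

theorem av_pow_le [Nonempty X] {f : X → ℝ} (h : ∀ x, 0 ≤ f x) (n : ℕ) :
    av f ^ n ≤ av fun x => f x ^ n := by
  cases n with
  | zero => simp [av_const]
  | succ n =>
    have h1 := pow_sum_div_card_le_sum_pow (s := univ) (fun x _ => h x) n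
    have h2 : (0 : ℝ) < Fintype.card X := by positivity
    rw [card_univ] at h1
    unfold av
    rw [div_pow, pow_succ (Fintype.card X : ℝ), ← div_div]
    exact div_le_div_of_nonneg_right h1 h2.le

theorem av_update {κ : Type} [Fintype κ] [DecidableEq κ] [Nonempty X] (j : κ)
    (f : (κ → X) → ℝ) : av f = av fun x => av fun a => f (update x j a) := by
  let e : (κ → X) × X ≃ (κ → X) × X :=
    Function.Involutive.toPerm (fun z => (update z.1 j z.2, z.1 j)) fun z => by simp
  have h := av_equiv e fun z => f z.1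
  rw [av_prod, av_prod (fun z : (κ → X) × X => f z.1)] at h
  simp only [av_const] at h
  exact h.symm

theorem pr_nonneg (P : X → Prop) : 0 ≤ pr P := av_nonneg fun _ => ind_nonneg _

theorem pr_le_one [Nonempty X] (P : X → Prop) : pr P ≤ 1 :=
  (av_mono fun _ => ind_le_one _).trans (av_const 1).le

theorem pr_mono {P Q : X → Prop} (h : ∀ x, P x → Q x) : pr P ≤ pr Q :=
  av_mono fun x => ind_mono (h x)

theorem pr_eq (P : X → Prop) [DecidablePred P] :
    pr P = (univ.filter P).card / Fintype.card X := by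
  unfold pr av ind
  congr 1
  rw [card_filter]
  push_cast
  exact sum_congr rfl fun x _ => by congr

theorem exists_of_pr_pos {P : X → Prop} (h : 0 < pr P) : ∃ x, P x := by
  by_contra hc
  push Not at hc
  simp [pr, av, ind_neg (hc _)] at h

theorem markov [Nonempty X] {φ : X → ℝ} {z : ℝ} (h0 : 0 ≤ z) (h1 : ∀ x, φ x ≤ 1) (h : z ≤ av φ) :
    z / 2 ≤ pr fun x => z / 2 ≤ φ x := by
  have h2 : av φ ≤ av fun x => ind (z / 2 ≤ φ x) + z / 2 := av_mono fun x => by
    by_cases hx : z / 2 ≤ φ x
    · rw [ind_pos hx]; linarith [h1 x]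
    · rw [ind_neg hx]; linarith
  rw [av_add, av_const] at h2
  unfold pr
  linarith

theorem exists_avoid [Nonempty X] {ν : Type} (s : Finset ν) (P : ν → X → Prop) {z : ℝ}
    (h : ∀ c ∈ s, pr (P c) < z) (hz : s.card * z ≤ 1) : ∃ x, ∀ c ∈ s, ¬P c x := by
  by_contra hc
  push Not at hc
  have h1 : (1 : ℝ) ≤ av fun x : X => ∑ c ∈ s, ind (P c x) := by
    rw [← av_const (X := X) 1]
    refine av_mono fun x => ?_
    obtain ⟨c, h1, h2⟩ := hc x
    rw [← ind_pos h2]
    exact single_le_sum (f := fun c => ind (P c x)) (fun _ _ => ind_nonneg _) h1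
  have h2 : (av fun x : X => ∑ c ∈ s, ind (P c x)) = ∑ c ∈ s, pr (P c) := by
    simp only [pr, av, ← sum_div]
    rw [sum_comm]
  obtain ⟨x⟩ := ‹Nonempty X›
  obtain ⟨c, hc1, -⟩ := hc x
  have h3 := sum_lt_sum_of_nonempty ⟨c, hc1⟩ h
  simp only [sum_const, nsmul_eq_mul] at h3
  linarith

end Av

variable {F : Type} [Field F] {V W κ σ τ : Type} [AddCommGroup V] [Module F V] [Fintype V]
  [AddCommGroup W] [Module F W] [Fintype κ] [DecidableEq κ]

theorem pr_mem (K : AddSubgroup V) : pr (· ∈ K) = 1 / K.index := by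
  classical
  have h := K.card_mul_index
  have h1 : (0 : ℝ) < Fintype.card V := by positivity
  have h2 : K.index ≠ 0 := AddSubgroup.index_ne_zero_of_finite
  rw [pr_eq, div_eq_div_iff h1.ne' (by exact_mod_cast h2), one_mul, ← Nat.card_eq_fintype_card,
    ← h, Nat.card_eq_fintype_card, Fintype.card_subtype]
  push_cast
  congr

theorem pr_ker {L L' : V → W} (h : IsLinearMap F L) (h' : IsLinearMap F L') :
    pr (fun a => L a = 0) * pr (fun a => L' a = 0) ≤ pr fun a => L a = 0 ∧ L' a = 0 := by
  let K := (LinearMap.ker (h.mk' L)).toAddSubgroup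
  let K' := (LinearMap.ker (h'.mk' L')).toAddSubgroup
  change pr (· ∈ K) * pr (· ∈ K') ≤ pr (· ∈ K ⊓ K')
  rw [pr_mem, pr_mem, pr_mem, div_mul_div_comm, one_mul]
  have h2 : (K ⊓ K').index ≠ 0 := AddSubgroup.index_ne_zero_of_finite
  refine one_div_le_one_div_of_le (by positivity) ?_
  exact_mod_cast AddSubgroup.index_inf_le

/-- `T` is linear in each coordinate from `J` and does not depend on the other coordinates. -/
structure ML (F : Type) [Field F] [Module F V] [Module F W] (J : Finset κ) (T : (κ → V) → W) :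
    Prop where
  lin : ∀ j ∈ J, ∀ x, IsLinearMap F fun a => T (update x j a)
  indep : ∀ j ∉ J, ∀ x a, T (update x j a) = T x

omit [Fintype V] [Fintype κ] in
theorem ML.upd {J : Finset κ} {j : κ} {T : (κ → V) → W} (h : ML F J T) (a : V) :
    ML F (J.erase j) fun x => T (update x j a) := by
  refine ⟨fun i hi x => ?_, fun i hi x b => ?_⟩
  · simp only [update_comm (ne_of_mem_erase hi)]
    exact h.lin i (mem_of_mem_erase hi) _
  · by_cases e : i = j
    · rw [e, update_idem]
    · rw [update_comm e, h.indep i (fun hc => hi (mem_erase.2 ⟨e, hc⟩))]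

omit [Fintype V] in
theorem ML.const {T : (κ → V) → W} (h : ML F ∅ T) (x y : κ → V) : T x = T y := by
  have h2 : ∀ s : Finset κ, T (s.piecewise y x) = T x := by
    intro s
    induction s using Finset.induction_on with
    | empty => simp
    | insert i s _ ih => rw [piecewise_insert, h.indep i (by simp), ih]
  rw [← h2 univ, piecewise_univ]

/-- Zero sets of multilinear maps are positively correlated. -/
theorem ML.corr (J : Finset κ) : ∀ {S T : (κ → V) → W}, ML F J S → ML F J T →
    pr (fun x => S x = 0) * pr (fun x => T x = 0) ≤ pr fun x => S x = 0 ∧ T x = 0 := by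
  induction J using Finset.induction_on with
  | empty =>
    intro S T hS hT
    simp only [pr, hS.const _ 0, hT.const _ 0, av_const, ind_and, le_refl]
  | insert j J hj ih =>
    intro S T hS hT
    have e : ∀ P : (κ → V) → Prop, pr P = av fun a => pr fun x => P (update x j a) := fun P => by
      unfold pr
      rw [av_update j, av_comm]
    rw [e fun x => S x = 0, e fun x => T x = 0, av_mul_av]
    have h1 := fun a => hS.upd (j := j) a
    have h2 := fun a => hT.upd (j := j) a
    rw [erase_insert hj] at h1 h2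
    refine (av_mono fun a => av_mono fun b => ih (h1 a) (h2 b)).trans ?_
    unfold pr
    rw [av_update j fun x => ind (S x = 0 ∧ T x = 0)]
    simp only [av_comm (X := V) (Y := κ → V)]
    refine av_mono fun x => ?_
    simp only [ind_and, ← av_mul_av]
    simpa only [pr, ind_and] using
      pr_ker (hS.lin j (mem_insert_self _ _) x) (hT.lin j (mem_insert_self _ _) x)

variable [Fintype σ] [DecidableEq σ]

/-- An affine subspace of dimension `k` has at most `2 ^ k` Boolean points. -/
theorem odlyzko (K : Submodule F (σ → F)) (u : σ → F) [DecidablePred (· ∈ K)] :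
    (univ.filter fun a : σ → Bool => (fun i => tf F (a i)) - u ∈ K).card ≤
      2 ^ Module.finrank F K := by
  classical
  let φ : σ → Module.Dual F K := fun i => (LinearMap.proj i).comp K.subtype
  obtain ⟨b, h1, h2, h3⟩ := exists_linearIndependent F (Set.range φ)
  have : Fintype b := ((Set.finite_range φ).subset h1).fintype
  have h4 : ∀ β : b, ∃ i, φ i = β := fun β => h1 β.2
  choose idx hidx using h4
  have h5 := h3.fintype_card_le_finrank
  rw [Subspace.dual_finrank_eq] at h5
  refine le_trans (card_le_card_of_injOn (t := univ) (fun a (β : b) => a (idx β))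
    (fun _ _ => by simp) ?_) ?_
  · intro a ha a' ha' h
    simp only [coe_filter, mem_univ, true_and, Set.mem_ofPred_eq] at ha ha'
    have hv := K.sub_mem ha ha'
    rw [sub_sub_sub_cancel_right] at hv
    have h6 : ∀ ψ ∈ Submodule.span F b, ψ ⟨_, hv⟩ = 0 := by
      intro ψ hψ
      induction hψ using Submodule.span_induction with
      | zero => rfl
      | add x y _ _ hx hy => simp [hx, hy]
      | smul c x _ hx => simp [hx]
      | mem x hx =>
        have := hidx ⟨x, hx⟩
        simp only at this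
        rw [← this]
        have h7 := congrFun h ⟨x, hx⟩
        simp only at h7
        simp [φ, h7]
    ext i
    have := h6 (φ i) (h2 ▸ Submodule.subset_span ⟨i, rfl⟩)
    exact tf_inj (F := F) (sub_eq_zero.1 this)
  · rw [card_univ, Fintype.card_fun, Fintype.card_bool]
    exact Nat.pow_le_pow_right two_pos h5

theorem pr_bool [Fintype F] {c : ℕ} (hc : Fintype.card F ≤ 2 ^ c) {L : (σ → F) → W}
    (h : IsLinearMap F L) (u : σ → F) :
    pr (fun a : σ → Bool => L ((fun i => tf F (a i)) - u) = 0) ^ c ≤ pr fun v => L v = 0 := by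
  classical
  let K := LinearMap.ker (h.mk' L)
  have h1 := odlyzko K u
  have h2 : (univ.filter fun v => L v = 0).card = Fintype.card F ^ Module.finrank F K := by
    rw [← Module.card_eq_pow_finrank, Fintype.card_subtype]
    congr
  obtain ⟨r, hr⟩ : ∃ r, Fintype.card σ = Module.finrank F K + r := by
    refine Nat.exists_eq_add_of_le ?_
    simpa using K.finrank_le
  have h3 : (0 : ℝ) < Fintype.card F := by positivity
  rw [pr_eq, pr_eq, h2, Fintype.card_fun, Fintype.card_fun, Fintype.card_bool, hr]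
  push_cast
  have h4 : ((univ.filter fun a : σ → Bool => L ((fun i => tf F (a i)) - u) = 0).card : ℝ) ≤
      2 ^ Module.finrank F K := by exact_mod_cast h1
  calc _ ≤ ((2 : ℝ) ^ Module.finrank F K / 2 ^ (Module.finrank F K + r)) ^ c := by gcongr
    _ = 1 / (2 ^ c) ^ r := by
      rw [pow_add, div_mul_cancel_left₀ (by positivity), inv_pow, one_div, ← pow_mul, ← pow_mul,
        mul_comm]
    _ ≤ 1 / (Fintype.card F : ℝ) ^ r := by
      refine one_div_le_one_div_of_le (by positivity) ?_
      gcongr
      exact_mod_cast hc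
    _ = _ := by rw [pow_add, div_mul_cancel_left₀ (by positivity), one_div]

end Pool.Agent.MP_8a92de_lc.H86

end

-- part MP_8a92de_lc.H86.Box
section

/-! Polynomials on a product of blocks, their top forms, and the box inequality. -/

namespace Pool.Agent.MP_8a92de_lc.H86

open Finset Function

variable {F : Type} [Field F] {W κ σ τ : Type} [AddCommGroup W] [Module F W] [DecidableEq κ]
  [Fintype τ]

/-- Value of a monomial at a point with coordinates in the field. -/
def mv (S : Finset (κ × σ)) (v : κ → σ → F) : F := ∏ q ∈ S, v q.1 q.2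

/-- Value of a polynomial given by a family of monomials with vector coefficients. -/
def ev (S : τ → Finset (κ × σ)) (c : τ → W) (v : κ → σ → F) : W := ∑ t, mv (S t) v • c t

/-- The part of a polynomial formed by the monomials that meet exactly the blocks in `J`. -/
def top (S : τ → Finset (κ × σ)) (c : τ → W) (J : Finset κ) (v : κ → σ → F) : W :=
  ∑ t, if (S t).image Prod.fst = J then mv (S t) v • c t else 0

theorem mv_update (S : Finset (κ × σ)) (v : κ → σ → F) (j : κ) (a : σ → F) :
    mv S (update v j a) =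
      (∏ q ∈ S.filter (·.1 = j), a q.2) * mv (S.filter (·.1 ≠ j)) v := by
  unfold mv
  rw [← prod_filter_mul_prod_filter_not S (·.1 = j)]
  congr 1
  · exact prod_congr rfl fun q hq => by rw [(mem_filter.1 hq).2, update_self]
  · exact prod_congr rfl fun q hq => by rw [update_of_ne (mem_filter.1 hq).2]

theorem filter_single {S : Finset (κ × σ)} {j : κ} (h : S.card ≤ (S.image Prod.fst).card)
    (hj : j ∈ S.image Prod.fst) : ∃ s, S.filter (·.1 = j) = {(j, s)} := by
  have h1 : Set.InjOn Prod.fst (S : Set (κ × σ)) :=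
    card_image_iff.1 (le_antisymm card_image_le h)
  obtain ⟨q, hq, rfl⟩ := mem_image.1 hj
  refine ⟨q.2, eq_singleton_iff_unique_mem.2 ⟨mem_filter.2 ⟨hq, rfl⟩, fun r hr => ?_⟩⟩
  exact h1 (mem_filter.1 hr).1 hq (mem_filter.1 hr).2

theorem filter_none {S : Finset (κ × σ)} {j : κ} (hj : j ∉ S.image Prod.fst) :
    S.filter (·.1 = j) = ∅ :=
  filter_eq_empty_iff.2 fun q hq h => hj (mem_image.2 ⟨q, hq, h⟩)

theorem ml_top {S : τ → Finset (κ × σ)} {c : τ → W} {J : Finset κ}
    (h : ∀ t, c t ≠ 0 → (S t).card ≤ J.card) : ML F J (top (F := F) S c J) := by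
  refine ⟨fun j hj x => ?_, fun j hj x a => ?_⟩
  · have h1 : ∀ t, IsLinearMap F fun a : σ → F =>
        if (S t).image Prod.fst = J then mv (S t) (update x j a) • c t else 0 := by
      intro t
      by_cases e : (S t).image Prod.fst = J
      · by_cases e0 : c t = 0
        · simp only [e0, smul_zero, ite_self]
          exact ⟨by simp, by simp⟩
        · obtain ⟨s, hs⟩ := filter_single (S := S t) (j := j) (e ▸ h t e0) (e ▸ hj)
          simp only [if_pos e, mv_update, hs, prod_singleton]
          exact ⟨fun a b => by simp [add_mul, add_smul], fun a b => by simp [mul_smul]⟩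
      · simp only [if_neg e]
        exact ⟨by simp, by simp⟩
    refine ⟨fun a b => ?_, fun a b => ?_⟩
    · simp only [top, ← sum_add_distrib]
      exact sum_congr rfl fun t _ => (h1 t).map_add a b
    · simp only [top, smul_sum]
      exact sum_congr rfl fun t _ => (h1 t).map_smul a b
  · refine sum_congr rfl fun t _ => ?_
    by_cases e : (S t).image Prod.fst = J
    · rw [if_pos e, if_pos e]
      congr 1
      exact prod_congr rfl fun q hq => by
        rw [update_of_ne fun hc => hj (e ▸ mem_image.2 ⟨q, hq, hc⟩)]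
    · rw [if_neg e, if_neg e]

theorem top_diff {S : τ → Finset (κ × σ)} {c : τ → W} {J : Finset κ} {j : κ} (hj : j ∉ J)
    (h : ∀ t, c t ≠ 0 → (S t).card ≤ (insert j J).card) (a b : σ → F) (v : κ → σ → F) :
    top (fun t => (S t).filter (·.1 ≠ j)) (fun t => ((∏ q ∈ (S t).filter (·.1 = j), b q.2) -
      ∏ q ∈ (S t).filter (·.1 = j), a q.2) • c t) J v =
      top S c (insert j J) (update v j (b - a)) := by
  refine sum_congr rfl fun t _ => ?_
  have e1 : ((S t).filter (·.1 ≠ j)).image Prod.fst = ((S t).image Prod.fst).erase j := by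
    ext i
    simp only [mem_image, mem_filter, mem_erase]
    exact ⟨fun ⟨q, ⟨h1, h2⟩, h3⟩ => ⟨h3 ▸ h2, q, h1, h3⟩,
      fun ⟨h1, q, h2, h3⟩ => ⟨q, ⟨h2, h3 ▸ h1⟩, h3⟩⟩
  rw [e1]
  by_cases e0 : c t = 0
  · simp [e0]
  by_cases e : (S t).image Prod.fst = insert j J
  · obtain ⟨s, hs⟩ := filter_single (S := S t) (j := j) (e ▸ h t e0) (e ▸ mem_insert_self _ _)
    rw [if_pos e, if_pos (by rw [e, erase_insert hj]), mv_update]
    simp only [hs, prod_singleton, Pi.sub_apply]
    rw [smul_smul, mul_comm]
  · rw [if_neg e]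
    by_cases e2 : j ∈ (S t).image Prod.fst
    · rw [if_neg]
      intro hc
      exact e (by rw [← hc, insert_erase e2])
    · simp [filter_none e2]

variable [Fintype κ] [Fintype σ] [DecidableEq σ] [Fintype F]

/-- A polynomial that often vanishes on the cube has top forms that often vanish. -/
theorem box {c0 : ℕ} (hc : Fintype.card F ≤ 2 ^ c0) (J : Finset κ) :
    ∀ (S : τ → Finset (κ × σ)) (c : τ → W), (∀ t, c t ≠ 0 → (S t).card ≤ J.card) →
    pr (fun x : κ → σ → Bool => ev S c (fun j s => tf F (x j s)) = 0) ^ ((2 * c0) ^ J.card) ≤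
      pr fun v => top (F := F) S c J v = 0 := by
  induction J using Finset.induction_on with
  | empty =>
    intro S c h
    have e : ∀ v : κ → σ → F, top S c ∅ v = ∑ t, c t ∧ ev S c v = ∑ t, c t := by
      intro v
      constructor <;> refine sum_congr rfl fun t _ => ?_ <;> by_cases e0 : c t = 0
      · simp [e0]
      · simp [card_eq_zero.1 (Nat.le_zero.1 (h t e0)), mv]
      · simp [e0]
      · simp [card_eq_zero.1 (Nat.le_zero.1 (h t e0)), mv]
    simp only [pr, (e _).1, (e _).2, av_const, card_empty, pow_zero, pow_one, le_refl]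
  | insert j J hj ih =>
    intro S c h
    set E := (2 * c0) ^ J.card with hE
    let tb : (σ → Bool) → σ → F := fun a s => tf F (a s)
    let P : (κ → σ → Bool) → Prop := fun x => ev S c (fun j s => tf F (x j s)) = 0
    let L : (κ → σ → F) → (σ → F) → W := fun v u => top S c (insert j J) (update v j u)
    have hL : ∀ v, IsLinearMap F (L v) := fun v => (ml_top h).lin j (mem_insert_self _ _) v
    have h1 : ∀ a b : σ → Bool, pr (fun x => P (update x j a) ∧ P (update x j b)) ^ E ≤
        pr fun v => L v (tb b - tb a) = 0 := by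
      intro a b
      have h2 := ih (fun t => (S t).filter (·.1 ≠ j)) (fun t =>
        ((∏ q ∈ (S t).filter (·.1 = j), tb b q.2) -
          ∏ q ∈ (S t).filter (·.1 = j), tb a q.2) • c t) fun t ht => by
        have e0 : c t ≠ 0 := fun hc => ht (by rw [hc, smul_zero])
        have e1 : j ∈ (S t).image Prod.fst := by
          by_contra hc
          exact ht (by simp [filter_none hc])
        have e2 := h t e0
        rw [card_insert_of_notMem hj] at e2
        obtain ⟨q, hq, hq'⟩ := mem_image.1 e1
        have e3 : ((S t).filter (·.1 ≠ j)).card < (S t).card :=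
          card_lt_card (filter_ssubset.2 ⟨q, hq, by simpa using hq'⟩)
        omega
      simp only [top_diff hj h] at h2
      refine le_trans (pow_le_pow_left₀ (pr_nonneg _) (pr_mono fun x hx => ?_) _) h2
      have e : ∀ a : σ → Bool, (fun i s => tf F (update x j a i s)) =
          update (fun i s => tf F (x i s)) j (tb a) := by
        intro a
        ext i s
        by_cases hi : i = j
        · subst hi; simp [tb]
        · simp [update_of_ne hi]
      obtain ⟨ha, hb⟩ := hx
      simp only [P, e, ev, mv_update] at ha hb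
      simp only [ev, smul_smul, smul_sub, sub_smul, sum_sub_distrib]
      simp only [mul_comm] at ha hb ⊢
      rw [ha, hb, sub_self]
    have h3 : pr P ^ 2 ≤ av fun a => av fun b =>
        pr fun x => P (update x j a) ∧ P (update x j b) := by
      unfold pr
      rw [av_update j]
      refine (av_pow_le (fun x => av_nonneg fun _ => ind_nonneg _) 2).trans (le_of_eq ?_)
      simp only [sq, av_mul_av, ind_and]
      rw [av_comm]
      congr 1
      ext a
      rw [av_comm]
    have h4 : (pr P ^ 2) ^ E ≤ av fun v => av fun a : σ → Bool =>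
        pr fun b : σ → Bool => L v (tb b - tb a) = 0 := by
      refine (pow_le_pow_left₀ (pow_nonneg (pr_nonneg _) _) h3 E).trans ?_
      refine (av_pow_le (fun a => av_nonneg fun _ => pr_nonneg _) E).trans ?_
      rw [av_comm]
      refine av_mono fun a => ?_
      refine (av_pow_le (fun _ => pr_nonneg _) E).trans ?_
      unfold pr
      rw [av_comm]
      exact av_mono fun b => h1 a b
    have h5 : ((pr P ^ 2) ^ E) ^ c0 ≤ av fun v => pr fun u => L v u = 0 := by
      refine (pow_le_pow_left₀ (pow_nonneg (pow_nonneg (pr_nonneg _) _) _) h4 c0).trans ?_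
      refine (av_pow_le (fun a => av_nonneg fun _ => pr_nonneg _) c0).trans ?_
      refine av_mono fun v => ?_
      refine (av_pow_le (fun _ => pr_nonneg _) c0).trans ?_
      rw [← av_const (X := σ → Bool) (pr fun u => L v u = 0)]
      exact av_mono fun a => pr_bool hc (hL v) (tb a)
    rw [card_insert_of_notMem hj, pow_succ, ← hE]
    calc _ = ((pr P ^ 2) ^ E) ^ c0 := by rw [← pow_mul, ← pow_mul]; congr 1; ring
      _ ≤ _ := h5
      _ = _ := by
        unfold pr
        rw [av_update j fun v => ind (top S c (insert j J) v = 0)]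

end Pool.Agent.MP_8a92de_lc.H86

end

-- part MP_8a92de_lc.H86.Greedy
section

/-! Killing all top forms of high zero density by a choice of two points in each block. -/

namespace Pool.Agent.MP_8a92de_lc.H86

open Finset Function

theorem pigeon {V B ν : Type} [AddCommGroup V] [Fintype V] [Fintype B] [Fintype ν] (e : B → V)
    (G : ν → V → Prop) {z : ℝ} (hz : 0 ≤ z) (hG : ∀ J, z ≤ pr (G J))
    (h : 1 < Fintype.card B * z ^ Fintype.card ν) :
    ∃ a b, a ≠ b ∧ ∀ J, ∃ g g', G J g ∧ G J g' ∧ e b - e a = g - g' := by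
  classical
  have h1 : (0 : ℝ) < Fintype.card V := by positivity
  have h2 : ∀ J, z * Fintype.card V ≤ (univ.filter (G J)).card := fun J => by
    have := hG J
    rwa [pr_eq, le_div_iff₀ h1] at this
  obtain ⟨x, hx, y, hy, hne, hxy⟩ := exists_ne_map_eq_of_card_lt_of_maps_to
    (s := (univ : Finset B) ×ˢ Fintype.piFinset fun J => univ.filter (G J))
    (t := (univ : Finset (ν → V))) (f := fun x J => e x.1 + x.2 J) (by
      rw [card_product, Fintype.card_piFinset, card_univ, card_univ, Fintype.card_fun]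
      have h3 : (z * Fintype.card V) ^ Fintype.card ν ≤ ∏ J, ((univ.filter (G J)).card : ℝ) := by
        rw [← card_univ (α := ν), ← prod_const]
        exact prod_le_prod (fun _ _ => by positivity) fun J _ => h2 J
      have h4 : (Fintype.card V : ℝ) ^ Fintype.card ν <
          Fintype.card B * ∏ J, ((univ.filter (G J)).card : ℝ) := by
        calc _ = 1 * (Fintype.card V : ℝ) ^ Fintype.card ν := (one_mul _).symm
          _ < (Fintype.card B * z ^ Fintype.card ν) * (Fintype.card V : ℝ) ^ Fintype.card ν := by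
            gcongr
          _ = Fintype.card B * (z * Fintype.card V) ^ Fintype.card ν := by rw [mul_pow, mul_assoc]
          _ ≤ _ := by gcongr
      exact_mod_cast h4) (fun _ _ => by simp)
  simp only [mem_product, mem_univ, Fintype.mem_piFinset, mem_filter, true_and] at hx hy
  refine ⟨x.1, y.1, fun hc => hne (Prod.ext hc ?_), fun J => ⟨x.2 J, y.2 J, hx J, hy J, ?_⟩⟩
  · ext J
    have := congrFun hxy J
    simpa [hc] using this
  · have := congrFun hxy J
    rw [sub_eq_sub_iff_add_eq_add, ← this, add_comm]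

variable {F : Type} [Field F] {V W κ B : Type} [AddCommGroup V] [Module F V] [Fintype V]
  [AddCommGroup W] [Module F W] [Fintype κ] [DecidableEq κ] [Fintype B] [Nonempty B]

theorem greedy_aux (e : B → V) (𝓙 : Finset (Finset κ)) (d : ℕ) {w : ℝ} (h0 : 0 < w) (h1 : w ≤ 1)
    (hs : 1 < Fintype.card B * (w ^ 2 ^ d) ^ 𝓙.card) (I : Finset κ) :
    ∀ T : Finset κ → (κ → V) → W, (∀ J ∈ 𝓙, ML F (J ∩ I) (T J)) → (∀ J ∈ 𝓙, (J ∩ I).card ≤ d) →
    (∀ J ∈ 𝓙, 4 * w ^ 2 ^ (d - (J ∩ I).card) ≤ pr fun v => T J v = 0) →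
    ∃ α β : κ → B, (∀ j ∈ I, α j ≠ β j) ∧ ∀ J ∈ 𝓙, T J (fun j => e (β j) - e (α j)) = 0 := by
  induction I using Finset.induction_on with
  | empty =>
    intro T hT _ hz
    obtain ⟨b⟩ := ‹Nonempty B›
    refine ⟨fun _ => b, fun _ => b, by simp, fun J hJ => ?_⟩
    obtain ⟨v, hv⟩ := exists_of_pr_pos (lt_of_lt_of_le (by positivity) (hz J hJ))
    have := hT J hJ
    rw [inter_empty] at this
    rw [this.const _ v, hv]
  | insert j I hj ih =>
    intro T hT hd hz
    let φ : Finset κ → V → ℝ := fun J u => pr fun v => T J (update v j u) = 0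
    have h2 : ∀ J, av (φ J) = pr fun v => T J v = 0 := fun J => by
      unfold pr
      rw [av_update j fun v => ind (T J v = 0), av_comm]
      rfl
    obtain ⟨a, b, hab, hg⟩ := pigeon e (fun (J : 𝓙) u =>
      4 * w ^ 2 ^ (d - (J.1 ∩ insert j I).card) / 2 ≤ φ J u) (z := w ^ 2 ^ d) (by positivity)
      (fun J => by
        refine le_trans ?_ (markov (by positivity) (fun _ => pr_le_one _) (h2 J ▸ hz J.1 J.2))
        have h3 : w ^ 2 ^ d ≤ w ^ 2 ^ (d - (J.1 ∩ insert j I).card) :=
          pow_le_pow_of_le_one h0.le h1 (Nat.pow_le_pow_right two_pos (Nat.sub_le _ _))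
        have h4 : 0 < w ^ 2 ^ d := by positivity
        linarith) (by rwa [Fintype.card_coe])
    have h5 : ∀ J : Finset κ, (J ∩ insert j I).erase j = J ∩ I := fun J => by
      ext i
      simp only [mem_erase, mem_inter, mem_insert]
      exact ⟨fun ⟨h1, h2, h3⟩ => ⟨h2, h3.resolve_left h1⟩,
        fun ⟨h1, h2⟩ => ⟨fun hc => hj (hc ▸ h2), h1, Or.inr h2⟩⟩
    obtain ⟨α, β, h6, h7⟩ := ih (fun J v => T J (update v j (e b - e a)))
      (fun J hJ => h5 J ▸ (hT J hJ).upd _)
      (fun J hJ => (card_le_card (h5 J ▸ erase_subset _ _)).trans (hd J hJ)) fun J hJ => by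
        by_cases hjJ : j ∈ J
        · obtain ⟨g, g', h8, h9, h10⟩ := hg ⟨J, hJ⟩
          have h11 : j ∈ J ∩ insert j I := mem_inter.2 ⟨hjJ, mem_insert_self _ _⟩
          have h12 : d - (J ∩ I).card = d - (J ∩ insert j I).card + 1 := by
            have := hd J hJ
            have := card_erase_add_one h11
            rw [h5] at this
            omega
          have h13 := ML.corr _ ((hT J hJ).upd (j := j) g) ((hT J hJ).upd (j := j) g')
          rw [h12, pow_succ, pow_mul, h10]
          refine le_trans ?_ (h13.trans (pr_mono fun v hv => ?_))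
          · refine le_trans (le_of_eq ?_) (mul_le_mul h8 h9 (by positivity) (pr_nonneg _))
            ring
          · rw [((hT J hJ).lin j h11 v).map_sub, hv.1, hv.2, sub_self]
        · have h11 : j ∉ J ∩ insert j I := fun hc => hjJ (mem_inter.1 hc).1
          simp only [(hT J hJ).indep j h11]
          rw [← h5, erase_eq_of_notMem h11]
          exact hz J hJ
    refine ⟨update α j a, update β j b, fun i hi => ?_, fun J hJ => ?_⟩
    · by_cases hij : i = j
      · rwa [hij, update_self, update_self]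
      · rw [update_of_ne hij, update_of_ne hij]
        exact h6 i ((mem_insert.1 hi).resolve_left hij)
    · rw [← h7 J hJ]
      congr 1
      ext i
      by_cases hij : i = j
      · rw [hij, update_self, update_self, update_self]
      · rw [update_of_ne hij, update_of_ne hij, update_of_ne hij]

theorem greedy (e : B → V) (𝓙 : Finset (Finset κ)) (d : ℕ) {w : ℝ} (h0 : 0 < w) (h1 : w ≤ 1)
    (hs : 1 < Fintype.card B * (w ^ 2 ^ d) ^ 𝓙.card) (T : Finset κ → (κ → V) → W)
    (hT : ∀ J ∈ 𝓙, ML F J (T J)) (hd : ∀ J ∈ 𝓙, J.card = d)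
    (hz : ∀ J ∈ 𝓙, 4 * w ≤ pr fun v => T J v = 0) :
    ∃ α β : κ → B, (∀ j, α j ≠ β j) ∧ ∀ J ∈ 𝓙, T J (fun j => e (β j) - e (α j)) = 0 := by
  obtain ⟨α, β, h2, h3⟩ := greedy_aux (F := F) e 𝓙 d h0 h1 hs univ T (by simpa using hT)
    (fun J hJ => by simp [hd J hJ]) (fun J hJ => by simpa [hd J hJ] using hz J hJ)
  exact ⟨α, β, fun j => h2 j (mem_univ _), h3⟩

variable {σ : Type}

omit [Fintype κ] in
/-- Expansion of a monomial along a block cube, up to terms of lower degree. -/
theorem mv_expand {d : ℕ} {S : Finset (κ × σ)} (hS : S.card ≤ d + 1) (α δ : κ → σ → F) :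
    (fun y : κ → Bool => mv S (fun j s => tf F (y j) * δ j s + α j s) -
      if (S.image Prod.fst).card = d + 1 then mon F (S.image Prod.fst) y * mv S δ else 0) ∈
      Deg F κ d := by
  classical
  have e1 : ∀ (U : Finset (κ × σ)) (y : κ → Bool),
      ∏ q ∈ U, tf F (y q.1) = mon F (U.image Prod.fst) y := by
    intro U y
    by_cases h : ∀ q ∈ U, y q.1 = true
    · rw [prod_eq_one fun q hq => by rw [h q hq]; rfl, mon, prod_eq_one]
      intro j hj
      obtain ⟨q, hq, rfl⟩ := mem_image.1 hj
      rw [h q hq]; rfl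
    · push Not at h
      obtain ⟨q, hq, h⟩ := h
      rw [prod_eq_zero hq (by simp [h]), mon,
        prod_eq_zero (mem_image_of_mem Prod.fst hq) (by simp [h])]
  have e2 : ∀ y : κ → Bool, mv S (fun j s => tf F (y j) * δ j s + α j s) =
      mon F (S.image Prod.fst) y * mv S δ + ∑ U ∈ S.powerset.erase S,
        mon F (U.image Prod.fst) y * (mv U δ * mv (S \ U) α) := by
    intro y
    rw [mv, prod_add, ← add_sum_erase _ _ (mem_powerset_self S)]
    simp only [prod_mul_distrib, e1, mv, sdiff_self, bot_eq_empty, prod_empty, mul_one, mul_assoc]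
  have h3 : (fun y : κ → Bool => ∑ U ∈ S.powerset.erase S,
      mon F (U.image Prod.fst) y * (mv U δ * mv (S \ U) α)) ∈ Deg F κ d := by
    refine Deg.sum' fun U hU => Deg.mul (b := 0) (mon_mem (card_image_le.trans ?_)) (Deg.const _ _)
    have := card_lt_card (ssubset_of_subset_of_ne (mem_powerset.1 (mem_of_mem_erase hU))
      (ne_of_mem_erase hU))
    omega
  by_cases h : (S.image Prod.fst).card = d + 1
  · simpa only [e2, if_pos h, add_sub_cancel_left] using h3
  · simp only [e2, if_neg h, sub_zero]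
    refine Deg.add' (Deg.mul (b := 0) (mon_mem ?_) (Deg.const _ _)) h3
    have := card_image_le (s := S) (f := Prod.fst)
    omega

end Pool.Agent.MP_8a92de_lc.H86

end

-- part MP_8a92de_lc.H86.Ramsey
section

/-! A Ramsey theorem for maps of bounded degree: on some large subcube such a map is constant or
has an affine left inverse. -/

namespace Pool.Agent.MP_8a92de_lc.H86

open Finset Function

/-- Polynomially bounded functions. -/
@[fun_prop] def Pb (f : ℕ → ℕ) : Prop := ∃ D, ∀ k, f k ≤ (k + 2) ^ D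

theorem Pb.mono {f g : ℕ → ℕ} (h : Pb g) (h' : ∀ k, f k ≤ g k) : Pb f :=
  ⟨h.choose, fun k => (h' k).trans (h.choose_spec k)⟩

@[fun_prop] theorem Pb.const (c : ℕ) : Pb fun _ => c :=
  ⟨c, fun _ => Nat.lt_two_pow_self.le.trans (Nat.pow_le_pow_left (by omega) _)⟩

@[fun_prop] theorem Pb.id : Pb fun k => k := ⟨1, fun k => by simp⟩

@[fun_prop] theorem Pb.mul {f g : ℕ → ℕ} (hf : Pb f) (hg : Pb g) : Pb fun k => f k * g k := by
  obtain ⟨a, ha⟩ := hf
  obtain ⟨b, hb⟩ := hg
  exact ⟨a + b, fun k => by rw [pow_add]; exact Nat.mul_le_mul (ha k) (hb k)⟩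

@[fun_prop] theorem Pb.add {f g : ℕ → ℕ} (hf : Pb f) (hg : Pb g) : Pb fun k => f k + g k := by
  obtain ⟨a, ha⟩ := hf
  obtain ⟨b, hb⟩ := hg
  refine ⟨a + b + 1, fun k => ?_⟩
  have h1 : (k + 2) ^ a ≤ (k + 2) ^ (a + b) := Nat.pow_le_pow_right (by omega) (by omega)
  have h2 : (k + 2) ^ b ≤ (k + 2) ^ (a + b) := Nat.pow_le_pow_right (by omega) (by omega)
  have := ha k
  have := hb k
  rw [pow_succ]
  nlinarith

@[fun_prop] theorem Pb.pow {f : ℕ → ℕ} (hf : Pb f) (n : ℕ) : Pb fun k => f k ^ n := by
  obtain ⟨a, ha⟩ := hf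
  exact ⟨a * n, fun k => by rw [pow_mul]; exact Nat.pow_le_pow_left (ha k) _⟩

@[fun_prop] theorem Pb.comp {f g : ℕ → ℕ} (hf : Pb f) (hg : Pb g) : Pb fun k => f (g k) := by
  obtain ⟨a, ha⟩ := hf
  exact ((hg.add (Pb.const 2)).pow a).mono fun k => ha _

theorem Pb.eval (q : Polynomial ℕ) : Pb fun k => q.eval k := by
  induction q using Polynomial.induction_on' with
  | add p q hp hq => simpa using hp.add hq
  | monomial n a => simpa using (Pb.const a).mul (Pb.id.pow n)

theorem Pb.poly {f : ℕ → ℕ} (hf : Pb f) : ∃ q : Polynomial ℕ, ∀ k, f k ≤ q.eval k := by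
  obtain ⟨a, ha⟩ := hf
  exact ⟨(Polynomial.X + 2) ^ a, fun k => by simpa using ha k⟩

theorem disj_or {κ : Type} [DecidableEq κ] (P : Finset κ → Prop) {d : ℕ}
    (hP : ∀ J, P J → J.card ≤ d) (k : ℕ) :
    (∃ J : Fin k → Finset κ, (∀ t, P (J t)) ∧ Pairwise (Disjoint on J)) ∨
      ∃ R : Finset κ, R.card ≤ k * d ∧ ∀ J, P J → ¬Disjoint J R := by
  induction k with
  | zero => exact Or.inl ⟨Fin.elim0, fun t => t.elim0, fun t => t.elim0⟩
  | succ k ih =>
    rcases ih with ⟨J, h1, h2⟩ | ⟨R, h1, h2⟩
    · by_cases h : ∃ J', P J' ∧ Disjoint J' (univ.biUnion J)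
      · obtain ⟨J', h3, h4⟩ := h
        rw [disjoint_biUnion_right] at h4
        refine Or.inl ⟨Fin.cons J' J, fun t => ?_, fun s t hst => ?_⟩
        · cases t using Fin.cases
          · exact h3
          · exact h1 _
        · cases s using Fin.cases <;> cases t using Fin.cases
          · exact absurd rfl hst
          · exact h4 _ (mem_univ _)
          · exact (h4 _ (mem_univ _)).symm
          · exact h2 fun hc => hst (congrArg Fin.succ hc)
      · push Not at h
        refine Or.inr ⟨_, ?_, h⟩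
        have := card_biUnion_le_card_mul univ J d fun t _ => hP _ (h1 t)
        rw [card_univ, Fintype.card_fin] at this
        rw [Nat.succ_mul]
        omega
    · exact Or.inr ⟨R, by rw [Nat.succ_mul]; omega, h2⟩

variable {F : Type} [Field F] {ι κ σ ω : Type}

/-- Every output bit has degree at most `D`. -/
def BDeg (F : Type) [Field F] (D : ℕ) (h : (ι → Bool) → ω → Bool) : Prop :=
  ∀ o, (fun x => tf F (h x o)) ∈ Deg F ι D

/-- Every input bit is an affine function of the output bits. -/
def AInv (F : Type) [Field F] (h : (ι → Bool) → ω → Bool) : Prop :=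
  ∀ t, ∃ g ∈ Deg F ω 1, ∀ y, g (h y) = tf F (y t)

theorem AInv.inj {h : (ι → Bool) → ω → Bool} (hh : AInv F h) : Injective h := by
  intro x y hxy
  ext t
  obtain ⟨g, -, hg⟩ := hh t
  exact tf_inj (F := F) (by rw [← hg, ← hg, hxy])

theorem BDeg.proj {D : ℕ} {h : (ι → Bool) → ω → Bool} (hh : BDeg F D h)
    {γ : (κ → Bool) → ι → Bool} (hγ : IsProj γ) : BDeg F D fun y => h (γ y) :=
  fun o => Deg.proj hγ (hh o)

theorem BDeg.coeff [Fintype ι] [DecidableEq ι] {D : ℕ} {h : (ι → Bool) → ω → Bool}
    (hh : BDeg F D h) : ∃ c : Finset ι → ω → F, (∀ S, c S ≠ 0 → S.card ≤ D) ∧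
      ∀ x o, tf F (h x o) = ∑ S, mon F S x * c S o := by
  choose c h1 h2 using fun o => Deg.coeff (hh o)
  refine ⟨fun S o => c o S, fun S hS => ?_, fun x o => h2 o x⟩
  obtain ⟨o, ho⟩ := Function.ne_iff.1 hS
  exact h1 o S ho

theorem isProj_extend (u : κ → ι) : IsProj fun y : κ → Bool => extend u y fun _ => false := by
  classical
  intro i
  by_cases h : ∃ j, u j = i
  · exact Or.inr ⟨Classical.choose h, false, fun y => by
      simp only [extend_def, dif_pos h, Bool.false_xor]⟩
  · exact Or.inl ⟨false, fun y => by simp [h]⟩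

theorem inj_extend {u : κ → ι} (hu : Injective u) :
    Injective fun y : κ → Bool => extend u y fun _ => false := fun x y h => by
  ext j
  simpa [hu.extend_apply] using congrFun h (u j)

theorem exists_affine {ν : Type} [Fintype ν] [Fintype ω] (u : ν → ω → F) (r : ν → F)
    (h : ∀ a : ν → F, (∀ o, ∑ y, a y * u y o = 0) → ∑ y, a y * r y = 0) :
    ∃ b : ω → F, ∀ y, ∑ o, b o * u y o = r y := by
  classical
  let L : ω → (ν → F) →ₗ[F] F := fun o => Fintype.linearCombination F fun y => u y o
  have h1 : Fintype.linearCombination F r ∈ Submodule.span F (Set.range L) := by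
    refine mem_span_of_iInf_ker_le_ker fun a ha => ?_
    simp only [Submodule.mem_iInf, LinearMap.mem_ker, L, Fintype.linearCombination_apply,
      smul_eq_mul] at ha ⊢
    exact h a ha
  obtain ⟨a, ha⟩ := (Submodule.mem_span_range_iff_exists_fun F).1 h1
  refine ⟨a, fun y => ?_⟩
  have := LinearMap.congr_fun ha (Pi.single y 1)
  simpa only [LinearMap.coe_sum, Finset.sum_apply, LinearMap.smul_apply, L,
    Fintype.linearCombination_apply_single, one_mul, smul_eq_mul] using this

variable [Fintype κ] [DecidableEq κ] [Fintype σ] [DecidableEq σ] [Fintype F]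

theorem caseA [Fintype ω] {c0 k d : ℕ} (hc0 : Fintype.card F ≤ 2 ^ c0)
    {h : (κ × σ → Bool) → ω → Bool} (hh : BDeg F (d + 1) h) {c : Finset (κ × σ) → ω → F}
    (hc : ∀ S, c S ≠ 0 → S.card ≤ d + 1) (hh' : ∀ x o, tf F (h x o) = ∑ S, mon F S x * c S o)
    {J : Fin k → Finset κ} (hJ : ∀ t, (J t).card = d + 1) (hd : Pairwise (Disjoint on J))
    {z : ℝ} (h0 : 0 ≤ z) (hz : (Fintype.card F : ℝ) ^ (k + 1) ^ (d + 1) * z ≤ 1)
    (hs : ∀ t, pr (fun v => top (F := F) id c (J t) v = 0) < z ^ (2 * c0) ^ (d + 1)) :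
    ∃ γ : (Fin k → Bool) → κ × σ → Bool, IsProj γ ∧ AInv F fun y => h (γ y) := by
  classical
  have hne : ∀ t, ∃ j, j ∈ J t := fun t => card_pos.1 (by rw [hJ]; omega)
  choose i hi using hne
  let m : (Fin k → Bool) → κ → Bool := fun y j => decide (∀ t, i t = j → y t = true)
  let μ : Finset (κ × σ) → (Fin k → Bool) → F := fun S y => ∏ q ∈ S, tf F (m y q.1)
  have hm : ∀ t y j, j ∈ J t → m y j = if j = i t then y t else true := by
    intro t y j hj
    have h1 : ∀ s, i s = j → s = t := fun s hs => by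
      by_contra hc
      exact disjoint_left.1 (hd hc) (hi s) (hs ▸ hj)
    by_cases e : j = i t
    · rw [if_pos e]
      refine Bool.eq_iff_iff.2 ?_
      simp only [m, decide_eq_true_eq]
      exact ⟨fun h2 => h2 t e.symm, fun h2 s hs => h1 s hs ▸ h2⟩
    · rw [if_neg e]
      simp only [m, decide_eq_true_eq]
      exact fun s hs => absurd (h1 s hs ▸ hs).symm e
  have hμ : ∀ t S y, S.image Prod.fst = J t → μ S y = tf F (y t) := by
    intro t S y hS
    have h1 : ∀ q ∈ S, q.1 ∈ J t := fun q hq => hS ▸ mem_image_of_mem _ hq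
    cases e : y t
    · obtain ⟨q, hq, hq'⟩ := mem_image.1 (hS ▸ hi t)
      exact prod_eq_zero hq (by rw [hm t y _ (h1 q hq), if_pos hq', e, tf_false])
    · exact prod_eq_one fun q hq => by rw [hm t y _ (h1 q hq), e, ite_self, tf_true]
  obtain ⟨x, hx⟩ := exists_avoid (X := κ → σ → Bool)
    (univ.filter fun a : ball (Fin k) (d + 1) → F => ∃ t, ∑ y, a y * tf F (y.1 t) ≠ 0)
    (fun a x => ev id (fun S => (∑ y, a y * μ S y.1) • c S) (fun j s => tf F (x j s)) = 0) (z := z)
    (fun a ha => by
      obtain ⟨t, ht⟩ := (mem_filter.1 ha).2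
      have h1 := box hc0 (J t) id (fun S => (∑ y, a y * μ S y.1) • c S) fun S hS =>
        hJ t ▸ hc S fun h => hS (by rw [h, smul_zero])
      have h2 : ∀ v, top id (fun S => (∑ y, a y * μ S y.1) • c S) (J t) v =
          (∑ y, a y * tf F (y.1 t)) • top (F := F) id c (J t) v := by
        intro v
        simp only [top, smul_sum]
        refine sum_congr rfl fun S _ => ?_
        by_cases e : (id S).image Prod.fst = J t
        · simp only [if_pos e, hμ t S _ e]
          rw [smul_comm]
        · simp only [if_neg e, smul_zero]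
      simp only [h2, smul_eq_zero, ht, false_or, hJ] at h1
      exact lt_of_pow_lt_pow_left₀ _ h0 (h1.trans_lt (hs t)))
    (by
      refine le_trans (mul_le_mul_of_nonneg_right ?_ h0) hz
      have h1 := card_ball (Fin k) (d + 1)
      rw [Fintype.card_fin] at h1
      have h2 := (card_filter_le univ fun a : ball (Fin k) (d + 1) → F =>
        ∃ t, ∑ y, a y * tf F (y.1 t) ≠ 0).trans (le_of_eq card_univ)
      rw [Fintype.card_fun, Fintype.card_coe] at h2
      exact_mod_cast h2.trans (Nat.pow_le_pow_right Fintype.card_pos h1))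
  let γ : (Fin k → Bool) → κ × σ → Bool := fun y q => x q.1 q.2 && m y q.1
  have hγ : IsProj γ := by
    intro q
    cases e : x q.1 q.2
    · exact Or.inl ⟨false, fun y => by simp [γ, e]⟩
    · by_cases e2 : ∃ t, i t = q.1
      · obtain ⟨t, ht⟩ := e2
        exact Or.inr ⟨t, false, fun y => by
          simp only [γ, e, hm t y q.1 (ht ▸ hi t), if_pos ht.symm, Bool.true_and, Bool.false_xor]⟩
      · push Not at e2
        exact Or.inl ⟨true, fun y => by simp [γ, e, m, e2]⟩
  refine ⟨γ, hγ, fun t => ?_⟩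
  obtain ⟨a, ha⟩ := exists_affine (fun (y : ball (Fin k) (d + 1)) o => tf F (h (γ y.1) o))
    (fun y => tf F (y.1 t)) fun a ha => by
      by_contra hc'
      refine hx a (mem_filter.2 ⟨mem_univ _, t, hc'⟩) ?_
      ext o
      rw [Pi.zero_apply, ← ha o]
      simp only [ev, Finset.sum_apply, Pi.smul_apply, smul_eq_mul, id, hh', mul_sum, sum_mul]
      rw [sum_comm]
      refine sum_congr rfl fun y _ => sum_congr rfl fun S _ => ?_
      have : mon F S (γ y.1) = mv S (fun j s => tf F (x j s)) * μ S y.1 := by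
        simp only [mon, mv, μ, ← prod_mul_distrib, γ]
        exact prod_congr rfl fun q _ => by cases x q.1 q.2 <;> simp
      rw [this]
      ring
  have hg : (fun u : ω → Bool => ∑ o, a o * tf F (u o)) ∈ Deg F ω 1 :=
    Deg.sum' fun o _ => Deg.mul (a := 0) (b := 1) (Deg.const _ _) (Deg.var o)
  refine ⟨_, hg, fun y => sub_eq_zero.1 ?_⟩
  refine Deg.eq_zero (D := d + 1)
    (f := fun y => ∑ o, a o * tf F (h (γ y) o) - tf F (y t)) (Deg.sub' (Deg.sum' fun o _ => ?_)
      (Deg.mono_le (by omega) (Deg.var t))) (fun y hy => sub_eq_zero.2 (ha ⟨y, hy⟩)) y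
  simpa using Deg.mul (Deg.const 0 (a o)) (hh.proj hγ o)

theorem caseB {d : ℕ} {h : (κ × σ → Bool) → ω → Bool} {c : Finset (κ × σ) → ω → F}
    (hc : ∀ S, c S ≠ 0 → S.card ≤ d + 1) (hh' : ∀ x o, tf F (h x o) = ∑ S, mon F S x * c S o)
    {u : ι → κ} (hu : Injective u) (K : Finset κ) (hK : ∀ i, u i ∈ K) {w : ℝ} (h0 : 0 < w)
    (h1 : w ≤ 1) (hs : 1 < 2 ^ Fintype.card σ * (w ^ 2 ^ (d + 1)) ^ K.card ^ (d + 1))
    (hz : ∀ J ⊆ K, J.card = d + 1 → 4 * w ≤ pr fun v => top (F := F) id c J v = 0) :
    ∃ γ : (ι → Bool) → κ × σ → Bool, IsProj γ ∧ Injective γ ∧ BDeg F d fun y => h (γ y) := by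
  classical
  obtain ⟨α, β, h2, h3⟩ := greedy (F := F) (fun (a : σ → Bool) s => tf F (a s))
    (K.powersetCard (d + 1)) (d + 1) h0 h1 (by
      refine hs.trans_le ?_
      rw [Fintype.card_fun, Fintype.card_bool, card_powersetCard]
      push_cast
      gcongr ?_ * ?_
      exact pow_le_pow_of_le_one (by positivity) (pow_le_one₀ h0.le h1) (Nat.choose_le_pow _ _))
    (top (F := F) id c) (fun J hJ => ml_top fun S hS => (mem_powersetCard.1 hJ).2 ▸ hc S hS)
    (fun J hJ => (mem_powersetCard.1 hJ).2)
    fun J hJ => hz J (mem_powersetCard.1 hJ).1 (mem_powersetCard.1 hJ).2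
  let g : (κ → Bool) → κ × σ → Bool := fun y q => if y q.1 then β q.1 q.2 else α q.1 q.2
  have hg : IsProj g := by
    intro q
    cases e1 : α q.1 q.2 <;> cases e2 : β q.1 q.2
    · exact Or.inl ⟨false, fun y => by simp [g, e1, e2]⟩
    · exact Or.inr ⟨q.1, false, fun y => by simp [g, e1, e2]⟩
    · exact Or.inr ⟨q.1, true, fun y => by simp [g, e1, e2]⟩
    · exact Or.inl ⟨true, fun y => by simp [g, e1, e2]⟩
  have hg' : Injective g := by
    intro x y hxy
    ext j
    obtain ⟨s, hs⟩ := Function.ne_iff.1 (h2 j)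
    have := congrFun hxy (j, s)
    cases e1 : x j <;> cases e2 : y j <;> simp_all [g]
  refine ⟨_, hg.comp (isProj_extend u), hg'.comp (inj_extend hu), fun o => ?_⟩
  let δ : κ → σ → F := fun j => (fun s => tf F (β j s)) - fun s => tf F (α j s)
  let r : Finset (κ × σ) → (κ → Bool) → F := fun S y =>
    if (S.image Prod.fst).card = d + 1 then mon F (S.image Prod.fst) y * mv S δ else 0
  have h4 : (fun y => ∑ S, (mon F S (g y) - r S y) * c S o) ∈ Deg F κ d := by
    refine Deg.sum' fun S _ => ?_
    by_cases e : c S = 0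
    · simpa [e] using Deg.const d (0 : F)
    · refine Deg.mul (b := 0) ?_ (Deg.const _ _)
      convert mv_expand (hc S e) (fun j s => tf F (α j s)) δ using 3 with y
      exact prod_congr rfl fun q _ => by cases e1 : y q.1 <;> simp [g, δ, e1]
  convert Deg.proj (isProj_extend u) h4 using 2 with y
  set y' := extend u y fun _ => false
  have h5 : ∑ S, r S y' * c S o =
      ∑ J ∈ univ.powersetCard (d + 1), mon F J y' * top (F := F) id c J δ o := by
    simp only [top, Finset.sum_apply, mul_sum]
    rw [sum_comm]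
    refine sum_congr rfl fun S _ => ?_
    simp only [id, ite_apply, Pi.zero_apply, mul_ite, mul_zero, sum_ite_eq, mem_powersetCard,
      subset_univ, true_and, r, ite_mul, zero_mul, Pi.smul_apply, smul_eq_mul, mul_assoc]
  simp only [sub_mul, sum_sub_distrib, ← hh', h5]
  rw [sum_eq_zero, sub_zero]
  intro J hJ
  by_cases e : J ⊆ K
  · rw [h3 J (mem_powersetCard.2 ⟨e, (mem_powersetCard.1 hJ).2⟩), Pi.zero_apply, mul_zero]
  · obtain ⟨j, h6, h7⟩ := not_subset.1 e
    rw [mon, prod_eq_zero h6, zero_mul]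
    rw [show y' j = false from extend_apply' _ _ _ fun ⟨i, hi⟩ => h7 (hi ▸ hK i), tf_false]

/-- The Ramsey theorem for maps of bounded degree. -/
theorem ramsey (F : Type) [Field F] [Fintype F] (d : ℕ) : ∃ N : ℕ → ℕ, Pb N ∧
    ∀ (k : ℕ) (ι ω : Type) [Fintype ι] [Fintype ω] (h : (ι → Bool) → ω → Bool),
      N k ≤ Fintype.card ι → BDeg F d h → ∃ γ : (Fin k → Bool) → ι → Bool, IsProj γ ∧
        Injective γ ∧ ((∀ y y', h (γ y) = h (γ y')) ∨ AInv F fun y => h (γ y)) := by
  classical
  induction d with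
  | zero =>
    refine ⟨fun k => k, Pb.id, fun k ι ω _ _ h hk hh => ?_⟩
    obtain ⟨u⟩ := Function.Embedding.nonempty_of_card_le (α := Fin k) (β := ι) (by simpa using hk)
    refine ⟨_, isProj_extend u, inj_extend u.injective, Or.inl fun y y' => ?_⟩
    ext o
    exact tf_inj (F := F) (Deg.zero_const (hh o) _ _)
  | succ d ih =>
    obtain ⟨N, hN, ih⟩ := ih
    let c0 := Fintype.card F
    have hc0 : Fintype.card F ≤ 2 ^ c0 := Nat.lt_two_pow_self.le
    let M : ℕ → ℕ := fun k => N k + k * (d + 1)
    let E : ℕ → ℕ := fun k => c0 * (k + 1) ^ (d + 1) * (2 * c0) ^ (d + 1) + 2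
    let s : ℕ → ℕ := fun k => E k * 2 ^ (d + 1) * M k ^ (d + 1) + 1
    refine ⟨fun k => M k * s k, by fun_prop, fun k ι ω _ _ h hk hh => ?_⟩
    obtain ⟨u⟩ := Function.Embedding.nonempty_of_card_le (α := Fin (M k) × Fin (s k)) (β := ι)
      (by simpa using hk)
    have hh1 := hh.proj (isProj_extend u)
    obtain ⟨c, hc, hh'⟩ := hh1.coeff
    rcases disj_or (fun J : Finset (Fin (M k)) => J.card = d + 1 ∧
      pr (fun v => top (F := F) id c J v = 0) < 4 * (1 / 2) ^ E k) (fun J hJ => hJ.1.le) k with
      ⟨J, h1, h2⟩ | ⟨R, h1, h2⟩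
    · obtain ⟨γ, h3, h4⟩ := caseA hc0 hh1 hc hh' (fun t => (h1 t).1) h2
        (z := (1 / 2) ^ (c0 * (k + 1) ^ (d + 1))) (by positivity) (by
          rw [pow_mul, ← mul_pow]
          refine pow_le_one₀ (by positivity) ?_
          rw [one_div, inv_pow, mul_inv_le_iff₀ (by positivity), one_mul]
          exact_mod_cast hc0) fun t => (h1 t).2.trans_eq (by
            simp only [E]
            rw [pow_add, ← pow_mul]
            ring)
      exact ⟨_, (isProj_extend u).comp h3, Injective.of_comp (f := h) h4.inj, Or.inr h4⟩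
    · obtain ⟨v⟩ := Function.Embedding.nonempty_of_card_le (α := Fin (N k)) (β := ↥Rᶜ) (by
        rw [Fintype.card_coe, card_compl, Fintype.card_fin, Fintype.card_fin]
        simp only [M]
        omega)
      obtain ⟨γ, h3, h4, h5⟩ := caseB hc hh' (u := fun i => (v i).1)
        (Subtype.val_injective.comp v.injective) Rᶜ (fun i => (v i).2) (w := (1 / 2) ^ E k)
        (by positivity) (pow_le_one₀ (by norm_num) (by norm_num)) (by
          have h6 : E k * 2 ^ (d + 1) * Rᶜ.card ^ (d + 1) < s k := by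
            have : Rᶜ.card ≤ M k := (card_le_univ _).trans (by simp)
            exact Nat.lt_succ_of_le (by gcongr)
          rw [← pow_mul, ← pow_mul, ← mul_assoc, Fintype.card_fin, one_div, inv_pow,
            lt_mul_inv_iff₀ (by positivity), one_mul]
          exact pow_lt_pow_right₀ (by norm_num) h6) fun J hJ hJ' => by
          by_contra hlt
          exact h2 J ⟨hJ', not_le.1 hlt⟩ (disjoint_left.2 fun j hj hr => mem_compl.1 (hJ hj) hr)
      obtain ⟨η, h6, h7, h8⟩ := ih k (Fin (N k)) ω _ (by simp) h5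
      exact ⟨_, (isProj_extend u).comp (h3.comp h6),
        (inj_extend u.injective).comp (h4.comp h7), h8⟩

end Pool.Agent.MP_8a92de_lc.H86

end
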