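import Pool.Agent.MP_8a92de_lc.H86.Defs
import Pool.Agent.MP_8a92de_lc.Mg.H86_Ramsey

-- part MP_8a92de_lc.H86.Form
section

/-! Formulas and degrees: maps on words of bounded degree, and families of predicates decided by
constant-depth formulas. -/

namespace Pool.Agent.MP_8a92de_lc.H86

open Finset Function H92

section Field

variable {F : Type} [Field F]

/-- A function on words that has degree at most `D` on the words of each length. -/
def GD (F : Type) [Field F] (D : ℕ) (φ : List Bool → F) : Prop :=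
  ∀ n, (fun y : Fin n → Bool => φ (List.ofFn y)) ∈ Deg F (Fin n) D

/-- A map on words whose output length depends on the input length only and whose output bits
have degree at most `D`. -/
def GB (F : Type) [Field F] (D : ℕ) (c : List Bool → List Bool) : Prop :=
  (∀ x y, x.length = y.length → (c x).length = (c y).length) ∧
    ∀ j, GD F D fun x => tf F ((c x).getD j false)

/-- On words of length `n` the input bits are affine functions of the output bits. -/
def LInv (F : Type) [Field F] (h : List Bool → List Bool) (n : ℕ) : Prop :=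
  ∀ t, ∃ φ, GD F 1 φ ∧ ∀ x, x.length = n → φ (h x) = tf F (x.getD t false)

/-- The first `n` bits of a word. -/
def bits (n : ℕ) (x : List Bool) : Fin n → Bool := fun i => x.getD i false

theorem ofFn_bits {n : ℕ} {x : List Bool} (h : x.length = n) : List.ofFn (bits n x) = x := by
  subst h
  refine List.ext_getElem (by simp) fun i h1 h2 => ?_
  simp [bits, h2]

theorem getD_ofFn {n : ℕ} (y : Fin n → Bool) (j : ℕ) :
    (List.ofFn y).getD j false = if h : j < n then y ⟨j, h⟩ else false := by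
  by_cases h : j < n <;> simp [h]

@[simp] theorem bits_ofFn {n : ℕ} (y : Fin n → Bool) : bits n (List.ofFn y) = y := by
  ext i
  simp [bits]

theorem eq_of_getD {x y : List Bool} {n : ℕ} (h : x.length = y.length) (hn : x.length ≤ n)
    (h' : ∀ j < n, x.getD j false = y.getD j false) : x = y := by
  refine List.ext_getElem h fun i h1 h2 => ?_
  simpa [h1, h2] using h' i (by omega)

theorem isProj_getD {ι : Type} (n : ℕ) (u : ι → ℕ) :
    IsProj fun (y : Fin n → Bool) i => (List.ofFn y).getD (u i) false := by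
  intro i
  by_cases h : u i < n
  · exact Or.inr ⟨⟨u i, h⟩, false, fun y => by simp [h]⟩
  · exact Or.inl ⟨false, fun y => by simp [h]⟩

theorem GD.bits {n D : ℕ} {g : (Fin n → Bool) → F} (hg : g ∈ Deg F (Fin n) D) :
    GD F D fun x => g (bits n x) := fun m => Deg.proj (isProj_getD m _) hg

theorem GD.bit (j : ℕ) : GD F 1 fun x => tf F (x.getD j false) :=
  fun n => (isProj_getD n id).deg j

theorem GD.comp {D a : ℕ} {φ : List Bool → F} {c : List Bool → List Bool} (hφ : GD F D φ)
    (hc : GB F a c) : GD F (D * a) fun x => φ (c x) := by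
  intro n
  have := Deg.comp (γ := fun y : Fin n → Bool => H86.bits (c (List.replicate n false)).length
    (c (List.ofFn y))) (fun i => hc.2 i n) (hφ _)
  convert this using 3 with y
  exact (ofFn_bits (hc.1 _ _ (by simp))).symm

theorem GB.comp {D a : ℕ} {h c : List Bool → List Bool} (hh : GB F D h) (hc : GB F a c) :
    GB F (D * a) fun x => h (c x) :=
  ⟨fun _ _ e => hh.1 _ _ (hc.1 _ _ e), fun j => (hh.2 j).comp hc⟩

theorem GB.id : GB F 1 fun x => x := ⟨fun _ _ e => e, GD.bit⟩

theorem LInv.id (n : ℕ) : LInv F (fun x => x) n := fun t => ⟨_, GD.bit t, fun _ _ => rfl⟩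

theorem LInv.comp {h h' : List Bool → List Bool} {n m : ℕ} (h1 : LInv F h n)
    (hl : ∀ x, x.length = n → (h x).length = m) (h2 : LInv F h' m) :
    LInv F (fun x => h' (h x)) n := by
  intro t
  obtain ⟨φ, h3, h4⟩ := h1 t
  choose ψ h5 h6 using h2
  have key : ∃ G, GD F 1 G ∧ ∀ y : Fin m → Bool, G (h' (List.ofFn y)) = φ (List.ofFn y) := by
    refine Deg.ind (P := fun g => ∃ G, GD F 1 G ∧ ∀ y : Fin m → Bool, G (h' (List.ofFn y)) = g y)
      (fun S hS => ⟨fun z => ∏ i ∈ S, ψ i z, fun k => ?_, fun y => ?_⟩)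
      ⟨fun _ => 0, fun _ => Deg.const _ _, fun _ => rfl⟩ ?_ ?_ (h3 m)
    · exact Deg.mono_le (by omega) (Deg.prod fun i _ => h5 i k)
    · exact prod_congr rfl fun i _ => by rw [h6 _ _ (by simp)]; simp
    · rintro f g ⟨G, a1, a2⟩ ⟨G', a3, a4⟩
      exact ⟨fun z => G z + G' z, fun k => Deg.add' (a1 k) (a3 k), fun y => by simp [a2, a4]⟩
    · rintro c f ⟨G, a1, a2⟩
      exact ⟨fun z => c * G z, fun k => Submodule.smul_mem _ c (a1 k), fun y => by simp [a2]⟩
  obtain ⟨G, h7, h8⟩ := key
  refine ⟨G, h7, fun x hx => ?_⟩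
  beta_reduce
  rw [← h4 x hx, ← ofFn_bits (hl x hx), h8]

end Field

variable {p : ℕ} [Fact p.Prime]

theorem LInv.cand {h : List Bool → List Bool} {n : ℕ} (h1 : LInv (ZMod p) h n) :
    ∃ c : List Bool → List Bool, (∀ x, (c x).length = n) ∧ GB (ZMod p) (p - 1) c ∧
      ∀ x, x.length = n → c (h x) = x := by
  choose φ h2 h3 using h1
  refine ⟨fun z => List.ofFn fun t : Fin n => decide (φ t z - 1 = 0), by simp,
    ⟨by simp, fun j m => ?_⟩, fun x hx => ?_⟩
  · simp only [getD_ofFn]
    by_cases e : j < n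
    · simpa only [dif_pos e, mul_one] using Deg.test (Deg.sub' (h2 j m) (Deg.const 1 1))
    · simpa only [dif_neg e] using Deg.const _ _
  · rw [← ofFn_bits hx, ofFn_bits hx]
    simp only [h3 _ x hx, sub_eq_zero, tf_eq_one, Bool.decide_eq_true]
    exact ofFn_bits hx

theorem deg_fm {ι : Type} {d : ℕ} {a : (ι → Bool) → ℕ → Bool}
    (ha : ∀ i, (fun y => tf (ZMod p) (a y i)) ∈ Deg (ZMod p) ι 1) (φ : Fm) : fanin φ ≤ d →
    (fun y => tf (ZMod p) (φ.eval p (a y))) ∈ Deg (ZMod p) ι ((d + p) ^ φ.depth) := by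
  have hp := (Fact.out : p.Prime).pos
  have hs : ∀ {k : ℕ} (c : Fin k → Fm) (i : Fin k),
      (d + p) ^ (c i).depth ≤ (d + p) ^ univ.sup fun i => (c i).depth := fun c i =>
    Nat.pow_le_pow_right (by omega) (le_sup (f := fun i => (c i).depth) (mem_univ i))
  have hf : ∀ {k : ℕ} (c : Fin k → Fm) (i : Fin k),
      fanin (c i) ≤ univ.sup fun i => fanin (c i) := fun c i =>
    le_sup (f := fun i => fanin (c i)) (mem_univ i)
  induction φ with
  | var i => exact fun _ => ha i
  | neg c ih =>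
    intro h
    simp only [Fm.eval, tf_not, Fm.depth]
    exact Deg.mono_le (Nat.pow_le_pow_right (by omega) (by omega))
      (Deg.sub' (Deg.const _ _) (ih h))
  | conj k c ih =>
    intro h
    simp only [fanin, max_le_iff] at h
    have h1 := Deg.prod (s := univ) fun i _ => Deg.mono_le (hs c i) (ih i ((hf c i).trans h.2))
    rw [card_univ, Fintype.card_fin] at h1
    have h2 := Deg.mono_le (Nat.mul_le_mul_right _ (by omega : k ≤ d + p)) h1
    rw [Fm.depth, pow_succ']
    convert h2 using 2 with y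
    by_cases e : ∀ i, (c i).eval p (a y) = true
    · simp [Fm.eval, e]
    · rw [Fm.eval, decide_eq_false e]
      push Not at e
      obtain ⟨i, hi⟩ := e
      rw [prod_eq_zero (mem_univ i) (by simp [hi]), tf_false]
  | disj k c ih =>
    intro h
    simp only [fanin, max_le_iff] at h
    have h1 := Deg.sub' (Deg.const _ 1) (Deg.prod (s := univ) fun i _ =>
      Deg.sub' (Deg.const _ 1) (Deg.mono_le (hs c i) (ih i ((hf c i).trans h.2))))
    rw [card_univ, Fintype.card_fin] at h1
    have h2 := Deg.mono_le (Nat.mul_le_mul_right _ (by omega : k ≤ d + p)) h1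
    rw [Fm.depth, pow_succ']
    convert h2 using 2 with y
    by_cases e : ∃ i, (c i).eval p (a y) = true
    · rw [Fm.eval, decide_eq_true e]
      obtain ⟨i, hi⟩ := e
      rw [prod_eq_zero (mem_univ i) (by simp [hi]), tf_true, sub_zero]
    · rw [Fm.eval, decide_eq_false e]
      push Not at e
      simp [e]
  | modp k c ih =>
    intro h
    have h1 := Deg.test (Deg.sum' (s := univ) fun i _ =>
      Deg.mono_le (hs c i) (ih i ((hf c i).trans h)))
    have h2 := Deg.mono_le (Nat.mul_le_mul_right _ (by omega : p - 1 ≤ d + p)) h1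
    rw [Fm.depth, pow_succ']
    convert h2 using 3 with y
    rw [Fm.eval, decide_eq_decide, ← ZMod.natCast_eq_zero_iff]
    push_cast
    rfl

omit [Fact p.Prime]

/-- A predicate on words of length `n` decided by a formula of depth `d` and size `s`. -/
def AC (p n d s : ℕ) (P : List Bool → Prop) : Prop :=
  ∃ φ : Fm, φ.depth ≤ d ∧ φ.size ≤ s ∧
    ∀ x : List Bool, x.length = n → (φ.eval p (fun i => x.getD i false) = true ↔ P x)

/-- A family of predicates decided by formulas of constant depth and polynomial size. -/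
def ACF (p : ℕ) {α : Type} (P : α → List Bool → Prop) : Prop :=
  ∃ d s, Pb s ∧ ∀ a n, AC p n d (s n) (P a)

variable {α β : Type}

theorem AC.mono {n d s d' s' : ℕ} {P Q : List Bool → Prop} (h : AC p n d s P) (h1 : d ≤ d')
    (h2 : s ≤ s') (h3 : ∀ x, x.length = n → (P x ↔ Q x)) : AC p n d' s' Q := by
  obtain ⟨φ, a1, a2, a3⟩ := h
  exact ⟨φ, a1.trans h1, a2.trans h2, fun x hx => (a3 x hx).trans (h3 x hx)⟩

theorem AC.all {n d s k : ℕ} {P : ℕ → List Bool → Prop} (h : ∀ j, AC p n d s (P j)) :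
    AC p n (d + 1) (k * s + 1) fun x => ∀ j < k, P j x := by
  choose φ h1 h2 h3 using h
  refine ⟨.conj k fun j => φ j, Nat.succ_le_succ (Finset.sup_le fun j _ => h1 j),
    Nat.succ_le_succ ?_, fun x hx => ?_⟩
  · simpa using sum_le_card_nsmul univ (fun j : Fin k => (φ j).size) s fun j _ => h2 j
  · simp only [Fm.eval, decide_eq_true_eq, h3 _ x hx]
    exact ⟨fun h j hj => h ⟨j, hj⟩, fun h j => h j j.2⟩

theorem ACF.of_iff {P Q : α → List Bool → Prop} (h : ACF p P) (e : ∀ a x, Q a x ↔ P a x) :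
    ACF p Q := by
  rwa [show Q = P from funext₂ fun a x => propext (e a x)]

/-- The index may depend on the length of the input. -/
theorem ACF.idx {P : α → List Bool → Prop} (h : ACF p P) (σ : β → ℕ → α) :
    ACF p fun b x => P (σ b x.length) x := by
  obtain ⟨d, s, h1, h2⟩ := h
  exact ⟨d, s, h1, fun b n => (h2 (σ b n) n).mono le_rfl le_rfl fun x hx => by simp only [hx]⟩

theorem ACF.not {P : α → List Bool → Prop} (h : ACF p P) : ACF p fun a x => ¬P a x := by
  obtain ⟨d, s, h1, h2⟩ := h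
  refine ⟨d + 1, fun n => s n + 1, by fun_prop, fun a n => ?_⟩
  obtain ⟨φ, a1, a2, a3⟩ := h2 a n
  exact ⟨.neg φ, Nat.succ_le_succ a1, Nat.succ_le_succ a2, fun x hx => by
    simp [Fm.eval, ← a3 x hx]⟩

theorem ACF.all {P : α × ℕ → List Bool → Prop} (h : ACF p P) {b : ℕ → ℕ} (hb : Pb b) :
    ACF p fun a x => ∀ j < b x.length, P (a, j) x := by
  obtain ⟨d, s, h1, h2⟩ := h
  exact ⟨d + 1, fun n => b n * s n + 1, by fun_prop, fun a n =>
    (AC.all fun j => h2 (a, j) n).mono le_rfl le_rfl fun x hx => by simp only [hx]⟩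

theorem ACF.ex {P : α × ℕ → List Bool → Prop} (h : ACF p P) {b : ℕ → ℕ} (hb : Pb b) :
    ACF p fun a x => ∃ j < b x.length, P (a, j) x :=
  (h.not.all hb).not.of_iff fun a x => by simp

theorem ACF.and {P Q : α → List Bool → Prop} (h : ACF p P) (h' : ACF p Q) :
    ACF p fun a x => P a x ∧ Q a x := by
  obtain ⟨d, s, h1, h2⟩ := h
  obtain ⟨d', s', h3, h4⟩ := h'
  refine ⟨d + d' + 1, fun n => 2 * (s n + s' n) + 1, by fun_prop, fun a n => ?_⟩
  refine (AC.all (k := 2) (P := fun j => if j = 0 then P a else Q a) fun j => ?_).mono le_rfl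
    le_rfl fun x _ => ⟨fun h => ⟨h 0 (by omega), h 1 (by omega)⟩, fun h j _ => ?_⟩
  · by_cases e : j = 0
    · exact (h2 a n).mono (by omega) (by omega) (by simp [e])
    · exact (h4 a n).mono (by omega) (by omega) (by simp [e])
  · by_cases e : j = 0 <;> simp [e, h.1, h.2]

theorem ACF.or {P Q : α → List Bool → Prop} (h : ACF p P) (h' : ACF p Q) :
    ACF p fun a x => P a x ∨ Q a x :=
  (h.not.and h'.not).not.of_iff fun a x => by tauto

theorem ACF.const (c : α → ℕ → Prop) : ACF p fun a x => c a x.length := by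
  refine ⟨1, fun _ => 1, by fun_prop, fun a n => ?_⟩
  by_cases h : c a n
  · exact ⟨.conj 0 Fin.elim0, by simp [Fm.depth], by simp [Fm.size], fun x hx => by
      simp [Fm.eval, hx, h]⟩
  · exact ⟨.disj 0 Fin.elim0, by simp [Fm.depth], by simp [Fm.size], fun x hx => by
      simp [Fm.eval, hx, h]⟩

theorem ACF.deg [Fact p.Prime] {D : ℕ} {φ : α → List Bool → ZMod p}
    (h : ∀ a, GD (ZMod p) D (φ a)) : ACF p fun a x => φ a x = 0 := by
  classical
  refine ⟨2, fun n => (n + 1) ^ D * p * (D + 1) + 1, by fun_prop, fun a n => ?_⟩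
  obtain ⟨c, h1, h2⟩ := Deg.coeff (h a n)
  let τ := {S : Finset (Fin n) // S.card ≤ D} × Fin p
  let g : τ → Fm := fun t => if t.2.1 < (c t.1.1).val then
    .conj _ fun i => .var (t.1.1.equivFin.symm i).1.1 else .disj 0 Fin.elim0
  let e := (Fintype.equivFin τ).symm
  refine ⟨.modp _ fun i => g (e i), Nat.succ_le_succ (Finset.sup_le fun i _ => ?_),
    Nat.succ_le_succ ?_, fun x hx => ?_⟩
  · simp only [g]
    split_ifs <;> simp [Fm.depth]
  · refine (sum_le_card_nsmul univ _ (D + 1) fun i _ => ?_).trans ?_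
    · simp only [g]
      split_ifs
      · simpa [Fm.size] using (e i).1.2
      · simp [Fm.size]
    · have := card_small (Fin n) D
      rw [Fintype.card_fin, ← Fintype.card_subtype] at this
      simp only [card_univ, Fintype.card_fin, τ, Fintype.card_prod, smul_eq_mul]
      gcongr
  · have h6 := h2 (bits n x)
    rw [ofFn_bits hx] at h6
    beta_reduce
    rw [← sum_filter_of_ne (p := fun S => S.card ≤ D) fun S _ hS => h1 S (right_ne_zero_of_mul hS),
      sum_subtype (p := fun S => S.card ≤ D) _ (by simp)] at h6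
    rw [Fm.eval, decide_eq_true_eq, e.sum_comp fun t => if (g t).eval p _ = true then 1 else 0,
      ← ZMod.natCast_eq_zero_iff, h6, Fintype.sum_prod_type, Nat.cast_sum]
    refine Eq.congr_left (sum_congr rfl fun S _ => ?_)
    have h3 : (∑ r : Fin p, if r.1 < (c S.1).val then 1 else 0) = (c S.1).val := by
      rw [Fin.sum_univ_eq_sum_range fun r => if r < (c S.1).val then 1 else 0, ← card_filter]
      refine (congrArg card ?_).trans (card_range _)
      ext r
      have := ZMod.val_lt (c S.1)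
      simp only [mem_filter, mem_range]
      omega
    by_cases h4 : ∀ i ∈ S.1, bits n x i = true
    · rw [mon, prod_eq_one fun i hi => by rw [h4 i hi, tf_true], one_mul,
        ← ZMod.natCast_zmod_val (c S.1), ← h3]
      refine congrArg _ (sum_congr rfl fun r _ => ?_)
      by_cases h5 : r.1 < (c S.1).val
      · simp only [g, if_pos h5]
        exact if_pos (decide_eq_true fun i => h4 _ (S.1.equivFin.symm i).2)
      · simp [g, h5, Fm.eval]
    · push Not at h4
      obtain ⟨i, hi, h4⟩ := h4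
      rw [mon, prod_eq_zero hi (by simp [h4]), zero_mul, sum_eq_zero, Nat.cast_zero]
      intro r _
      by_cases h5 : r.1 < (c S.1).val
      · simp only [g, if_pos h5]
        refine if_neg fun hc => h4 ?_
        simpa [Fm.eval, bits] using of_decide_eq_true hc (S.1.equivFin ⟨i, hi⟩)
      · simp [g, h5, Fm.eval]

theorem ACF.bit [Fact p.Prime] {D : ℕ} {c : α → List Bool → List Bool}
    (h : ∀ a, GB (ZMod p) D (c a)) (j : α → ℕ) : ACF p fun a x => (c a x).getD (j a) false = true :=
  (ACF.deg (φ := fun a x => tf (ZMod p) ((c a x).getD (j a) false) - 1)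
    fun a n => Deg.sub' ((h a).2 _ n) (Deg.const _ _)).of_iff fun a x => by
      rw [sub_eq_zero, tf_eq_one]

theorem ACF.agree [Fact p.Prime] {D D' : ℕ} {c c' : α → List Bool → List Bool}
    (h : ∀ a, GB (ZMod p) D (c a)) (h' : ∀ a, GB (ZMod p) D' (c' a)) :
    ACF p fun a x => ∀ j < x.length, (c a x).getD j false = (c' a x).getD j false :=
  ((ACF.deg (D := D + D') (φ := fun (a : α × ℕ) x => tf (ZMod p) ((c a.1 x).getD a.2 false) -
    tf (ZMod p) ((c' a.1 x).getD a.2 false)) fun a n =>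
      Deg.sub' (Deg.mono_le (by omega) ((h a.1).2 _ n))
        (Deg.mono_le (by omega) ((h' a.1).2 _ n))).all Pb.id).of_iff fun a x =>
    forall₂_congr fun j _ => ⟨fun e => by simp only [e, sub_self], fun e => tf_inj (sub_eq_zero.1 e)⟩

theorem isACmod_of {f : List Bool → List Bool} {b : ℕ → ℕ} (hb : Pb b)
    (h0 : ∀ x, (f x).length ≤ b x.length) (h1 : ACF p fun j x => j < (f x).length)
    (h2 : ACF p fun j x => (f x).getD j false = true) : IsACmod p f := by
  obtain ⟨d, s, a1, a2⟩ := h1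
  obtain ⟨d', s', a3, a4⟩ := h2
  obtain ⟨q, hq⟩ := ((hb.add a1).add a3).poly
  refine ⟨d + d', q, fun n => ?_⟩
  choose len b1 b2 b3 using fun j => a2 j n
  choose bit b4 b5 b6 using fun j => a4 j n
  have := hq n
  refine ⟨len, bit, fun j => ?_, fun x hx => ⟨by have := h0 x; rw [hx] at this; omega, fun j => ?_⟩⟩
  · have := b1 j
    have := b2 j
    have := b4 j
    have := b5 j
    omega
  · exact ⟨Bool.eq_iff_iff.2 (by simpa using b3 j x hx), Bool.eq_iff_iff.2 (b6 j x hx)⟩

end Pool.Agent.MP_8a92de_lc.H86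

end

-- part MP_8a92de_lc.H86.CB
section

/-! The Cantor-Bernstein construction for maps of bounded degree with affine left inverses. -/

namespace Pool.Agent.MP_8a92de_lc.H86

open Function H92

/-- One-one, length-increasing maps of bounded degree with affine left inverses. -/
def Nice (p : ℕ) [Fact p.Prime] (h : List Bool → List Bool) : Prop :=
  ∃ (ℓ : ℕ → ℕ) (D : ℕ), Pb ℓ ∧ (∀ n, n < ℓ n) ∧ (∀ x, (h x).length = ℓ x.length) ∧
    Injective h ∧ GB (ZMod p) D h ∧ ∀ n, LInv (ZMod p) h n

/-- Words whose chain of ancestors stops on their own side. -/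
def Own (h h' : List Bool → List Bool) (x : List Bool) : Prop :=
  ∃ k x0, (¬∃ y, h' y = x0) ∧ (fun z => h' (h z))^[k] x0 = x

open Classical in
/-- The Cantor-Bernstein map. -/
noncomputable def cb (h h' : List Bool → List Bool) (x : List Bool) : List Bool :=
  if Own h h' x then h x else invFun h' x

variable {h h' : List Bool → List Bool}

theorem own_not (hi : Injective h) (hi' : Injective h') {x : List Bool} (hx : Own h h' x) :
    ¬Own h' h (h x) := by
  obtain ⟨k, x0, h1, rfl⟩ := hx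
  rintro ⟨j, y0, h2, h3⟩
  induction k generalizing j with
  | zero =>
    cases j with
    | zero => exact h2 ⟨_, h3.symm⟩
    | succ j =>
      rw [iterate_succ_apply'] at h3
      exact h1 ⟨_, hi h3⟩
  | succ k ih =>
    cases j with
    | zero => exact h2 ⟨_, h3.symm⟩
    | succ j =>
      rw [iterate_succ_apply', iterate_succ_apply'] at h3
      exact ih j (hi' (hi h3))

theorem not_own (hl : ∀ x, x.length < (h x).length) (hl' : ∀ x, x.length < (h' x).length)
    (x : List Bool) : ¬Own h h' x → ∃ y, Own h' h y ∧ h' y = x := by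
  induction hn : x.length using Nat.strong_induction_on generalizing x with
  | _ n ih =>
    intro hx
    obtain ⟨y, rfl⟩ : ∃ y, h' y = x := by
      by_contra hc
      exact hx ⟨0, x, hc, rfl⟩
    refine ⟨y, ?_, rfl⟩
    by_cases e : ∃ z, h z = y
    · obtain ⟨z, rfl⟩ := e
      obtain ⟨_, ⟨k, y0, h1, rfl⟩, rfl⟩ := ih z.length (hn ▸ (hl z).trans (hl' _)) z rfl
        fun ⟨k, x0, h1, h2⟩ => hx ⟨k + 1, x0, h1, by rw [iterate_succ_apply', h2]⟩
      exact ⟨k + 1, y0, h1, by rw [iterate_succ_apply']⟩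
    · exact ⟨0, y, e, rfl⟩

theorem cb_cb (hi : Injective h) (hi' : Injective h') (hl : ∀ x, x.length < (h x).length)
    (hl' : ∀ x, x.length < (h' x).length) (x : List Bool) : cb h' h (cb h h' x) = x := by
  by_cases hx : Own h h' x
  · rw [cb, cb, if_pos hx, if_neg (own_not hi hi' hx), leftInverse_invFun hi]
  · obtain ⟨y, h1, rfl⟩ := not_own hl hl' x hx
    rw [cb, cb, if_neg hx, leftInverse_invFun hi', if_pos h1]

variable {p : ℕ} [Fact p.Prime]

theorem Nice.lt (H : Nice p h) (x : List Bool) : x.length < (h x).length := by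
  obtain ⟨ℓ, D, -, h1, h2, -⟩ := H
  rw [h2]
  exact h1 _

theorem Nice.inj (H : Nice p h) : Injective h := by
  obtain ⟨ℓ, D, -, -, -, h1, -⟩ := H
  exact h1

theorem Nice.comp (H : Nice p h) (H' : Nice p h') : Nice p fun z => h' (h z) := by
  obtain ⟨ℓ, D, a1, a2, a3, a4, a5, a6⟩ := H
  obtain ⟨ℓ', D', b1, b2, b3, b4, b5, b6⟩ := H'
  exact ⟨fun n => ℓ' (ℓ n), D' * D, b1.comp a1, fun n => (a2 n).trans (b2 _),
    fun x => by rw [b3, a3], b4.comp a4, b5.comp a5,
    fun n => (a6 n).comp (fun x hx => by rw [a3, hx]) (b6 _)⟩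

/-- Membership in the range, and the preimage, are computed by constant-depth formulas. -/
theorem Nice.range (H : Nice p h) : ∃ (c : ℕ → List Bool → List Bool) (ℓ : ℕ → ℕ) (D : ℕ),
    GB (ZMod p) D h ∧ (∀ m, GB (ZMod p) (p - 1) (c m)) ∧ (∀ m x, (c m x).length = m) ∧
    ∀ (n : ℕ) (u y : List Bool), u.length ≤ n → (h y = u ↔ ∃ m < n, (ℓ m = u.length ∧
      ∀ j < n, (h (c m u)).getD j false = u.getD j false) ∧ c m u = y) := by
  obtain ⟨ℓ, D, -, a2, a3, -, a5, a6⟩ := H
  choose c b1 b2 b3 using fun m => (a6 m).cand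
  refine ⟨c, ℓ, D, a5, b2, b1, fun n u y hu => ⟨?_, ?_⟩⟩
  · rintro rfl
    have := a2 y.length
    rw [a3] at hu
    exact ⟨y.length, by omega, ⟨(a3 y).symm, fun j _ => by rw [b3 _ _ rfl]⟩, b3 _ _ rfl⟩
  · rintro ⟨m, -, ⟨h1, h2⟩, rfl⟩
    have h3 : (h (c m u)).length = u.length := by rw [a3, b1, h1]
    exact eq_of_getD h3 (h3 ▸ hu) h2

theorem acf_own (H : Nice p h) (H' : Nice p h') : ACF p fun (_ : Unit) x => Own h h' x := by
  obtain ⟨ℓ, D, -, a2, a3, -, a5, a6⟩ := H.comp H'
  obtain ⟨c', ℓ', D', b1, b2, -, b3⟩ := H'.range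
  set g : List Bool → List Bool := fun z => h' (h z) with hg
  have h1 : ∀ k x, (g^[k] x).length = ℓ^[k] x.length := by
    intro k x
    induction k with
    | zero => rfl
    | succ k ih => rw [iterate_succ_apply', iterate_succ_apply', a3, ih]
  have h2 : ∀ k n, LInv (ZMod p) g^[k] n := by
    intro k
    induction k with
    | zero => exact LInv.id
    | succ k ih => exact fun n => (a6 n).comp (fun x hx => by rw [a3, hx]) (ih _)
  have h3 : ∀ k n, n + k ≤ ℓ^[k] n := by
    intro k n
    induction k with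
    | zero => exact le_rfl
    | succ k ih =>
      rw [iterate_succ_apply']
      have := a2 (ℓ^[k] n)
      omega
  choose c d1 d2 d3 using fun k n => (h2 k n).cand
  let C : ℕ → ℕ → ℕ → List Bool → List Bool := fun k n i => c (k - i) (ℓ^[i] n)
  have h4 := ACF.agree (p := p) (c := fun (a : ((Unit × ℕ) × ℕ) × ℕ) x => g (C a.1.1.2 a.1.2 a.2 x))
    (c' := fun a => C a.1.1.2 a.1.2 (a.2 + 1)) (fun a => a5.comp (d2 _ _)) fun a => d2 _ _
  have h5 := ((ACF.const (p := p) fun (a : ((Unit × ℕ) × ℕ) × ℕ) _ => ¬a.2 < a.1.1.2).or h4).all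
    Pb.id
  have h6 := ACF.agree (p := p)
    (c := fun (a : ((Unit × ℕ) × ℕ) × ℕ) x => h' (c' a.2 (C a.1.1.2 a.1.2 0 x)))
    (c' := fun a => C a.1.1.2 a.1.2 0) (fun a => b1.comp ((b2 _).comp (d2 _ _))) fun a => d2 _ _
  have h7 := (((ACF.const (p := p) fun (a : ((Unit × ℕ) × ℕ) × ℕ) _ => ℓ' a.2 = a.1.2).and h6).ex
    Pb.id).not
  have h8 : Pb fun n => n + 1 := by fun_prop
  refine ((((ACF.const (p := p) fun (a : (Unit × ℕ) × ℕ) m => ℓ^[a.1.2] a.2 = m).and
    (h5.and h7)).ex h8).ex h8).of_iff fun _ x => ⟨?_, ?_⟩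
  · rintro ⟨k, x0, e1, e0⟩
    obtain rfl : g^[k] x0 = x := e0
    have e2 : ∀ i ≤ k, C k x0.length i (g^[k] x0) = g^[i] x0 := by
      intro i hi
      obtain ⟨r, rfl⟩ := Nat.exists_eq_add_of_le' hi
      simp only [C]
      rw [Nat.add_sub_cancel, iterate_add_apply, d3 _ _ _ (h1 _ _)]
    have e3 := h3 k x0.length
    rw [← h1] at e3
    refine ⟨k, by omega, x0.length, by omega, (h1 _ _).symm, fun i _ => ?_, ?_⟩
    · by_cases hi : i < k
      · refine Or.inr fun j _ => ?_
        simp only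
        rw [e2 i hi.le, e2 (i + 1) hi, iterate_succ_apply']
      · exact Or.inl hi
    · rintro ⟨m, hm, e4, e5⟩
      simp only [e2 0 (Nat.zero_le _), iterate_zero, id] at e4 e5
      exact e1 ⟨_, (b3 _ x0 _ (by omega)).2 ⟨m, hm, ⟨e4, e5⟩, rfl⟩⟩
  · rintro ⟨k, hk, n, -, e1, e2, e3⟩
    simp only at e1 e2 e3
    have e4 : ∀ i ≤ k, ℓ^[i] n + (k - i) ≤ x.length := by
      intro i hi
      obtain ⟨r, rfl⟩ := Nat.exists_eq_add_of_le' hi
      rw [← e1, iterate_add_apply, Nat.add_sub_cancel]
      exact h3 _ _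
    have e5 : ∀ i ≤ k, g^[i] (C k n 0 x) = C k n i x := by
      intro i hi
      induction i with
      | zero => rfl
      | succ i ih =>
        have e6 := e4 i (by omega)
        have e7 : (g (C k n i x)).length = (C k n (i + 1) x).length := by
          rw [a3, d1, d1, iterate_succ_apply']
        rw [iterate_succ_apply', ih (by omega)]
        refine eq_of_getD e7 ?_ ((e2 i (by omega)).resolve_left (by omega))
        have := e4 (i + 1) hi
        rw [e7, d1]
        omega
    refine ⟨k, C k n 0 x, fun ⟨y, hy⟩ => e3 ?_, ?_⟩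
    · have e6 : (C k n 0 x).length = n := d1 _ _ _
      obtain ⟨m, f1, ⟨f2, f3⟩, -⟩ := (b3 x.length _ y (by
        have := e4 0 (Nat.zero_le _)
        rw [iterate_zero, id] at this
        omega)).1 hy
      exact ⟨m, f1, f2.trans e6, f3⟩
    · rw [e5 k le_rfl]
      simp only [C, Nat.sub_self]
      exact d3 0 _ x e1.symm

theorem isACmod_cb (H : Nice p h) (H' : Nice p h') : IsACmod p (cb h h') := by
  have h0 := (acf_own H H').idx fun (_ : ℕ) _ => ()
  obtain ⟨c, ℓ', D', b1, b2, b3, b4⟩ := H'.range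
  have hl := H.lt
  obtain ⟨ℓ, D, a1, a2, a3, -, a5, -⟩ := id H
  have h1 := (ACF.const (p := p) fun (a : ℕ × ℕ) n => ℓ' a.2 = n).and
    (ACF.agree (c := fun (a : ℕ × ℕ) x => h' (c a.2 x)) (c' := fun _ x => x)
      (fun a => b1.comp (b2 _)) fun _ => GB.id)
  have h2 : ∀ (Q : List Bool → Prop) x, Q (cb h h' x) ↔ (Own h h' x ∧ Q (h x)) ∨ (¬Own h h' x ∧
      ∃ m < x.length, (ℓ' m = x.length ∧
        ∀ j < x.length, (h' (c m x)).getD j false = x.getD j false) ∧ Q (c m x)) := by
    intro Q x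
    by_cases hx : Own h h' x
    · simp [cb, hx]
    · obtain ⟨y, -, hy⟩ := not_own hl H'.lt x hx
      have e : cb h h' x = y := by rw [cb, if_neg hx, ← hy, leftInverse_invFun H'.inj]
      simp only [hx, false_and, not_false_eq_true, true_and, false_or, e]
      constructor
      · intro hQ
        obtain ⟨m, f1, f2, f3⟩ := (b4 _ x y le_rfl).1 hy
        exact ⟨m, f1, f2, f3 ▸ hQ⟩
      · rintro ⟨m, f1, f2, f3⟩
        rwa [← H'.inj (((b4 _ x _ le_rfl).2 ⟨m, f1, f2, rfl⟩).trans hy.symm)]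
  refine isACmod_of a1 (fun x => ?_) ?_ ?_
  · by_contra hc
    rcases (h2 (fun z => ¬z.length ≤ ℓ x.length) x).1 hc with ⟨-, e⟩ | ⟨-, m, e1, -, e2⟩
    · exact e (a3 x).le
    · have := a2 x.length
      rw [b3] at e2
      omega
  · refine ((h0.and (ACF.const fun j n => j < ℓ n)).or (h0.not.and ((h1.and
      (ACF.const fun a _ => a.1 < a.2)).ex Pb.id))).of_iff fun j x => ?_
    simpa only [a3, b3] using h2 (fun z => j < z.length) x
  · exact ((h0.and (ACF.bit (fun _ => a5) id)).or (h0.not.and ((h1.and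
      (ACF.bit (c := fun a : ℕ × ℕ => c a.2) (fun a => b2 a.2) Prod.fst)).ex Pb.id))).of_iff fun j x =>
        h2 (fun z => z.getD j false = true) x

theorem iso_of_nice {A B : List Bool → Bool} (H : Nice p h) (H' : Nice p h')
    (hA : ∀ x, A x = B (h x)) (hB : ∀ x, B x = A (h' x)) :
    ∃ φ : List Bool ≃ List Bool, IsACmod p φ ∧ IsACmod p φ.symm ∧ ∀ x, A x = B (φ x) := by
  refine ⟨⟨cb h h', cb h' h, cb_cb H.inj H'.inj H.lt H'.lt, cb_cb H'.inj H.inj H'.lt H.lt⟩,
    isACmod_cb H H', isACmod_cb H' H, fun x => ?_⟩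
  change A x = B (cb h h' x)
  by_cases hx : Own h h' x
  · rw [cb, if_pos hx, hA]
  · obtain ⟨y, -, rfl⟩ := not_own H.lt H'.lt x hx
    rw [cb, if_neg hx, leftInverse_invFun H'.inj, hB]

end Pool.Agent.MP_8a92de_lc.H86

end
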