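import Pool.Agent.MP_8a92de_lc.H92.RS
import Pool.Agent.Lib.Cx.All

-- part MP_8a92de_lc.H92.Enc
section

/-! The masked language and its encoding. -/

namespace Pool.Agent.MP_8a92de_lc.H92

open Pool.Agent.Lib.Cx

def blocks (n u : ℕ) (blk : ℕ → ℕ → Bool) : List Bool :=
  (List.range n).flatMap fun j => (List.range (2 * u)).map (blk j)

def W (n u : ℕ) (xb : ℕ → Bool) (blk : ℕ → ℕ → Bool) : List Bool :=
  List.replicate n true ++ false :: (List.replicate u true ++ false ::
    ((List.range n).map xb ++ blocks (n + 1) u blk))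

def pn (w : List Bool) : ℕ := w.idxOf false
def pu (w : List Bool) : ℕ := pn (w.drop (pn w + 1))
def rest (w : List Bool) : List Bool := (w.drop (pn w + 1)).drop (pu w + 1)
def px (w : List Bool) : List Bool := (rest w).take (pn w)
def wt (w : List Bool) (j : ℕ) : ℕ :=
  (((((rest w).drop (pn w)).drop (2 * pu w * j)).take (2 * pu w)).filter fun b => b).length
def heavy (w : List Bool) : Prop := ∃ j < pn w + 1, pu w < wt w j
def light (w : List Bool) : Prop := ∃ j < pn w + 1, wt w j < pu w

open Classical in
/-- the masked language -/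
noncomputable def mask (A : List Bool → Bool) (w : List Bool) : Bool :=
  if heavy w then true else if light w then false else A (px w)

theorem pn_eq (n : ℕ) (l : List Bool) : pn (List.replicate n true ++ false :: l) = n := by
  induction n with
  | zero => simp [pn]
  | succ n ih => simpa [pn, List.replicate_succ, List.idxOf_cons] using ih

theorem drop_eq (n : ℕ) (l : List Bool) :
    (List.replicate n true ++ false :: l).drop (n + 1) = l := by
  induction n with
  | zero => simp
  | succ n ih => simpa [List.replicate_succ] using ih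

theorem blocks_length (n u : ℕ) (blk : ℕ → ℕ → Bool) : (blocks n u blk).length = 2 * u * n := by
  induction n with
  | zero => simp [blocks]
  | succ n ih =>
    unfold blocks at ih ⊢
    rw [List.range_succ, List.flatMap_append, List.length_append, ih]
    simp [Nat.mul_succ]

theorem blocks_get (n u : ℕ) (blk : ℕ → ℕ → Bool) {j : ℕ} (hj : j < n) :
    ((blocks n u blk).drop (2 * u * j)).take (2 * u) = (List.range (2 * u)).map (blk j) := by
  induction n with
  | zero => omega
  | succ n ih =>
    have e : blocks (n + 1) u blk = blocks n u blk ++ (List.range (2 * u)).map (blk n) := by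
      unfold blocks
      rw [List.range_succ, List.flatMap_append]
      simp
    have hl := blocks_length n u blk
    rw [e]
    rcases Nat.lt_succ_iff_lt_or_eq.1 hj with h | rfl
    · have h1 : 2 * u * j + 2 * u ≤ 2 * u * n := by
        rw [← Nat.mul_succ]; exact Nat.mul_le_mul_left _ h
      rw [List.drop_append_of_le_length (by omega), List.take_append_of_le_length
        (by rw [List.length_drop]; omega)]
      exact ih h
    · rw [← hl, List.drop_left, List.take_of_length_le (by simp)]

variable (n u : ℕ) (xb : ℕ → Bool) (blk : ℕ → ℕ → Bool)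

theorem pn_W : pn (W n u xb blk) = n := pn_eq _ _
theorem pu_W : pu (W n u xb blk) = u := by rw [pu, pn_W, W, drop_eq, pn_eq]
theorem rest_W : rest (W n u xb blk) = (List.range n).map xb ++ blocks (n + 1) u blk := by
  rw [rest, pu_W, pn_W, W, drop_eq, drop_eq]
theorem px_W : px (W n u xb blk) = (List.range n).map xb := by
  rw [px, rest_W, pn_W, List.take_left' (by simp)]
theorem wt_W {j : ℕ} (hj : j < n + 1) :
    wt (W n u xb blk) j = (((List.range (2 * u)).map (blk j)).filter fun b => b).length := by
  rw [wt, rest_W, pn_W, pu_W, List.drop_left' (by simp), blocks_get _ _ _ hj]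
theorem W_length : (W n u xb blk).length = 2 * n + 2 + u + 2 * u * (n + 1) := by
  simp [W, blocks_length]; omega

/-- every position of the list is a constant, a bit of `x` or a bit of a block -/
def Simp (F : (ℕ → Bool) → (ℕ → ℕ → Bool) → List Bool) : Prop :=
  (∃ L, ∀ xb blk, (F xb blk).length = L) ∧ ∀ i,
    (∃ b, ∀ xb blk, (F xb blk).getD i false = b) ∨
    (∃ k, ∀ xb blk, (F xb blk).getD i false = xb k) ∨
    (∃ j k, ∀ xb blk, (F xb blk).getD i false = blk j k)

theorem Simp.const (l : List Bool) : Simp fun _ _ => l :=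
  ⟨⟨_, fun _ _ => rfl⟩, fun _ => Or.inl ⟨_, fun _ _ => rfl⟩⟩

theorem Simp.append {F G : (ℕ → Bool) → (ℕ → ℕ → Bool) → List Bool} (hF : Simp F) (hG : Simp G) :
    Simp fun xb blk => F xb blk ++ G xb blk := by
  obtain ⟨⟨L, hL⟩, h1⟩ := hF
  obtain ⟨⟨M, hM⟩, h2⟩ := hG
  refine ⟨⟨L + M, fun xb blk => by simp [hL, hM]⟩, fun i => ?_⟩
  by_cases hi : i < L
  · have e : ∀ xb blk, (F xb blk ++ G xb blk).getD i false = (F xb blk).getD i false :=
      fun xb blk => List.getD_append _ _ _ _ (by rw [hL]; exact hi)
    simpa only [e] using h1 i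
  · have e : ∀ xb blk, (F xb blk ++ G xb blk).getD i false = (G xb blk).getD (i - L) false :=
      fun xb blk => by rw [List.getD_append_right _ _ _ _ (by rw [hL]; omega), hL]
    simpa only [e] using h2 (i - L)

theorem getD_range_map (n : ℕ) (g : ℕ → Bool) (i : ℕ) :
    ((List.range n).map g).getD i false = if i < n then g i else false := by
  by_cases h : i < n
  · simp [List.getD_eq_getElem?_getD, h]
  · simp [List.getD_eq_getElem?_getD, h]

theorem simp_W (n u : ℕ) : Simp (W n u) := by
  have hx : Simp fun xb _ => (List.range n).map xb := by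
    refine ⟨⟨n, by simp⟩, fun i => ?_⟩
    simp only [getD_range_map]
    by_cases h : i < n
    · exact Or.inr (Or.inl ⟨i, by simp [h]⟩)
    · exact Or.inl ⟨false, by simp [h]⟩
  have hb : ∀ j, Simp fun _ blk => (List.range (2 * u)).map (blk j) := by
    intro j
    refine ⟨⟨2 * u, by simp⟩, fun i => ?_⟩
    simp only [getD_range_map]
    by_cases h : i < 2 * u
    · exact Or.inr (Or.inr ⟨j, i, by simp [h]⟩)
    · exact Or.inl ⟨false, by simp [h]⟩
  have hB : ∀ k, Simp fun _ blk => blocks k u blk := by
    intro k
    induction k with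
    | zero => exact Simp.const []
    | succ k ih =>
      have := ih.append (hb k)
      unfold blocks at this ⊢
      simpa only [List.range_succ, List.flatMap_append, List.flatMap_singleton] using this
  exact (Simp.const (List.replicate n true)).append ((Simp.const [false]).append
    ((Simp.const (List.replicate u true)).append ((Simp.const [false]).append (hx.append (hB _)))))

@[fun_prop] theorem pn_pt {α : Type} [Enc α] {f : α → List Bool} (hf : PT f) :
    PT fun x => pn (f x) := by unfold pn; fun_prop

theorem pn_le (w : List Bool) : pn w ≤ w.length := List.idxOf_le_length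

@[fun_prop] theorem pu_pt {α : Type} [Enc α] {f : α → List Bool} (hf : PT f) :
    PT fun x => pu (f x) := by unfold pu; fun_prop

@[fun_prop] theorem rest_pt {α : Type} [Enc α] {f : α → List Bool} (hf : PT f) :
    PT fun x => rest (f x) := by unfold rest; fun_prop

@[fun_prop] theorem px_pt {α : Type} [Enc α] {f : α → List Bool} (hf : PT f) :
    PT fun x => px (f x) := by unfold px; fun_prop

@[fun_prop] theorem wt_pt {α : Type} [Enc α] {f : α → List Bool} {g : α → ℕ} (hf : PT f)
    (hg : PT g) : PT fun x => wt (f x) (g x) := by unfold wt; fun_prop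

theorem heavy_pp : PP heavy := by
  have h : PP fun w : List Bool => ∃ j < w.length + 1, j < pn w + 1 ∧ pu w < wt w j := by fun_prop
  refine h.of_iff fun w => ⟨fun ⟨j, h1, h2⟩ => ⟨j, ?_, h1, h2⟩, fun ⟨j, _, h⟩ => ⟨j, h⟩⟩
  have := pn_le w
  omega

theorem light_pp : PP light := by
  have h : PP fun w : List Bool => ∃ j < w.length + 1, j < pn w + 1 ∧ wt w j < pu w := by fun_prop
  refine h.of_iff fun w => ⟨fun ⟨j, h1, h2⟩ => ⟨j, ?_, h1, h2⟩, fun ⟨j, _, h⟩ => ⟨j, h⟩⟩
  have := pn_le w
  omega

open N793a5b8e in
theorem mask_mem {C : Set (List Bool → Bool)}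
    (hC : ∀ A B, ManyOneReducible A B → B ∈ C → A ∈ C)
    (h0 : ∃ L ∈ C, (∃ x, L x = true) ∧ ∃ x, L x = false) {A : List Bool → Bool} (hA : A ∈ C) :
    mask A ∈ C := by
  classical
  have hh := heavy_pp
  have hl := light_pp
  by_cases h : (∃ x, A x = true) ∧ ∃ x, A x = false
  · obtain ⟨⟨a1, h1⟩, a0, h2⟩ := h
    refine hC _ _ ⟨fun w => if heavy w then a1 else if light w then a0 else px w,
      pt_iff_isPolyTime.1 (by fun_prop), fun w => ?_⟩ hA
    unfold mask
    by_cases c1 : heavy w <;> by_cases c2 : light w <;> simp [c1, c2, h1, h2]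
  · obtain ⟨L, hL, ⟨a1, h1⟩, a0, h2⟩ := h0
    have hc : ∀ x, A x = A [] := by
      intro x
      by_contra hc
      cases e1 : A x <;> cases e2 : A []
      · exact hc (e1.trans e2.symm)
      · exact h ⟨⟨_, e2⟩, _, e1⟩
      · exact h ⟨⟨_, e1⟩, _, e2⟩
      · exact hc (e1.trans e2.symm)
    refine hC _ _ ⟨fun w => if heavy w then a1 else if light w then a0 else
      (if A [] = true then a1 else a0), pt_iff_isPolyTime.1 (by fun_prop), fun w => ?_⟩ hL
    unfold mask
    rw [hc]
    by_cases c1 : heavy w <;> by_cases c2 : light w <;> cases e : A [] <;> simp [c1, c2, h1, h2]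

end Pool.Agent.MP_8a92de_lc.H92

end

-- part MP_8a92de_lc.H92.Fibre
section

/-! Formulas for fibres and the counting lemma. -/

namespace Pool.Agent.MP_8a92de_lc.H92

open Finset

def Fm.subst (σ : ℕ → Fm) : Fm → Fm
  | .var i => σ i
  | .neg c => .neg (c.subst σ)
  | .conj k c => .conj k fun i => (c i).subst σ
  | .disj k c => .disj k fun i => (c i).subst σ
  | .modp k c => .modp k fun i => (c i).subst σ

theorem Fm.eval_subst (p : ℕ) (a : ℕ → Bool) (σ : ℕ → Fm) (φ : Fm) :
    (φ.subst σ).eval p a = φ.eval p fun i => (σ i).eval p a := by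
  induction φ with
  | var i => rfl
  | neg c ih => simp [Fm.subst, Fm.eval, ih]
  | conj k c ih => simp [Fm.subst, Fm.eval, ih]
  | disj k c ih => simp [Fm.subst, Fm.eval, ih]
  | modp k c ih => simp only [Fm.subst, Fm.eval, ih]

theorem Fm.size_subst {σ : ℕ → Fm} (h : ∀ i, (σ i).size ≤ 2) (φ : Fm) :
    (φ.subst σ).size ≤ 2 * φ.size := by
  have key : ∀ (k : ℕ) (c : Fin k → Fm), (∀ i, ((c i).subst σ).size ≤ 2 * (c i).size) →
      (∑ i, ((c i).subst σ).size) + 1 ≤ 2 * ((∑ i, (c i).size) + 1) := by
    intro k c ih
    have := Finset.sum_le_sum fun i (_ : i ∈ univ) => ih i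
    rw [← Finset.mul_sum] at this
    omega
  induction φ with
  | var i => exact h i
  | neg c ih => simp only [Fm.subst, Fm.size]; omega
  | conj k c ih => exact key k c ih
  | disj k c ih => exact key k c ih
  | modp k c ih => exact key k c ih

theorem Fm.depth_subst {σ : ℕ → Fm} (h : ∀ i, (σ i).depth ≤ 1) (φ : Fm) :
    (φ.subst σ).depth ≤ φ.depth + 1 := by
  have key : ∀ (k : ℕ) (c : Fin k → Fm), (∀ i, ((c i).subst σ).depth ≤ (c i).depth + 1) →
      (univ.sup fun i => ((c i).subst σ).depth) + 1 ≤ (univ.sup fun i => (c i).depth) + 1 + 1 := by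
    intro k c ih
    refine Nat.succ_le_succ (Finset.sup_le fun i _ => (ih i).trans (Nat.succ_le_succ ?_))
    exact le_sup (f := fun i => (c i).depth) (mem_univ i)
  induction φ with
  | var i => exact h i
  | neg c ih => simp only [Fm.subst, Fm.depth]; omega
  | conj k c ih => exact key k c ih
  | disj k c ih => exact key k c ih
  | modp k c ih => exact key k c ih

/-- the formula with value `b1` if variable `j` is true and `b0` otherwise -/
def lit (j : ℕ) : Bool → Bool → Fm
  | false, false => .disj 0 Fin.elim0
  | false, true => .var j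
  | true, false => .neg (.var j)
  | true, true => .conj 0 Fin.elim0

theorem lit_spec (p j : ℕ) (b0 b1 : Bool) : (lit j b0 b1).size ≤ 2 ∧ (lit j b0 b1).depth ≤ 1 ∧
    ∀ a, (lit j b0 b1).eval p a = if a j = true then b1 else b0 := by
  cases b0 <;> cases b1 <;> simp [lit, Fm.size, Fm.depth, Fm.eval]

/-- a formula for the fibre over `z` -/
def eqFm (len bit : ℕ → Fm) (z : List Bool) : Fm :=
  .conj (z.length + 1) fun i =>
    if i.1 < z.length then
      .conj 2 ![len i.1, if z.getD i.1 false = true then bit i.1 else .neg (bit i.1)]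
    else .neg (len z.length)

theorem eqFm_eval {p : ℕ} {len bit : ℕ → Fm} {a : ℕ → Bool} {y : List Bool}
    (h : ∀ j, (len j).eval p a = decide (j < y.length) ∧ (bit j).eval p a = y.getD j false)
    (z : List Bool) : (eqFm len bit z).eval p a = true ↔ y = z := by
  have h1 : ∀ j, (if z.getD j false = true then bit j else Fm.neg (bit j)).eval p a = true ↔
      y.getD j false = z.getD j false := by
    intro j
    cases hz : z.getD j false <;> simp [Fm.eval, (h j).2]
  simp only [eqFm, Fm.eval, decide_eq_true_eq]
  constructor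
  · intro H
    have H1 : ∀ j, j < z.length → j < y.length ∧ y.getD j false = z.getD j false := by
      intro j hj
      have := H ⟨j, by omega⟩
      simp only [hj, if_true, Fm.eval, decide_eq_true_eq, Fin.forall_fin_two,
        Matrix.cons_val_zero, Matrix.cons_val_one, (h j).1, h1] at this
      exact this
    have H2 := H ⟨z.length, by omega⟩
    simp only [lt_irrefl, if_false, Fm.eval, (h _).1] at H2
    have H3 : y.length = z.length := by
      have a1 : ¬ z.length < y.length := by simpa using H2
      by_contra hc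
      have := (H1 y.length (by omega)).1
      omega
    refine List.ext_getElem H3 fun j h1 h2 => ?_
    have := (H1 j h2).2
    simpa [List.getD_eq_getElem?_getD, h1, h2] using this
  · rintro rfl i
    by_cases hi : i.1 < y.length
    · simp only [hi, if_true, Fm.eval, decide_eq_true_eq, Fin.forall_fin_two,
        Matrix.cons_val_zero, Matrix.cons_val_one, (h _).1, h1]
      trivial
    · simp [hi, Fm.eval, (h _).1]

theorem eqFm_bounds {d Q : ℕ} {len bit : ℕ → Fm}
    (h : ∀ j, (len j).depth ≤ d ∧ (len j).size ≤ Q ∧ (bit j).depth ≤ d ∧ (bit j).size ≤ Q)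
    {z : List Bool} (hz : z.length ≤ Q) :
    (eqFm len bit z).depth ≤ d + 3 ∧ (eqFm len bit z).size ≤ (Q + 1) * (2 * Q + 2) + 1 := by
  constructor
  · refine Nat.succ_le_succ (Finset.sup_le fun i _ => ?_)
    have := h i.1
    have := h z.length
    beta_reduce
    split_ifs
    · refine Nat.succ_le_succ (Finset.sup_le fun k _ => ?_)
      fin_cases k <;> simp <;> omega
    · refine Nat.succ_le_succ (Finset.sup_le fun k _ => ?_)
      fin_cases k <;> simp [Fm.depth] <;> omega
    · simp only [Fm.depth]; omega
  · refine Nat.succ_le_succ ((Finset.sum_le_card_nsmul _ _ (2 * Q + 2) fun i _ => ?_).trans ?_)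
    · have := h i.1
      have := h z.length
      beta_reduce
      split_ifs <;> simp [Fm.size, Fin.sum_univ_two] <;> omega
    · simp only [card_univ, Fintype.card_fin, smul_eq_mul]
      exact Nat.mul_le_mul_right _ (by omega)

def bitOf {m : ℕ} (t : Finset (Fin m)) (k : ℕ) : Bool :=
  if h : k < m then decide ((⟨k, h⟩ : Fin m) ∈ t) else false

theorem count_bitOf {m : ℕ} (t : Finset (Fin m)) :
    (((List.range m).map (bitOf t)).filter fun b => b).length = t.card := by
  rw [List.filter_map, List.length_map, ← List.toFinset_card_of_nodup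
    ((List.nodup_range).filter _), ← card_map Fin.valEmbedding]
  congr 1
  ext k
  simp only [List.mem_toFinset, List.mem_filter, List.mem_range, Function.comp, bitOf, mem_map,
    Fin.valEmbedding_apply]
  constructor
  · rintro ⟨h1, h2⟩
    exact ⟨⟨k, h1⟩, by simpa [h1] using h2, rfl⟩
  · rintro ⟨a, ha, rfl⟩
    exact ⟨a.2, by simpa using ha⟩

theorem approx_const {p m l : ℕ} [Fact p.Prime] (b : Bool) :
    Approx p l 1 0 fun _ : Finset (Fin m) => b := by
  cases b
  · exact ⟨0, zero_mem _, ∅, by simp, by simp⟩
  · exact ⟨1, Deg.one _, ∅, by simp, by simp⟩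

theorem approx_bit {p m l : ℕ} [Fact p.Prime] (k : ℕ) :
    Approx p l 1 0 fun t : Finset (Fin m) => bitOf t k := by
  by_cases h : k < m
  · exact ⟨mono _ {⟨k, h⟩}, mono_mem (by simp), ∅, by simp, fun T _ => by simp [mono, bitOf, h]⟩
  · simpa [bitOf, h] using approx_const (p := p) (m := m) (l := l) false

theorem mask_W {n u : ℕ} (xb : ℕ → Bool) (b : ℕ → Finset (Fin (2 * u))) :
    (heavy (W n u xb fun j => bitOf (b j)) ↔ ∃ j < n + 1, u < (b j).card) ∧
    (light (W n u xb fun j => bitOf (b j)) ↔ ∃ j < n + 1, (b j).card < u) := by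
  unfold heavy light
  rw [pn_W, pu_W]
  constructor <;> refine exists_congr fun j => and_congr_right fun hj => ?_ <;>
    rw [wt_W _ _ _ _ hj, count_bitOf]

theorem fibre_small {p d Q l n u : ℕ} [Fact p.Prime] {A B : List Bool → Bool}
    {f : List Bool → List Bool} (hred : ∀ w, mask A w = B (f w)) {len bit : ℕ → Fm}
    (h : ∀ j, (len j).depth ≤ d ∧ (len j).size ≤ Q ∧ (bit j).depth ≤ d ∧ (bit j).size ≤ Q)
    (hf : ∀ w : List Bool, w.length = 2 * n + 2 + u + 2 * u * (n + 1) → (f w).length ≤ Q ∧ ∀ j,
      (len j).eval p (fun i => w.getD i false) = decide (j < (f w).length) ∧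
      (bit j).eval p (fun i => w.getD i false) = (f w).getD j false)
    (hl : 1 ≤ l) (hD : (4 * (l * p) ^ (d + 3) + 2) ^ 2 ≤ 2 * u + 1)
    (xb : ℕ → Bool) (b : ℕ → Finset (Fin (2 * u))) (hb : ∀ j < n + 1, (b j).card = u)
    {j0 : ℕ} (hj0 : j0 < n + 1) (z : List Bool) :
    (univ.filter fun t => f (W n u xb fun j => bitOf (Function.update b j0 t j)) = z).card * 2 ^ l
      ≤ 4 * ((Q + 1) * (2 * Q + 2) + 1) * 4 ^ u := by
  have hp : 1 < p := (Fact.out : p.Prime).one_lt
  by_cases hz : z.length ≤ Q
  swap
  · rw [filter_eq_empty_iff.2]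
    · simp
    · intro t _ ht
      exact hz (ht ▸ (hf _ (W_length _ _ _ _)).1)
  have hσ : ∀ i, Approx p l 1 0 fun t : Finset (Fin (2 * u)) =>
      (W n u xb fun j => bitOf (Function.update b j0 t j)).getD i false := by
    intro i
    rcases (simp_W n u).2 i with ⟨c, hc⟩ | ⟨k, hk⟩ | ⟨j, k, hk⟩
    · simpa only [hc] using approx_const c
    · simpa only [hk] using approx_const (xb k)
    · simp only [hk]
      by_cases e : j = j0
      · subst e
        simpa using approx_bit k
      · simpa [Function.update_of_ne e] using approx_const (bitOf (b j) k)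
  obtain ⟨b1, b2⟩ := eqFm_bounds h hz
  have ha := (approx_fm hl _ hσ (eqFm len bit z)).mono
    (Nat.pow_le_pow_right (Nat.mul_pos hl (by omega)) b1) b2
  have he : ∀ t : Finset (Fin (2 * u)), (eqFm len bit z).eval p (fun i =>
      (W n u xb fun j => bitOf (Function.update b j0 t j)).getD i false) = true ↔
      f (W n u xb fun j => bitOf (Function.update b j0 t j)) = z :=
    fun t => eqFm_eval (hf _ (W_length _ _ _ _)).2 z
  have := small_of_approx ha hD ?_
  · simpa only [he] using this
  · simp only [he]
    cases hB : B z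
    · right
      intro t ht
      by_contra hc
      have h1 := hred (W n u xb fun j => bitOf (Function.update b j0 t j))
      rw [ht, hB, mask, if_pos ((mask_W xb _).1.2 ⟨j0, hj0, by simpa using hc⟩)] at h1
      exact Bool.noConfusion h1
    · left
      intro t ht
      by_contra hc
      have h1 := hred (W n u xb fun j => bitOf (Function.update b j0 t j))
      rw [ht, hB, mask, if_neg, if_pos ((mask_W xb _).2.2 ⟨j0, hj0, by simpa using hc⟩)] at h1
      · exact Bool.noConfusion h1
      · rw [(mask_W xb _).1]
        rintro ⟨j, hj, hlt⟩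
        by_cases e : j = j0
        · subst e
          simp at hlt; omega
        · rw [Function.update_of_ne e, hb j hj] at hlt
          exact lt_irrefl _ hlt

theorem exists_good {ι T J : Type} [Fintype ι] [DecidableEq ι] [Fintype T] [Nonempty T]
    (E : Finset J) (bad : J → (ι → T) → Prop) [∀ e, DecidablePred (bad e)] (c M : ℕ)
    (h : ∀ e ∈ E, ∃ i, ∀ ω, (univ.filter fun t => bad e (Function.update ω i t)).card * c ≤ M)
    (hlt : E.card * M < Fintype.card T * c) : ∃ ω, ∀ e ∈ E, ¬ bad e ω := by
  classical
  by_contra hc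
  push Not at hc
  have h1 : ∀ e ∈ E, (univ.filter (bad e)).card * (Fintype.card T * c) ≤
      Fintype.card (ι → T) * M := by
    intro e he
    obtain ⟨i, hi⟩ := h e he
    have h2 : ∑ ω : ι → T, (univ.filter fun t => bad e (Function.update ω i t)).card =
        (univ.filter (bad e)).card * Fintype.card T := by
      simp only [card_filter]
      rw [← Fintype.sum_prod_type', Finset.sum_mul]
      have : ∀ ω : ι → T, (if bad e ω then 1 else 0) * Fintype.card T =
          ∑ _t : T, if bad e ω then 1 else 0 := fun ω => by simp [mul_comm]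
      simp only [this]
      rw [← Fintype.sum_prod_type']
      refine Finset.sum_bijective (fun z => (Function.update z.1 i z.2, z.1 i)) ?_ (by simp)
        (by simp)
      exact Function.Involutive.bijective fun z => by simp
    rw [← mul_assoc, ← h2, Finset.sum_mul]
    exact (Finset.sum_le_card_nsmul _ _ M fun ω _ => hi ω).trans (by simp)
  have h3 : Fintype.card (ι → T) ≤ ∑ e ∈ E, (univ.filter (bad e)).card := by
    refine le_trans (card_le_card ?_) (card_biUnion_le (s := E) (t := fun e => univ.filter (bad e)))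
    intro ω _
    obtain ⟨e, he, hb⟩ := hc ω
    exact mem_biUnion.2 ⟨e, he, mem_filter.2 ⟨mem_univ _, hb⟩⟩
  have h4 := Finset.sum_le_card_nsmul _ _ _ h1
  rw [← Finset.sum_mul, smul_eq_mul] at h4
  have h5 : 0 < Fintype.card (ι → T) := Fintype.card_pos
  have h6 : Fintype.card (ι → T) * (Fintype.card T * c) ≤ Fintype.card (ι → T) * (E.card * M) := by
    calc _ ≤ _ := Nat.mul_le_mul_right _ h3
      _ ≤ _ := h4
      _ = _ := by ring
  have := Nat.le_of_mul_le_mul_left h6 h5
  omega

end Pool.Agent.MP_8a92de_lc.H92

end
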