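import Pool.Agent.MP_8a92de_lc.Mg.H92_Fibre
import Pool.Agent.MP_8a92de_lc.H92.Params

/-! Hard sets under `AC⁰[p]` reductions are hard under one-one length-increasing ones. -/

namespace Pool.Agent.MP_8a92de_lc.H92

open Finset

/-- blocks chosen from the advice by the bits of `x` -/
def blkx {n u : ℕ} (ω : Fin (n + 1) × Bool → {t : Finset (Fin (2 * u)) // t.card = u})
    (a : ℕ → Bool) (j : ℕ) : Finset (Fin (2 * u)) :=
  if h : j < n + 1 then (ω (⟨j, h⟩, a j)).1 else ∅

theorem step {p : ℕ} [Fact p.Prime] {A B : List Bool → Bool} {f : List Bool → List Bool}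
    (hf : IsACmod p f) (hred : ∀ w, mask A w = B (f w)) :
    ∃ (d : ℕ) (q : Polynomial ℕ), ∀ (n : ℕ) (Z : Finset (List Bool)), Z.card ≤ 3 * 2 ^ n →
      ∃ g : List Bool → List Bool, (∃ len bit : ℕ → Fm,
        (∀ j, (len j).depth ≤ d ∧ (len j).size ≤ q.eval n ∧
          (bit j).depth ≤ d ∧ (bit j).size ≤ q.eval n) ∧
        ∀ x : List Bool, x.length = n → (g x).length ≤ q.eval n ∧ ∀ j,
          (len j).eval p (fun i => x.getD i false) = decide (j < (g x).length) ∧
          (bit j).eval p (fun i => x.getD i false) = (g x).getD j false) ∧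
      (∀ x, x.length = n → g x ∉ Z ∧ A x = B (g x)) ∧
      ∀ x y, x.length = n → y.length = n → g x = g y → x = y := by
  classical
  obtain ⟨d, q, hf⟩ := hf
  obtain ⟨n0, e, hpar⟩ := params p (d + 3) (Fact.out : p.Prime).pos q
  set U : Polynomial ℕ := (Polynomial.X + Polynomial.C n0) ^ e with hU
  refine ⟨d + 1, 2 * q.comp (2 * Polynomial.X + 2 + U + 2 * U * (Polynomial.X + 1)),
    fun n Z hZ => ?_⟩
  obtain ⟨u, hu⟩ : ∃ u, u = (n + n0) ^ e := ⟨_, rfl⟩
  obtain ⟨Q, hQ⟩ : ∃ Q, Q = q.eval (2 * n + 2 + u + 2 * u * (n + 1)) := ⟨_, rfl⟩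
  have hq : (2 * q.comp (2 * Polynomial.X + 2 + U + 2 * U * (Polynomial.X + 1))).eval n =
      2 * Q := by
    simp [hU, Polynomial.eval_comp, hQ, hu]
  rw [hq]
  obtain ⟨l, hl, hD, hlt⟩ := hpar n u Q hu hQ
  obtain ⟨len, bit, hb, hf⟩ := hf (2 * n + 2 + u + 2 * u * (n + 1))
  rw [← hQ] at hb hf
  set T := {t : Finset (Fin (2 * u)) // t.card = u}
  have hT : Fintype.card T = (2 * u).choose u := by
    simp [T, Fintype.card_subtype]
  have hT4 : 4 ^ u ≤ (2 * u + 1) * Fintype.card T := by
    rw [hT]; exact Nat.four_pow_le_two_mul_add_one_mul_central_binom u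
  have hT0 : 0 < Fintype.card T := by rw [hT]; exact Nat.choose_pos (by omega)
  have : Nonempty T := Fintype.card_pos_iff.1 hT0
  set F : (Fin (n + 1) × Bool → T) → List Bool → List Bool := fun ω x =>
    f (W n u (fun i => x.getD i false) fun j => bitOf (blkx ω (fun i => x.getD i false) j)) with hF
  have hbal : ∀ (ω : Fin (n + 1) × Bool → T) a, ∀ j < n + 1, (blkx ω a j).card = u :=
    fun ω a j hj => by simp only [blkx, hj, dif_pos]; exact (ω _).2
  have hslice : ∀ (x : List Bool) (j : Fin (n + 1)) ω z,
      (univ.filter fun t => F (Function.update ω (j, x.getD j false) t) x = z).card * 2 ^ l ≤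
        4 * ((Q + 1) * (2 * Q + 2) + 1) * 4 ^ u := by
    intro x j ω z
    refine le_trans (Nat.mul_le_mul_right _ ?_) (fibre_small hred hb hf hl hD
      (fun i => x.getD i false) (blkx ω fun i => x.getD i false) (hbal ω _) j.2 z)
    refine card_le_card_of_injOn Subtype.val ?_ Subtype.val_injective.injOn
    intro t ht
    simp only [coe_filter, mem_univ, true_and, Set.mem_ofPred_eq, hF] at ht ⊢
    have : blkx (Function.update ω (j, x.getD j false) t) (fun i => x.getD i false) =
        Function.update (blkx ω fun i => x.getD i false) j t.1 := by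
      ext1 k
      by_cases hk : k = j
      · subst hk
        simp [blkx, j.2]
      · rw [Function.update_of_ne hk]
        unfold blkx
        split_ifs with h
        · rw [Function.update_of_ne]
          intro h'
          exact hk (congrArg (fun z => z.1.1) h')
        · rfl
    rw [← this]
    exact ht
  have hex := exists_good
    ((strs n ×ˢ Z).disjSum ((strs n ×ˢ strs n).filter fun z => z.1 ≠ z.2))
    (fun e (ω : Fin (n + 1) × Bool → T) =>
      Sum.elim (fun z => F ω z.1 = z.2) (fun z => F ω z.1 = F ω z.2) e) (2 ^ l)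
    (4 * ((Q + 1) * (2 * Q + 2) + 1) * 4 ^ u) ?_ ?_
  · obtain ⟨ω, hω⟩ := hex
    refine ⟨F ω, ?_, fun x hx => ⟨fun hz => ?_, ?_⟩, fun x y hx hy hxy => ?_⟩
    · have hσ : ∀ i, ∃ s : Fm, s.size ≤ 2 ∧ s.depth ≤ 1 ∧ ∀ a : ℕ → Bool, s.eval p a =
          (W n u a fun j => bitOf (blkx ω a j)).getD i false := by
        intro i
        rcases (simp_W n u).2 i with ⟨c, hc⟩ | ⟨k, hk⟩ | ⟨j, k, hk⟩
        · obtain ⟨h1, h2, h3⟩ := lit_spec p 0 c c
          exact ⟨_, h1, h2, fun a => by rw [h3, hc]; simp⟩
        · exact ⟨.var k, by simp [Fm.size], by simp [Fm.depth], fun a => by rw [hk]; rfl⟩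
        · obtain ⟨h1, h2, h3⟩ := lit_spec p j (bitOf (blkx ω (fun _ => false) j) k)
            (bitOf (blkx ω (fun _ => true) j) k)
          refine ⟨_, h1, h2, fun a => ?_⟩
          rw [h3, hk]
          cases ha : a j <;> simp [blkx, ha]
      choose σ h1 h2 h3 using hσ
      refine ⟨fun j => (len j).subst σ, fun j => (bit j).subst σ, fun j => ?_, fun x hx => ?_⟩
      · have := hb j
        have := Fm.size_subst h1 (len j)
        have := Fm.size_subst h1 (bit j)
        have := Fm.depth_subst h2 (len j)
        have := Fm.depth_subst h2 (bit j)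
        beta_reduce
        omega
      · obtain ⟨a1, a2⟩ := hf _ (W_length n u (fun i => x.getD i false)
          fun j => bitOf (blkx ω (fun i => x.getD i false) j))
        refine ⟨le_trans a1 (by omega), fun j => ?_⟩
        simp only [Fm.eval_subst, h3]
        exact a2 j
    · exact hω (Sum.inl (x, F ω x)) (by simp [mem_strs, hx, hz]) rfl
    · rw [hF]
      simp only
      rw [← hred, mask, if_neg, if_neg, px_W]
      · congr 1
        refine List.ext_getElem (by simp [hx]) fun j h1 h2 => ?_
        simp [List.getD_eq_getElem?_getD, h1]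
      · rw [(mask_W _ _).2]
        rintro ⟨j, hj, h⟩
        rw [hbal _ _ j hj] at h
        exact lt_irrefl _ h
      · rw [(mask_W _ _).1]
        rintro ⟨j, hj, h⟩
        rw [hbal _ _ j hj] at h
        exact lt_irrefl _ h
    · by_contra hne
      exact hω (Sum.inr (x, y)) (by simp [mem_strs, hx, hy, hne]) hxy
  · rintro (⟨x, z⟩ | ⟨x, y⟩) he
    · refine ⟨(0, x.getD 0 false), fun ω => ?_⟩
      simp only [Sum.elim_inl]
      exact hslice x 0 ω z
    · simp only [inr_mem_disjSum, mem_filter, mem_product, mem_strs] at he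
      obtain ⟨⟨hx, hy⟩, hne⟩ := he
      obtain ⟨j, hj, hd⟩ : ∃ j < n, x.getD j false ≠ y.getD j false := by
        by_contra hc
        push Not at hc
        refine hne (List.ext_getElem (by omega) fun j h1 h2 => ?_)
        have := hc j (by omega)
        simpa [List.getD_eq_getElem?_getD, h1, h2] using this
      refine ⟨(⟨j, by omega⟩, x.getD j false), fun ω => ?_⟩
      have e : ∀ t, F (Function.update ω (⟨j, by omega⟩, x.getD j false) t) y = F ω y := by
        intro t
        have : blkx (Function.update ω (⟨j, by omega⟩, x.getD j false) t)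
            (fun i => y.getD i false) = blkx ω fun i => y.getD i false := by
          ext1 k
          unfold blkx
          split_ifs with h
          · rw [Function.update_of_ne]
            intro h'
            have h1 : k = j := congrArg (fun z => z.1.1) h'
            subst h1
            exact hd (congrArg Prod.snd h').symm
          · rfl
        simp only [hF, this]
      simp only [Sum.elim_inr, e]
      exact hslice x ⟨j, by omega⟩ ω _
  · have c1 : ((strs n ×ˢ Z).disjSum ((strs n ×ˢ strs n).filter fun z => z.1 ≠ z.2)).card ≤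
        2 ^ n * (3 * 2 ^ n) + 2 ^ n * 2 ^ n := by
      rw [card_disjSum, card_product]
      refine Nat.add_le_add (Nat.mul_le_mul (card_strs n) hZ) ((card_filter_le _ _).trans ?_)
      rw [card_product]
      exact Nat.mul_le_mul (card_strs n) (card_strs n)
    calc _ ≤ (2 ^ n * (3 * 2 ^ n) + 2 ^ n * 2 ^ n) *
          (4 * ((Q + 1) * (2 * Q + 2) + 1) * ((2 * u + 1) * Fintype.card T)) :=
          Nat.mul_le_mul c1 (Nat.mul_le_mul_left _ hT4)
      _ = Fintype.card T * ((2 ^ n * (3 * 2 ^ n) + 2 ^ n * 2 ^ n) *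
          (4 * ((Q + 1) * (2 * Q + 2) + 1) * (2 * u + 1))) := by ring
      _ < _ := Nat.mul_lt_mul_of_pos_left hlt hT0

theorem one_li {p : ℕ} [Fact p.Prime] {A B : List Bool → Bool} {f : List Bool → List Bool}
    (hf : IsACmod p f) (hred : ∀ w, mask A w = B (f w)) :
    ∃ g, IsACmod p g ∧ Function.Injective g ∧ (∀ x, x.length < (g x).length) ∧
      ∀ x, A x = B (g x) := by
  classical
  obtain ⟨d, q, h⟩ := step hf hred
  choose! G hG using h
  let S : ℕ → Finset (List Bool) := fun n => (range (n + 1)).biUnion strs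
  have hS : ∀ n, (S n).card ≤ 2 * 2 ^ n := by
    intro n
    refine card_biUnion_le.trans ((Finset.sum_le_sum fun i _ => card_strs i).trans ?_)
    have := Nat.geomSum_lt (m := 2) le_rfl (s := range (n + 1)) (n := n + 1) (by simp)
    rw [pow_succ] at this
    omega
  let Z : ℕ → Finset (List Bool) := fun n =>
    Nat.rec ∅ (fun k Y => Y ∪ (strs k).image (G k (Y ∪ S k))) n
  have hZs : ∀ n, Z (n + 1) = Z n ∪ (strs n).image (G n (Z n ∪ S n)) := fun n => rfl
  have hZ : ∀ n, (Z n).card ≤ 2 ^ n := by
    intro n
    induction n with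
    | zero => simp [Z]
    | succ n ih =>
      rw [hZs, pow_succ]
      have := card_union_le (Z n) ((strs n).image (G n (Z n ∪ S n)))
      have := card_image_le (s := strs n) (f := G n (Z n ∪ S n))
      have := card_strs n
      omega
  have hG' := fun n => hG n (Z n ∪ S n) (by
    have := card_union_le (Z n) (S n)
    have := hZ n
    have := hS n
    omega)
  have hmono : Monotone Z := monotone_nat_of_le_succ fun n => by
    rw [hZs]; exact subset_union_left
  have hlt : ∀ x y : List Bool, x.length < y.length →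
      G x.length (Z x.length ∪ S x.length) x ≠ G y.length (Z y.length ∪ S y.length) y := by
    intro x y hxy he
    refine ((hG' y.length).2.1 y rfl).1 (mem_union_left _ (hmono (Nat.succ_le_of_lt hxy) ?_))
    rw [hZs, ← he]
    exact mem_union_right _ (mem_image_of_mem _ (mem_strs.2 rfl))
  refine ⟨fun x => G x.length (Z x.length ∪ S x.length) x, ⟨d, q, fun n => ?_⟩, ?_, ?_, ?_⟩
  · obtain ⟨len, bit, h1, h2⟩ := (hG' n).1
    refine ⟨len, bit, h1, fun x hx => ?_⟩
    simp only [hx]
    exact h2 x hx
  · intro x y hxy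
    rcases lt_trichotomy x.length y.length with h | h | h
    · exact absurd hxy (hlt x y h)
    · simp only [h] at hxy
      exact (hG' y.length).2.2 x y h rfl hxy
    · exact absurd hxy.symm (hlt y x h)
  · intro x
    by_contra hc
    beta_reduce at hc
    refine ((hG' x.length).2.1 x rfl).1 (mem_union_right _ ?_)
    exact mem_biUnion.2 ⟨_, mem_range.2 (by omega), mem_strs.2 rfl⟩
  · exact fun x => ((hG' x.length).2.1 x rfl).2

end Pool.Agent.MP_8a92de_lc.H92
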